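import Pool.Agent.P.MP_0ad054_nt.Sun.Defs
import Pool.Agent.Lib.helper9.Sieve

/-! Lower bound sieve weights from the Brun-Hooley sieve. -/

namespace Pool.Agent.P.MP_0ad054_nt.Sun

open Finset Pool.Agent.Lib.H9

namespace WeightsP

/-- the part of `T` in block `j` -/
def blk (z : ℕ) (T : Finset ℕ) (j : Fin z) : Finset ℕ := T.filter (fun p => bidx z p = j)

theorem blk_disj (z : ℕ) (P : Finset ℕ) :
    Pairwise fun i j => Disjoint (blk z P i) (blk z P j) := by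
  intro i j hij
  rw [disjoint_left]
  intro p hi hj
  exact hij (Fin.ext ((mem_filter.1 hi).2.symm.trans (mem_filter.1 hj).2))

theorem biUnion_blk {z : ℕ} {T : Finset ℕ} (hT : ∀ p ∈ T, bidx z p < z) :
    univ.biUnion (blk z T) = T := by
  ext p
  simp only [mem_biUnion, mem_univ, true_and, blk, mem_filter]
  constructor
  · rintro ⟨j, hj, _⟩; exact hj
  · intro hp; exact ⟨⟨bidx z p, hT p hp⟩, hp, rfl⟩

theorem sum_pow_eq {z : ℕ} {P : Finset ℕ} (hP : ∀ p ∈ P, bidx z p < z) (c : Fin z → ℕ → ℝ)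
    (w : ℕ → ℝ) :
    ∑ T ∈ P.powerset, (∏ j, c j (blk z T j).card) * ∏ l ∈ T, w l =
      ∏ j, sform (blk z P j) (c j) w := by
  rw [prod_sform_eq _ (blk_disj z P)]
  refine sum_bij' (fun T _ => blk z T) (fun τ _ => univ.biUnion τ) ?_ ?_ ?_ ?_ ?_
  · intro T hT
    rw [Fintype.mem_piFinset]
    intro j
    exact mem_powerset.2 (filter_subset_filter _ (mem_powerset.1 hT))
  · intro τ hτ
    rw [Fintype.mem_piFinset] at hτ
    exact mem_powerset.2 (biUnion_subset.2 fun j _ =>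
      (mem_powerset.1 (hτ j)).trans (filter_subset _ _))
  · intro T hT
    exact biUnion_blk fun p hp => hP p (mem_powerset.1 hT hp)
  · intro τ hτ
    rw [Fintype.mem_piFinset] at hτ
    funext j
    ext p
    simp only [blk, mem_filter, mem_biUnion, mem_univ, true_and]
    constructor
    · rintro ⟨⟨i, hi⟩, hj⟩
      have : i = j := Fin.ext ((mem_filter.1 (mem_powerset.1 (hτ i) hi)).2.symm.trans hj)
      exact this ▸ hi
    · intro hp
      exact ⟨⟨j, hp⟩, (mem_filter.1 (mem_powerset.1 (hτ j) hp)).2⟩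
  · intro T hT
    rw [biUnion_blk fun p hp => hP p (mem_powerset.1 hT hp)]

/-- upper coefficients -/
noncomputable def cy (k0 z : ℕ) (j : Fin z) : ℕ → ℝ := cY (2 * (k0 + j) + 1)

/-- correction coefficients -/
noncomputable def cz (k0 z : ℕ) (l j : Fin z) : ℕ → ℝ :=
  if j = l then cZ (2 * (k0 + j) + 1) else cY (2 * (k0 + j) + 1)

/-- the sieve weight -/
noncomputable def lam (k0 z : ℕ) (T : Finset ℕ) : ℝ :=
  ∏ j, cy k0 z j (blk z T j).card - ∑ l, ∏ j, cz k0 z l j (blk z T j).card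

theorem abs_cY (m i : ℕ) : |cY m i| ≤ 1 := by
  simp only [cY]; split_ifs <;> simp

theorem abs_cz (k0 z : ℕ) (l j : Fin z) (i : ℕ) : |cz k0 z l j i| ≤ 1 := by
  simp only [cz]; split_ifs
  · simp only [cZ]; split_ifs <;> simp
  · exact abs_cY _ _

theorem abs_lam (k0 z : ℕ) (T : Finset ℕ) : |lam k0 z T| ≤ 1 := by
  unfold lam
  by_cases h : ∀ j : Fin z, (blk z T j).card < 2 * (k0 + j) + 1
  · have h1 : ∑ l, ∏ j, cz k0 z l j (blk z T j).card = 0 := by
      refine sum_eq_zero fun l _ => prod_eq_zero (mem_univ l) ?_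
      simp only [cz, if_true, cZ]
      rw [if_neg (h l).ne]
    rw [h1, sub_zero, abs_prod]
    exact prod_le_one (fun _ _ => abs_nonneg _) (fun j _ => abs_cY _ _)
  · push Not at h
    obtain ⟨l, hl⟩ := h
    have h0 : cY (2 * (k0 + l) + 1) (blk z T l).card = 0 := by
      simp only [cY]; rw [if_neg (by omega)]
    rw [prod_eq_zero (mem_univ l) (by exact h0), sum_eq_single l, zero_sub, abs_neg, abs_prod]
    · exact prod_le_one (fun _ _ => abs_nonneg _) (fun j _ => abs_cz _ _ _ _ _)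
    · intro l' _ hl'
      refine prod_eq_zero (mem_univ l) ?_
      simp only [cz]
      rw [if_neg (Ne.symm hl')]
      exact h0
    · intro h; exact absurd (mem_univ l) h

theorem card_le_of_lam {k0 z : ℕ} {T : Finset ℕ} (h : lam k0 z T ≠ 0) (j : Fin z) :
    (blk z T j).card ≤ 2 * (k0 + j) + 1 := by
  by_contra hc
  apply h
  have h0 : cY (2 * (k0 + j) + 1) (blk z T j).card = 0 := by
    simp only [cY]; rw [if_neg (by omega)]
  unfold lam
  rw [prod_eq_zero (mem_univ j) (by exact h0), sum_eq_zero, sub_zero]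
  intro l _
  refine prod_eq_zero (mem_univ j) ?_
  simp only [cz]
  split_ifs
  · simp only [cZ]; rw [if_neg (by omega)]
  · exact h0

theorem Sf_eq {z : ℕ} {P : Finset ℕ} (hP : ∀ p ∈ P, bidx z p < z) (k0 : ℕ) (w : ℕ → ℝ) :
    Sf P (lam k0 z) w = ∏ j, sform (blk z P j) (cy k0 z j) w -
      ∑ l, ∏ j, sform (blk z P j) (cz k0 z l j) w := by
  unfold Sf lam
  simp_rw [sub_mul, sum_sub_distrib, sum_mul]
  rw [sum_comm, sum_pow_eq hP]
  congr 1
  exact sum_congr rfl fun l _ => sum_pow_eq hP _ _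

theorem hsplit (k0 z : ℕ) (P : Finset ℕ) (l : Fin z) (u : ℕ → ℝ) :
    ∏ j, sform (blk z P j) (cz k0 z l j) u =
      sform (blk z P l) (cZ (2 * (k0 + l) + 1)) u *
        ∏ j ∈ univ.erase l, sform (blk z P j) (cy k0 z j) u := by
  rw [← mul_prod_erase univ _ (mem_univ l)]
  congr 1
  · simp [cz]
  · refine prod_congr rfl fun j hj => ?_
    simp [cz, cy, ne_of_mem_erase hj]

theorem prod_blk {z : ℕ} {P : Finset ℕ} (hP : ∀ p ∈ P, bidx z p < z) (f : ℕ → ℝ) :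
    ∏ j, ∏ i ∈ blk z P j, f i = ∏ p ∈ P, f p := by
  rw [← prod_biUnion (fun i _ j _ hij => blk_disj z P hij), biUnion_blk hP]

theorem upper {z : ℕ} {P : Finset ℕ} (hP : ∀ p ∈ P, bidx z p < z) (k0 : ℕ) (w : ℕ → ℝ)
    (hw : ∀ i, 0 ≤ w i ∧ w i ≤ 1) : Sf P (lam k0 z) w ≤ ∏ l ∈ P, (1 - w l) := by
  rw [Sf_eq hP, ← prod_blk hP]
  have h0 : ∀ j, 0 ≤ ∏ i ∈ blk z P j, (1 - w i) :=
    fun j => prod_nonneg fun i _ => by linarith [(hw i).2]
  have h1 := prod_sub_prod_le univ (fun j => ∏ i ∈ blk z P j, (1 - w i))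
    (fun j => sform (blk z P j) (cy k0 z j) w) (fun j _ => h0 j)
    (fun j _ => prod_le_sform_cY _ _ (fun i _ => hw i) _)
  have h2 : ∑ l, (sform (blk z P l) (cy k0 z l) w - ∏ i ∈ blk z P l, (1 - w i)) *
      ∏ j ∈ univ.erase l, sform (blk z P j) (cy k0 z j) w ≤
      ∑ l, ∏ j, sform (blk z P j) (cz k0 z l j) w := by
    refine sum_le_sum fun l _ => ?_
    rw [hsplit]
    refine mul_le_mul_of_nonneg_right (sform_cY_sub_le _ _ (fun i _ => hw i) _) ?_
    exact prod_nonneg fun j _ => (h0 j).trans (prod_le_sform_cY _ _ (fun i _ => hw i) _)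
  linarith

theorem lower {z : ℕ} {P : Finset ℕ} (hP : ∀ p ∈ P, bidx z p < z) (k0 : ℕ) (g : ℕ → ℝ)
    (hg : ∀ i ∈ P, 0 ≤ g i ∧ g i < 1)
    (hz : ∑ j : Fin z, (∑ i ∈ blk z P j, g i) ^ (2 * (k0 + j) + 1) /
      (2 * (k0 + j) + 1).factorial / ∏ i ∈ blk z P j, (1 - g i) ≤ 1 / 2) :
    (∏ l ∈ P, (1 - g l)) / 2 ≤ Sf P (lam k0 z) g := by
  rw [Sf_eq hP, ← prod_blk hP]
  have hBP : ∀ j, blk z P j ⊆ P := fun j => filter_subset _ _
  have hV : ∀ j, 0 < ∏ i ∈ blk z P j, (1 - g i) :=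
    fun j => prod_pos fun i hi => by linarith [(hg i (hBP j hi)).2]
  have hg' : ∀ j, ∀ i ∈ blk z P j, 0 ≤ g i ∧ g i ≤ 1 :=
    fun j i hi => ⟨(hg i (hBP j hi)).1, (hg i (hBP j hi)).2.le⟩
  have hVy : ∀ j, ∏ i ∈ blk z P j, (1 - g i) ≤ sform (blk z P j) (cy k0 z j) g :=
    fun j => prod_le_sform_cY _ _ (hg' j) _
  have hy : ∀ j, 0 < sform (blk z P j) (cy k0 z j) g := fun j => (hV j).trans_le (hVy j)
  have h1 : ∑ l, ∏ j, sform (blk z P j) (cz k0 z l j) g ≤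
      (∏ j, sform (blk z P j) (cy k0 z j) g) *
        ∑ j : Fin z, (∑ i ∈ blk z P j, g i) ^ (2 * (k0 + j) + 1) /
          (2 * (k0 + j) + 1).factorial / ∏ i ∈ blk z P j, (1 - g i) := by
    rw [mul_sum]
    refine sum_le_sum fun l _ => ?_
    rw [hsplit, ← mul_prod_erase univ (fun j => sform (blk z P j) (cy k0 z j) g) (mem_univ l)]
    have hP : 0 ≤ ∏ j ∈ univ.erase l, sform (blk z P j) (cy k0 z j) g :=
      prod_nonneg fun j _ => (hy j).le
    rw [mul_right_comm]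
    refine mul_le_mul_of_nonneg_right ?_ hP
    have hz1 := sform_cZ_le (blk z P l) g (fun i hi => (hg' l i hi).1) (2 * (k0 + l) + 1)
    have hz0 := sform_cZ_nonneg (blk z P l) g (fun i hi => (hg' l i hi).1) (2 * (k0 + l) + 1)
    set Z := (∑ i ∈ blk z P l, g i) ^ (2 * (k0 + l) + 1) / ((2 * (k0 + l) + 1).factorial : ℝ)
    have hZ : 0 ≤ Z := hz0.trans hz1
    calc _ ≤ Z := hz1
      _ = (∏ i ∈ blk z P l, (1 - g i)) * (Z / ∏ i ∈ blk z P l, (1 - g i)) := by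
        field_simp [(hV l).ne']
      _ ≤ _ := mul_le_mul_of_nonneg_right (hVy l) (div_nonneg hZ (hV l).le)
  have h2 : ∏ j, ∏ i ∈ blk z P j, (1 - g i) ≤ ∏ j, sform (blk z P j) (cy k0 z j) g :=
    prod_le_prod (fun j _ => (hV j).le) (fun j _ => hVy j)
  have h3 : 0 ≤ ∏ j, sform (blk z P j) (cy k0 z j) g := prod_nonneg fun j _ => (hy j).le
  nlinarith [mul_le_mul_of_nonneg_left hz h3]

theorem level {k0 z : ℕ} {T : Finset ℕ} (hz : 2 ≤ z) (hT : ∀ p ∈ T, p.Prime ∧ p ≤ z)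
    (hc : ∀ j : Fin z, (blk z T j).card ≤ 2 * (k0 + j) + 1) : ∏ p ∈ T, p ≤ z ^ (4 * k0 + 6) := by
  have hb : ∀ p ∈ T, bidx z p < z := fun p hp => (bidx_spec (hT p hp).1.two_le (hT p hp).2).2.2
  have hz0 : (0 : ℝ) < z := by positivity
  have hlz : 0 ≤ Real.log z := Real.log_natCast_nonneg z
  have hpos : (0 : ℝ) < ∏ p ∈ T, (p : ℝ) :=
    prod_pos fun p hp => by exact_mod_cast (hT p hp).1.pos
  have hlog : Real.log (∏ p ∈ T, (p : ℝ)) ≤ Real.log ((z : ℝ) ^ (4 * k0 + 6)) := by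
    rw [Real.log_prod (fun p hp => by exact_mod_cast (hT p hp).1.ne_zero), Real.log_pow]
    have e : ∑ p ∈ T, Real.log p = ∑ j, ∑ p ∈ blk z T j, Real.log p := by
      rw [← sum_biUnion (fun i _ j _ hij => blk_disj z T hij), biUnion_blk hb]
    rw [e]
    have h1 : ∀ j : Fin z, ∑ p ∈ blk z T j, Real.log p ≤
        ((2 * k0 + 1 : ℝ) + 2 * (j : ℕ)) / 2 ^ (j : ℕ) * Real.log z := by
      intro j
      have h2 : ∀ p ∈ blk z T j, Real.log p ≤ Real.log z / 2 ^ (j : ℕ) := by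
        intro p hp
        have hpT := (mem_filter.1 hp).1
        have hp' := (bidx_spec (hT p hpT).1.two_le (hT p hpT).2).1
        rw [(mem_filter.1 hp).2] at hp'
        have hp0 : (0 : ℝ) < p := by exact_mod_cast (hT p hpT).1.pos
        have h3 : Real.log ((p : ℝ) ^ 2 ^ (j : ℕ)) ≤ Real.log z :=
          Real.log_le_log (by positivity) (by exact_mod_cast hp')
        rw [Real.log_pow] at h3
        rw [le_div_iff₀ (by positivity)]
        push_cast at h3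
        linarith
      have h4 := sum_le_card_nsmul _ _ _ h2
      rw [nsmul_eq_mul] at h4
      have h5 : ((blk z T j).card : ℝ) ≤ (2 * k0 + 1 : ℝ) + 2 * (j : ℕ) := by
        have h6 : ((blk z T j).card : ℝ) ≤ ((2 * (k0 + j) + 1 : ℕ) : ℝ) := by exact_mod_cast hc j
        push_cast at h6; linarith
      calc _ ≤ _ := h4
        _ ≤ ((2 * k0 + 1 : ℝ) + 2 * (j : ℕ)) * (Real.log z / 2 ^ (j : ℕ)) := by gcongr
        _ = _ := by ring
    refine (sum_le_sum fun j _ => h1 j).trans ?_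
    rw [← sum_mul, Fin.sum_univ_eq_sum_range
      (fun j => ((2 * k0 + 1 : ℝ) + 2 * (j : ℕ)) / 2 ^ j) z, sum_lin_div_two_pow]
    refine mul_le_mul_of_nonneg_right ?_ hlz
    have : 0 ≤ (2 * (2 * (k0 : ℝ) + 1) + 4 * z + 4) / 2 ^ z := by positivity
    push_cast; linarith
  have := (Real.log_le_log_iff hpos (by positivity)).1 hlog
  rw [← Nat.cast_prod] at this
  exact_mod_cast this

theorem tail {κ η : ℝ} (hκ : 0 ≤ κ) (hη : 0 < η) {k0 z : ℕ} {P : Finset ℕ} {g : ℕ → ℝ}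
    (hk0 : 2 * Real.exp (2 * (6 * κ) + 6 * κ / η) ≤ 2 ^ k0)
    (hP : ∀ p ∈ P, p.Prime ∧ p ≤ z) (hg : ∀ p ∈ P, 0 ≤ g p ∧ g p ≤ κ / p ∧ g p ≤ 1 - η) :
    ∑ j : Fin z, (∑ i ∈ blk z P j, g i) ^ (2 * (k0 + j) + 1) /
      (2 * (k0 + j) + 1).factorial / ∏ i ∈ blk z P j, (1 - g i) ≤ 1 / 2 := by
  set L : ℝ := 6 * κ with hL
  have hL0 : 0 ≤ L := by positivity
  have hBP : ∀ j, blk z P j ⊆ P := fun j => filter_subset _ _
  have hblock : ∀ j, ∑ i ∈ blk z P j, g i ≤ L := by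
    intro j
    have h1 : ∑ p ∈ blk z P j, (1 : ℝ) / p ≤ 6 := by
      refine sum_inv_block_le _ (fun p hp => (hP p (hBP j hp)).1) ?_
      intro p hp q hq
      have hp' := bidx_spec (hP p (hBP j hp)).1.two_le (hP p (hBP j hp)).2
      have hq' := bidx_spec (hP q (hBP j hq)).1.two_le (hP q (hBP j hq)).2
      rw [(mem_filter.1 hp).2] at hp'
      rw [(mem_filter.1 hq).2] at hq'
      have : q ^ 2 ^ (j : ℕ) < (p ^ 2) ^ 2 ^ (j : ℕ) := by
        rw [← pow_mul, ← pow_succ']; omega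
      exact lt_of_pow_lt_pow_left₀ _ (Nat.zero_le _) this
    calc ∑ i ∈ blk z P j, g i ≤ ∑ i ∈ blk z P j, κ * (1 / i) :=
          sum_le_sum fun i hi => by rw [mul_one_div]; exact (hg i (hBP j hi)).2.1
      _ = κ * ∑ i ∈ blk z P j, (1 : ℝ) / i := by rw [mul_sum]
      _ ≤ L := by rw [hL]; nlinarith
  have h1 : ∀ j : Fin z, (∑ i ∈ blk z P j, g i) ^ (2 * (k0 + j) + 1) /
      ((2 * (k0 + j) + 1).factorial : ℝ) / ∏ i ∈ blk z P j, (1 - g i) ≤
      (1 / 4) * (1 / 2) ^ (j : ℕ) := by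
    intro j
    have hs0 : 0 ≤ ∑ i ∈ blk z P j, g i := sum_nonneg fun i hi => (hg i (hBP j hi)).1
    have hV := exp_neg_le_prod (blk z P j) g hη
      (fun i hi => ⟨(hg i (hBP j hi)).1, (hg i (hBP j hi)).2.2⟩)
    have hV2 : Real.exp (-(L / η)) ≤ ∏ i ∈ blk z P j, (1 - g i) := by
      refine le_trans (Real.exp_le_exp.2 ?_) hV
      have := hblock j
      gcongr
    set m := 2 * (k0 + j) + 1 with hm
    have h2 : (∑ i ∈ blk z P j, g i) ^ m / (m.factorial : ℝ) ≤ Real.exp (2 * L) / 2 ^ m := by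
      calc (∑ i ∈ blk z P j, g i) ^ m / (m.factorial : ℝ) ≤ L ^ m / m.factorial := by
            gcongr; exact hblock j
        _ = (2 * L) ^ m / m.factorial / 2 ^ m := by rw [mul_pow 2 L]; field_simp
        _ ≤ _ := by gcongr; exact Real.pow_div_factorial_le_exp _ (by positivity) m
    have h3 : (2 : ℝ) ^ k0 * 2 * 2 ^ (j : ℕ) ≤ 2 ^ m := by
      rw [← pow_succ, ← pow_add]
      exact pow_le_pow_right₀ (by norm_num) (by omega)
    calc _ ≤ Real.exp (2 * L) / 2 ^ m / Real.exp (-(L / η)) := by gcongr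
      _ = Real.exp (2 * L + L / η) / 2 ^ m := by
        rw [Real.exp_neg, Real.exp_add]; field_simp
      _ ≤ (2 ^ k0 / 2) / (2 ^ k0 * 2 * 2 ^ (j : ℕ)) := by gcongr; linarith
      _ = _ := by rw [one_div_pow]; field_simp; norm_num
  refine (sum_le_sum fun j _ => h1 j).trans ?_
  rw [← mul_sum, Fin.sum_univ_eq_sum_range (fun j => (1 / 2 : ℝ) ^ j) z]
  have := sum_geometric_two_le z
  linarith

end WeightsP

open WeightsP in
theorem weights : S_Weights := by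
  obtain ⟨k0, hk0⟩ := pow_unbounded_of_one_lt
    (2 * Real.exp (2 * (6 * 9) + 6 * 9 / (1 / 2401))) (one_lt_two (α := ℝ))
  refine ⟨4 * k0 + 6, fun z P hz hP => ⟨lam k0 z, ⟨abs_lam k0 z, ?_, ?_⟩, ?_⟩⟩
  · intro w hw
    refine upper (fun p hp => (bidx_spec (hP p hp).1.two_le (hP p hp).2).2.2) k0 w fun i => ?_
    rcases hw i with h | h <;> rw [h] <;> norm_num
  · intro g hg
    refine lower (fun p hp => (bidx_spec (hP p hp).1.two_le (hP p hp).2).2.2) k0 g
      (fun i hi => ⟨(hg i hi).1, by linarith [(hg i hi).2.2]⟩) ?_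
    exact tail (κ := 9) (η := 1 / 2401) (by norm_num) (by norm_num) hk0.le hP hg
  · intro T hT h
    exact level hz (fun p hp => hP p (hT hp)) (card_le_of_lam h)

end Pool.Agent.P.MP_0ad054_nt.Sun
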