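import Pool.Agent.P.MP_0ad054_nt.Sun.Defs

/-! Divisor sums for the major arc weights. -/

namespace Pool.Agent.P.MP_0ad054_nt.Sun

open Finset

namespace ArithP

theorem den_int_mul (z : ℤ) (r : ℚ) : ((z : ℚ) * r).den ∣ r.den := by
  simpa using Rat.mul_den_dvd z r

theorem den_dvd_twelve {r s t : ℚ} {u v : ℤ} (h : 12 * r = u * s + v * t) :
    r.den ∣ 12 * Nat.lcm s.den t.den := by
  have e : r = (1 / 12 : ℚ) * (u * s + v * t) := by rw [← h]; ring
  have h1 := Rat.mul_den_dvd (1 / 12 : ℚ) (u * s + v * t)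
  rw [← e, show (1 / 12 : ℚ).den = 12 by norm_num] at h1
  refine h1.trans (Nat.mul_dvd_mul_left 12 ((Rat.add_den_dvd_lcm _ _).trans ?_))
  exact Nat.lcm_dvd ((den_int_mul u s).trans (Nat.dvd_lcm_left _ _))
    ((den_int_mul v t).trans (Nat.dvd_lcm_right _ _))

theorem pair (α β : ℚ) (a b k : ℤ) (hk : k * (a - b) = 12) :
    Lc α β ∣ 12 * Nat.lcm (α + a * β).den (α + b * β).den := by
  have hk' : (k : ℚ) * (a - b) = 12 := by exact_mod_cast hk
  refine Nat.lcm_dvd (den_dvd_twelve (u := -(k * b)) (v := k * a) ?_) (den_dvd_twelve (u := k) (v := -k) ?_)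
  · rw [← hk']; push_cast; ring
  · rw [← hk']; push_cast; ring

theorem Lc_ne (α β : ℚ) : Lc α β ≠ 0 := Nat.lcm_ne_zero α.den_nz β.den_nz

theorem cc_int (j : Fin 4) : ∃ z : ℤ, cc j = z := by
  fin_cases j
  exacts [⟨1, by simp [cc]⟩, ⟨3, by simp [cc]⟩, ⟨5, by simp [cc]⟩, ⟨7, by simp [cc]⟩]

theorem den_dvd_Lc (α β : ℚ) (j : Fin 4) : (α + cc j * β).den ∣ Lc α β := by
  obtain ⟨z, hz⟩ := cc_int j
  rw [hz]
  exact (Rat.add_den_dvd_lcm _ _).trans (Nat.lcm_dvd (Nat.dvd_lcm_left _ _)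
    ((den_int_mul z β).trans (Nat.dvd_lcm_right _ _)))

theorem cube_dvd {L a b c d : ℕ} (hL : L ≠ 0) (ha : a ≠ 0) (hb : b ≠ 0) (hc : c ≠ 0) (hd : d ≠ 0)
    (h1 : L ∣ 12 * Nat.lcm a b) (h2 : L ∣ 12 * Nat.lcm a c) (h3 : L ∣ 12 * Nat.lcm a d)
    (h4 : L ∣ 12 * Nat.lcm b c) (h5 : L ∣ 12 * Nat.lcm b d) (h6 : L ∣ 12 * Nat.lcm c d) :
    L ^ 3 ∣ 12 ^ 3 * (a * b * c * d) := by
  have key : ∀ {x y : ℕ}, x ≠ 0 → y ≠ 0 → L ∣ 12 * Nat.lcm x y → ∀ p, p.Prime →
      L.factorization p ≤ (12 : ℕ).factorization p + max (x.factorization p) (y.factorization p) := by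
    intro x y hx hy h p hp
    have hl := Nat.lcm_ne_zero hx hy
    have := (Nat.factorization_prime_le_iff_dvd hL (mul_ne_zero (by norm_num) hl)).2 h p hp
    rwa [Nat.factorization_mul (by norm_num) hl, Nat.factorization_lcm hx hy, Finsupp.add_apply,
      Finsupp.sup_apply] at this
  refine (Nat.factorization_prime_le_iff_dvd (pow_ne_zero _ hL) (by positivity)).1 fun p hp => ?_
  rw [Nat.factorization_mul (by norm_num) (by positivity), Nat.factorization_mul (by positivity) hd,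
    Nat.factorization_mul (by positivity) hc, Nat.factorization_mul ha hb, Nat.factorization_pow,
    Nat.factorization_pow]
  simp only [Finsupp.add_apply, Finsupp.smul_apply, smul_eq_mul]
  have b1 := key ha hb h1 p hp
  have b2 := key ha hc h2 p hp
  have b3 := key ha hd h3 p hp
  have b4 := key hb hc h4 p hp
  have b5 := key hb hd h5 p hp
  have b6 := key hc hd h6 p hp
  omega

theorem cube_le (α β : ℚ) : (Lc α β : ℝ) ^ 3 ≤ 1728 * ∏ j, ((α + cc j * β).den : ℝ) := by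
  have h := cube_dvd (Lc_ne α β) (α + (1 : ℤ) * β).den_nz (α + (3 : ℤ) * β).den_nz
    (α + (5 : ℤ) * β).den_nz (α + (7 : ℤ) * β).den_nz (pair α β 1 3 (-6) (by norm_num))
    (pair α β 1 5 (-3) (by norm_num)) (pair α β 1 7 (-2) (by norm_num)) (pair α β 3 5 (-6) (by norm_num))
    (pair α β 3 7 (-3) (by norm_num)) (pair α β 5 7 (-6) (by norm_num))
  have h2 := Nat.le_of_dvd (by positivity) h
  have h3 := (Nat.cast_le (α := ℝ)).2 h2
  rw [Fin.prod_univ_four]
  simp only [cc, Matrix.cons_val_zero, Matrix.cons_val_one, Matrix.cons_val]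
  push_cast at h3
  linarith

theorem inv_prod_le (α β : ℚ) : 1 / ∏ j, ((α + cc j * β).den : ℝ) ≤
    1728 * (Lc α β : ℝ) ^ (-(9 / 4) : ℝ) * ∑ j, 1 / ((α + cc j * β).den : ℝ) := by
  have hL : (0 : ℝ) < Lc α β := by exact_mod_cast Nat.pos_of_ne_zero (Lc_ne α β)
  have hP : 0 < ∏ j, ((α + cc j * β).den : ℝ) := prod_pos fun j _ => by exact_mod_cast (α + cc j * β).pos
  have hS : 0 ≤ ∑ j, 1 / ((α + cc j * β).den : ℝ) := sum_nonneg fun _ _ => by positivity
  set P := ∏ j, ((α + cc j * β).den : ℝ) with hPd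
  set S := ∑ j, 1 / ((α + cc j * β).den : ℝ) with hSd
  have h1 : 1 / P ≤ S ^ 4 := by
    calc 1 / P = ∏ j, 1 / ((α + cc j * β).den : ℝ) := by rw [prod_div_distrib, prod_const_one]
      _ ≤ ∏ _j : Fin 4, S := prod_le_prod (fun _ _ => by positivity) fun j _ =>
          single_le_sum (f := fun j => 1 / ((α + cc j * β).den : ℝ)) (fun _ _ => by positivity) (mem_univ j)
      _ = S ^ 4 := by simp
  have h2 : 1 / P ≤ 1728 / (Lc α β : ℝ) ^ 3 := by
    rw [div_le_div_iff₀ hP (by positivity), one_mul]; exact cube_le α β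
  refine (pow_le_pow_iff_left₀ (by positivity) (by positivity) (by norm_num : (4 : ℕ) ≠ 0)).1 ?_
  have e : ((Lc α β : ℝ) ^ (-(9 / 4) : ℝ)) ^ 4 = 1 / (Lc α β : ℝ) ^ 9 := by
    rw [← Real.rpow_natCast, ← Real.rpow_mul hL.le, one_div, ← Real.rpow_natCast, ← Real.rpow_neg hL.le]
    norm_num
  calc (1 / P) ^ 4 = (1 / P) ^ 3 * (1 / P) := by ring
    _ ≤ (1728 / (Lc α β : ℝ) ^ 3) ^ 3 * S ^ 4 := by gcongr
    _ = 1728 ^ 3 * (1 / (Lc α β : ℝ) ^ 9) * S ^ 4 := by field_simp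
    _ ≤ 1728 ^ 4 * (1 / (Lc α β : ℝ) ^ 9) * S ^ 4 := by gcongr; norm_num; norm_num
    _ = _ := by rw [mul_pow, mul_pow, e]

theorem gcd_eq {D : ℕ} (hD : Squarefree D) (n : ℕ) :
    Nat.gcd D n = ∏ p ∈ D.primeFactors.filter (fun p => p ∣ n), p := by
  have h1 : Squarefree (Nat.gcd D n) := hD.squarefree_of_dvd (Nat.gcd_dvd_left _ _)
  rw [← Nat.prod_primeFactors_of_squarefree h1]
  refine prod_congr ?_ fun _ _ => rfl
  ext p
  simp only [Nat.mem_primeFactors, mem_filter, Nat.dvd_gcd_iff]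
  exact ⟨fun h => ⟨⟨h.1, h.2.1.1, hD.ne_zero⟩, h.2.1.2⟩, fun h => ⟨h.1.1, ⟨h.1.2.1, h.2⟩, h1.ne_zero⟩⟩

theorem gcd_sq_le {D : ℕ} (hD : Squarefree D) (α β : ℚ) {m : ℕ} (hm : Lc α β = β.den * m) :
    Nat.gcd D (Lc α β) ^ 2 ≤ dfl D α β * (Nat.gcd β.den D * d2 D β.den * Nat.gcd D m ^ 2) := by
  rw [Nat.gcd_comm β.den D, gcd_eq hD, gcd_eq hD, gcd_eq hD, dfl, d2]
  simp only [prod_filter]
  rw [← prod_pow, ← prod_pow, ← prod_mul_distrib, ← prod_mul_distrib, ← prod_mul_distrib]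
  refine prod_le_prod' fun p hp => ?_
  have hpp := Nat.prime_of_mem_primeFactors hp
  have h1 := hpp.pos
  by_cases a1 : p ∣ Lc α β
  swap
  · rw [if_neg a1, one_pow]
    refine Nat.pos_of_ne_zero ?_
    split_ifs <;> positivity
  rw [if_pos a1]
  by_cases a2 : p ∣ m
  · rw [if_pos a2, ← mul_assoc]
    refine Nat.le_mul_of_pos_left _ (Nat.pos_of_ne_zero ?_)
    split_ifs <;> positivity
  have a3 : p ∣ β.den := ((Nat.Prime.dvd_mul hpp).1 (hm ▸ a1)).resolve_right a2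
  rw [if_neg a2, if_pos a3, one_pow, mul_one]
  by_cases a4 : p ^ 2 ∣ Lc α β
  · have a5 : p ^ 2 ∣ β.den :=
      (Nat.Coprime.pow_left 2 ((Nat.Prime.coprime_iff_not_dvd hpp).2 a2)).dvd_of_dvd_mul_right (hm ▸ a4)
    rw [if_pos a5, if_neg (fun h => h.2 a4), one_mul, pow_two]
  · rw [if_pos ⟨a3, a4⟩, ← mul_assoc, ← pow_two]
    refine Nat.le_mul_of_pos_right _ (Nat.pos_of_ne_zero ?_)
    split_ifs <;> positivity

theorem count_den (T : Finset ℚ) (a : ℚ) (hT : ∀ θ ∈ T, a ≤ θ ∧ θ ≤ a + 3) (d : ℕ) :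
    (T.filter fun θ => θ.den = d).card ≤ 3 * d + 1 := by
  have h : (T.filter fun θ => θ.den = d).card ≤ (Icc ⌈a * d⌉ (⌈a * d⌉ + 3 * d)).card := by
    refine card_le_card_of_injOn (fun θ => θ.num) (fun θ hθ => ?_) (fun θ hθ θ' hθ' h => ?_)
    · obtain ⟨h1, h2⟩ := mem_filter.1 hθ
      obtain ⟨h3, h4⟩ := hT θ h1
      have e := θ.mul_den_eq_num
      rw [h2] at e
      have d0 : (0 : ℚ) ≤ d := Nat.cast_nonneg d
      refine mem_coe.2 (mem_Icc.2 ⟨Int.ceil_le.2 ?_, ?_⟩)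
      · rw [← e]; gcongr
      · have b1 := Int.le_ceil (a * d)
        have b2 : (θ.num : ℚ) ≤ (⌈a * d⌉ : ℚ) + 3 * d := by rw [← e]; nlinarith
        exact_mod_cast b2
    · exact Rat.ext h ((mem_filter.1 hθ).2.trans (mem_filter.1 hθ').2.symm)
  rw [Int.card_Icc] at h
  omega

theorem sum_den (T : Finset ℚ) (a : ℚ) (hT : ∀ θ ∈ T, a ≤ θ ∧ θ ≤ a + 3) {L : ℕ} (hL : L ≠ 0)
    (hd : ∀ θ ∈ T, θ.den ∣ L) : ∑ θ ∈ T, 1 / (θ.den : ℝ) ≤ 4 * tau L := by
  rw [← sum_fiberwise_of_maps_to (g := fun θ : ℚ => θ.den) (t := L.divisors)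
    (fun θ hθ => Nat.mem_divisors.2 ⟨hd θ hθ, hL⟩)]
  calc _ ≤ L.divisors.card • (4 : ℝ) := by
        refine sum_le_card_nsmul _ _ _ fun d hd' => ?_
        have d1 : (1 : ℝ) ≤ d := by exact_mod_cast Nat.pos_of_mem_divisors hd'
        rw [sum_congr rfl (g := fun _ => 1 / (d : ℝ)) fun θ hθ => by rw [(mem_filter.1 hθ).2], sum_const,
          nsmul_eq_mul, mul_one_div, div_le_iff₀ (by linarith)]
        have : ((T.filter fun θ => θ.den = d).card : ℝ) ≤ 3 * d + 1 := by exact_mod_cast count_den T a hT d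
        linarith
    _ = 4 * tau L := by rw [nsmul_eq_mul, tau, mul_comm]

theorem tau_prod (T : Finset ℕ) (hT : ∀ p ∈ T, p.Prime) : tau (∏ p ∈ T, p) ≤ ∏ _p ∈ T, (2 : ℝ) := by
  induction T using Finset.induction_on with
  | empty => simp [tau]
  | insert p T hp ih =>
    rw [prod_insert hp, prod_insert hp]
    have h1 : tau p ≤ 2 := by
      unfold tau
      rw [(hT p (mem_insert_self _ _)).divisors]
      exact_mod_cast card_le_two
    exact (tau_mul_le _ _).trans (mul_le_mul h1 (ih fun q hq => hT q (mem_insert_of_mem hq))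
      (tau_nonneg _) zero_le_two)

theorem peel {D : ℕ} (hD : GoodD D) (F G : ℕ → ℝ) {B : ℝ} (hG : ∀ m, 0 ≤ G m)
    (hB : ∀ M : Finset ℕ, (∀ m ∈ M, 0 < m) → ∑ m ∈ M, G m ≤ B)
    (hF : ∀ g m : ℕ, 0 < m → g = Nat.gcd D (g * m) → F (g * m) ≤ tau g * (g : ℝ) ^ (-(1 / 8) : ℝ) * G m)
    (M : Finset ℕ) (hM : ∀ m ∈ M, 0 < m) : ∑ m ∈ M, F m ≤ Real.exp 2 * B := by
  have hB0 : 0 ≤ B := by simpa using hB ∅ (by simp)
  rw [← sum_fiberwise_of_maps_to (g := fun m => D.primeFactors.filter (fun p => p ∣ m))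
    (t := D.primeFactors.powerset) (fun m _ => mem_powerset.2 (filter_subset _ _))]
  calc _ ≤ ∑ T ∈ D.primeFactors.powerset, (∏ p ∈ T, 2 * (p : ℝ) ^ (-(1 / 8) : ℝ)) * B := by
        refine sum_le_sum fun T hT => ?_
        have hTp : ∀ p ∈ T, p.Prime := fun p hp => Nat.prime_of_mem_primeFactors (mem_powerset.1 hT hp)
        set g := ∏ p ∈ T, p with hg
        have hg0 : 0 < g := prod_pos fun p hp => (hTp p hp).pos
        have hgm : ∀ m ∈ M.filter (fun m => D.primeFactors.filter (fun p => p ∣ m) = T),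
            g = Nat.gcd D m := fun m hm => by rw [gcd_eq hD.1, (mem_filter.1 hm).2]
        have hdv : ∀ m ∈ M.filter (fun m => D.primeFactors.filter (fun p => p ∣ m) = T),
            g * (m / g) = m := fun m hm => Nat.mul_div_cancel' (hgm m hm ▸ Nat.gcd_dvd_right D m)
        have hpos : ∀ m ∈ M.filter (fun m => D.primeFactors.filter (fun p => p ∣ m) = T),
            0 < m / g := fun m hm => Nat.pos_of_ne_zero fun h => by
          have b1 := hdv m hm
          have b2 := hM m (mem_filter.1 hm).1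
          rw [h] at b1; omega
        have hc : tau g * (g : ℝ) ^ (-(1 / 8) : ℝ) ≤ ∏ p ∈ T, 2 * (p : ℝ) ^ (-(1 / 8) : ℝ) := by
          rw [prod_mul_distrib, Real.finsetProd_rpow _ _ (fun _ _ => Nat.cast_nonneg _), ← Nat.cast_prod]
          exact mul_le_mul_of_nonneg_right (tau_prod T hTp) (by positivity)
        calc ∑ m ∈ M.filter (fun m => D.primeFactors.filter (fun p => p ∣ m) = T), F m
            ≤ ∑ m ∈ M.filter (fun m => D.primeFactors.filter (fun p => p ∣ m) = T),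
                tau g * (g : ℝ) ^ (-(1 / 8) : ℝ) * G (m / g) := by
              refine sum_le_sum fun m hm => ?_
              have := hF g (m / g) (hpos m hm) (by rw [hdv m hm]; exact hgm m hm)
              rwa [hdv m hm] at this
          _ = tau g * (g : ℝ) ^ (-(1 / 8) : ℝ) * ∑ m ∈ (M.filter
                (fun m => D.primeFactors.filter (fun p => p ∣ m) = T)).image (fun m => m / g), G m := by
              rw [← mul_sum, sum_image]
              intro m hm m' hm' h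
              rw [← hdv m hm, ← hdv m' hm']
              exact congrArg _ h
          _ ≤ (∏ p ∈ T, 2 * (p : ℝ) ^ (-(1 / 8) : ℝ)) * B := by
              refine mul_le_mul hc (hB _ fun m hm => ?_) (sum_nonneg fun m _ => hG m)
                (prod_nonneg fun _ _ => by positivity)
              obtain ⟨m', h1, rfl⟩ := mem_image.1 hm
              exact hpos m' h1
    _ = (∏ p ∈ D.primeFactors, (1 + 2 * (p : ℝ) ^ (-(1 / 8) : ℝ))) * B := by
        rw [prod_one_add, sum_mul]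
    _ ≤ Real.exp 2 * B := by
        refine mul_le_mul_of_nonneg_right ((Real.prod_one_add_le_exp_sum _
          (f := fun p : ℕ => 2 * (p : ℝ) ^ (-(1 / 8) : ℝ)) fun _ => by positivity).trans
          (Real.exp_le_exp.2 ?_)) hB0
        rcases D.primeFactors.eq_empty_or_nonempty with h | h
        · rw [h]; simp
        have w0 : (0 : ℝ) < D.primeFactors.card := by exact_mod_cast h.card_pos
        calc _ ≤ D.primeFactors.card • (2 * (D.primeFactors.card : ℝ)⁻¹) := by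
              refine sum_le_card_nsmul _ _ _ fun p hp => ?_
              have b1 : (D.primeFactors.card : ℝ) ^ 8 ≤ p := by exact_mod_cast hD.2.2 p hp
              have b2 := Real.rpow_le_rpow_of_nonpos (by positivity) b1 (z := -(1 / 8)) (by norm_num)
              rw [← Real.rpow_natCast, ← Real.rpow_mul w0.le] at b2
              norm_num at b2
              rw [Real.rpow_neg_one] at b2
              linarith
          _ = 2 := by rw [nsmul_eq_mul]; field_simp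

/-- the basic weight -/
noncomputable def G0 (m : ℕ) : ℝ := tau m * (m : ℝ) ^ (-(9 / 8) : ℝ)

theorem G0_nonneg (m : ℕ) : 0 ≤ G0 m := mul_nonneg (tau_nonneg m) (by positivity)

theorem G0_sum : ∃ B : ℝ, 0 < B ∧ ∀ M : Finset ℕ, (∀ m ∈ M, 0 < m) → ∑ m ∈ M, G0 m ≤ B := by
  obtain ⟨C, hC, h⟩ := tau_le (ε := 1 / 16) (by norm_num)
  have hs : Summable fun n : ℕ => (n : ℝ) ^ (-(17 / 16) : ℝ) := Real.summable_nat_rpow.2 (by norm_num)
  have h0 : 0 ≤ ∑' n : ℕ, (n : ℝ) ^ (-(17 / 16) : ℝ) := tsum_nonneg fun _ => by positivity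
  refine ⟨C * ∑' n : ℕ, (n : ℝ) ^ (-(17 / 16) : ℝ) + 1, by positivity, fun M hM => ?_⟩
  calc ∑ m ∈ M, G0 m ≤ ∑ m ∈ M, C * (m : ℝ) ^ (-(17 / 16) : ℝ) := by
        refine sum_le_sum fun m hm => ?_
        have m0 : (0 : ℝ) < m := by exact_mod_cast hM m hm
        calc G0 m ≤ C * (m : ℝ) ^ (1 / 16 : ℝ) * (m : ℝ) ^ (-(9 / 8) : ℝ) :=
              mul_le_mul_of_nonneg_right (h m) (by positivity)
          _ = _ := by rw [mul_assoc, ← Real.rpow_add m0]; norm_num
    _ ≤ C * ∑' n : ℕ, (n : ℝ) ^ (-(17 / 16) : ℝ) := by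
        rw [← mul_sum]
        exact mul_le_mul_of_nonneg_left (hs.sum_le_tsum _ fun _ _ => by positivity) hC.le
    _ ≤ _ := by linarith

theorem G0_mul {g m : ℕ} (hg : 0 < g) : G0 (g * m) * g ≤ tau g * (g : ℝ) ^ (-(1 / 8) : ℝ) * G0 m := by
  have g0 : (0 : ℝ) < g := by exact_mod_cast hg
  unfold G0
  rw [Nat.cast_mul, Real.mul_rpow g0.le (Nat.cast_nonneg _)]
  have e : (g : ℝ) ^ (-(1 / 8) : ℝ) = (g : ℝ) ^ (-(9 / 8) : ℝ) * g := by
    rw [← Real.rpow_add_one g0.ne']; norm_num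
  have := tau_mul_le g m
  rw [e]
  calc _ ≤ tau g * tau m * ((g : ℝ) ^ (-(9 / 8) : ℝ) * (m : ℝ) ^ (-(9 / 8) : ℝ)) * g := by gcongr
    _ = _ := by ring

theorem gcd_pos {D : ℕ} (hD : GoodD D) (n : ℕ) : 0 < Nat.gcd D n :=
  Nat.gcd_pos_of_pos_left _ (Nat.pos_of_ne_zero hD.1.ne_zero)

theorem G1_sum {B : ℝ} (hB : ∀ M : Finset ℕ, (∀ m ∈ M, 0 < m) → ∑ m ∈ M, G0 m ≤ B) {D : ℕ}
    (hD : GoodD D) (M : Finset ℕ) (hM : ∀ m ∈ M, 0 < m) :
    ∑ m ∈ M, G0 m * Nat.gcd D m ≤ Real.exp 2 * B :=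
  peel hD (fun m => G0 m * Nat.gcd D m) G0 G0_nonneg hB (fun g m _ h => by
    rw [← h]; exact G0_mul (h ▸ gcd_pos hD _)) M hM

theorem d2_le {D : ℕ} (hD : GoodD D) {g m : ℕ} (h : g = Nat.gcd D (g * m)) :
    d2 D (g * m) ≤ Nat.gcd D m := by
  rw [gcd_eq hD.1, d2]
  refine prod_le_prod_of_subset_of_one_le' (fun p hp => ?_)
    (fun p hp _ => (Nat.prime_of_mem_primeFactors (mem_filter.1 hp).1).pos)
  obtain ⟨h1, h2⟩ := mem_filter.1 hp
  have hp := Nat.prime_of_mem_primeFactors h1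
  refine mem_filter.2 ⟨h1, ?_⟩
  by_contra h3
  have h4 : p ^ 2 ∣ g :=
    (Nat.Coprime.pow_left 2 ((Nat.Prime.coprime_iff_not_dvd hp).2 h3)).dvd_of_dvd_mul_right h2
  have h5 : p * p ∣ D := by
    rw [← pow_two]; exact h4.trans (h ▸ Nat.gcd_dvd_left D _)
  exact hp.not_isUnit (hD.1 p h5)

theorem G2_sum {B : ℝ} (hB : ∀ M : Finset ℕ, (∀ m ∈ M, 0 < m) → ∑ m ∈ M, G0 m ≤ B) {D : ℕ}
    (hD : GoodD D) (M : Finset ℕ) (hM : ∀ m ∈ M, 0 < m) :
    ∑ m ∈ M, G0 m * Nat.gcd D m * d2 D m ≤ Real.exp 2 * (Real.exp 2 * B) :=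
  peel hD (fun m => G0 m * Nat.gcd D m * d2 D m) (fun m => G0 m * Nat.gcd D m)
    (fun m => mul_nonneg (G0_nonneg m) (Nat.cast_nonneg _)) (G1_sum hB hD) (fun g m _ h => by
      rw [← h, ← mul_assoc]
      have b1 : (d2 D (g * m) : ℝ) ≤ Nat.gcd D m := by exact_mod_cast d2_le hD h
      exact mul_le_mul (G0_mul (h ▸ gcd_pos hD _)) b1 (Nat.cast_nonneg _)
        (mul_nonneg (mul_nonneg (tau_nonneg _) (by positivity)) (G0_nonneg _))) M hM

theorem dfl_pos (D : ℕ) (α β : ℚ) : 0 < dfl D α β :=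
  prod_pos fun _ hp => (Nat.prime_of_mem_primeFactors (mem_filter.1 hp).1).pos

end ArithP

open ArithP in
theorem kapb : S_Kap := by
  obtain ⟨B, hB0, hB⟩ := G0_sum
  refine ⟨Real.exp 2 * (Real.exp 2 * B), by positivity, fun D y S hD hy hS => ?_⟩
  have hpos : ∀ q ∈ S, (0 : ℝ) < q := fun q hq => by linarith [hS q hq]
  calc ∑ q ∈ S, q * kap D q ≤ ∑ q ∈ S, G0 q * Nat.gcd D q * d2 D q * y ^ (-(1 / 8) : ℝ) := by
        refine sum_le_sum fun q hq => ?_
        have q0 := hpos q hq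
        have b1 : (q : ℝ) ^ (-(1 / 8) : ℝ) ≤ y ^ (-(1 / 8) : ℝ) :=
          Real.rpow_le_rpow_of_nonpos (by linarith) (hS q hq) (by norm_num)
        have e : (q : ℝ) * (q : ℝ) ^ (-(9 / 4) : ℝ) = (q : ℝ) ^ (-(9 / 8) : ℝ) * (q : ℝ) ^ (-(1 / 8) : ℝ) := by
          rw [mul_comm, ← Real.rpow_add_one q0.ne', ← Real.rpow_add q0]; norm_num
        have t0 := G0_nonneg q
        calc q * kap D q = tau q * ((q : ℝ) * (q : ℝ) ^ (-(9 / 4) : ℝ)) * Nat.gcd D q * d2 D q := by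
              unfold kap; rw [Nat.gcd_comm]; ring
          _ = G0 q * Nat.gcd D q * d2 D q * (q : ℝ) ^ (-(1 / 8) : ℝ) := by rw [e]; unfold G0; ring
          _ ≤ _ := by gcongr
    _ ≤ _ := by
        rw [← sum_mul]
        exact mul_le_mul_of_nonneg_right (G2_sum hB hD S fun q hq => by exact_mod_cast hpos q hq)
          (by positivity)

open ArithP in
theorem arith : S_Arith := by
  obtain ⟨B, hB0, hB⟩ := G0_sum
  refine ⟨1728 * (1 + 16 * (Real.exp 2 * B)), by positivity, fun D β hD => ⟨fun α => ?_, fun S hS => ?_⟩⟩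
  · have hP : 0 < ∏ j, ((α + cc j * β).den : ℝ) :=
      prod_pos fun j _ => by exact_mod_cast (α + cc j * β).pos
    have a0 : (0 : ℝ) < α.den := by exact_mod_cast α.pos
    have b1 : (Nat.gcd D (Lc α β) : ℝ) ≤ D := by
      exact_mod_cast Nat.gcd_le_left _ (Nat.pos_of_ne_zero hD.1.ne_zero)
    have b2 : (1 : ℝ) ≤ dfl D α β := by exact_mod_cast dfl_pos D α β
    have b3 : (α.den : ℝ) ≤ Lc α β := by
      exact_mod_cast Nat.le_of_dvd (Nat.pos_of_ne_zero (Lc_ne α β)) (Nat.dvd_lcm_left _ _)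
    have b4 : (α.den : ℝ) ^ 3 ≤ 1728 * ∏ j, ((α + cc j * β).den : ℝ) :=
      (pow_le_pow_left₀ a0.le b3 3).trans (cube_le α β)
    have b5 : (1 : ℝ) ≤ 1 + 16 * (Real.exp 2 * B) := le_add_of_nonneg_right (by positivity)
    unfold wq
    rw [div_le_div_iff₀ (by positivity) (by positivity)]
    calc _ ≤ (D : ℝ) ^ 2 * (1728 * ∏ j, ((α + cc j * β).den : ℝ)) := by gcongr
      _ = 1728 * 1 * (D : ℝ) ^ 2 * (1 * ∏ j, ((α + cc j * β).den : ℝ)) := by ring
      _ ≤ _ := by gcongr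
  · have q0 : (0 : ℝ) < β.den := by exact_mod_cast β.pos
    have hm : ∀ α, Lc α β = β.den * (Lc α β / β.den) := fun α =>
      (Nat.mul_div_cancel' (Nat.dvd_lcm_right _ _)).symm
    have hk : 0 ≤ kap D β.den := by
      unfold kap
      have := tau_nonneg β.den
      positivity
    rw [← sum_fiberwise_of_maps_to (g := fun α => Lc α β / β.den)
      (t := S.image fun α => Lc α β / β.den) (fun α hα => mem_image_of_mem _ hα)]
    have hM : ∀ m ∈ S.image fun α => Lc α β / β.den, 0 < m := fun m hm' => by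
      obtain ⟨α, _, rfl⟩ := mem_image.1 hm'
      refine Nat.pos_of_ne_zero fun h => Lc_ne α β ?_
      rw [hm α, h, mul_zero]
    calc _ ≤ ∑ m ∈ S.image fun α => Lc α β / β.den,
          1728 * 16 * kap D β.den * (G0 m * Nat.gcd D m) := by
          refine sum_le_sum fun m hm' => ?_
          have m1 := hM m hm'
          have m0 : (0 : ℝ) < m := by exact_mod_cast m1
          set T := S.filter fun α => Lc α β / β.den = m with hT
          have hL : ∀ α ∈ T, Lc α β = β.den * m := fun α hα => by rw [hm α, (mem_filter.1 hα).2]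
          set W : ℝ := (Nat.gcd β.den D : ℝ) * d2 D β.den * (Nat.gcd D m : ℝ) ^ 2 *
            (1728 * ((β.den * m : ℕ) : ℝ) ^ (-(9 / 4) : ℝ)) with hW
          have c1 : ∑ α ∈ T, wq D α β ≤ ∑ α ∈ T, W * ∑ j, 1 / ((α + cc j * β).den : ℝ) := by
            refine sum_le_sum fun α hα => ?_
            have b1 : (Nat.gcd D (Lc α β) : ℝ) ^ 2 ≤ dfl D α β *
                ((Nat.gcd β.den D : ℝ) * d2 D β.den * (Nat.gcd D m : ℝ) ^ 2) := by
              exact_mod_cast gcd_sq_le hD.1 α β (hL α hα)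
            have b2 : (0 : ℝ) < dfl D α β := by exact_mod_cast dfl_pos D α β
            have b3 := inv_prod_le α β
            rw [hL α hα] at b3
            calc wq D α β = (Nat.gcd D (Lc α β) : ℝ) ^ 2 / dfl D α β *
                  (1 / ∏ j, ((α + cc j * β).den : ℝ)) := by
                  unfold wq; rw [div_mul_div_comm, mul_one]
              _ ≤ ((Nat.gcd β.den D : ℝ) * d2 D β.den * (Nat.gcd D m : ℝ) ^ 2) *
                  (1728 * ((β.den * m : ℕ) : ℝ) ^ (-(9 / 4) : ℝ) *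
                    ∑ j, 1 / ((α + cc j * β).den : ℝ)) :=
                  mul_le_mul ((div_le_iff₀' b2).2 b1) b3 (by positivity) (by positivity)
              _ = _ := by rw [hW]; ring
          have c2 : ∀ j : Fin 4, ∑ α ∈ T, 1 / ((α + cc j * β).den : ℝ) ≤ 4 * tau (β.den * m) := fun j => by
            have := sum_den (T.image fun α => α + cc j * β) (cc j * β - 1) (fun θ hθ => by
              obtain ⟨α, h1, rfl⟩ := mem_image.1 hθ
              have := hS α (mem_filter.1 h1).1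
              constructor <;> linarith [this.1, this.2]) (L := β.den * m) (by positivity) (fun θ hθ => by
              obtain ⟨α, h1, rfl⟩ := mem_image.1 hθ
              rw [← hL α h1]; exact den_dvd_Lc α β j)
            rwa [sum_image fun a _ b _ h => add_right_cancel h] at this
          have c3 : ∑ α ∈ T, ∑ j, 1 / ((α + cc j * β).den : ℝ) ≤ 16 * (tau β.den * tau m) := by
            rw [sum_comm]
            calc _ ≤ ∑ _j : Fin 4, 4 * tau (β.den * m) := sum_le_sum fun j _ => c2 j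
              _ = 16 * tau (β.den * m) := by simp; ring
              _ ≤ _ := by have := tau_mul_le β.den m; linarith
          have c4 : (Nat.gcd D m : ℝ) * (m : ℝ) ^ (-(9 / 8) : ℝ) ≤ 1 := by
            have b1 : (Nat.gcd D m : ℝ) ≤ m := by exact_mod_cast Nat.gcd_le_right _ m1
            calc _ ≤ (m : ℝ) * (m : ℝ) ^ (-(9 / 8) : ℝ) := by gcongr
              _ = (m : ℝ) ^ (-(9 / 8) + 1 : ℝ) := by rw [Real.rpow_add_one m0.ne', mul_comm]
              _ ≤ 1 := Real.rpow_le_one_of_one_le_of_nonpos (by exact_mod_cast m1) (by norm_num)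
          have e : (m : ℝ) ^ (-(9 / 4) : ℝ) = (m : ℝ) ^ (-(9 / 8) : ℝ) * (m : ℝ) ^ (-(9 / 8) : ℝ) := by
            rw [← Real.rpow_add m0]; norm_num
          have t0 := G0_nonneg m
          calc ∑ α ∈ T, wq D α β ≤ W * ∑ α ∈ T, ∑ j, 1 / ((α + cc j * β).den : ℝ) := by
                rw [mul_sum]; exact c1
            _ ≤ W * (16 * (tau β.den * tau m)) := by gcongr
            _ = 1728 * 16 * kap D β.den * (G0 m * Nat.gcd D m) *
                  ((Nat.gcd D m : ℝ) * (m : ℝ) ^ (-(9 / 8) : ℝ)) := by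
                rw [hW, Nat.cast_mul, Real.mul_rpow q0.le m0.le, e]; unfold kap G0; ring
            _ ≤ _ := mul_le_of_le_one_right (by positivity) c4
      _ ≤ 1728 * 16 * kap D β.den * (Real.exp 2 * B) := by
          rw [← mul_sum]
          exact mul_le_mul_of_nonneg_left (G1_sum hB hD _ hM) (by positivity)
      _ ≤ _ := by nlinarith

end Pool.Agent.P.MP_0ad054_nt.Sun
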