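import Pool.Agent.P.MP_0ad054_nt.Sun.Defs

/-! Pointwise inequalities for the archimedean factors. -/

namespace Pool.Agent.P.MP_0ad054_nt.Sun.GammaP

open Finset

theorem four_le {a b c d m : ℝ} (ha : 0 ≤ a) (hb : 0 ≤ b) (hc : 0 ≤ c) (hd : 0 ≤ d) (h1 : c ≤ m)
    (h2 : d ≤ m) : a * b * c * d ≤ m ^ 2 * (a ^ 2 + b ^ 2 + c ^ 2 + d ^ 2) := by
  have h3 : c * d ≤ m ^ 2 := by rw [sq]; exact mul_le_mul h1 h2 hd (hc.trans h1)
  have h4 : a * b ≤ a ^ 2 + b ^ 2 + c ^ 2 + d ^ 2 := by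
    nlinarith [sq_nonneg (a - b), mul_nonneg ha hb, sq_nonneg c, sq_nonneg d]
  calc a * b * c * d = (c * d) * (a * b) := by ring
    _ ≤ _ := mul_le_mul h3 h4 (mul_nonneg ha hb) (by positivity)

theorem prod_inv_le {x : Fin 4 → ℝ} (hx : ∀ j, 0 < x j) {μ : ℝ} (hμ : 0 < μ)
    (h1 : μ ≤ x 0 ∨ μ ≤ x 1) (h2 : μ ≤ x 2 ∨ μ ≤ x 3) :
    ∏ j, 1 / x j ≤ (1 / μ) ^ 2 * ∑ j, (1 / x j) ^ 2 := by
  have hp : ∀ j, 0 ≤ 1 / x j := fun j => (one_div_pos.2 (hx j)).le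
  have hl : ∀ j, μ ≤ x j → 1 / x j ≤ 1 / μ := fun j h => one_div_le_one_div_of_le hμ h
  rw [Fin.prod_univ_four, Fin.sum_univ_four]
  rcases h1 with h1 | h1 <;> rcases h2 with h2 | h2
  · have := four_le (hp 1) (hp 3) (hp 0) (hp 2) (hl 0 h1) (hl 2 h2); linarith
  · have := four_le (hp 1) (hp 2) (hp 0) (hp 3) (hl 0 h1) (hl 3 h2); linarith
  · have := four_le (hp 0) (hp 3) (hp 1) (hp 2) (hl 1 h1) (hl 2 h2); linarith
  · have := four_le (hp 0) (hp 2) (hp 1) (hp 3) (hl 1 h1) (hl 3 h2); linarith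

theorem cc_vals : ((cc 0 : ℚ) : ℝ) = 1 ∧ ((cc 1 : ℚ) : ℝ) = 3 ∧ ((cc 2 : ℚ) : ℝ) = 5 ∧
    ((cc 3 : ℚ) : ℝ) = 7 := by
  simp [cc]

theorem cc_abs (j : Fin 4) : |((cc j : ℚ) : ℝ)| ≤ 7 := by
  obtain ⟨h0, h1, h2, h3⟩ := cc_vals
  fin_cases j
  · simp only [Fin.zero_eta, h0]; norm_num
  · simp only [Fin.mk_one, h1]; norm_num
  · simp only [Fin.reduceFinMk, h2]; norm_num
  · simp only [Fin.reduceFinMk, h3]; norm_num

section
variable {Q q t η M : ℝ} {x : Fin 4 → ℝ} (hQ : 1 ≤ Q) (hq : 1 ≤ q) (ht : |t| ≤ 1 / (Q ^ 500 * q))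
  (hη : |η| ≤ Q / Q ^ 1000) (hM0 : 0 ≤ M) (hM : M ≤ q * Q ^ 2) (hx1 : ∀ j, 1 / Q ^ 1000 ≤ x j)
  (hx2 : ∀ j, |t + cc j * η| ≤ x j) (hx3 : ∀ j, x j ≤ |t + cc j * η| + 1 / Q ^ 1000)

include hQ hη in
theorem ceta_le (j : Fin 4) : |cc j * η| ≤ 7 / Q ^ 999 := by
  rw [abs_mul]
  calc _ ≤ 7 * (Q / Q ^ 1000) := mul_le_mul (cc_abs j) hη (abs_nonneg _) (by norm_num)
    _ = _ := by field_simp

include hQ hη hx3 in
theorem x_le (j : Fin 4) : x j ≤ |t| + 8 / Q ^ 999 := by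
  have h1 := ceta_le hQ hη j
  have h2 := abs_add_le t (cc j * η)
  have h3 : 1 / Q ^ 1000 ≤ 1 / Q ^ 999 :=
    one_div_le_one_div_of_le (by positivity) (pow_le_pow_right₀ hQ (by norm_num))
  have h4 : 8 / Q ^ 999 = 7 / Q ^ 999 + 1 / Q ^ 999 := by ring
  linarith [hx3 j]

include hQ hq ht hη hM0 hM hx1 hx3 in
theorem factor_large (hq2 : q ≤ Q ^ 500) :
    ∏ j, (1 / x j + M ^ 2 * x j / (1 / Q ^ 1000)) ≤ 10 ^ 4 * Q ^ 4020 := by
  have hx0 : ∀ j, 0 < x j := fun j => lt_of_lt_of_le (by positivity) (hx1 j)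
  have key : ∀ j, 1 / x j + M ^ 2 * x j / (1 / Q ^ 1000) ≤ 10 * Q ^ 1005 := by
    intro j
    have h1 : 1 / x j ≤ Q ^ 1000 := by
      have := one_div_le_one_div_of_le (by positivity) (hx1 j)
      rwa [one_div_one_div] at this
    have h2 : x j ≤ 1 / (Q ^ 500 * q) + 8 / Q ^ 999 := by linarith [x_le hQ hη hx3 j]
    have h3 : M ^ 2 * x j / (1 / Q ^ 1000) ≤ q * Q ^ 504 + 8 * q ^ 2 * Q ^ 5 :=
      calc _ ≤ (q * Q ^ 2) ^ 2 * (1 / (Q ^ 500 * q) + 8 / Q ^ 999) / (1 / Q ^ 1000) := by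
            have := (hx0 j).le
            gcongr
        _ = _ := by field_simp
    have h4 : q * Q ^ 504 ≤ Q ^ 1005 :=
      calc _ ≤ Q ^ 500 * Q ^ 504 := by gcongr
        _ = Q ^ 1004 := by ring
        _ ≤ _ := pow_le_pow_right₀ hQ (by norm_num)
    have h5 : q ^ 2 * Q ^ 5 ≤ Q ^ 1005 :=
      calc _ ≤ (Q ^ 500) ^ 2 * Q ^ 5 := by gcongr
        _ = _ := by ring
    have h6 : Q ^ 1000 ≤ Q ^ 1005 := pow_le_pow_right₀ hQ (by norm_num)
    linarith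
  calc _ ≤ ∏ _j : Fin 4, 10 * Q ^ 1005 :=
        prod_le_prod (fun j _ => by have := hx0 j; positivity) fun j _ => key j
    _ = _ := by rw [prod_const, card_univ, Fintype.card_fin]; ring

include hQ hq ht hη hM0 hM hx1 hx2 hx3 in
theorem factor_small (hq2 : q ≤ Q ^ 400) :
    ∏ j, (1 / x j + M ^ 2 * x j / (1 / Q ^ 1000)) ≤
      485 ^ 4 * ((1 / max (1 / Q ^ 1000) |η|) ^ 2 + Q ^ 1836) * ∑ j, (1 / x j) ^ 2 := by
  have hx0 : ∀ j, 0 < x j := fun j => lt_of_lt_of_le (by positivity) (hx1 j)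
  have hS : 0 ≤ ∑ j, (1 / x j) ^ 2 := by positivity
  have key : ∀ K : ℝ, (∀ j, M ^ 2 * Q ^ 1000 * x j ^ 2 ≤ K) →
      ∏ j, (1 / x j + M ^ 2 * x j / (1 / Q ^ 1000)) ≤ (1 + K) ^ 4 * ∏ j, 1 / x j := by
    intro K hK
    calc _ ≤ ∏ j, (1 + K) * (1 / x j) := by
          refine prod_le_prod (fun j _ => by have := hx0 j; positivity) fun j _ => ?_
          have h0 := hx0 j
          calc _ = (1 + M ^ 2 * Q ^ 1000 * x j ^ 2) * (1 / x j) := by field_simp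
            _ ≤ _ := by have := hK j; gcongr
      _ = _ := by rw [prod_mul_distrib, prod_const, card_univ, Fintype.card_fin]
  have h9 : 1 / Q ^ 999 ≤ 1 / Q ^ 910 :=
    one_div_le_one_div_of_le (by positivity) (pow_le_pow_right₀ hQ (by norm_num))
  have e8 : 8 / Q ^ 999 = 8 * (1 / Q ^ 999) := by ring
  have e7 : 7 / Q ^ 999 = 7 * (1 / Q ^ 999) := by ring
  have hu : 0 < 1 / Q ^ 910 := by positivity
  rcases le_or_gt |t| (14 * (1 / Q ^ 910)) with h | h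
  · have h1 := key 484 fun j => by
      have a1 : x j ≤ 22 * (1 / Q ^ 910) := by linarith [x_le hQ hη hx3 j]
      have a2 : M ≤ Q ^ 400 * Q ^ 2 := hM.trans (by gcongr)
      have a3 := (hx0 j).le
      calc _ ≤ (Q ^ 400 * Q ^ 2) ^ 2 * Q ^ 1000 * (22 * (1 / Q ^ 910)) ^ 2 := by gcongr
        _ = 484 / Q ^ 16 := by field_simp; norm_num
        _ ≤ 484 := div_le_self (by norm_num) (one_le_pow₀ hQ)
    obtain ⟨c0, c1, c2, c3⟩ := cc_vals
    have h2 := prod_inv_le hx0 (μ := max (1 / Q ^ 1000) |η|) (by positivity) (by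
      by_contra h3
      push Not at h3
      have a0 := (lt_max_iff.1 h3.1).resolve_left (not_lt.2 (hx1 0))
      have a1 := (lt_max_iff.1 h3.2).resolve_left (not_lt.2 (hx1 1))
      have b0 := abs_le.1 (hx2 0)
      have b1 := abs_le.1 (hx2 1)
      rw [c0] at b0; rw [c1] at b1
      rcases abs_cases η with h4 | h4 <;> linarith [h4.1]) (by
      by_contra h3
      push Not at h3
      have a0 := (lt_max_iff.1 h3.1).resolve_left (not_lt.2 (hx1 2))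
      have a1 := (lt_max_iff.1 h3.2).resolve_left (not_lt.2 (hx1 3))
      have b0 := abs_le.1 (hx2 2)
      have b1 := abs_le.1 (hx2 3)
      rw [c2] at b0; rw [c3] at b1
      rcases abs_cases η with h4 | h4 <;> linarith [h4.1])
    calc _ ≤ (1 + 484) ^ 4 * ((1 / max (1 / Q ^ 1000) |η|) ^ 2 * ∑ j, (1 / x j) ^ 2) :=
          h1.trans (by gcongr)
      _ = 485 ^ 4 * ((1 / max (1 / Q ^ 1000) |η|) ^ 2 + 0) * ∑ j, (1 / x j) ^ 2 := by ring
      _ ≤ _ := by gcongr; positivity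
  · have h1 := key (4 * Q ^ 4) fun j => by
      have a1 : x j ≤ 2 * (1 / (Q ^ 500 * q)) := by linarith [x_le hQ hη hx3 j]
      have a3 := (hx0 j).le
      calc _ ≤ (q * Q ^ 2) ^ 2 * Q ^ 1000 * (2 * (1 / (Q ^ 500 * q))) ^ 2 := by gcongr
        _ = _ := by field_simp; norm_num
    have h3 : ∀ j, 1 / Q ^ 910 ≤ x j := by
      intro j
      have a1 := ceta_le hQ hη j
      have a2 := abs_add_le (t + cc j * η) (-(cc j * η))
      rw [add_neg_cancel_right, abs_neg] at a2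
      linarith [hx2 j]
    have h2 := prod_inv_le hx0 hu (Or.inl (h3 0)) (Or.inl (h3 2))
    rw [one_div_one_div] at h2
    have h4 : 1 + 4 * Q ^ 4 ≤ 485 * Q ^ 4 := by linarith [one_le_pow₀ (n := 4) hQ]
    calc _ ≤ (485 * Q ^ 4) ^ 4 * ((Q ^ 910) ^ 2 * ∑ j, (1 / x j) ^ 2) := by
          refine h1.trans (mul_le_mul (by gcongr) h2 ?_ (by positivity))
          exact prod_nonneg fun j _ => (one_div_pos.2 (hx0 j)).le
      _ = 485 ^ 4 * (0 + Q ^ 1836) * ∑ j, (1 / x j) ^ 2 := by ring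
      _ ≤ _ := by gcongr; positivity

end

theorem kap_le {D q : ℕ} (hD : Squarefree D) (hq : q ≠ 0) : kap D q ≤ (D : ℝ) ^ 2 := by
  have hD0 := Nat.pos_of_ne_zero hD.ne_zero
  have hq1 : (1 : ℝ) ≤ q := by exact_mod_cast Nat.pos_of_ne_zero hq
  have h1 : tau q * (q : ℝ) ^ (-(9 / 4) : ℝ) ≤ 1 := by
    have a1 : tau q ≤ q := by unfold tau; exact_mod_cast Nat.card_divisors_le_self q
    have a2 : (q : ℝ) ^ (-(9 / 4) : ℝ) ≤ (q : ℝ) ^ (-1 : ℝ) :=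
      Real.rpow_le_rpow_of_exponent_le hq1 (by norm_num)
    rw [Real.rpow_neg_one] at a2
    calc _ ≤ (q : ℝ) * (q : ℝ)⁻¹ := mul_le_mul a1 a2 (by positivity) (by positivity)
      _ = 1 := mul_inv_cancel₀ (by positivity)
  have h2 : (Nat.gcd q D : ℝ) ≤ D := by exact_mod_cast Nat.gcd_le_right q hD0
  have h3 : (d2 D q : ℝ) ≤ D := by
    have : d2 D q ∣ D := by
      conv_rhs => rw [← Nat.prod_primeFactors_of_squarefree hD]
      exact prod_dvd_prod_of_subset _ _ _ (filter_subset _ _)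
    exact_mod_cast Nat.le_of_dvd hD0 this
  unfold kap
  calc _ ≤ 1 * (D : ℝ) * D := by gcongr
    _ = _ := by ring

theorem kap_nonneg (D q : ℕ) : 0 ≤ kap D q := by
  unfold kap
  have := tau_nonneg q
  positivity

theorem wq_nonneg (D : ℕ) (a b : ℚ) : 0 ≤ wq D a b := by
  unfold wq; positivity

end Pool.Agent.P.MP_0ad054_nt.Sun.GammaP
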