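import Pool.Agent.P.MP_0ad054_nt.Sun.GammaA
import Pool.Agent.P.MP_0ad054_nt.Sun.GammaB

/-! The counting form of a pure frequency on the major arcs. -/

namespace Pool.Agent.P.MP_0ad054_nt.Sun

open Finset Complex Real Pool.Agent.Lib.H9 SphereP

namespace GammaP

theorem e_eq (x : ℝ) : e x = ee x := rfl

theorem T1_eq {N D : ℕ} {δ : ℤ × ℤ} (hD : Squarefree D) (h : δ ∈ Del D) {γ : ℤ → ℂ}
    (hγ : ∀ n, γ n ≠ 0 → n ≤ N) (f : ℤ → ℂ) :
    T1 N D δ γ (fun _ => 1) f = ∑ n ∈ Icc (0 : ℤ) N, γ n *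
      ∑ v ∈ (sphere n).filter (fun v => (D : ℤ) ∣ δ.1 * v 2 - δ.2 * v 1), f (Q2 v) := by
  rw [sum_congr rfl fun n hn => by rw [← sum_box_eq hD h (mem_Icc.1 hn).2 f]]
  simp_rw [mul_sum]
  unfold T1
  rw [sum_comm (s := Icc (0 : ℤ) N)]
  refine sum_congr rfl fun ξ _ => ?_
  rw [sum_comm]
  refine sum_congr rfl fun η _ => ?_
  simp_rw [mul_ite, mul_zero]
  rw [sum_ite_eq, mul_one]
  split_ifs with h1
  · rfl
  · have h2 : γ (QQ D ξ η) = 0 := by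
      by_contra h3
      exact h1 (mem_Icc.2 ⟨by unfold QQ; positivity, hγ _ h3⟩)
    rw [h2, zero_mul]

/-- the coefficients of the theta series -/
noncomputable def cf (D : ℕ) (δ : ℤ × ℤ) (θ y : ℝ) (v : Fin 4 → ℤ) : ℂ :=
  (if (D : ℤ) ∣ δ.1 * v 2 - δ.2 * v 1 then e (θ * (Q2 v : ℤ)) else 0) * ee (y * I * nsq v)

theorem summable_cf (D : ℕ) (δ : ℤ × ℤ) (θ : ℝ) {y : ℝ} (hy : 0 < y) :
    Summable (fun v => ‖cf D δ θ y v‖) := by
  refine (summable_norm_ee_nsq (τ := y * I) (by simpa using hy)).of_nonneg_of_le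
    (fun _ => norm_nonneg _) fun v => ?_
  unfold cf
  rw [norm_mul]
  refine mul_le_of_le_one_left (norm_nonneg _) ?_
  split_ifs <;> simp [norm_e]

theorem cf_eq (D : ℕ) (δ : ℤ × ℤ) (a β : ℚ) (η y x : ℝ) (v : Fin 4 → ℤ) :
    cf D δ (β + η) y v * ee (x * nsq v) = psi D δ a β v *
      ∏ j, ee ((((x - a + cc j * η : ℝ) : ℂ) + y * I) * (v j : ℂ) ^ 2) := by
  unfold cf psi
  split_ifs
  · rw [e_eq, e_eq, ← ee_sum, ← ee_add, ← ee_add, ← ee_add]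
    congr 1
    simp only [Fin.sum_univ_four, nsq_eq', Q2, cc, Matrix.cons_val_zero, Matrix.cons_val_one,
      Matrix.cons_val]
    push_cast
    ring
  · simp

theorem T1_le {N D : ℕ} (hN : 1 ≤ N) {δ : ℤ × ℤ} (hD : Squarefree D) (h : δ ∈ Del D) {γ : ℤ → ℂ}
    (hγ1 : ∀ n, ‖γ n‖ ≤ 1) (hγ : ∀ n, γ n ≠ 0 → n ≤ N) (θ : ℝ) {G : ℝ → ℝ} (hG : Continuous G)
    (hB : ∀ x ∈ Set.Icc (0 : ℝ) 1, ‖∑' v, cf D δ θ (1 / N) v * ee (x * nsq v)‖ ^ 2 ≤ G x) :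
    ‖T1 N D δ γ (fun _ => 1) (fun m => e (θ * m))‖ ^ 2 ≤
      2 * Real.exp (2 * π) ^ 2 * N * ∫ x in (0 : ℝ)..1, G x := by
  have hN1 : (1 : ℝ) ≤ N := by exact_mod_cast hN
  have hb := bessel_int (cf D δ θ (1 / N)) nsq (summable_cf D δ θ (by positivity)) hG hB
    (Icc (0 : ℤ) N)
  rw [T1_eq hD h hγ]
  refine (cs_norm _ _ _).trans ?_
  have h1 : ∑ n ∈ Icc (0 : ℤ) N, ‖γ n‖ ^ 2 ≤ 2 * N := by
    refine (sum_le_card_nsmul _ _ 1 fun n _ => pow_le_one₀ (norm_nonneg _) (hγ1 n)).trans ?_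
    simp only [Int.card_Icc, sub_zero, nsmul_eq_mul, mul_one]
    have : ((N : ℤ) + 1).toNat = N + 1 := by omega
    rw [this]; push_cast; linarith
  have h2 : ∑ n ∈ Icc (0 : ℤ) N, ‖∑ v ∈ (sphere n).filter
      (fun v => (D : ℤ) ∣ δ.1 * v 2 - δ.2 * v 1), e (θ * (Q2 v : ℤ))‖ ^ 2 ≤
      Real.exp (2 * π) ^ 2 * ∫ x in (0 : ℝ)..1, G x := by
    refine le_trans ?_ (mul_le_mul_of_nonneg_left hb (by positivity))
    rw [mul_sum]
    refine sum_le_sum fun n hn => ?_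
    rw [← mul_pow, tsum_ite_nsq]
    have e1 : ∑ v ∈ sphere n, cf D δ θ (1 / N) v = (∑ v ∈ (sphere n).filter
        (fun v => (D : ℤ) ∣ δ.1 * v 2 - δ.2 * v 1), e (θ * (Q2 v : ℤ))) *
        ee ((1 / N : ℝ) * I * n) := by
      rw [sum_filter, sum_mul]
      exact sum_congr rfl fun v hv => by unfold cf; rw [mem_sphere.1 hv]
    rw [e1, norm_mul, norm_ee]
    have e2 : ((((1 / N : ℝ) : ℂ)) * I * n).im = n / N := by
      rw [show (((1 / N : ℝ) : ℂ)) * I * n = ((n / N : ℝ) : ℂ) * I by push_cast; ring]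
      rw [Complex.mul_I_im, Complex.ofReal_re]
    rw [e2, mul_left_comm, ← Real.exp_add]
    gcongr
    refine le_mul_of_one_le_right (norm_nonneg _) (Real.one_le_exp ?_)
    have : (n : ℝ) / N ≤ 1 := by
      rw [div_le_one (by positivity)]; exact_mod_cast (mem_Icc.1 hn).2
    nlinarith [Real.pi_pos]
  calc _ ≤ 2 * N * (Real.exp (2 * π) ^ 2 * ∫ x in (0 : ℝ)..1, G x) :=
        mul_le_mul h1 h2 (by positivity) (by positivity)
    _ = _ := by ring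

/-- fractions of bounded denominator -/
noncomputable def fr (n : ℕ) : Finset ℚ :=
  ((Icc (-(2 * n : ℤ)) (2 * n) ×ˢ Icc 1 n).image (fun p => (p.1 : ℚ) / p.2)).filter
    (fun a => -1 ≤ a ∧ a ≤ 2)

theorem mem_fr {n : ℕ} {a : ℚ} (h1 : -1 ≤ a) (h2 : a ≤ 2) (h3 : a.den ≤ n) : a ∈ fr n := by
  refine mem_filter.2 ⟨mem_image.2 ⟨(a.num, a.den), ?_, Rat.num_div_den a⟩, h1, h2⟩
  have h4 : (a.num : ℚ) = a * a.den := (Rat.mul_den_eq_num a).symm
  have h5 : (a.den : ℚ) ≤ n := by exact_mod_cast h3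
  have h6 : (0 : ℚ) ≤ a.den := by positivity
  simp only [mem_product, mem_Icc]
  refine ⟨⟨?_, ?_⟩, a.pos, h3⟩
  · have : -(2 * n : ℚ) ≤ a.num := by nlinarith
    exact_mod_cast this
  · have : (a.num : ℚ) ≤ 2 * n := by nlinarith
    exact_mod_cast this

theorem pointwise (hR : S_Rad) (hA : S_Arith) : ∃ C : ℝ, 0 < C ∧ ∀ (N D : ℕ) (δ : ℤ × ℤ) (β : ℚ)
    (η Q x : ℝ), 1 ≤ Q → Q ^ 1000 = N → GoodD D → δ ∈ Del D → (D : ℝ) ≤ Q → (β.den : ℝ) ≤ Q →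
    |η| ≤ Q / Q ^ 1000 → x ∈ Set.Icc (0 : ℝ) 1 →
    ‖∑' v, cf D δ (β + η) (1 / Q ^ 1000) v * ee (x * nsq v)‖ ^ 2 ≤ C * Q ^ 2820 +
      ∑ a ∈ fr (Nat.sqrt N), ∑ j, C * (wq D a β / (D : ℝ) ^ 2) *
        ((1 / max (1 / Q ^ 1000) |η|) ^ 2 + Q ^ 1836) *
        (1 / ((x + (cc j * η - a)) ^ 2 + (1 / Q ^ 1000) ^ 2)) := by
  obtain ⟨C1, hC1, h1⟩ := theta_diag
  obtain ⟨C2, hC2, h2⟩ := hA
  refine ⟨C1 * 16 * (C2 * 10 ^ 4 + 485 ^ 4), by positivity, ?_⟩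
  intro N D δ β η Q x hQ hQN hG hδ hDQ hβ hη hx
  have hN1 : 1 ≤ N := by
    have : (1 : ℝ) ≤ N := hQN ▸ one_le_pow₀ hQ
    exact_mod_cast this
  have hD0 : (0 : ℝ) < D := by exact_mod_cast Nat.pos_of_ne_zero hG.1.ne_zero
  obtain ⟨a, ha1, ha2⟩ := Real.exists_rat_abs_sub_le_and_den_le x (Nat.sqrt_pos.2 hN1)
  have hq1 : (1 : ℝ) ≤ a.den := by exact_mod_cast a.pos
  have hs1 : (Nat.sqrt N : ℝ) ≤ Q ^ 500 := by
    refine le_of_sq_le_sq ?_ (by positivity)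
    rw [← pow_mul, hQN]
    exact_mod_cast Nat.sqrt_le' N
  have hs2 : Q ^ 500 ≤ (Nat.sqrt N : ℝ) + 1 := by
    refine le_of_sq_le_sq ?_ (by positivity)
    rw [← pow_mul, hQN]
    exact_mod_cast (Nat.lt_succ_sqrt' N).le
  have ht : |x - a| ≤ 1 / (Q ^ 500 * a.den) := ha1.trans (by gcongr)
  have ht1 : |x - a| ≤ 1 := by
    refine ht.trans ?_
    rw [div_le_one (by positivity)]
    exact one_le_mul_of_one_le_of_one_le (one_le_pow₀ hQ) hq1
  have hfr : a ∈ fr (Nat.sqrt N) := by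
    have b := abs_le.1 ht1
    refine mem_fr ?_ ?_ ha2
    · have : (-1 : ℝ) ≤ a := by linarith [hx.1]
      exact_mod_cast this
    · have : (a : ℝ) ≤ 2 := by linarith [hx.2]
      exact_mod_cast this
  set z : Fin 4 → ℂ := fun j => ((x - a + cc j * η : ℝ) : ℂ) + (1 / Q ^ 1000 : ℝ) * I
  have hzi : ∀ j, (z j).im = 1 / Q ^ 1000 := by
    intro j
    simp only [z, Complex.add_im, Complex.ofReal_im, Complex.mul_I_im, Complex.ofReal_re, zero_add]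
  have hzr : ∀ j, (z j).re = x - a + cc j * η := by
    intro j
    simp only [z, Complex.add_re, Complex.ofReal_re, Complex.mul_I_re, Complex.ofReal_im, neg_zero,
      add_zero]
  have hy : (0 : ℝ) < 1 / Q ^ 1000 := by positivity
  obtain ⟨hper, hf⟩ := hR D δ a β hG.1 hG.2.1 hδ
  have hM0 : Lc a β * D ≠ 0 := mul_ne_zero (Nat.lcm_ne_zero a.den_nz β.den_nz) hG.1.ne_zero
  have h3 := h1 _ _ z _ hM0 hper (fun j => by rw [hzi]; exact hy) hf
  simp_rw [cf_eq D δ a]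
  refine h3.trans ?_
  simp_rw [hzi]
  have hM : ((Lc a β * D : ℕ) : ℝ) ≤ a.den * Q ^ 2 := by
    have : Lc a β ≤ a.den * β.den :=
      Nat.le_of_dvd (Nat.mul_pos a.pos β.pos) (Nat.lcm_dvd_mul _ _)
    have b1 : (Lc a β : ℝ) ≤ a.den * β.den := by exact_mod_cast this
    push_cast
    calc _ ≤ (a.den * Q) * Q := mul_le_mul (b1.trans (by gcongr)) hDQ hD0.le (by positivity)
      _ = _ := by ring
  have hx1 : ∀ j, 1 / Q ^ 1000 ≤ ‖z j‖ := fun j =>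
    (hzi j).symm.le.trans ((le_abs_self _).trans (Complex.abs_im_le_norm _))
  have hx2 : ∀ j, |x - a + cc j * η| ≤ ‖z j‖ := fun j => hzr j ▸ Complex.abs_re_le_norm _
  have hx3 : ∀ j, ‖z j‖ ≤ |x - a + cc j * η| + 1 / Q ^ 1000 := fun j => by
    have := Complex.norm_le_abs_re_add_abs_im (z j)
    rwa [hzr, hzi, abs_of_pos hy] at this
  have hw := wq_nonneg D a β
  have hterm : ∀ b ∈ fr (Nat.sqrt N), 0 ≤ ∑ j, C1 * 16 * (C2 * 10 ^ 4 + 485 ^ 4) *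
      (wq D b β / (D : ℝ) ^ 2) * ((1 / max (1 / Q ^ 1000) |η|) ^ 2 + Q ^ 1836) *
        (1 / ((x + (cc j * η - b)) ^ 2 + (1 / Q ^ 1000) ^ 2)) := by
    intro b _
    have := wq_nonneg D b β
    positivity
  rcases le_total (a.den : ℝ) (Q ^ 400) with hq | hq
  · have h4 := factor_small hQ hq1 ht hη (Nat.cast_nonneg _) hM hx1 hx2 hx3 hq
    refine le_trans ?_ (le_add_of_nonneg_of_le (by positivity) (single_le_sum hterm hfr))
    rw [← mul_sum]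
    have e1 : ∀ j, (1 / ‖z j‖) ^ 2 = 1 / ((x + (cc j * η - a)) ^ 2 + (1 / Q ^ 1000) ^ 2) := by
      intro j
      rw [one_div_pow, Complex.sq_norm, Complex.normSq_apply, hzr, hzi]
      congr 1; ring
    simp_rw [e1] at h4
    refine (mul_le_mul_of_nonneg_left h4 (by positivity)).trans ?_
    rw [← mul_assoc, ← mul_assoc]
    refine mul_le_mul_of_nonneg_right (mul_le_mul_of_nonneg_right ?_ (by positivity))
      (by positivity)
    calc _ = C1 * 16 * (0 + 485 ^ 4) * (wq D a β / (D : ℝ) ^ 2) := by ring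
      _ ≤ _ := by gcongr; positivity
  · have h4 := factor_large hQ hq1 ht hη (Nat.cast_nonneg _) hM hx1 hx3
      (le_trans (by exact_mod_cast ha2) hs1)
    refine le_trans ?_ (le_add_of_nonneg_right (sum_nonneg hterm))
    have h5 : wq D a β ≤ C2 * (D : ℝ) ^ 2 / (Q ^ 400) ^ 3 :=
      ((h2 D β hG).1 a).trans (by gcongr)
    calc _ ≤ C1 * (16 * (C2 * (D : ℝ) ^ 2 / (Q ^ 400) ^ 3) / (D : ℝ) ^ 2) * (10 ^ 4 * Q ^ 4020) := by
          refine mul_le_mul (by gcongr) h4 (prod_nonneg fun j _ => by positivity) (by positivity)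
      _ = C1 * 16 * (C2 * 10 ^ 4 + 0) * Q ^ 2820 := by field_simp; ring
      _ ≤ _ := by gcongr; positivity

end GammaP

open GammaP in
theorem gamma (hR : S_Rad) (hA : S_Arith) : S_Gamma := by
  obtain ⟨C1, hC1, h1⟩ := pointwise hR hA
  obtain ⟨C2, hC2, h2⟩ := hA
  refine ⟨2 * Real.exp (2 * π) ^ 2 * C1 * (1 + 64 * C2), by positivity, ?_⟩
  intro N D δ β η γ hN hG hδ hDQ hβ hη hγ1 hγ
  have hN1 : (1 : ℝ) ≤ N := by exact_mod_cast hN
  have hD0 : (0 : ℝ) < D := by exact_mod_cast Nat.pos_of_ne_zero hG.1.ne_zero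
  set Q : ℝ := (N : ℝ) ^ (1 / 1000 : ℝ)
  have hQ : 1 ≤ Q := Real.one_le_rpow hN1 (by norm_num)
  have hQN : Q ^ 1000 = N := by
    rw [← Real.rpow_natCast, ← Real.rpow_mul (by positivity)]; norm_num
  have hQ39 : (N : ℝ) ^ (39 / 10 : ℝ) = Q ^ 3900 := by
    rw [← Real.rpow_natCast, ← Real.rpow_mul (by positivity)]; norm_num
  clear_value Q
  set W : ℝ := (1 / max (1 / Q ^ 1000) |η|) ^ 2 + Q ^ 1836
  have hW : 0 ≤ W := by positivity
  have hy : (0 : ℝ) < 1 / Q ^ 1000 := by positivity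
  have hc : ∀ (a : ℚ) (j : Fin 4), Continuous fun x : ℝ => C1 * (wq D a β / (D : ℝ) ^ 2) * W *
      (1 / ((x + (cc j * η - a)) ^ 2 + (1 / Q ^ 1000) ^ 2)) := fun a j =>
    continuous_const.mul (continuous_const.div (by fun_prop) fun x => by positivity)
  have h3 := T1_le hN hG.1 hδ hγ1 hγ (β + η) (G := fun x => C1 * Q ^ 2820 +
      ∑ a ∈ fr (Nat.sqrt N), ∑ j, C1 * (wq D a β / (D : ℝ) ^ 2) * W *
        (1 / ((x + (cc j * η - a)) ^ 2 + (1 / Q ^ 1000) ^ 2)))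
    (continuous_const.add (continuous_finsetSum _ fun a _ => continuous_finsetSum _ fun j _ =>
      hc a j))
    (fun x hx => by
      have := h1 N D δ β η Q x hQ hQN hG hδ hDQ hβ (hQN ▸ hη) hx
      rw [hQN] at this ⊢
      simp only [W]
      rw [hQN]
      exact this)
  refine h3.trans ?_
  rw [intervalIntegral.integral_add (by simp) ((continuous_finsetSum _ fun a _ =>
    continuous_finsetSum _ fun j _ => hc a j).intervalIntegrable _ _),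
    intervalIntegral.integral_finsetSum fun a _ =>
      (continuous_finsetSum _ fun j _ => hc a j).intervalIntegrable _ _]
  have h4 : ∀ a ∈ fr (Nat.sqrt N), ∫ x in (0 : ℝ)..1, ∑ j, C1 * (wq D a β / (D : ℝ) ^ 2) * W *
      (1 / ((x + (cc j * η - a)) ^ 2 + (1 / Q ^ 1000) ^ 2)) ≤
      (16 * C1 * W * Q ^ 1000 / (D : ℝ) ^ 2) * wq D a β := by
    intro a _
    have hw := wq_nonneg D a β
    rw [intervalIntegral.integral_finsetSum fun j _ => (hc a j).intervalIntegrable _ _]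
    refine (sum_le_card_nsmul _ _ (C1 * (wq D a β / (D : ℝ) ^ 2) * W * (4 / (1 / Q ^ 1000)))
      fun j _ => ?_).trans (le_of_eq ?_)
    · rw [intervalIntegral.integral_const_mul]
      exact mul_le_mul_of_nonneg_left (lorentz _ hy) (by positivity)
    · rw [card_univ, Fintype.card_fin, nsmul_eq_mul, div_div_eq_mul_div]; push_cast; ring
  have h5 := (h2 D β hG).2 (fr (Nat.sqrt N)) fun a ha => (mem_filter.1 ha).2
  have h6 := sum_le_sum h4
  rw [← mul_sum] at h6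
  replace h6 := h6.trans (mul_le_mul_of_nonneg_left h5 (by positivity))
  have hk0 := kap_nonneg D β.den
  have hk1 := kap_le hG.1 β.den_nz
  set k := kap D β.den
  have hη0 := abs_nonneg η
  have h7 : (1 / max (1 / Q ^ 1000) |η|) ^ 2 ≤ 4 * (Q ^ 1000) ^ 2 / (1 + Q ^ 1000 * |η|) ^ 2 := by
    have : 1 / max (1 / Q ^ 1000) |η| ≤ 2 * Q ^ 1000 / (1 + Q ^ 1000 * |η|) := by
      rw [div_le_div_iff₀ (lt_max_of_lt_left hy)
        (add_pos_of_pos_of_nonneg one_pos (mul_nonneg (by positivity) hη0))]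
      have a1 : Q ^ 1000 * (1 / Q ^ 1000) ≤ Q ^ 1000 * max (1 / Q ^ 1000) |η| := by
        gcongr; exact le_max_left _ _
      have a2 : Q ^ 1000 * |η| ≤ Q ^ 1000 * max (1 / Q ^ 1000) |η| := by
        gcongr; exact le_max_right _ _
      rw [mul_one_div_cancel (by positivity)] at a1
      linarith
    calc _ ≤ (2 * Q ^ 1000 / (1 + Q ^ 1000 * |η|)) ^ 2 := by gcongr
      _ = _ := by rw [div_pow]; ring
  simp only [intervalIntegral.integral_const, sub_zero, one_smul]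
  rw [hQ39]
  generalize (∑ a ∈ fr (Nat.sqrt N), ∫ x in (0 : ℝ)..1, ∑ j, C1 * (wq D a β / (D : ℝ) ^ 2) * W *
      (1 / ((x + (cc j * η - a)) ^ 2 + (1 / Q ^ 1000) ^ 2))) = J at h6 ⊢
  rw [← hQN]
  set X := ((Q ^ 1000) ^ 2 / D) ^ 2 * k / (1 + Q ^ 1000 * |η|) ^ 2
  have hX : 0 ≤ X := div_nonneg (mul_nonneg (sq_nonneg _) hk0) (sq_nonneg _)
  have h8 : Q ^ 1000 * (16 * C1 * W * Q ^ 1000 / (D : ℝ) ^ 2 * (C2 * k)) ≤
      C1 * C2 * (64 * X + 16 * Q ^ 3900) :=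
    calc _ = 16 * C1 * C2 * ((Q ^ 1000) ^ 2 / (D : ℝ) ^ 2 * k * (1 / max (1 / Q ^ 1000) |η|) ^ 2 +
          Q ^ 3836 * (k / (D : ℝ) ^ 2)) := by simp only [W]; ring
      _ ≤ 16 * C1 * C2 * ((Q ^ 1000) ^ 2 / (D : ℝ) ^ 2 * k *
          (4 * (Q ^ 1000) ^ 2 / (1 + Q ^ 1000 * |η|) ^ 2) + Q ^ 3900 * 1) := by
          gcongr
          · norm_num
          · exact div_le_one_of_le₀ hk1 (by positivity)
      _ = _ := by simp only [X]; ring
  have h9 : Q ^ 1000 * (C1 * Q ^ 2820) ≤ C1 * Q ^ 3900 :=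
    calc _ = C1 * Q ^ 3820 := by ring
      _ ≤ _ := by gcongr; norm_num
  have h10 : 0 ≤ Q ^ 3900 := by positivity
  have h11 : Q ^ 1000 * J ≤ C1 * C2 * (64 * X + 16 * Q ^ 3900) :=
    (mul_le_mul_of_nonneg_left h6 (by positivity)).trans h8
  have h12 : Q ^ 1000 * (C1 * Q ^ 2820 + J) ≤ C1 * (1 + 64 * C2) * (X + Q ^ 3900) := by
    rw [mul_add]
    generalize Q ^ 3900 = Y at h9 h10 h11 ⊢
    nlinarith [mul_nonneg hC1.le hX, mul_nonneg (mul_pos hC1 hC2).le h10]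
  calc _ = 2 * Real.exp (2 * π) ^ 2 * (Q ^ 1000 * (C1 * Q ^ 2820 + J)) := by ring
    _ ≤ 2 * Real.exp (2 * π) ^ 2 * (C1 * (1 + 64 * C2) * (X + Q ^ 3900)) := by gcongr
    _ = _ := by ring

end Pool.Agent.P.MP_0ad054_nt.Sun
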