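import Pool.Agent.P.MP_0ad054_nt.Sun.SphereA

/-! Theta series of diagonal forms: Poisson summation, Bessel's inequality. -/

namespace Pool.Agent.P.MP_0ad054_nt.Sun.GammaP

open Finset Complex Real MeasureTheory Pool.Agent.Lib.H9

theorem gauss_sq_le : ∃ C : ℝ, 0 < C ∧ ∀ t : ℝ, 0 < t →
    (∑' k : ℤ, Real.exp (-π * t * (k : ℝ) ^ 2)) ^ 2 ≤ C * (1 + 1 / t) := by
  obtain ⟨C, hC, h⟩ := gauss4_le
  refine ⟨C + 1, by positivity, fun t ht => ?_⟩
  have h1 := h t ht
  rw [tsum_gauss4 ht] at h1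
  refine le_of_sq_le_sq ?_ (by positivity)
  have h2 : 0 ≤ 1 / t := by positivity
  have h3 : 1 / t ^ 2 = (1 / t) ^ 2 := by rw [one_div_pow]
  rw [← pow_mul]
  refine h1.trans ?_
  rw [h3, mul_pow]
  exact mul_le_mul (by nlinarith) (by nlinarith) (by positivity) (by positivity)

theorem dual_im {M : ℕ} (hM : M ≠ 0) {τ : ℂ} (hτ : 0 < τ.im) :
    (-1 / (4 * τ * M ^ 2) : ℂ).im = τ.im / (4 * M ^ 2 * ‖τ‖ ^ 2) := by
  have hM' : (M : ℂ) ≠ 0 := by exact_mod_cast hM
  have hτ0 : τ ≠ 0 := by rintro rfl; simp at hτ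
  have hMr : (0 : ℝ) < M := by exact_mod_cast Nat.pos_of_ne_zero hM
  have hn : 0 < ‖τ‖ := norm_pos_iff.2 hτ0
  have h1 : (-1 / (4 * τ * M ^ 2) : ℂ) = (1 / (4 * M ^ 2) : ℝ) * (-τ⁻¹) := by
    push_cast; field_simp
  rw [h1, Complex.im_ofReal_mul, Complex.neg_im, Complex.inv_im, Complex.normSq_eq_norm_sq]
  field_simp

theorem poisson_diag {M : ℕ} (hM : M ≠ 0) {φ : (Fin 4 → ℤ) → ℂ} (hφ : Per M φ) {z : Fin 4 → ℂ}
    (hz : ∀ j, 0 < (z j).im) :
    ∑' v : Fin 4 → ℤ, φ v * ∏ j, ee (z j * (v j : ℂ) ^ 2) =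
      (∏ j, 1 / (-2 * I * z j * M ^ 2) ^ (1 / 2 : ℂ)) *
        ∑' k : Fin 4 → ℤ, fhat M φ k * ∏ j, ee (-1 / (4 * z j * M ^ 2) * (k j : ℂ) ^ 2) := by
  set f : Fin 4 → ℤ → ℤ → ℂ :=
    fun j r x => if (M : ℤ) ∣ x - r then ee (z j * (x : ℂ) ^ 2) else 0 with hf
  have hfs : ∀ j r, Summable (fun x => ‖f j r x‖) := by
    intro j r
    refine (summable_norm_ee_sq (hz j)).of_nonneg_of_le (fun _ => norm_nonneg _) fun x => ?_
    simp only [f]; split_ifs <;> simp
  have e1 : ∀ v : Fin 4 → ℤ, φ v * ∏ j, ee (z j * (v j : ℂ) ^ 2) =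
      ∑ r ∈ res M, φ r * ∏ j, f j (r j) (v j) := by
    intro v
    rw [sum_eq_single_of_mem _ (emod_mem_res hM v)]
    · have hd : ∀ j, (M : ℤ) ∣ v j - v j % M := fun j => Int.dvd_self_sub_emod
      rw [hφ v _ hd]
      congr 1
      exact prod_congr rfl fun j _ => by simp only [f]; rw [if_pos (hd j)]
    · intro r hr hne
      by_contra h0
      apply hne
      refine eq_of_mem_res hr (emod_mem_res hM v) fun j => ?_
      have h1 : f j (r j) (v j) ≠ 0 := by
        intro h; apply h0; rw [prod_eq_zero (mem_univ j) h, mul_zero]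
      simp only [f, ne_eq, ite_eq_right_iff, Classical.not_imp] at h1
      have h2 : (M : ℤ) ∣ v j - v j % M := Int.dvd_self_sub_emod
      have := dvd_sub h2 h1.1
      have h3 : v j - v j % M - (v j - r j) = r j - v j % M := by ring
      rwa [h3] at this
  simp_rw [e1]
  have hs1 : ∀ r : Fin 4 → ℤ, Summable (fun v : Fin 4 → ℤ => φ r * ∏ j, f j (r j) (v j)) :=
    fun r => ((pi_prod_summable (fun j => f j (r j)) (fun j => hfs _ _)).1.of_norm).mul_left _
  rw [Summable.tsum_finsetSum (fun r _ => hs1 r)]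
  have hσim : ∀ j, 0 < (-1 / (4 * z j * M ^ 2) : ℂ).im := by
    intro j
    rw [dual_im hM (hz j)]
    have hτ0 : z j ≠ 0 := by intro h; have := hz j; rw [h] at this; simp at this
    have hMr : (0 : ℝ) < M := by exact_mod_cast Nat.pos_of_ne_zero hM
    have hn : 0 < ‖z j‖ := norm_pos_iff.2 hτ0
    have := hz j
    positivity
  set g : Fin 4 → ℤ → ℤ → ℂ :=
    fun j r k => ee (-1 / (4 * z j * M ^ 2) * (k : ℂ) ^ 2) * ee ((k * r : ℤ) / M)
  have hgs : ∀ j r, Summable (fun x => ‖g j r x‖) := by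
    intro j r
    convert summable_norm_ee_sq (hσim j) using 2 with x
    simp only [g]; rw [norm_mul, norm_ee_div, mul_one]
  have e2 : ∀ r : Fin 4 → ℤ, ∑' v : Fin 4 → ℤ, φ r * ∏ j, f j (r j) (v j) =
      (∏ j, 1 / (-2 * I * z j * M ^ 2) ^ (1 / 2 : ℂ)) *
        ∑' k : Fin 4 → ℤ, φ r * ∏ j, g j (r j) (k j) := by
    intro r
    rw [tsum_mul_left, tsum_mul_left, (pi_prod_summable (fun j => f j (r j)) (fun j => hfs _ _)).2,
      (pi_prod_summable (fun j => g j (r j)) (fun j => hgs _ _)).2]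
    simp only [f]
    simp_rw [poisson1 hM _ (hz _)]
    rw [prod_mul_distrib, mul_left_comm]
  simp_rw [e2]
  rw [← mul_sum]
  congr 1
  have hs2 : ∀ r : Fin 4 → ℤ, Summable (fun k : Fin 4 → ℤ => φ r * ∏ j, g j (r j) (k j)) :=
    fun r => ((pi_prod_summable (fun j => g j (r j)) (fun j => hgs _ _)).1.of_norm).mul_left _
  rw [← Summable.tsum_finsetSum (fun r _ => hs2 r)]
  refine tsum_congr fun k => ?_
  unfold fhat
  rw [sum_mul]
  refine sum_congr rfl fun r _ => ?_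
  simp only [g]
  rw [prod_mul_distrib, ← ee_sum (f := fun j => ((k j * r j : ℤ) : ℂ) / M), mul_assoc,
    mul_comm (∏ j, _)]
  congr 3
  unfold dot; push_cast; rw [sum_div]

theorem theta_diag : ∃ C : ℝ, 0 < C ∧ ∀ (M : ℕ) (φ : (Fin 4 → ℤ) → ℂ) (z : Fin 4 → ℂ) (B : ℝ),
    M ≠ 0 → Per M φ → (∀ j, 0 < (z j).im) → (∀ k, ‖fhat M φ k‖ ^ 2 ≤ B * (M : ℝ) ^ 8) →
    ‖∑' v : Fin 4 → ℤ, φ v * ∏ j, ee (z j * (v j : ℂ) ^ 2)‖ ^ 2 ≤
      C * B * ∏ j, (1 / ‖z j‖ + (M : ℝ) ^ 2 * ‖z j‖ / (z j).im) := by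
  obtain ⟨C, hC, h⟩ := gauss_sq_le
  refine ⟨C ^ 4, by positivity, fun M φ z B hM hφ hz hB => ?_⟩
  have hMr : (0 : ℝ) < M := by exact_mod_cast Nat.pos_of_ne_zero hM
  have hn : ∀ j, 0 < ‖z j‖ := fun j => norm_pos_iff.2 (by
    intro h; have := hz j; rw [h] at this; simp at this)
  set t : Fin 4 → ℝ := fun j => (z j).im / (2 * M ^ 2 * ‖z j‖ ^ 2)
  have ht : ∀ j, 0 < t j := fun j => by have := hz j; have := hn j; simp only [t]; positivity
  have hB0 : 0 ≤ B * (M : ℝ) ^ 8 := le_trans (by positivity) (hB 0)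
  have hne : ∀ j (x : ℤ), ‖ee (-1 / (4 * z j * M ^ 2) * (x : ℂ) ^ 2)‖ =
      Real.exp (-π * t j * (x : ℝ) ^ 2) := by
    intro j x
    rw [norm_ee]
    have : (-1 / (4 * z j * M ^ 2) * (x : ℂ) ^ 2).im =
        (-1 / (4 * z j * M ^ 2) : ℂ).im * (x : ℝ) ^ 2 := by
      rw [← Complex.im_mul_ofReal]; push_cast; rfl
    rw [this, dual_im hM (hz j)]
    congr 1
    simp only [t]
    have := hn j
    field_simp
    ring
  have hp := pi_prod_summable (d := 4)
    (fun j x => ((Real.exp (-π * t j * (x : ℝ) ^ 2) : ℝ) : ℂ)) (fun j => by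
      refine (summable_gauss (ht j)).congr fun x => ?_
      rw [Complex.norm_real, Real.norm_of_nonneg (Real.exp_pos _).le])
  have hs : Summable (fun k : Fin 4 → ℤ => ∏ j, Real.exp (-π * t j * (k j : ℝ) ^ 2)) := by
    refine hp.1.congr fun k => ?_
    rw [← Complex.ofReal_prod, Complex.norm_real, Real.norm_of_nonneg (by positivity)]
  have he : ∑' k : Fin 4 → ℤ, ∏ j, Real.exp (-π * t j * (k j : ℝ) ^ 2) =
      ∏ j, ∑' x : ℤ, Real.exp (-π * t j * (x : ℝ) ^ 2) := by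
    apply Complex.ofReal_injective
    rw [Complex.ofReal_tsum, Complex.ofReal_prod]
    simp_rw [Complex.ofReal_tsum, Complex.ofReal_prod]
    exact hp.2
  have h1 : ‖∑' k : Fin 4 → ℤ, fhat M φ k * ∏ j, ee (-1 / (4 * z j * M ^ 2) * (k j : ℂ) ^ 2)‖ ≤
      √(B * (M : ℝ) ^ 8) * ∏ j, ∑' x : ℤ, Real.exp (-π * t j * (x : ℝ) ^ 2) := by
    rw [← he, ← tsum_mul_left]
    refine tsum_of_norm_bounded (hs.mul_left _).hasSum fun k => ?_
    rw [norm_mul, norm_prod]
    simp_rw [hne]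
    exact mul_le_mul_of_nonneg_right (Real.le_sqrt_of_sq_le (hB k)) (by positivity)
  have h2 : ∀ j, ‖1 / (-2 * I * z j * M ^ 2) ^ (1 / 2 : ℂ)‖ ^ 2 = 1 / (2 * ‖z j‖ * M ^ 2) := by
    intro j
    rw [← norm_pow, one_div_pow, one_div (2 : ℂ), Complex.cpow_ofNat_inv_pow]
    simp
  rw [poisson_diag hM hφ hz, norm_mul, mul_pow, norm_prod, ← prod_pow]
  simp_rw [h2]
  calc _ ≤ (∏ j, 1 / (2 * ‖z j‖ * M ^ 2)) *
        (√(B * (M : ℝ) ^ 8) * ∏ j, ∑' x : ℤ, Real.exp (-π * t j * (x : ℝ) ^ 2)) ^ 2 := by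
        gcongr
    _ = B * ∏ j, ((M : ℝ) ^ 2 * (1 / (2 * ‖z j‖ * M ^ 2)) *
        (∑' x : ℤ, Real.exp (-π * t j * (x : ℝ) ^ 2)) ^ 2) := by
        rw [mul_pow, Real.sq_sqrt hB0, ← prod_pow, prod_mul_distrib, prod_mul_distrib, prod_const,
          card_univ, Fintype.card_fin]
        ring
    _ ≤ B * ∏ j, (C * (1 / ‖z j‖ + (M : ℝ) ^ 2 * ‖z j‖ / (z j).im)) := by
        refine mul_le_mul_of_nonneg_left (prod_le_prod (fun j _ => by positivity) fun j _ => ?_)
          (nonneg_of_mul_nonneg_left hB0 (by positivity))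
        have a1 := hn j
        have a2 := hz j
        calc _ ≤ (M : ℝ) ^ 2 * (1 / (2 * ‖z j‖ * M ^ 2)) * (C * (1 + 1 / t j)) :=
              mul_le_mul_of_nonneg_left (h _ (ht j)) (by positivity)
          _ = C * (1 / (2 * ‖z j‖) + (M : ℝ) ^ 2 * ‖z j‖ / (z j).im) := by
              simp only [t]; field_simp
          _ ≤ _ := by gcongr; linarith
    _ = _ := by
        rw [prod_mul_distrib, prod_const, card_univ, Fintype.card_fin]; ring

theorem bessel_int {V : Type*} [Countable V] (c : V → ℂ) (N : V → ℤ)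
    (hc : Summable (fun v => ‖c v‖)) {G : ℝ → ℝ} (hG : Continuous G)
    (hB : ∀ x ∈ Set.Icc (0 : ℝ) 1, ‖∑' v, c v * ee (x * N v)‖ ^ 2 ≤ G x) (S : Finset ℤ) :
    ∑ m ∈ S, ‖∑' v, if N v = m then c v else 0‖ ^ 2 ≤ ∫ x in (0 : ℝ)..1, G x := by
  set f : ℝ → ℂ := fun x => ∑' v, c v * ee (x * N v)
  have hn : ∀ (v : V) (x : ℝ), ‖c v * ee (x * N v)‖ = ‖c v‖ := by
    intro v x
    have := norm_ee_real (x * N v)
    push_cast at this
    rw [norm_mul, this, mul_one]
  have hcont : Continuous f :=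
    continuous_tsum (fun v => continuous_const.mul (continuous_ee.comp (by fun_prop))) hc
      (fun v x => (hn v x).le)
  have hL2 : MemLp f 2 (volume.restrict (Set.Ioc (0 : ℝ) 1)) :=
    MemLp.of_bound hcont.aestronglyMeasurable (∑' v, ‖c v‖) (Filter.Eventually.of_forall
      fun x => tsum_of_norm_bounded hc.hasSum fun v => (hn v x).le)
  have hP := hasSum_sq_fourierCoeffOn zero_lt_one hL2
  have hcoef : ∀ m : ℤ, fourierCoeffOn zero_lt_one f m = ∑' v, if N v = m then c v else 0 := by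
    intro m
    rw [fourierCoeffOn_eq_integral]
    have h1 : ∀ x : ℝ, fourier (-m) (x : AddCircle ((1 : ℝ) - 0)) • f x =
        ∑' v, c v * ee (x * (N v - m : ℤ)) := by
      intro x
      rw [fourier_coe_apply, smul_eq_mul, ← tsum_mul_left]
      refine tsum_congr fun v => ?_
      unfold ee
      rw [mul_left_comm, ← Complex.exp_add]
      congr 2; push_cast; ring
    simp_rw [h1]
    have hn' : ∀ (v : V) (x : ℝ), ‖c v * ee (x * (N v - m : ℤ))‖ = ‖c v‖ := by
      intro v x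
      have := norm_ee_real (x * (N v - m : ℤ))
      push_cast at this ⊢
      rw [norm_mul, this, mul_one]
    rw [intervalIntegral.integral_of_le zero_le_one, ← integral_tsum_of_summable_integral_norm]
    · simp only [sub_zero, div_one, one_smul]
      refine tsum_congr fun v => ?_
      rw [← intervalIntegral.integral_of_le zero_le_one, intervalIntegral.integral_const_mul,
        integral_ee_int]
      simp [sub_eq_zero]
    · intro v
      exact (Continuous.integrableOn_Icc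
        (continuous_const.mul (continuous_ee.comp (by fun_prop)))).mono_set Set.Ioc_subset_Icc_self
    · simp_rw [hn']
      simpa using hc
  simp_rw [hcoef] at hP
  refine (sum_le_hasSum S (fun _ _ => by positivity) hP).trans ?_
  simp only [sub_zero, inv_one, one_smul]
  exact intervalIntegral.integral_mono_on zero_le_one ((hcont.norm.pow 2).intervalIntegrable _ _)
    (hG.intervalIntegrable _ _) hB

theorem lorentz (s : ℝ) {y : ℝ} (hy : 0 < y) :
    ∫ x in (0 : ℝ)..1, 1 / ((x + s) ^ 2 + y ^ 2) ≤ 4 / y := by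
  have hd : ∀ x ∈ Set.uIcc (0 : ℝ) 1, HasDerivAt (fun x => Real.arctan ((x + s) / y) / y)
      (1 / ((x + s) ^ 2 + y ^ 2)) x := by
    intro x _
    have h1 := ((((hasDerivAt_id x).add_const s).div_const y).arctan).div_const y
    refine HasDerivAt.congr_deriv h1 ?_
    simp only [id]
    field_simp
    ring
  rw [intervalIntegral.integral_eq_sub_of_hasDerivAt hd
    (Continuous.intervalIntegrable (continuous_const.div (by fun_prop) fun x => by positivity) _ _),
    ← sub_div]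
  gcongr
  linarith [Real.arctan_lt_pi_div_two ((1 + s) / y), Real.neg_pi_div_two_lt_arctan ((0 + s) / y),
    Real.pi_le_four]

end Pool.Agent.P.MP_0ad054_nt.Sun.GammaP
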