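import Pool.Agent.P.MP_0ad054_nt.Sun.UB

/-! The core inequality and the choice of parameters. -/

namespace Pool.Agent.P.MP_0ad054_nt.Sun.FinP

open Finset
open scoped ArithmeticFunction.vonMangoldt

/-- indicator of a set of natural numbers -/
noncomputable def gam (E : Finset ℕ) (n : ℤ) : ℝ := ∑ a ∈ E, if n = a then 1 else 0

theorem gam_eq (E : Finset ℕ) (n : ℤ) : gam E n = 0 ∨ (gam E n = 1 ∧ ∃ a ∈ E, n = a) := by
  by_cases h : ∃ a ∈ E, n = a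
  · obtain ⟨a, ha, rfl⟩ := h
    refine Or.inr ⟨?_, a, ha, rfl⟩
    simp [gam, ha]
  · refine Or.inl (sum_eq_zero fun a ha => if_neg fun h' => h ⟨a, ha, h'⟩)

theorem norm_gam (E : Finset ℕ) (n : ℤ) : ‖(gam E n : ℂ)‖ ≤ 1 := by
  rcases gam_eq E n with h | h
  · simp [h]
  · simp [h.1]

theorem gam_supp {E : Finset ℕ} {N : ℕ} (hE : ∀ n ∈ E, 3 ≤ n ∧ n ≤ N) (n : ℤ)
    (h : (gam E n : ℂ) ≠ 0) : 3 ≤ n ∧ n ≤ N := by
  rcases gam_eq E n with h' | ⟨_, a, ha, rfl⟩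
  · simp [h'] at h
  · have := hE a ha; omega

/-- real form of the counting form -/
noncomputable def TR (N D : ℕ) (E : Finset ℕ) (u : ℤ → ℝ) (F : ℕ → ℝ) : ℝ :=
  ∑ δ ∈ Del D, ∑ ξ ∈ box (Nat.sqrt N), ∑ η ∈ box (Nat.sqrt (N / D)),
    gam E (QQ D ξ η) * u (GG ξ) * F (GG ξ + AA δ η).toNat

theorem TR_le (N D : ℕ) (E : Finset ℕ) (u : ℤ → ℝ) (F : ℕ → ℝ) :
    |TR N D E u F| = ‖TT N D (fun n => gam E n) (fun g => u g) (fun m => F m.toNat)‖ := by
  rw [← Real.norm_eq_abs, ← Complex.norm_real]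
  congr 1
  simp only [TR, TT, T1]; push_cast; rfl

theorem sum_toNat (N : ℕ) (φ : ℕ → ℝ) :
    ∑ m ∈ Icc (3 : ℤ) (7 * N), φ m.toNat = ∑ m ∈ Icc 3 (7 * N), φ m := by
  refine sum_bij (fun m _ => m.toNat) ?_ ?_ ?_ (fun _ _ => rfl)
  · intro a ha; rw [mem_Icc] at *; omega
  · intro a ha b hb h; rw [mem_Icc] at *; omega
  · intro b hb; exact ⟨b, by rw [mem_Icc] at *; omega, by simp⟩

theorem TR_ub {N D : ℕ} (hD : 1 ≤ D) (hN : D ≤ N) {E : Finset ℕ} (hE : ∀ n ∈ E, 3 ≤ n ∧ n ≤ N)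
    (u : ℤ → ℝ) (F : ℕ → ℝ) {ρ e : ℝ} (h1 : ∑ g ∈ Icc (0 : ℤ) (8 * N), u g ^ 2 * rG N g ^ 2 ≤ ρ)
    (h2 : ∑ m ∈ Icc 3 (7 * N), F m ^ 2 ≤ e) :
    |TR N D E u F| ≤ (Del D).card * (9 * N / D) * Real.sqrt (ρ * e) := by
  rw [TR_le]
  refine (ub N D e _ _ _ hD hN (norm_gam E) (gam_supp hE) ?_).trans ?_
  · simp only [Complex.norm_real, Real.norm_eq_abs, sq_abs]
    rw [sum_toNat N (fun m => F m ^ 2)]; exact h2
  · simp only [Complex.norm_real, Real.norm_eq_abs, sq_abs]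
    rw [Real.sqrt_mul (le_trans (by positivity) h1), mul_assoc]
    gcongr

theorem rG_sq_le (N : ℕ) (g : ℤ) : rG N g ^ 2 ≤ rG N g ^ 3 := by
  unfold rG
  generalize (filter (fun ξ => GG ξ = g) (box N.sqrt)).card = r
  rcases Nat.eq_zero_or_pos r with rfl | h
  · simp
  · exact pow_le_pow_right₀ (by exact_mod_cast h) (by norm_num)

open Classical in
theorem core {N D : ℕ} (hD : 1 ≤ D) (hN : D ≤ N) (s : Sv N) {E : Finset ℕ}
    (hE : ∀ n ∈ E, 3 ≤ n ∧ n ≤ N) {K m0 ρ e τ : ℝ} (hK : 0 < K)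
    (hsph : ∀ n ∈ E, ∀ δ ∈ Del D, m0 ≤ ∑ ξ ∈ box (Nat.sqrt N), ∑ η ∈ box (Nat.sqrt (N / D)),
        if QQ D ξ η = n then mdlp s (GG ξ + AA δ η).toNat else 0)
    (hexc : ∀ n ∈ E, ∀ δ ∈ Del D, ∀ ξ η, QQ D ξ η = n → ¬ B1 s D (GG ξ + AA δ η).toNat →
      sig s (GG ξ + AA δ η).toNat ≤ 0)
    (hρ : ∑ g ∈ Icc (0 : ℤ) (8 * N), rG N g ^ 3 ≤ ρ)
    (h0 : ∑ m ∈ (Icc 3 (7 * N)).filter (B0 s), mdl s m ^ 2 ≤ e)
    (h1 : ∑ m ∈ Icc 3 (7 * N), mdl s m ^ 2 ≤ e * K)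
    (h2 : ∑ m ∈ (Icc 3 (7 * N)).filter (B1 s D), (Λ m * sig s m) ^ 2 ≤ e)
    (hT : ‖TT N D (fun n => gam E n) (uK N K) (fun m => (aa s m.toNat : ℂ))‖ ≤ τ) :
    (Del D).card * (E.card * m0) ≤ 3 * ((Del D).card * (9 * N / D) * Real.sqrt (ρ * e)) + τ := by
  set u : ℤ → ℝ := fun g => if rG N g ≤ K then 1 else 0
  have hu : (fun g => (u g : ℂ)) = uK N K := by
    funext g; simp only [u, uK]; split_ifs <;> simp
  set F0 : ℕ → ℝ := fun m => if B0 s m then |mdl s m| else 0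
  set F1 : ℕ → ℝ := fun m => if B1 s D m then Λ m * sig s m else 0
  have a1 : (Del D).card * (E.card * m0) ≤ TR N D E (fun _ => 1) (mdlp s) := by
    rw [← nsmul_eq_mul, ← sum_const, TR]
    refine sum_le_sum fun δ hδ => ?_
    rw [← nsmul_eq_mul, ← sum_const]
    refine (sum_le_sum fun n hn => hsph n hn δ hδ).trans (le_of_eq ?_)
    rw [sum_comm]
    refine sum_congr rfl fun ξ _ => ?_
    rw [sum_comm]
    refine sum_congr rfl fun η _ => ?_
    rw [gam, mul_one, sum_mul]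
    exact sum_congr rfl fun n _ => by split_ifs <;> simp
  have a2 : TR N D E (fun _ => 1) (mdlp s) ≤ TR N D E (fun _ => 1) F0 +
      TR N D E (fun g => 1 - u g) (mdl s) + TR N D E u F1 - TR N D E u (aa s) := by
    simp only [TR, ← sum_add_distrib, ← sum_sub_distrib]
    refine sum_le_sum fun δ hδ => sum_le_sum fun ξ _ => sum_le_sum fun η _ => ?_
    rcases gam_eq E (QQ D ξ η) with h | ⟨h, n, hn, hn'⟩
    · simp [h]
    · have h3 := hexc n hn δ hδ ξ η hn'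
      generalize (GG ξ + AA δ η).toNat = m at h3
      have h4 : Λ m * sig s m ≤ F1 m := by
        simp only [F1]
        split_ifs with hb
        · rfl
        · exact mul_nonpos_of_nonneg_of_nonpos ArithmeticFunction.vonMangoldt_nonneg (h3 hb)
      have h5 : 0 ≤ u (GG ξ) := by simp only [u]; split_ifs <;> norm_num
      have h6 := mul_le_mul_of_nonneg_left h4 h5
      rw [h, mdlp, aa]
      simp only [F0]
      linarith
  have r1 : ∀ v : ℤ → ℝ, (∀ g, v g ^ 2 ≤ 1) →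
      ∑ g ∈ Icc (0 : ℤ) (8 * N), v g ^ 2 * rG N g ^ 2 ≤ ρ := fun v hv =>
    le_trans (sum_le_sum fun g _ => (mul_le_of_le_one_left (by positivity) (hv g)).trans
      (rG_sq_le N g)) hρ
  have b0 := TR_ub hD hN hE (fun _ => 1) F0 (r1 _ fun _ => by norm_num) (e := e) (by
    refine le_trans (le_of_eq ?_) h0
    rw [sum_filter]
    exact sum_congr rfl fun m _ => by simp only [F0]; split_ifs <;> simp)
  have b1 := TR_ub hD hN hE (fun g => 1 - u g) (mdl s) (ρ := ρ / K) (by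
    rw [le_div_iff₀ hK, sum_mul]
    refine le_trans (sum_le_sum fun g _ => ?_) hρ
    have := rG_nonneg N g
    simp only [u]
    split_ifs with h
    · simp; positivity
    · rw [sub_zero, one_pow, one_mul, pow_succ (rG N g) 2]
      gcongr; exact (not_le.1 h).le) h1
  rw [show ρ / K * (e * K) = ρ * e by field_simp] at b1
  have b2 := TR_ub hD hN hE u F1 (r1 _ fun g => by simp only [u]; split_ifs <;> norm_num)
    (e := e) (by
    refine le_trans (le_of_eq ?_) h2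
    rw [sum_filter]
    exact sum_congr rfl fun m _ => by simp only [F1]; split_ifs <;> simp)
  have b3 := TR_le N D E u (aa s)
  rw [hu] at b3
  rw [← b3] at hT
  rw [abs_le] at b0 b1 b2 hT
  linarith [b0.2, b1.2, b2.2, hT.1]

theorem one_le_LL (N : ℕ) : 1 ≤ LL N := by
  have := Real.log_natCast_nonneg N
  unfold LL; linarith

theorem params {ε : ℝ} (hε : 0 < ε) (J l0 : ℕ) : ∃ N0 : ℕ, ∀ N : ℕ, N0 ≤ N → ∃ l : ℕ, l0 ≤ l ∧
    (l : ℝ) ≤ LL N ∧ LL N ^ J ≤ 2 ^ l ∧ (2 : ℝ) ^ (2 * l ^ 4) ≤ (N : ℝ) ^ ε := by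
  have h1 : ∀ᶠ l : ℕ in Filter.atTop, ((l : ℝ) + 1) ^ (5 * J) ≤ 2 ^ l := by
    have := (tendsto_pow_const_div_const_pow_of_one_lt (5 * J) (r := 2) one_lt_two).comp
      (Filter.tendsto_add_atTop_nat 1)
    filter_upwards [this.eventually_le_const (show (0 : ℝ) < 1 / 2 by norm_num)] with l hl
    simp only [Function.comp] at hl
    rw [div_le_iff₀ (by positivity), pow_succ] at hl
    push_cast at hl
    linarith
  obtain ⟨l1, hl1⟩ := Filter.eventually_atTop.1 h1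
  obtain ⟨l2, hl2⟩ := exists_nat_ge (4 / ε)
  set m := l0 + l1 + l2 + 2
  refine ⟨⌈Real.exp (m ^ 5)⌉₊, fun N hN => ?_⟩
  have hN' : Real.exp (m ^ 5) ≤ N := Nat.ceil_le.1 hN
  have hN0 : (0 : ℝ) < N := lt_of_lt_of_le (Real.exp_pos _) hN'
  have h2 : (m : ℝ) ^ 5 ≤ Real.log N := (Real.le_log_iff_exp_le hN0).2 hN'
  have hL := one_le_LL N
  set x := LL N ^ (1 / 5 : ℝ)
  have hx : x ^ 5 = LL N := by
    simp only [x]; rw [← Real.rpow_natCast, ← Real.rpow_mul (by linarith)]; norm_num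
  have hx0 : 0 ≤ x := by positivity
  have h3 : m ≤ ⌊x⌋₊ := by
    refine Nat.le_floor ((pow_le_pow_iff_left₀ (by positivity) hx0 (n := 5) (by norm_num)).1 ?_)
    rw [hx]; unfold LL; linarith
  set l := ⌊x⌋₊
  have h4 : (l : ℝ) ≤ x := Nat.floor_le hx0
  have h5 : x ≤ l + 1 := (Nat.lt_floor_add_one x).le
  have hl2' : (2 : ℝ) ≤ l := by exact_mod_cast (by omega : 2 ≤ l)
  have h6 : (l : ℝ) ^ 5 ≤ LL N := by rw [← hx]; gcongr
  refine ⟨l, by omega, le_trans (le_self_pow₀ (by linarith) (by norm_num)) h6, ?_, ?_⟩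
  · refine le_trans ?_ (hl1 l (by omega))
    rw [← hx, ← pow_mul]; gcongr
  · rw [← Real.rpow_natCast, Real.rpow_def_of_pos two_pos, Real.rpow_def_of_pos hN0,
      Real.exp_le_exp]
    have h7 : 4 / ε ≤ l := hl2.trans (by exact_mod_cast (by omega : l2 ≤ l))
    rw [div_le_iff₀ hε] at h7
    have h8 : Real.log 2 ≤ 1 := by linarith [Real.log_two_lt_d9]
    have h9 : (2 : ℝ) ^ 5 ≤ l ^ 5 := by gcongr
    have h10 : (l : ℝ) ^ 5 / 2 ≤ Real.log N := by unfold LL at h6; linarith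
    push_cast
    calc _ ≤ 1 * (2 * (l : ℝ) ^ 4) := by gcongr
      _ = 4 * l ^ 4 / 2 := by ring
      _ ≤ l * ε * l ^ 4 / 2 := by gcongr
      _ = l ^ 5 / 2 * ε := by ring
      _ ≤ _ := by gcongr

theorem exists_D (hP : S_Primes) (hΔ : S_Delta) : ∃ l0 : ℕ, ∀ l : ℕ, l0 ≤ l → ∃ D : ℕ,
    GoodD D ∧ D ≤ 2 ^ (2 * l ^ 4) ∧ (∀ p ∈ D.primeFactors, 2 ^ l < p) ∧
    ∑ p ∈ D.primeFactors, 1 / (p : ℝ) ≤ 1 / 2 ^ l ∧ (2 ^ l) ^ 2 ≤ (Del D).card := by
  obtain ⟨Z0, hZ⟩ := hP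
  refine ⟨Z0 + 16, fun l hl => ?_⟩
  have h2 : l < 2 ^ l := Nat.lt_two_pow_self
  have h3 : (2 ^ l) ^ 16 ≤ 2 ^ l ^ 2 := by
    rw [← pow_mul]; exact Nat.pow_le_pow_right two_pos (by nlinarith)
  have h4 : (l ^ 2) ^ 8 ≤ 2 ^ l ^ 2 := by
    refine le_trans ?_ h3
    rw [← pow_mul]; exact Nat.pow_le_pow_left h2.le _
  have h5 : 2 ^ l ≤ 2 ^ l ^ 2 := Nat.pow_le_pow_right two_pos (by nlinarith)
  set Z := 2 ^ l ^ 2 with hZd
  have h6 : l ^ 2 ≤ ((Ioc Z (2 * Z)).filter (fun p => p.Prime ∧ p % 4 = 1)).card := by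
    have h7 := hZ Z (by omega)
    have h8 : ((l ^ 2 : ℕ) : ℝ) ≤ Real.sqrt Z := by
      refine Real.le_sqrt_of_sq_le ?_
      exact_mod_cast le_trans (Nat.pow_le_pow_right (by nlinarith) (by norm_num)) h4
    exact_mod_cast h8.trans h7
  obtain ⟨T, hT, hc⟩ := exists_subset_card_eq h6
  have hT' : ∀ p ∈ T, Z < p ∧ p ≤ 2 * Z ∧ p.Prime ∧ p % 4 = 1 := fun p hp => by
    have := hT hp
    rw [mem_filter, mem_Ioc] at this
    exact ⟨this.1.1, this.1.2, this.2⟩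
  have hf : (∏ p ∈ T, p).primeFactors = T := Nat.primeFactors_prod fun p hp => (hT' p hp).2.2.1
  have hsq : Squarefree (∏ p ∈ T, p) := by
    refine Finset.squarefree_prod_of_pairwise_isCoprime (fun p hp q hq hpq => ?_)
      fun p hp => (hT' p hp).2.2.1.squarefree
    exact Nat.coprime_iff_isRelPrime.1 ((Nat.coprime_primes (hT' p hp).2.2.1
      (hT' q hq).2.2.1).2 hpq)
  refine ⟨∏ p ∈ T, p, ⟨hsq, ?_, ?_⟩, ?_, ?_, ?_, ?_⟩
  · exact prod_induction _ Odd (fun a b ha hb => ha.mul hb) odd_one fun p hp => by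
      have := (hT' p hp).2.2.2
      rw [Nat.odd_iff]; omega
  · rw [hf, hc]
    intro p hp
    have := (hT' p hp).1
    omega
  · refine (prod_le_pow_card _ _ (2 * Z) fun p hp => (hT' p hp).2.1).trans ?_
    rw [hc, hZd, ← pow_succ', ← pow_mul]
    exact Nat.pow_le_pow_right two_pos (by nlinarith [Nat.one_le_pow 2 l (by omega)])
  · rw [hf]
    intro p hp
    have := (hT' p hp).1
    omega
  · rw [hf]
    have hZ0 : (0 : ℝ) < Z := by positivity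
    calc _ ≤ ∑ p ∈ T, 1 / (Z : ℝ) := sum_le_sum fun p hp => by
          gcongr; exact (hT' p hp).1.le
      _ ≤ _ := by
          rw [sum_const, hc, nsmul_eq_mul, mul_one_div, div_le_div_iff₀ hZ0 (by positivity),
            one_mul]
          have : l ^ 2 * 2 ^ l ≤ Z := by
            refine le_trans ?_ h3
            calc l ^ 2 * 2 ^ l ≤ (2 ^ l) ^ 2 * 2 ^ l := by gcongr
              _ = (2 ^ l) ^ 3 := by ring
              _ ≤ _ := Nat.pow_le_pow_right (by positivity) (by norm_num)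
          exact_mod_cast this
  · refine le_trans ?_ (hΔ _ hsq fun p hp => (hT' p (hf ▸ hp)).2.2.2)
    rw [hf, hc, ← pow_mul]
    exact Nat.pow_le_pow_right two_pos (by nlinarith)

theorem card_sq_dvd (N y : ℕ) (hy : 1 ≤ y) (S : Finset ℕ)
    (hS : ∀ n ∈ S, 0 < n ∧ n ≤ N ∧ ∃ l ∈ Ioc y N, l ^ 2 ∣ n) : (S.card : ℝ) ≤ N / y := by
  have h1 : S ⊆ (Ioc y N).biUnion fun l => (Ioc 0 N).filter (fun n => l ^ 2 ∣ n) := by
    intro n hn
    obtain ⟨h, h', l, hl, hd⟩ := hS n hn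
    exact mem_biUnion.2 ⟨l, hl, mem_filter.2 ⟨mem_Ioc.2 ⟨h, h'⟩, hd⟩⟩
  rcases le_or_gt y N with hyN | hyN
  · calc _ ≤ ((∑ l ∈ Ioc y N, ((Ioc 0 N).filter (fun n => l ^ 2 ∣ n)).card : ℕ) : ℝ) := by
          exact_mod_cast (card_le_card h1).trans card_biUnion_le
      _ ≤ ∑ l ∈ Ioc y N, N * ((l : ℝ) ^ 2)⁻¹ := by
          rw [Nat.cast_sum]
          refine sum_le_sum fun l _ => ?_
          rw [Nat.Ioc_filter_dvd_card_eq_div, ← div_eq_mul_inv]
          exact Nat.cast_div_le.trans_eq (by push_cast; rfl)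
      _ ≤ _ := by
          rw [← mul_sum, div_eq_mul_inv]
          gcongr
          refine (sum_Ioc_inv_sq_le_sub (by omega) hyN).trans ?_
          have : (0 : ℝ) ≤ (N : ℝ)⁻¹ := by positivity
          linarith
  · rw [Ioc_eq_empty (by omega : ¬ y < N), biUnion_empty, subset_empty] at h1
    rw [h1, card_empty, Nat.cast_zero]; positivity

end Pool.Agent.P.MP_0ad054_nt.Sun.FinP
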