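import Pool.Agent.P.MP_0ad054_nt.Sun.SphereA
import Pool.Agent.P.MP_0ad054_nt.Main

/-! Local densities for the sieve model on spheres. -/

namespace Pool.Agent.P.MP_0ad054_nt.Sun.SphereP

open Finset Pool.Agent.Lib.H9

theorem card_lev_le (l : ℕ) [Fact l.Prime] (hl2 : l ≠ 2) (c : ZMod l) :
    ((lev l c).card : ℝ) ≤ (l : ℝ) ^ 3 + l ^ 2 := by
  have hlp : l.Prime := Fact.out
  set χ : AddChar (ZMod l) ℂ := ZMod.stdAddChar
  have hχ : χ.IsPrimitive := ZMod.isPrimitive_stdAddChar l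
  have hF : ringChar (ZMod l) ≠ 2 := by rw [ZMod.ringChar_zmod_n]; exact hl2
  set N := (univ.filter (fun w : Fin 4 → ZMod l => ∑ j, w j ^ 2 = c)).card
  have h1 : (l : ℂ) * N = ∑ a : ZMod l, χ (-(a * c)) * (∑ t : ZMod l, χ (a * t ^ 2)) ^ 4 := by
    have e1 : ∀ a : ZMod l, χ (-(a * c)) * (∑ t : ZMod l, χ (a * t ^ 2)) ^ 4 =
        ∑ w : Fin 4 → ZMod l, χ (a * (∑ j, w j ^ 2 - c)) := by
      intro a
      have : (∑ t : ZMod l, χ (a * t ^ 2)) ^ 4 = ∏ _j : Fin 4, ∑ t : ZMod l, χ (a * t ^ 2) := by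
        simp
      rw [this, prod_univ_sum, Fintype.piFinset_univ, mul_sum]
      refine sum_congr rfl fun w _ => ?_
      simp only [Fin.prod_univ_four, Fin.sum_univ_four, ← AddChar.map_add_eq_mul]
      congr 1; ring
    simp_rw [e1]
    rw [sum_comm]
    simp_rw [AddChar.sum_mulShift _ hχ, sub_eq_zero]
    simp only [N]
    rw [card_filter]
    push_cast
    rw [mul_sum]
    refine sum_congr rfl fun w _ => ?_
    split_ifs <;> simp
  rw [← sum_erase_add _ _ (mem_univ (0 : ZMod l))] at h1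
  simp only [zero_mul, neg_zero, AddChar.map_zero_eq_one, sum_const, card_univ, ZMod.card,
    nsmul_eq_mul, mul_one, one_mul] at h1
  have h2 : ‖∑ a ∈ univ.erase (0 : ZMod l), χ (-(a * c)) * (∑ t : ZMod l, χ (a * t ^ 2)) ^ 4‖ ≤
      l * (l : ℝ) ^ 2 := by
    refine (norm_sum_le _ _).trans ?_
    have := sum_le_card_nsmul (univ.erase (0 : ZMod l))
      (fun a => ‖χ (-(a * c)) * (∑ t : ZMod l, χ (a * t ^ 2)) ^ 4‖) ((l : ℝ) ^ 2) (by
        intro a ha
        rw [gauss_pow_four hF χ hχ (ne_of_mem_erase ha), norm_mul, norm_stdAddChar, ZMod.card]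
        simp)
    refine this.trans ?_
    rw [nsmul_eq_mul]
    gcongr
    simp
  have h3 : ‖(l * N - (l : ℂ) ^ 4)‖ ≤ l * (l : ℝ) ^ 2 := by
    rw [h1, add_sub_cancel_right]; exact h2
  have h4 : l * N - (l : ℝ) ^ 4 ≤ l * (l : ℝ) ^ 2 := by
    refine le_trans ?_ h3
    have : (l * N - (l : ℂ) ^ 4) = ((l * N - (l : ℝ) ^ 4 : ℝ) : ℂ) := by push_cast; rfl
    rw [this, Complex.norm_real]
    exact le_abs_self _
  have hl0 : (0 : ℝ) < l := by exact_mod_cast hlp.pos
  have h5 : (N : ℝ) ≤ (l : ℝ) ^ 3 + l ^ 2 := by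
    have : (l : ℝ) * N ≤ l * (l ^ 3 + l ^ 2) := by nlinarith
    exact le_of_mul_le_mul_left this hl0
  have h6 : (lev l c).card ≤ N := by
    refine card_le_card fun w hw => ?_
    rw [mem_filter]
    exact ⟨mem_univ _, (mem_lev.1 hw).2⟩
  exact le_trans (by exact_mod_cast h6) h5

theorem dens_mono {b b' : (l : ℕ) → (Fin 4 → ZMod l) → Prop} (n : ℤ) (l : ℕ)
    (h : ∀ w, b l w → b' l w) : dens b n l ≤ dens b' n l := by
  classical
  unfold Lib.H9.dens
  split_ifs
  · gcongr with w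
    exact h w
  · exact le_rfl

theorem dens_line {b : (l : ℕ) → (Fin 4 → ZMod l) → Prop} (n : ℤ) {l : ℕ} (hl : l.Prime)
    (hl2 : l ≠ 2) {d1 d2 : ZMod l} (h1 : d1 ≠ 0) (h2 : d1 ^ 2 + d2 ^ 2 = 0)
    (hb : ∀ w : Fin 4 → ZMod l, d1 * w 2 - d2 * w 1 = 0 → b l w) :
    (1 - 2 / ((l : ℝ) + 1)) / l ≤ dens b n l := by
  classical
  have : Fact l.Prime := ⟨hl⟩
  have htwo : (2 : ZMod l) ≠ 0 := Ring.two_ne_zero (by rw [ZMod.ringChar_zmod_n]; exact hl2)
  have hl3 : (3 : ℝ) ≤ l := by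
    have := hl.two_le
    exact_mod_cast (by omega : 3 ≤ l)
  set i : ZMod l := d2 / d1 with hi
  have hi2 : i ^ 2 = -1 := by
    rw [hi, div_pow, div_eq_iff (pow_ne_zero 2 h1)]; linear_combination h2
  have hi0 : i ≠ 0 := by
    intro h; rw [h] at hi2; simp at hi2
  have h3 : ((univ.erase (0 : ZMod l)) ×ˢ (univ : Finset (ZMod l))).card ≤
      ((lev l n).filter (b l)).card := by
    refine card_le_card_of_injOn
      (fun p => ![(p.1 + n / p.1) / 2, p.2 * d1, p.2 * d2, (p.1 - n / p.1) / (2 * i)]) ?_ ?_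
    · rintro ⟨a, t⟩ hp
      rw [mem_coe, mem_product, mem_erase] at hp
      have ha : a ≠ 0 := hp.1.1
      rw [mem_coe, mem_filter, mem_lev]
      refine ⟨⟨fun h0 => ?_, ?_⟩, hb _ ?_⟩
      · have a0 := congrFun h0 0
        have a3 := congrFun h0 3
        simp only [Matrix.cons_val_zero, Matrix.cons_val, Pi.zero_apply, div_eq_zero_iff, htwo,
          or_false, mul_eq_zero, hi0] at a0 a3
        have : 2 * a = 0 := by linear_combination a0 + a3
        exact ha ((mul_eq_zero.1 this).resolve_left htwo)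
      · simp only [Fin.sum_univ_four, Matrix.cons_val_zero, Matrix.cons_val_one, Matrix.cons_val]
        have e1 : ((a - n / a) / (2 * i)) ^ 2 = -((a - n / a) / 2) ^ 2 := by
          rw [div_pow, mul_pow, hi2, div_pow]; field_simp
        rw [e1]
        have e2 : (n : ZMod l) = a * (n / a) := by field_simp
        set u := (n : ZMod l) / a
        rw [e2]
        have h4 : (2 : ZMod l) * 2⁻¹ = 1 := mul_inv_cancel₀ htwo
        simp only [div_eq_mul_inv]
        linear_combination t ^ 2 * h2 + a * u * (2 * 2⁻¹ + 1) * h4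
      · simp only [Matrix.cons_val_one, Matrix.cons_val, Matrix.cons_val_zero]; ring
    · rintro ⟨a, t⟩ _ ⟨a', t'⟩ _ he
      have a0 := congrFun he 0
      have a1 := congrFun he 1
      have a3 := congrFun he 3
      simp only [Matrix.cons_val_zero, Matrix.cons_val_one, Matrix.cons_val] at a0 a1 a3
      rw [div_left_inj' htwo] at a0
      rw [div_left_inj' (mul_ne_zero htwo hi0)] at a3
      refine Prod.ext (mul_left_cancel₀ htwo ?_) (mul_right_cancel₀ h1 a1)
      linear_combination a0 + a3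
  rw [card_product, card_erase_of_mem (mem_univ _), card_univ, ZMod.card] at h3
  have h4 : ((l : ℝ) - 1) * l ≤ ((lev l n).filter (b l)).card := by
    have : (((l - 1) * l : ℕ) : ℝ) = ((l : ℝ) - 1) * l := by
      rw [Nat.cast_mul, Nat.cast_sub hl.one_le]; simp
    rw [← this]; exact_mod_cast h3
  have h5 := card_lev_le l hl2 n
  have h6 := card_lev_ge l hl2 n
  unfold Lib.H9.dens
  rw [dif_pos hl]
  have h7 : (0 : ℝ) < (lev l n).card := by nlinarith
  calc (1 - 2 / ((l : ℝ) + 1)) / l = ((l - 1) * l) / (l ^ 3 + l ^ 2) := by field_simp; ring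
    _ ≤ _ := by
      refine div_le_div₀ (by positivity) ?_ h7 h5
      convert h4

theorem one_sub_sum_le {ι : Type*} (s : Finset ι) (f : ι → ℝ) (h : ∀ i ∈ s, 0 ≤ f i ∧ f i ≤ 1) :
    1 - ∑ i ∈ s, f i ≤ ∏ i ∈ s, (1 - f i) := by
  classical
  induction s using Finset.induction_on with
  | empty => simp
  | insert a s ha ih =>
    rw [sum_insert ha, prod_insert ha]
    have h1 := ih fun i hi => h i (mem_insert_of_mem hi)
    have h2 := h a (mem_insert_self _ _)
    have h3 : 0 ≤ ∑ i ∈ s, f i := sum_nonneg fun i hi => (h i (mem_insert_of_mem hi)).1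
    nlinarith

theorem prod_line_ge {D : ℕ} (hD : GoodD D) :
    1 / (2 * (D : ℝ)) ≤ ∏ l ∈ D.primeFactors, (1 - 2 / ((l : ℝ) + 1)) / l := by
  obtain ⟨h1, h2, h3⟩ := hD
  have hl3 : ∀ l ∈ D.primeFactors, (3 : ℝ) ≤ l := by
    intro l hl
    have hp := Nat.prime_of_mem_primeFactors hl
    have : l ≠ 2 := by
      rintro rfl
      exact (Nat.not_even_iff_odd.2 h2) (even_iff_two_dvd.2 (Nat.dvd_of_mem_primeFactors hl))
    have := hp.two_le
    exact_mod_cast (by omega : 3 ≤ l)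
  rw [prod_div_distrib, ← Nat.cast_prod, Nat.prod_primeFactors_of_squarefree h1, ← div_div]
  refine div_le_div_of_nonneg_right ?_ (by positivity)
  refine le_trans ?_ (one_sub_sum_le _ _ fun l hl => ⟨by positivity, ?_⟩)
  · set t := D.primeFactors.card
    have h4 : ∑ l ∈ D.primeFactors, 2 / ((l : ℝ) + 1) ≤ t * (2 / max 4 ((t : ℝ) ^ 8)) := by
      rw [← nsmul_eq_mul]
      refine sum_le_card_nsmul _ _ _ fun l hl => ?_
      have a1 := hl3 l hl
      have a2 : (t : ℝ) ^ 8 ≤ l := by exact_mod_cast h3 l hl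
      gcongr
      exact max_le (by linarith) (by linarith)
    have h5 : t * (2 / max 4 ((t : ℝ) ^ 8)) ≤ 1 / 2 := by
      rw [← mul_div_assoc, div_le_div_iff₀ (by positivity) (by positivity)]
      rcases Nat.lt_or_ge t 2 with h | h
      · have : (t : ℝ) ≤ 1 := by exact_mod_cast (by omega : t ≤ 1)
        linarith [le_max_left 4 ((t : ℝ) ^ 8)]
      · have a1 : (2 : ℝ) ≤ t := by exact_mod_cast h
        have a2 : (2 : ℝ) ^ 7 ≤ (t : ℝ) ^ 7 := by gcongr
        have a3 := le_max_right 4 ((t : ℝ) ^ 8)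
        nlinarith
    linarith
  · rw [div_le_one (by positivity)]; linarith [hl3 l hl]

theorem card_pairs_le (P P' : Finset ℕ) (hP : ∀ l ∈ P, l.Prime) (hP' : ∀ l ∈ P', l.Prime)
    (hd : Disjoint P P') (X : ℕ) :
    ((P.powerset ×ˢ P'.powerset).filter
      (fun p => (∏ l ∈ p.1, l) * ∏ l ∈ p.2, l ≤ X)).card ≤ X := by
  have key : ∀ A ⊆ P, ∀ B ⊆ P', ((∏ l ∈ A, l) * ∏ l ∈ B, l).primeFactors = A ∪ B := by
    intro A hA B hB
    rw [← prod_union (hd.mono hA hB), Nat.primeFactors_prod]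
    intro l hl
    rcases mem_union.1 hl with h | h
    exacts [hP l (hA h), hP' l (hB h)]
  refine le_trans (card_le_card_of_injOn (t := Icc 1 X)
    (fun p => (∏ l ∈ p.1, l) * ∏ l ∈ p.2, l) ?_ ?_) (by simp)
  · rintro ⟨A, B⟩ hp
    simp only [coe_filter, mem_product, mem_powerset, Set.mem_ofPred_eq] at hp
    rw [mem_coe, mem_Icc]
    exact ⟨Nat.mul_pos (prod_pos fun l hl => (hP l (hp.1.1 hl)).pos)
      (prod_pos fun l hl => (hP' l (hp.1.2 hl)).pos), hp.2⟩
  · rintro ⟨A, B⟩ hp ⟨A', B'⟩ hp' he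
    simp only [coe_filter, mem_product, mem_powerset, Set.mem_ofPred_eq] at hp hp' he
    have h1 : A ∪ B = A' ∪ B' := by rw [← key A hp.1.1 B hp.1.2, he, key A' hp'.1.1 B' hp'.1.2]
    rw [disjoint_left] at hd
    refine Prod.ext ?_ ?_ <;> ext l <;> have h2 := Finset.ext_iff.1 h1 l <;>
      simp only [mem_union] at h2 <;>
      have a1 := @hd l <;> have a2 := @hp.1.1 l <;> have a3 := @hp.1.2 l <;>
      have a4 := @hp'.1.1 l <;> have a5 := @hp'.1.2 l <;> tauto

end Pool.Agent.P.MP_0ad054_nt.Sun.SphereP
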