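import Pool.Agent.P.MP_0ad054_nt.Sun.Defs
import Pool.Agent.Lib.helper9.Jutila

/-! The sublattice of a Gaussian integer of squarefree norm. -/

namespace Pool.Agent.P.MP_0ad054_nt.Sun.SphereP

open Finset Pool.Agent.Lib.H9

/-- the quadratic form -/
def Q2 (v : Fin 4 → ℤ) : ℤ := v 0 ^ 2 + 3 * v 1 ^ 2 + 5 * v 2 ^ 2 + 7 * v 3 ^ 2

theorem nsq_eq' (v : Fin 4 → ℤ) : nsq v = v 0 ^ 2 + v 1 ^ 2 + v 2 ^ 2 + v 3 ^ 2 := by
  simp [nsq, Fin.sum_univ_four]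

theorem mem_Del {D : ℕ} {δ : ℤ × ℤ} (h : δ ∈ Del D) : δ.1 ^ 2 + δ.2 ^ 2 = D :=
  (mem_filter.1 h).2

theorem not_dvd_fst {D : ℕ} {δ : ℤ × ℤ} (hD : Squarefree D) (h : δ ∈ Del D) {l : ℕ}
    (hl : l.Prime) (hlD : l ∣ D) : ¬ (l : ℤ) ∣ δ.1 := by
  intro h1
  have h2 := mem_Del h
  have hp : Prime (l : ℤ) := Nat.prime_iff_prime_int.1 hl
  have h3 : (l : ℤ) ∣ δ.2 ^ 2 := by
    have : δ.2 ^ 2 = D - δ.1 ^ 2 := by linarith
    rw [this]
    exact dvd_sub (by exact_mod_cast hlD) (dvd_pow h1 two_ne_zero)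
  have h4 : (l : ℤ) ∣ δ.2 := hp.dvd_of_dvd_pow h3
  have h5 : ((l * l : ℕ) : ℤ) ∣ D := by
    rw [← h2]; push_cast
    exact dvd_add (by rw [sq]; exact mul_dvd_mul h1 h1) (by rw [sq]; exact mul_dvd_mul h4 h4)
  exact hl.one_lt.ne' (Nat.isUnit_iff.1 (hD l (by exact_mod_cast h5)))

theorem coprime_fst {D : ℕ} {δ : ℤ × ℤ} (hD : Squarefree D) (h : δ ∈ Del D) :
    IsCoprime (D : ℤ) δ.1 := by
  rw [Int.isCoprime_iff_gcd_eq_one]
  by_contra h1
  obtain ⟨l, hl, h2⟩ := Nat.exists_prime_and_dvd h1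
  have h3 : (l : ℤ) ∣ D := (Int.natCast_dvd_natCast.2 h2).trans (Int.gcd_dvd_left _ _)
  have h4 : (l : ℤ) ∣ δ.1 := (Int.natCast_dvd_natCast.2 h2).trans (Int.gcd_dvd_right _ _)
  exact not_dvd_fst hD h hl (by exact_mod_cast h3) h4

theorem mem_box_sqrt {R : ℕ} {a : ℤ × ℤ} (h : a.1 ^ 2 + a.2 ^ 2 ≤ R) : a ∈ box (Nat.sqrt R) := by
  have key : ∀ x : ℤ, x ^ 2 ≤ R → -(Nat.sqrt R : ℤ) ≤ x ∧ x ≤ Nat.sqrt R := by
    intro x hx
    have h1 : x.natAbs ≤ Nat.sqrt R := by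
      rw [Nat.le_sqrt']
      have : ((x.natAbs ^ 2 : ℕ) : ℤ) ≤ R := by push_cast; rw [sq_abs]; exact hx
      exact_mod_cast this
    omega
  simp only [box, mem_product, mem_Icc]
  exact ⟨key _ (by nlinarith [sq_nonneg a.2]), key _ (by nlinarith [sq_nonneg a.1])⟩

/-- sums over the boxes as sums over the points of the sublattice on a sphere -/
theorem sum_box_eq {E : Type*} [AddCommMonoid E] {N D : ℕ} {δ : ℤ × ℤ} (hD : Squarefree D)
    (h : δ ∈ Del D) {n : ℤ} (hn : n ≤ N) (G : ℤ → E) :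
    ∑ ξ ∈ box (Nat.sqrt N), ∑ η ∈ box (Nat.sqrt (N / D)),
      (if QQ D ξ η = n then G (GG ξ + AA δ η) else 0) =
    ∑ v ∈ (sphere n).filter (fun v => (D : ℤ) ∣ δ.1 * v 2 - δ.2 * v 1), G (Q2 v) := by
  have h2 := mem_Del h
  have hD0 : (0 : ℤ) < D := by exact_mod_cast Nat.pos_of_ne_zero hD.ne_zero
  rw [← sum_product', ← sum_filter]
  refine sum_nbij (fun p => ![p.1.1, δ.1 * p.2.1 - δ.2 * p.2.2, δ.2 * p.2.1 + δ.1 * p.2.2, p.1.2])
    ?_ ?_ ?_ ?_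
  · rintro ⟨ξ, η⟩ hp
    rw [mem_filter] at hp ⊢
    rw [mem_sphere, nsq_eq']
    simp only [Matrix.cons_val_zero, Matrix.cons_val_one, Matrix.cons_val]
    refine ⟨?_, η.2, by linear_combination η.2 * h2⟩
    have := hp.2
    unfold QQ at this
    linear_combination this + (η.1 ^ 2 + η.2 ^ 2) * h2
  · rintro ⟨ξ, η⟩ _ ⟨ξ', η'⟩ _ he
    have a0 := congrFun he 0
    have a1 := congrFun he 1
    have a2 := congrFun he 2
    have a3 := congrFun he 3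
    simp only [Matrix.cons_val_zero, Matrix.cons_val_one, Matrix.cons_val] at a0 a1 a2 a3
    have b1 : (D : ℤ) * η.1 = D * η'.1 := by
      linear_combination δ.1 * a1 + δ.2 * a2 - (η.1 - η'.1) * h2
    have b2 : (D : ℤ) * η.2 = D * η'.2 := by
      linear_combination δ.1 * a2 - δ.2 * a1 - (η.2 - η'.2) * h2
    exact Prod.ext (Prod.ext a0 a3)
      (Prod.ext (mul_left_cancel₀ hD0.ne' b1) (mul_left_cancel₀ hD0.ne' b2))
  · intro v hv
    rw [mem_coe, mem_filter, mem_sphere, nsq_eq'] at hv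
    obtain ⟨hv1, b, hb⟩ := hv
    have h3 : (D : ℤ) ∣ (δ.1 * v 1 + δ.2 * v 2) * δ.1 :=
      ⟨v 1 + δ.2 * b, by linear_combination v 1 * h2 + δ.2 * hb⟩
    obtain ⟨a, ha⟩ := (coprime_fst hD h).dvd_of_dvd_mul_right h3
    have e1 : δ.1 * a - δ.2 * b = v 1 := by
      refine mul_left_cancel₀ hD0.ne' ?_
      linear_combination -δ.1 * ha + δ.2 * hb + v 1 * h2
    have e2 : δ.2 * a + δ.1 * b = v 2 := by
      refine mul_left_cancel₀ hD0.ne' ?_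
      linear_combination -δ.2 * ha - δ.1 * hb + v 2 * h2
    have e3 : v 1 ^ 2 + v 2 ^ 2 = D * (a ^ 2 + b ^ 2) := by
      rw [← e1, ← e2]; linear_combination (a ^ 2 + b ^ 2) * h2
    refine ⟨((v 0, v 3), (a, b)), ?_, ?_⟩
    · rw [mem_coe, mem_filter, mem_product]
      refine ⟨⟨mem_box_sqrt ?_, mem_box_sqrt ?_⟩, ?_⟩
      · simp only; nlinarith [sq_nonneg (v 1), sq_nonneg (v 2)]
      · simp only
        rw [Int.natCast_div, Int.le_ediv_iff_mul_le hD0]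
        nlinarith [sq_nonneg (v 0), sq_nonneg (v 3)]
      · unfold QQ; simp only; linarith
    · funext j
      fin_cases j
      · rfl
      · exact e1
      · exact e2
      · rfl
  · rintro ⟨ξ, η⟩ _
    congr 1
    simp only [Q2, GG, AA, Matrix.cons_val_zero, Matrix.cons_val_one, Matrix.cons_val]
    ring

end Pool.Agent.P.MP_0ad054_nt.Sun.SphereP
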