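import Pool.Agent.P.MP_0ad054_nt.Sun.Defs

/-! Moments of the sieve weights. -/

namespace Pool.Agent.P.MP_0ad054_nt.Sun

open Finset Pool.Agent.Lib.H9
open scoped ArithmeticFunction.vonMangoldt

namespace MomP

theorem pow_card_le_tau (P : Finset ℕ) (hP : ∀ l ∈ P, l.Prime) {n : ℕ} (hn : n ≠ 0) :
    (2 : ℝ) ^ (P.filter (fun l => l ∣ n)).card ≤ tau n := by
  refine le_trans ?_ (two_pow_le_tau hn)
  refine pow_le_pow_right₀ one_le_two (card_le_card fun l hl => ?_)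
  rw [mem_filter] at hl
  exact Nat.mem_primeFactors.2 ⟨hP l hl.1, hl.2, hn⟩

theorem abs_form_le (P : Finset ℕ) (hP : ∀ l ∈ P, l.Prime) (c : Finset ℕ → ℝ)
    (hc : ∀ T, |c T| ≤ 1) {n : ℕ} (hn : n ≠ 0) :
    |∑ T ∈ P.powerset, c T * ∏ l ∈ T, (if l ∣ n then (1 : ℝ) else 0)| ≤ tau n := by
  refine (abs_sum_le_sum_abs _ _).trans ?_
  have h1 : ∀ T ∈ P.powerset, |c T * ∏ l ∈ T, (if l ∣ n then (1 : ℝ) else 0)| ≤
      ∏ l ∈ T, (if l ∣ n then (1 : ℝ) else 0) := by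
    intro T _
    have h0 : 0 ≤ ∏ l ∈ T, (if l ∣ n then (1 : ℝ) else 0) :=
      prod_nonneg fun l _ => by split_ifs <;> norm_num
    rw [abs_mul, abs_of_nonneg h0]
    exact mul_le_of_le_one_left h0 (hc T)
  refine (sum_le_sum h1).trans ?_
  rw [← prod_one_add]
  refine le_trans (le_of_eq ?_) (pow_card_le_tau P hP hn)
  rw [← prod_const, prod_filter]
  refine prod_congr rfl fun l _ => ?_
  split_ifs <;> norm_num

theorem abs_cY (m i : ℕ) : |cY m i| ≤ 1 := by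
  unfold cY; split_ifs <;> simp

theorem primes (y : ℕ) : ∀ l ∈ Nat.primesLE y, l.Prime := fun _ hl => (Nat.mem_primesLE.1 hl).2

variable {N : ℕ}

theorem Y1 (y k : ℕ) {m : ℕ} (hm : 3 ≤ m) : |Yf y k (w1 m)| ≤ tau (m - 2) :=
  abs_form_le _ (primes y) (fun T => cY (2 * k + 1) T.card) (fun _ => abs_cY _ _) (by omega)

theorem Y0 (y k : ℕ) {m : ℕ} (hm : 3 ≤ m) : |Yf y k (w0 m)| ≤ tau m * tau (m - 2) :=
  (abs_form_le _ (primes y) (fun T => cY (2 * k + 1) T.card) (fun _ => abs_cY _ _)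
    (Nat.mul_ne_zero (by omega) (by omega))).trans (tau_mul_le _ _)

theorem S1 (s : Sv N) {m : ℕ} (hm : 3 ≤ m) : |Sf s.Ps s.lam (w1 m)| ≤ tau (m - 2) :=
  abs_form_le _ (fun l hl => (s.hP l hl).1) _ s.low.1 (by omega)

theorem sig_le (s : Sv N) {m : ℕ} (hm : 3 ≤ m) : |sig s m| ≤ tau (m - 2) ^ 2 := by
  unfold sig
  rw [abs_mul, sq]
  exact mul_le_mul (Y1 _ _ hm) (S1 s hm) (abs_nonneg _) (tau_nonneg _)

theorem two_le (s : Sv N) : 2 ≤ N := s.hy.trans (s.hyD.trans s.hDN)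

theorem one_le_LL (N : ℕ) : 1 ≤ LL N := by
  unfold LL; linarith [Real.log_natCast_nonneg N]

theorem log_le {N m : ℕ} (hN : 1 ≤ N) (hm : m ≤ 7 * N) : 1 + Real.log m ≤ 3 * LL N := by
  have h0 := Real.log_natCast_nonneg N
  unfold LL
  rcases Nat.eq_zero_or_pos m with rfl | h
  · simp; linarith
  have h1 : (0 : ℝ) < m := by exact_mod_cast h
  have h2 : (m : ℝ) ≤ 8 * N := by exact_mod_cast (by omega : m ≤ 8 * N)
  have h3 : (0 : ℝ) < N := by exact_mod_cast hN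
  have h4 : (m : ℝ) ≤ 7 * N := by exact_mod_cast hm
  have h5 := Real.log_le_log h1 h4
  rw [Real.log_mul (by norm_num) h3.ne'] at h5
  have h6 : Real.log 7 ≤ 2 := by
    rw [Real.log_le_iff_le_exp (by norm_num)]
    have := Real.exp_one_gt_d9
    have e : Real.exp 2 = Real.exp 1 * Real.exp 1 := by rw [← Real.exp_add]; norm_num
    rw [e]; nlinarith
  linarith

theorem lam_le {N m : ℕ} (hN : 1 ≤ N) (hm : m ≤ 7 * N) : Λ m ≤ 3 * LL N := by
  have := log_le hN hm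
  have := @ArithmeticFunction.vonMangoldt_le_log m
  linarith

theorem cW_le (s : Sv N) : cW s.y ≤ Real.exp 16 * LL N ^ 8 := by
  refine (cW_le_log s.hy).trans ?_
  have h1 : (0 : ℝ) < s.y := by have := s.hy; positivity
  have h2 : (s.y : ℝ) ≤ N := by exact_mod_cast s.hyD.trans s.hDN
  have h3 := Real.log_le_log h1 h2
  have h4 := Real.log_natCast_nonneg s.y
  have h5 : Real.log s.y + 1 ≤ LL N := by unfold LL; linarith
  gcongr

theorem mdl_le (s : Sv N) {m : ℕ} (hm : 3 ≤ m) :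
    |mdl s m| ≤ Real.exp 16 * LL N ^ 8 * (tau m * tau (m - 2) ^ 2) := by
  unfold mdl
  have h1 := one_le_cW s.y
  have h2 := Y0 s.y s.k hm
  have h3 := S1 s hm
  have h4 := cW_le s
  have h5 := tau_nonneg m
  have h6 := tau_nonneg (m - 2)
  rw [abs_mul, abs_mul, abs_of_nonneg (by linarith : 0 ≤ cW s.y)]
  calc _ ≤ Real.exp 16 * LL N ^ 8 * (tau m * tau (m - 2)) * tau (m - 2) := by gcongr
    _ = _ := by ring

theorem ls_le (s : Sv N) {m : ℕ} (hm : m ∈ Icc 3 (7 * N)) :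
    |Λ m * sig s m| ≤ 3 * LL N * tau (m - 2) ^ 2 := by
  rw [mem_Icc] at hm
  have h1 := lam_le (by have := two_le s; omega) hm.2
  have h2 := sig_le s hm.1
  have h3 := @ArithmeticFunction.vonMangoldt_nonneg m
  have h4 := one_le_LL N
  rw [abs_mul, abs_of_nonneg h3]
  gcongr

/-- the common majorant -/
noncomputable def G (m : ℕ) : ℝ := tau m ^ 8 + tau (m - 2) ^ 8

theorem le_G {m : ℕ} (hm : 3 ≤ m) (a b : ℕ) (hab : a + b ≤ 8) :
    tau m ^ a * tau (m - 2) ^ b ≤ G m := by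
  have h1 : 1 ≤ tau m := one_le_tau (by omega)
  have h2 : 1 ≤ tau (m - 2) := one_le_tau (by omega)
  unfold G
  rcases le_total (tau m) (tau (m - 2)) with h | h
  · calc _ ≤ tau (m - 2) ^ a * tau (m - 2) ^ b := by gcongr
      _ ≤ tau (m - 2) ^ 8 := by rw [← pow_add]; exact pow_le_pow_right₀ h2 hab
      _ ≤ _ := le_add_of_nonneg_left (by positivity)
  · calc _ ≤ tau m ^ a * tau m ^ b := by gcongr
      _ ≤ tau m ^ 8 := by rw [← pow_add]; exact pow_le_pow_right₀ h1 hab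
      _ ≤ _ := le_add_of_nonneg_right (by positivity)

theorem G_nonneg (m : ℕ) : 0 ≤ G m := by
  unfold G; have := tau_nonneg m; have := tau_nonneg (m - 2); positivity

theorem sum_tau {N X : ℕ} (hN : 1 ≤ N) (hX : X ≤ 7 * N) (k : ℕ) :
    ∑ n ∈ Icc 1 X, tau n ^ k ≤ X * (3 * LL N) ^ 2 ^ k := by
  refine (sum_tau_pow_le k X).trans ?_
  have := log_le hN hX
  have := Real.log_natCast_nonneg X
  gcongr

theorem sum_G : ∃ (C : ℝ) (k : ℕ), 1 ≤ C ∧ ∀ N : ℕ, 1 ≤ N →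
    ∑ m ∈ Icc 3 (7 * N), G m ≤ C * N * LL N ^ k := by
  refine ⟨14 * 3 ^ 2 ^ 8, 2 ^ 8, ?_, fun N hN => ?_⟩
  · have : (1 : ℝ) ≤ 3 ^ 2 ^ 8 := one_le_pow₀ (by norm_num)
    linarith
  have h := sum_tau hN le_rfl 8
  have h1 : ∑ m ∈ Icc 3 (7 * N), tau m ^ 8 ≤ ∑ n ∈ Icc 1 (7 * N), tau n ^ 8 :=
    sum_le_sum_of_subset_of_nonneg (Icc_subset_Icc_left (by norm_num))
      fun n _ _ => pow_nonneg (tau_nonneg n) _
  have h2 : ∑ m ∈ Icc 3 (7 * N), tau (m - 2) ^ 8 ≤ ∑ n ∈ Icc 1 (7 * N), tau n ^ 8 := by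
    rw [← sum_image (f := fun n => tau n ^ 8) (g := fun m => m - 2)
      (fun a ha b hb hab => by simp only [coe_Icc, Set.mem_Icc] at ha hb hab; omega)]
    refine sum_le_sum_of_subset_of_nonneg (fun n hn => ?_) fun n _ _ => pow_nonneg (tau_nonneg n) _
    obtain ⟨m, hm, rfl⟩ := mem_image.1 hn
    rw [mem_Icc] at hm ⊢; omega
  unfold G
  rw [sum_add_distrib]
  rw [mul_pow] at h
  push_cast at h
  generalize (3 : ℝ) ^ 2 ^ 8 = A at h ⊢
  generalize LL N ^ 2 ^ 8 = B at h ⊢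
  linarith

theorem sum_dvd : ∃ (C : ℝ) (k : ℕ), 1 ≤ C ∧ ∀ N l : ℕ, 1 ≤ N → l.Prime →
    ∑ m ∈ (Icc 3 (7 * N)).filter (fun m => l ∣ m - 2), tau (m - 2) ^ 4 ≤
      C * N * LL N ^ k * (1 / l) := by
  refine ⟨112 * 3 ^ 2 ^ 4, 2 ^ 4, ?_, fun N l hN hl => ?_⟩
  · have : (1 : ℝ) ≤ 3 ^ 2 ^ 4 := one_le_pow₀ (by norm_num)
    linarith
  have hl0 := hl.pos
  have hl' : (0 : ℝ) < l := by exact_mod_cast hl0
  have h := sum_tau hN (Nat.div_le_self (7 * N) l) 4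
  have ht : tau l = 2 := by unfold tau; rw [hl.divisors, card_pair hl.one_lt.ne]; norm_num
  have h1 : ∑ m ∈ (Icc 3 (7 * N)).filter (fun m => l ∣ m - 2), tau (m - 2) ^ 4 ≤
      ∑ m ∈ (Icc 3 (7 * N)).filter (fun m => l ∣ m - 2), 16 * tau ((m - 2) / l) ^ 4 := by
    refine sum_le_sum fun m hm => ?_
    have h2 := tau_mul_le l ((m - 2) / l)
    rw [Nat.mul_div_cancel' (mem_filter.1 hm).2, ht] at h2
    have := tau_nonneg (m - 2)
    calc _ ≤ (2 * tau ((m - 2) / l)) ^ 4 := by gcongr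
      _ = _ := by ring
  have h2 : ∑ m ∈ (Icc 3 (7 * N)).filter (fun m => l ∣ m - 2), tau ((m - 2) / l) ^ 4 ≤
      ∑ n ∈ Icc 1 (7 * N / l), tau n ^ 4 := by
    rw [← sum_image (f := fun n => tau n ^ 4) (g := fun m => (m - 2) / l)
      (fun a ha b hb hab => by
        simp only [coe_filter, mem_Icc, Set.mem_ofPred_eq] at ha hb hab
        have e1 := Nat.mul_div_cancel' ha.2
        have e2 := Nat.mul_div_cancel' hb.2
        rw [hab] at e1
        omega)]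
    refine sum_le_sum_of_subset_of_nonneg (fun n hn => ?_) fun n _ _ => pow_nonneg (tau_nonneg n) _
    obtain ⟨m, hm, rfl⟩ := mem_image.1 hn
    rw [mem_filter, mem_Icc] at hm
    rw [mem_Icc]
    exact ⟨Nat.div_pos (Nat.le_of_dvd (by omega) hm.2) hl0, Nat.div_le_div_right (by omega)⟩
  rw [← mul_sum] at h1
  have h3 : ((7 * N / l : ℕ) : ℝ) ≤ 7 * N * (1 / l) := by
    refine Nat.cast_div_le.trans (le_of_eq ?_)
    push_cast; ring
  have h4 := one_le_LL N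
  calc _ ≤ 16 * (((7 * N / l : ℕ) : ℝ) * (3 * LL N) ^ 2 ^ 4) := by linarith
    _ ≤ 16 * (7 * N * (1 / l) * (3 * LL N) ^ 2 ^ 4) := by gcongr
    _ = _ := by rw [mul_pow]; ring

theorem tau_le' {ε : ℝ} (hε : 0 < ε) : ∃ C : ℝ, 0 < C ∧ ∀ N n : ℕ, n ≤ 7 * N →
    tau n ≤ C * (N : ℝ) ^ ε := by
  obtain ⟨C, hC, h⟩ := tau_le hε
  refine ⟨C * 7 ^ ε, by positivity, fun N n hn => (h n).trans ?_⟩
  rw [mul_assoc, ← Real.mul_rpow (by norm_num) (Nat.cast_nonneg _)]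
  have : (n : ℝ) ≤ 7 * N := by exact_mod_cast hn
  gcongr

theorem sum_np : ∃ C : ℝ, 0 < C ∧ ∀ (N : ℕ) (s : Sv N),
    ∑ m ∈ (Icc 3 (7 * N)).filter (fun m => ¬ m.Prime), (Λ m * sig s m) ^ 2 ≤
      C * N * LL N ^ 2 * (N : ℝ) ^ (-(1 / 4) : ℝ) := by
  obtain ⟨C, hC, h⟩ := tau_le' (ε := 1 / 16) (by norm_num)
  refine ⟨54 * C ^ 4, by positivity, fun N s => ?_⟩
  have hN : 1 ≤ N := by have := two_le s; omega
  have hN' : (1 : ℝ) ≤ N := by exact_mod_cast hN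
  have hL := one_le_LL N
  set u : ℝ := (N : ℝ) ^ (1 / 4 : ℝ) with hu
  have hu0 : 0 < u := by positivity
  have hu4 : u ^ 4 = N := by
    rw [hu, ← Real.rpow_natCast, ← Real.rpow_mul (by linarith)]; norm_num
  have hu1 : (N : ℝ) ^ (-(1 / 4) : ℝ) = u⁻¹ := by rw [Real.rpow_neg (by linarith)]
  have h1 : ∀ m ∈ (Icc 3 (7 * N)).filter (fun m => ¬ m.Prime), (Λ m * sig s m) ^ 2 ≤
      3 * LL N * (C ^ 4 * u) * Λ m := by
    intro m hm
    rw [mem_filter, mem_Icc] at hm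
    have a1 := lam_le hN hm.1.2
    have a2 := sig_le s hm.1.1
    have a3 := @ArithmeticFunction.vonMangoldt_nonneg m
    have a4 := h N (m - 2) (by omega)
    have a5 := tau_nonneg (m - 2)
    have a6 : sig s m ^ 2 ≤ C ^ 4 * u := by
      rw [← sq_abs]
      calc _ ≤ (tau (m - 2) ^ 2) ^ 2 := by gcongr
        _ ≤ ((C * (N : ℝ) ^ (1 / 16 : ℝ)) ^ 2) ^ 2 := by gcongr
        _ = C ^ 4 * ((N : ℝ) ^ (1 / 16 : ℝ)) ^ 4 := by ring
        _ = _ := by
          rw [hu, ← Real.rpow_natCast ((N : ℝ) ^ (1 / 16 : ℝ)), ← Real.rpow_mul (by linarith)]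
          norm_num
    calc _ = Λ m * sig s m ^ 2 * Λ m := by ring
      _ ≤ _ := by gcongr
  refine (sum_le_sum h1).trans ?_
  rw [← mul_sum]
  have h2 := Chebyshev.psi_sub_theta_le (x := ((7 * N : ℕ) : ℝ)) (by push_cast; linarith)
  rw [Chebyshev.psi_sub_theta_eq_sum_not_prime, Nat.floor_natCast] at h2
  have h3 : ∑ m ∈ (Icc 3 (7 * N)).filter (fun m => ¬ m.Prime), Λ m ≤
      ∑ m ∈ (Ioc 0 (7 * N)).filter (fun m => ¬ m.Prime), Λ m := by
    refine sum_le_sum_of_subset_of_nonneg (filter_subset_filter _ fun m hm => ?_)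
      fun _ _ _ => ArithmeticFunction.vonMangoldt_nonneg
    rw [mem_Icc] at hm; rw [mem_Ioc]; omega
  have h4 : Real.sqrt ((7 * N : ℕ) : ℝ) ≤ 3 * u ^ 2 := by
    rw [Real.sqrt_le_left (by positivity)]
    push_cast
    nlinarith
  have h5 := log_le hN (le_refl (7 * N))
  have h6 := Real.log_natCast_nonneg (7 * N)
  have h7 : ∑ m ∈ (Icc 3 (7 * N)).filter (fun m => ¬ m.Prime), Λ m ≤
      2 * (3 * u ^ 2) * (3 * LL N) := by
    refine h3.trans (h2.trans ?_)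
    gcongr
    linarith
  calc _ ≤ 3 * LL N * (C ^ 4 * u) * (2 * (3 * u ^ 2) * (3 * LL N)) := by gcongr
    _ = _ := by rw [hu1, ← hu4]; field_simp; ring

theorem bad_le {k c : ℕ} {t : ℝ} (h : 2 * k < c) (ht : (2 : ℝ) ^ c ≤ t) : 1 ≤ t / 2 ^ k := by
  rw [le_div_iff₀ (by positivity), one_mul]
  exact (pow_le_pow_right₀ one_le_two (by omega)).trans ht

theorem part3 (N D m : ℕ) (s : Sv N) (hB : ¬ B1 s D m) (hs : 0 < sig s m) :
    ∀ l, l ∈ Nat.primesLE s.y ∨ l ∈ s.Ps → ¬ l ∣ m - 2 := by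
  unfold B1 at hB
  push Not at hB
  have hc := hB.2.2
  have hw : ∀ l, w1 m l = 0 ∨ w1 m l = 1 := fun l => by unfold w1; split_ifs <;> simp
  have hw' : ∀ l ∈ Nat.primesLE s.y, 0 ≤ w1 m l ∧ w1 m l ≤ 1 := fun l _ => by
    rcases hw l with h | h <;> rw [h] <;> norm_num
  have h1 := prod_le_sform_cY _ _ hw' s.k
  have h2 := sform_cY_sub_le _ _ hw' s.k
  have h3 : sform (Nat.primesLE s.y) (cZ (2 * s.k + 1)) (w1 m) = 0 := by
    refine sum_eq_zero fun T hT => ?_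
    unfold cZ
    split_ifs with h
    · rw [one_mul]
      by_contra h0
      have : T ⊆ (Nat.primesLE s.y).filter (fun l => l ∣ m - 2) := by
        intro l hl
        refine mem_filter.2 ⟨mem_powerset.1 hT hl, ?_⟩
        by_contra h5
        exact h0 (prod_eq_zero hl (by unfold w1; rw [if_neg h5]))
      have := card_le_card this
      omega
    · rw [zero_mul]
  have h4 : Yf s.y s.k (w1 m) = ∏ l ∈ Nat.primesLE s.y, (1 - w1 m l) := by
    unfold Yf; linarith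
  have h5 : 0 ≤ ∏ l ∈ Nat.primesLE s.y, (1 - w1 m l) :=
    prod_nonneg fun l hl => by linarith [(hw' l hl).2]
  unfold sig at hs
  rw [h4] at hs
  have h6 := s.low.2.1 (w1 m) hw
  have h7 : 0 < Sf s.Ps s.lam (w1 m) := pos_of_mul_pos_right hs h5
  intro l hl hd
  have h8 : 1 - w1 m l = 0 := by unfold w1; rw [if_pos hd]; norm_num
  rcases hl with hl | hl
  · rw [prod_eq_zero hl h8, zero_mul] at hs
    exact lt_irrefl _ hs
  · rw [prod_eq_zero hl h8] at h6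
    linarith

theorem part2 (ε : ℝ) (hε : 0 < ε) : ∃ C : ℝ, 0 < C ∧ ∀ (N : ℕ) (s : Sv N),
    ∀ m ∈ Icc 3 (7 * N), |aa s m| ≤ C * (N : ℝ) ^ ε := by
  obtain ⟨C1, hC1, h1⟩ := tau_le' (ε := ε / 11) (by positivity)
  obtain ⟨C2, hC2, h2⟩ := one_add_log_le (ε := ε / 11) (by positivity)
  refine ⟨(3 + Real.exp 16) * (C2 ^ 8 * C1 ^ 3), by positivity, fun N s m hm => ?_⟩
  have hN : (1 : ℝ) ≤ N := by have := two_le s; exact_mod_cast (by omega : 1 ≤ N)
  have a1 := ls_le s hm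
  rw [mem_Icc] at hm
  have a2 := mdl_le s hm.1
  have a3 := h1 N m hm.2
  have a4 := h1 N (m - 2) (by omega)
  have a5 : LL N ≤ C2 * (N : ℝ) ^ (ε / 11) := h2 N hN
  have a6 := one_le_LL N
  have a7 : 1 ≤ tau m := one_le_tau (by omega)
  have a8 := tau_nonneg (m - 2)
  have a9 : LL N * tau (m - 2) ^ 2 ≤ LL N ^ 8 * (tau m * tau (m - 2) ^ 2) := by
    refine mul_le_mul (le_self_pow₀ a6 (by norm_num)) ?_ (by positivity) (by positivity)
    exact le_mul_of_one_le_left (by positivity) a7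
  have a10 : ((N : ℝ) ^ (ε / 11)) ^ 11 = (N : ℝ) ^ ε := by
    rw [← Real.rpow_natCast, ← Real.rpow_mul (by linarith)]; congr 1; push_cast; ring
  have a11 : LL N ^ 8 * (tau m * tau (m - 2) ^ 2) ≤ C2 ^ 8 * C1 ^ 3 * (N : ℝ) ^ ε := by
    calc _ ≤ (C2 * (N : ℝ) ^ (ε / 11)) ^ 8 * (C1 * (N : ℝ) ^ (ε / 11) *
          (C1 * (N : ℝ) ^ (ε / 11)) ^ 2) := by gcongr
      _ = _ := by rw [← a10]; ring
  have a12 := Real.exp_pos 16
  unfold aa
  calc _ ≤ |Λ m * sig s m| + |mdl s m| := abs_sub _ _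
    _ ≤ (3 + Real.exp 16) * (LL N ^ 8 * (tau m * tau (m - 2) ^ 2)) := by nlinarith
    _ ≤ (3 + Real.exp 16) * (C2 ^ 8 * C1 ^ 3 * (N : ℝ) ^ ε) := by gcongr
    _ = _ := by ring

theorem mdl_sq (s : Sv N) {m : ℕ} (hm : 3 ≤ m) :
    mdl s m ^ 2 ≤ Real.exp 16 ^ 2 * LL N ^ 16 * (tau m ^ 2 * tau (m - 2) ^ 4) := by
  rw [← sq_abs]
  have := mdl_le s hm
  calc _ ≤ (Real.exp 16 * LL N ^ 8 * (tau m * tau (m - 2) ^ 2)) ^ 2 := by gcongr
    _ = _ := by ring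

theorem ls_sq (s : Sv N) {m : ℕ} (hm : m ∈ Icc 3 (7 * N)) :
    (Λ m * sig s m) ^ 2 ≤ 9 * LL N ^ 2 * tau (m - 2) ^ 4 := by
  rw [← sq_abs]
  have := ls_le s hm
  calc _ ≤ (3 * LL N * tau (m - 2) ^ 2) ^ 2 := by gcongr
    _ = _ := by ring

open Classical in
theorem part1 : ∃ (C : ℝ) (k : ℕ), 0 < C ∧ ∀ (N D : ℕ) (s : Sv N),
    ∑ m ∈ Icc 3 (7 * N), aa s m ^ 2 ≤ C * N * LL N ^ k ∧
    ∑ m ∈ Icc 3 (7 * N), mdl s m ^ 2 ≤ C * N * LL N ^ k ∧
    ∑ m ∈ (Icc 3 (7 * N)).filter (B0 s), mdl s m ^ 2 ≤ C * N * LL N ^ k / 2 ^ s.k ∧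
    ∑ m ∈ (Icc 3 (7 * N)).filter (B1 s D), (Λ m * sig s m) ^ 2 ≤ C * N * LL N ^ k *
      (∑ l ∈ D.primeFactors, 1 / (l : ℝ) + 1 / 2 ^ s.k + (N : ℝ) ^ (-(1 / 4) : ℝ)) := by
  obtain ⟨C1, k1, hC1, h1⟩ := sum_G
  obtain ⟨C2, k2, hC2, h2⟩ := sum_dvd
  obtain ⟨C3, hC3, h3⟩ := sum_np
  set E := Real.exp 16 ^ 2 with hE
  have hE0 : 0 < E := by positivity
  refine ⟨(18 + 2 * E) * C1 + 9 * C2 + C3, k1 + k2 + 16, by positivity, fun N D s => ?_⟩
  have hN : 1 ≤ N := by have := two_le s; omega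
  have hL := one_le_LL N
  have hN0 : (0 : ℝ) ≤ N := Nat.cast_nonneg _
  set W := N * LL N ^ (k1 + k2 + 16) with hW
  have hW0 : 0 ≤ W := by positivity
  have hpow : ∀ j, j ≤ k1 + k2 + 16 → N * LL N ^ j ≤ W := fun j hj =>
    mul_le_mul_of_nonneg_left (pow_le_pow_right₀ hL hj) hN0
  have hG : LL N ^ 16 * ∑ m ∈ Icc 3 (7 * N), G m ≤ C1 * W := by
    calc _ ≤ LL N ^ 16 * (C1 * N * LL N ^ k1) := by gcongr; exact h1 N hN
      _ = C1 * (N * LL N ^ (k1 + 16)) := by ring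
      _ ≤ _ := by gcongr; exact hpow _ (by omega)
  have hL2 : LL N ^ 2 ≤ LL N ^ 16 := pow_le_pow_right₀ hL (by norm_num)
  have b1 : ∀ m ∈ Icc 3 (7 * N), mdl s m ^ 2 ≤ E * (LL N ^ 16 * G m) := by
    intro m hm
    have := le_G (mem_Icc.1 hm).1 2 4 (by norm_num)
    refine (mdl_sq s (mem_Icc.1 hm).1).trans ?_
    rw [mul_assoc]
    gcongr
  have b2 : ∀ m ∈ Icc 3 (7 * N), (Λ m * sig s m) ^ 2 ≤ 9 * (LL N ^ 16 * G m) := by
    intro m hm
    have := le_G (mem_Icc.1 hm).1 0 4 (by norm_num)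
    rw [pow_zero, one_mul] at this
    have := tau_nonneg (m - 2)
    refine (ls_sq s hm).trans ?_
    rw [mul_assoc]
    gcongr
  have c1 : 0 ≤ C1 * W := by positivity
  have c2 : 0 ≤ C2 * W := by positivity
  have c3 : 0 ≤ C3 * W := by positivity
  have c4 : 0 ≤ E * (C1 * W) := by positivity
  have e0 : ((18 + 2 * E) * C1 + 9 * C2 + C3) * N * LL N ^ (k1 + k2 + 16) =
      18 * (C1 * W) + 2 * (E * (C1 * W)) + 9 * (C2 * W) + C3 * W := by rw [hW]; ring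
  rw [e0]
  refine ⟨?_, ?_, ?_, ?_⟩
  · have : ∀ m ∈ Icc 3 (7 * N), aa s m ^ 2 ≤ (18 + 2 * E) * (LL N ^ 16 * G m) := by
      intro m hm
      have := b1 m hm
      have := b2 m hm
      unfold aa
      nlinarith [sq_nonneg (Λ m * sig s m + mdl s m)]
    refine (sum_le_sum this).trans ?_
    rw [← mul_sum, ← mul_sum]
    calc _ ≤ (18 + 2 * E) * (C1 * W) := by gcongr
      _ ≤ _ := by linarith
  · refine (sum_le_sum b1).trans ?_
    rw [← mul_sum, ← mul_sum]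
    calc _ ≤ E * (C1 * W) := by gcongr
      _ ≤ _ := by linarith
  · have : ∀ m ∈ (Icc 3 (7 * N)).filter (B0 s), mdl s m ^ 2 ≤
        E * (LL N ^ 16 * G m) / 2 ^ s.k := by
      intro m hm
      rw [mem_filter, mem_Icc] at hm
      have a1 := le_G hm.1.1 3 5 (by norm_num)
      have a2 := bad_le hm.2 ((pow_card_le_tau _ (primes s.y)
        (Nat.mul_ne_zero (by omega) (by omega))).trans (tau_mul_le m (m - 2)))
      have a3 := tau_nonneg m
      have a4 := tau_nonneg (m - 2)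
      calc _ ≤ E * LL N ^ 16 * (tau m ^ 2 * tau (m - 2) ^ 4) := mdl_sq s hm.1.1
        _ ≤ E * LL N ^ 16 * (tau m ^ 2 * tau (m - 2) ^ 4) * (tau m * tau (m - 2) / 2 ^ s.k) :=
          le_mul_of_one_le_right (by positivity) a2
        _ = E * (LL N ^ 16 * (tau m ^ 3 * tau (m - 2) ^ 5)) / 2 ^ s.k := by ring
        _ ≤ _ := by gcongr
    refine (sum_le_sum this).trans ?_
    rw [← sum_div, ← mul_sum, ← mul_sum]
    have a5 : ∑ m ∈ (Icc 3 (7 * N)).filter (B0 s), G m ≤ ∑ m ∈ Icc 3 (7 * N), G m :=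
      sum_le_sum_of_subset_of_nonneg (filter_subset _ _) fun m _ _ => G_nonneg m
    gcongr
    calc _ ≤ E * (LL N ^ 16 * ∑ m ∈ Icc 3 (7 * N), G m) := by gcongr
      _ ≤ E * (C1 * W) := by gcongr
      _ ≤ _ := by linarith
  · have key : ∑ m ∈ (Icc 3 (7 * N)).filter (B1 s D), (Λ m * sig s m) ^ 2 ≤
        ∑ m ∈ Icc 3 (7 * N), ((if ¬ m.Prime then (Λ m * sig s m) ^ 2 else 0) +
          9 * LL N ^ 2 * ∑ l ∈ D.primeFactors, (if l ∣ m - 2 then tau (m - 2) ^ 4 else 0) +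
          9 * (LL N ^ 16 * G m) / 2 ^ s.k) := by
      rw [sum_filter]
      refine sum_le_sum fun m hm => ?_
      have a4 := tau_nonneg (m - 2)
      have t1 : 0 ≤ (if ¬ m.Prime then (Λ m * sig s m) ^ 2 else 0) := by
        split_ifs <;> positivity
      have t0 : ∀ l ∈ D.primeFactors, 0 ≤ (if l ∣ m - 2 then tau (m - 2) ^ 4 else 0) :=
        fun l _ => by split_ifs <;> positivity
      have t2 : 0 ≤ 9 * LL N ^ 2 *
          ∑ l ∈ D.primeFactors, (if l ∣ m - 2 then tau (m - 2) ^ 4 else 0) :=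
        mul_nonneg (by positivity) (sum_nonneg t0)
      have t3 : 0 ≤ 9 * (LL N ^ 16 * G m) / 2 ^ s.k := by have := G_nonneg m; positivity
      have a0 := ls_sq s hm
      by_cases hB : B1 s D m
      · rw [if_pos hB]
        rcases hB with hB | ⟨l, hl, hB⟩ | hB
        · rw [if_pos hB]; linarith
        · have := single_le_sum t0 hl
          rw [if_pos hB] at this
          have : 9 * LL N ^ 2 * tau (m - 2) ^ 4 ≤ 9 * LL N ^ 2 *
            ∑ l ∈ D.primeFactors, (if l ∣ m - 2 then tau (m - 2) ^ 4 else 0) := by gcongr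
          linarith
        · rw [mem_Icc] at hm
          have a1 := le_G hm.1 0 5 (by norm_num)
          rw [pow_zero, one_mul] at a1
          have a2 := bad_le hB (pow_card_le_tau _ (primes s.y) (by omega))
          have : (Λ m * sig s m) ^ 2 ≤ 9 * (LL N ^ 16 * G m) / 2 ^ s.k := by
            calc _ ≤ 9 * LL N ^ 2 * tau (m - 2) ^ 4 * (tau (m - 2) / 2 ^ s.k) :=
                a0.trans (le_mul_of_one_le_right (by positivity) a2)
              _ = 9 * (LL N ^ 2 * tau (m - 2) ^ 5) / 2 ^ s.k := by ring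
              _ ≤ _ := by gcongr
          linarith
      · rw [if_neg hB]; linarith
    refine key.trans ?_
    rw [sum_add_distrib, sum_add_distrib, ← sum_filter, ← mul_sum, sum_comm, ← sum_div, ← mul_sum,
      ← mul_sum]
    have d1 := h3 N s
    have d2 : ∑ l ∈ D.primeFactors, ∑ m ∈ Icc 3 (7 * N),
        (if l ∣ m - 2 then tau (m - 2) ^ 4 else 0) ≤
        C2 * N * LL N ^ k2 * ∑ l ∈ D.primeFactors, 1 / (l : ℝ) := by
      rw [mul_sum]
      refine sum_le_sum fun l hl => ?_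
      rw [← sum_filter]
      exact h2 N l hN (Nat.prime_of_mem_primeFactors hl)
    set S := ∑ l ∈ D.primeFactors, 1 / (l : ℝ)
    have hS : 0 ≤ S := sum_nonneg fun _ _ => by positivity
    set u := (N : ℝ) ^ (-(1 / 4) : ℝ)
    have hu : 0 ≤ u := by positivity
    set v : ℝ := 1 / 2 ^ s.k with hv
    have hv0 : 0 ≤ v := by positivity
    have d3 : C3 * N * LL N ^ 2 * u ≤ C3 * W * u := by
      rw [mul_assoc C3]; gcongr; exact hpow _ (by omega)
    have d4 : 9 * LL N ^ 2 * ∑ l ∈ D.primeFactors, ∑ m ∈ Icc 3 (7 * N),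
        (if l ∣ m - 2 then tau (m - 2) ^ 4 else 0) ≤ 9 * (C2 * W) * S := by
      calc _ ≤ 9 * LL N ^ 2 * (C2 * N * LL N ^ k2 * S) := by gcongr
        _ = 9 * (C2 * (N * LL N ^ (k2 + 2))) * S := by ring
        _ ≤ _ := by gcongr; exact hpow _ (by omega)
    have d5 : 9 * (LL N ^ 16 * ∑ m ∈ Icc 3 (7 * N), G m) / 2 ^ s.k ≤ 9 * (C1 * W) * v := by
      rw [hv, mul_one_div]; gcongr
    generalize C1 * W = x1 at *
    generalize C2 * W = x2 at *
    generalize C3 * W = x3 at *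
    generalize E * x1 = x4 at *
    nlinarith [mul_nonneg c1 hS, mul_nonneg c1 hu, mul_nonneg c1 hv0, mul_nonneg c2 hS,
      mul_nonneg c2 hu, mul_nonneg c2 hv0, mul_nonneg c3 hS, mul_nonneg c3 hu, mul_nonneg c3 hv0,
      mul_nonneg c4 hS, mul_nonneg c4 hu, mul_nonneg c4 hv0]

end MomP

theorem mom : S_Mom := ⟨MomP.part1, MomP.part2, MomP.part3⟩

end Pool.Agent.P.MP_0ad054_nt.Sun
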