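import Pool.Agent.P.MP_0ad054_nt.Sun.Defs

/-! The third moment of the number of representations by `x ^ 2 + 7 w ^ 2`. -/

namespace Pool.Agent.P.MP_0ad054_nt.Sun

open Finset

namespace RGP

theorem cop {x w g : ℤ} (h : x ^ 2 + 7 * w ^ 2 = g) (hc : IsCoprime x w) : IsCoprime g w := by
  have := (hc.pow_left (m := 2)).add_mul_left_left (7 * w)
  have e : x ^ 2 + w * (7 * w) = g := by linear_combination h
  rwa [e] at this

theorem cofactor {g A B d h : ℤ} (hd0 : d ≠ 0) (hg : g = d * h) (hd : d = Int.gcd g A)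
    (hAB : g ∣ A * B) : h ∣ B := by
  have e := Int.gcd_eq_gcd_ab g A
  rw [← hd] at e
  have h1 : g ∣ d * B := by
    have : d * B = g * (Int.gcdA g A * B) + A * B * Int.gcdB g A := by
      linear_combination B * e
    rw [this]
    exact dvd_add (Dvd.intro _ rfl) (hAB.mul_right _)
  rw [hg] at h1
  exact (mul_dvd_mul_iff_left hd0).1 h1

theorem same {g x0 w0 x1 w1 x2 w2 : ℤ} (hg : 0 < g)
    (h0 : x0 ^ 2 + 7 * w0 ^ 2 = g) (c0 : IsCoprime x0 w0)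
    (h1 : x1 ^ 2 + 7 * w1 ^ 2 = g) (c1 : IsCoprime x1 w1)
    (h2 : x2 ^ 2 + 7 * w2 ^ 2 = g)
    (e : Int.gcd g (x1 * w0 - x0 * w1) = Int.gcd g (x2 * w0 - x0 * w2)) :
    (x2 = x1 ∧ w2 = w1) ∨ (x2 = -x1 ∧ w2 = -w1) := by
  obtain ⟨d, hd⟩ : ∃ d : ℤ, d = Int.gcd g (x1 * w0 - x0 * w1) := ⟨_, rfl⟩
  have hd2 : d = Int.gcd g (x2 * w0 - x0 * w2) := by rw [hd, e]
  have hdg : d ∣ g := by rw [hd]; exact Int.gcd_dvd_left _ _
  obtain ⟨h, hh⟩ := hdg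
  have hd0 : d ≠ 0 := by rintro h'; rw [h'] at hh; omega
  have a1 : d ∣ x1 * w0 - x0 * w1 := by rw [hd]; exact Int.gcd_dvd_right _ _
  have a2 : d ∣ x2 * w0 - x0 * w2 := by rw [hd2]; exact Int.gcd_dvd_right _ _
  have b1 : h ∣ x1 * w0 + x0 * w1 := cofactor hd0 hh hd
    ⟨w0 ^ 2 - w1 ^ 2, by linear_combination w0 ^ 2 * h1 - w1 ^ 2 * h0⟩
  have b2 : h ∣ x2 * w0 + x0 * w2 := cofactor hd0 hh hd2
    ⟨w0 ^ 2 - w2 ^ 2, by linear_combination w0 ^ 2 * h2 - w2 ^ 2 * h0⟩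
  have g0 := cop h0 c0
  have g1 := cop h1 c1
  have dE : d ∣ x1 * w2 - x2 * w1 := by
    refine (g0.of_isCoprime_of_dvd_left ⟨h, hh⟩).dvd_of_dvd_mul_left ?_
    have : w0 * (x1 * w2 - x2 * w1) = (x1 * w0 - x0 * w1) * w2 - (x2 * w0 - x0 * w2) * w1 := by ring
    rw [this]
    exact dvd_sub (a1.mul_right _) (a2.mul_right _)
  have hE : h ∣ x1 * w2 - x2 * w1 := by
    refine (g0.of_isCoprime_of_dvd_left ⟨d, by rw [hh]; ring⟩).dvd_of_dvd_mul_left ?_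
    have : w0 * (x1 * w2 - x2 * w1) = (x1 * w0 + x0 * w1) * w2 - (x2 * w0 + x0 * w2) * w1 := by ring
    rw [this]
    exact dvd_sub (b1.mul_right _) (b2.mul_right _)
  obtain ⟨t, ht⟩ : ∃ t : ℕ, t = Int.gcd d h := ⟨_, rfl⟩
  have td : (t : ℤ) ∣ d := by rw [ht]; exact Int.gcd_dvd_left _ _
  have th : (t : ℤ) ∣ h := by rw [ht]; exact Int.gcd_dvd_right _ _
  have tg : (t : ℤ) ∣ g := td.trans ⟨h, hh⟩
  have t2 : (t : ℤ) ^ 2 ∣ g := by rw [hh, sq]; exact mul_dvd_mul td th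
  have t3 : (t : ℤ) ∣ 2 * x1 := by
    refine (g0.of_isCoprime_of_dvd_left tg).dvd_of_dvd_mul_left ?_
    have : w0 * (2 * x1) = (x1 * w0 - x0 * w1) + (x1 * w0 + x0 * w1) := by ring
    rw [this]
    exact dvd_add (td.trans a1) (th.trans b1)
  have t4 : (t : ℤ) ^ 2 ∣ 28 := by
    refine ((g1.of_isCoprime_of_dvd_left tg).pow (m := 2) (n := 2)).dvd_of_dvd_mul_left ?_
    have : w1 ^ 2 * 28 = g * 4 - (2 * x1) ^ 2 := by linear_combination 4 * h1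
    rw [this]
    exact dvd_sub (t2.mul_right _) (pow_dvd_pow_of_dvd t3 2)
  have t5 : t ^ 2 ∣ 28 := by exact_mod_cast t4
  have t6 : t ≤ 5 := by
    have := Nat.le_of_dvd (by norm_num) t5
    nlinarith
  have t7 : t ≤ 2 ∧ 1 ≤ t := by
    clear * - t5 t6
    interval_cases t <;> simp_all
  have gE : g ∣ t * (x1 * w2 - x2 * w1) := by
    have e2 := Int.gcd_eq_gcd_ab d h
    rw [← ht] at e2
    obtain ⟨p, hp⟩ := dE
    obtain ⟨q, hq⟩ := hE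
    refine ⟨q * Int.gcdA d h + p * Int.gcdB d h, ?_⟩
    rw [e2, hh]
    linear_combination (d * Int.gcdA d h) * hq + (h * Int.gcdB d h) * hp
  have id1 : (x1 * x2 + 7 * w1 * w2) ^ 2 + 7 * (x1 * w2 - x2 * w1) ^ 2 = g ^ 2 := by
    have : g ^ 2 = (x1 ^ 2 + 7 * w1 ^ 2) * (x2 ^ 2 + 7 * w2 ^ 2) := by rw [h1, h2]; ring
    rw [this]; ring
  have E0 : x1 * w2 - x2 * w1 = 0 := by
    by_contra hne
    have ht1 : (1 : ℤ) ≤ t := by exact_mod_cast t7.2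
    have ht2 : (t : ℤ) ≤ 2 := by exact_mod_cast t7.1
    have hne2 : (t : ℤ) * (x1 * w2 - x2 * w1) ≠ 0 := mul_ne_zero (by omega) hne
    have k1 := Int.le_of_dvd (abs_pos.2 hne2) ((dvd_abs _ _).2 gE)
    have k2 : g ^ 2 ≤ ((t : ℤ) * (x1 * w2 - x2 * w1)) ^ 2 := by
      rw [← sq_abs ((t : ℤ) * _)]
      exact pow_le_pow_left₀ hg.le k1 2
    have k3 : 0 < (x1 * w2 - x2 * w1) ^ 2 := by positivity
    have k4 : (t : ℤ) ^ 2 ≤ 4 := by nlinarith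
    nlinarith [sq_nonneg (x1 * x2 + 7 * w1 * w2)]
  have s1 : g * x2 = x1 * (x1 * x2 + 7 * w1 * w2) := by
    linear_combination (-x2) * h1 - 7 * w1 * E0
  have s2 : g * w2 = w1 * (x1 * x2 + 7 * w1 * w2) := by
    linear_combination (-w2) * h1 + x1 * E0
  rw [E0] at id1
  have id2 : (x1 * x2 + 7 * w1 * w2) ^ 2 = g ^ 2 := by linarith
  rcases sq_eq_sq_iff_eq_or_eq_neg.1 id2 with k | k
  · left
    rw [k] at s1 s2
    exact ⟨mul_left_cancel₀ hg.ne' (by linarith), mul_left_cancel₀ hg.ne' (by linarith)⟩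
  · right
    rw [k] at s1 s2
    exact ⟨mul_left_cancel₀ hg.ne' (by linarith), mul_left_cancel₀ hg.ne' (by linarith)⟩

theorem prim (g : ℕ) (hg : 0 < g) (S : Finset (ℤ × ℤ))
    (hS : ∀ ξ ∈ S, ξ.1 ^ 2 + 7 * ξ.2 ^ 2 = g ∧ IsCoprime ξ.1 ξ.2) :
    S.card ≤ 2 * g.divisors.card := by
  rcases S.eq_empty_or_nonempty with rfl | ⟨⟨x0, w0⟩, h0⟩
  · simp
  refine card_le_mul_card_image_of_maps_to
    (f := fun ξ => Int.gcd g (ξ.1 * w0 - x0 * ξ.2)) (fun ξ _ => ?_) 2 (fun d _ => ?_)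
  · rw [Nat.mem_divisors]
    exact ⟨by exact_mod_cast Int.gcd_dvd_left (g : ℤ) (ξ.1 * w0 - x0 * ξ.2), hg.ne'⟩
  · rcases (S.filter (fun ξ => Int.gcd g (ξ.1 * w0 - x0 * ξ.2) = d)).eq_empty_or_nonempty with
      h | ⟨⟨x1, w1⟩, h1⟩
    · rw [h]; simp
    · refine le_trans (card_le_card (t := {(x1, w1), (-x1, -w1)}) ?_) card_le_two
      rintro ⟨x2, w2⟩ h2
      rw [mem_filter] at h1 h2
      have := same (by exact_mod_cast hg) (hS _ h0).1 (hS _ h0).2 (hS _ h1.1).1 (hS _ h1.1).2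
        (hS _ h2.1).1 (h1.2.trans h2.2.symm)
      simpa using this

theorem all (g : ℕ) (hg : 0 < g) (S : Finset (ℤ × ℤ))
    (hS : ∀ ξ ∈ S, ξ.1 ^ 2 + 7 * ξ.2 ^ 2 = g) :
    S.card ≤ 2 * g.divisors.card * g.divisors.card := by
  refine card_le_mul_card_image_of_maps_to (f := fun ξ => Int.gcd ξ.1 ξ.2) (fun ξ hξ => ?_) _
    (fun t ht => ?_)
  · rw [Nat.mem_divisors]
    refine ⟨?_, hg.ne'⟩
    have : ((Int.gcd ξ.1 ξ.2 : ℕ) : ℤ) ∣ g := by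
      rw [← hS ξ hξ]
      exact dvd_add (dvd_pow (Int.gcd_dvd_left _ _) two_ne_zero)
        ((dvd_pow (Int.gcd_dvd_right _ _) two_ne_zero).mul_left _)
    exact_mod_cast this
  · have ht0 : 0 < t := Nat.pos_of_mem_divisors ht
    have ht1 : (t : ℤ) ≠ 0 := by exact_mod_cast ht0.ne'
    rcases (S.filter (fun ξ => Int.gcd ξ.1 ξ.2 = t)).eq_empty_or_nonempty with h | ⟨ξ0, h0⟩
    · rw [h]; simp
    have key : ∀ ξ ∈ S.filter (fun ξ => Int.gcd ξ.1 ξ.2 = t),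
        ξ.1 = t * (ξ.1 / t) ∧ ξ.2 = t * (ξ.2 / t) ∧ IsCoprime (ξ.1 / t) (ξ.2 / t) := by
      intro ξ hξ
      have e := (mem_filter.1 hξ).2
      refine ⟨?_, ?_, ?_⟩
      · rw [Int.mul_ediv_cancel' (e ▸ Int.gcd_dvd_left _ _)]
      · rw [Int.mul_ediv_cancel' (e ▸ Int.gcd_dvd_right _ _)]
      · rw [Int.isCoprime_iff_gcd_eq_one, ← e]
        exact Int.gcd_div_gcd_div_gcd (e ▸ ht0)
    have hdv : t ^ 2 ∣ g := by
      have : (t : ℤ) ^ 2 ∣ g := by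
        rw [← hS ξ0 (mem_filter.1 h0).1]
        refine ⟨(ξ0.1 / t) ^ 2 + 7 * (ξ0.2 / t) ^ 2, ?_⟩
        linear_combination (ξ0.1 + t * (ξ0.1 / t)) * (key ξ0 h0).1 +
          7 * (ξ0.2 + t * (ξ0.2 / t)) * (key ξ0 h0).2.1
      exact_mod_cast this
    obtain ⟨g', hg'⟩ := hdv
    have hg0 : 0 < g' := Nat.pos_of_ne_zero (by rintro rfl; omega)
    have hinj : Set.InjOn (fun ξ : ℤ × ℤ => (ξ.1 / t, ξ.2 / t))
        (S.filter (fun ξ => Int.gcd ξ.1 ξ.2 = t) : Finset _) := by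
      intro a ha b hb e
      simp only [Prod.mk.injEq] at e
      refine Prod.ext ?_ ?_
      · rw [(key a ha).1, (key b hb).1, e.1]
      · rw [(key a ha).2.1, (key b hb).2.1, e.2]
    rw [← card_image_of_injOn hinj]
    refine (prim g' hg0 _ ?_).trans (Nat.mul_le_mul_left 2 (card_le_card ?_))
    · intro ξ hξ
      obtain ⟨a, ha, rfl⟩ := mem_image.1 hξ
      refine ⟨mul_left_cancel₀ (pow_ne_zero 2 ht1) ?_, (key a ha).2.2⟩
      have h1 := hS a (mem_filter.1 ha).1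
      have h2 : (g : ℤ) = t ^ 2 * g' := by exact_mod_cast hg'
      simp only
      linear_combination h1 + h2 - (a.1 + t * (a.1 / t)) * (key a ha).1 -
          7 * (a.2 + t * (a.2 / t)) * (key a ha).2.1
    · exact Nat.divisors_subset_of_dvd hg.ne' (Dvd.intro_left _ hg'.symm)

theorem rG_le (N g : ℕ) (hg : 0 < g) : rG N g ≤ 2 * tau g ^ 2 := by
  have := all g hg ((box (Nat.sqrt N)).filter (fun ξ => GG ξ = g))
    (fun ξ hξ => (mem_filter.1 hξ).2)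
  unfold rG tau
  rw [sq, ← mul_assoc]
  exact_mod_cast this

theorem rG_zero (N : ℕ) : rG N 0 ≤ 1 := by
  unfold rG
  have : ((box (Nat.sqrt N)).filter (fun ξ => GG ξ = 0)).card ≤ 1 := by
    refine le_trans (card_le_card (t := {(0, 0)}) ?_) (by simp)
    rintro ⟨x, w⟩ h
    have h1 : x ^ 2 + 7 * w ^ 2 = 0 := (mem_filter.1 h).2
    have hx : x = 0 := by nlinarith [sq_nonneg x, sq_nonneg w]
    have hw : w = 0 := by nlinarith [sq_nonneg x, sq_nonneg w]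
    simp [hx, hw]
  exact_mod_cast this

end RGP

open RGP in
theorem rg : S_RG := by
  refine ⟨1 + 64 * 4 ^ 64, 64, by positivity, fun N hN => ?_⟩
  have hN' : (1 : ℝ) ≤ N := by exact_mod_cast hN
  have hl : 0 ≤ Real.log N := Real.log_nonneg hN'
  have hr : ∀ g, 0 ≤ rG N g := fun g => Nat.cast_nonneg _
  have e : Icc (0 : ℤ) (8 * N) = insert 0 ((Icc 1 (8 * N)).image (fun n : ℕ => (n : ℤ))) := by
    ext g
    simp only [mem_Icc, mem_insert, mem_image]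
    constructor
    · rintro ⟨h1, h2⟩
      rcases eq_or_lt_of_le h1 with h | h
      · exact Or.inl h.symm
      · exact Or.inr ⟨g.toNat, by omega, by omega⟩
    · rintro (rfl | ⟨n, hn, rfl⟩) <;> omega
  rw [e, sum_insert (by simp), sum_image (fun a _ b _ h => by exact_mod_cast h)]
  have h1 : rG N 0 ^ 3 ≤ 1 := pow_le_one₀ (hr 0) (rG_zero N)
  have h2 : ∑ n ∈ Icc 1 (8 * N), rG N n ^ 3 ≤ 8 * ∑ n ∈ Icc 1 (8 * N), tau n ^ 6 := by
    rw [mul_sum]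
    refine sum_le_sum fun n hn => ?_
    calc rG N n ^ 3 ≤ (2 * tau n ^ 2) ^ 3 :=
          pow_le_pow_left₀ (hr n) (rG_le N n (mem_Icc.1 hn).1) 3
      _ = _ := by ring
  have h3 := sum_tau_pow_le 6 (8 * N)
  have h4 : 1 + Real.log ((8 * N : ℕ) : ℝ) ≤ 4 * LL N := by
    unfold LL
    push_cast
    rw [Real.log_mul (by norm_num) (by linarith), show (8 : ℝ) = 2 ^ 3 by norm_num, Real.log_pow]
    push_cast
    linarith [Real.log_two_lt_d9]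
  have h5 : (1 + Real.log ((8 * N : ℕ) : ℝ)) ^ 2 ^ 6 ≤ (4 * LL N) ^ 64 :=
    pow_le_pow_left₀ (by linarith [Real.log_natCast_nonneg (8 * N)]) h4 _
  have h6 : 1 ≤ LL N ^ 64 := one_le_pow₀ (by unfold LL; linarith)
  have h7 : ((8 * N : ℕ) : ℝ) * (1 + Real.log ((8 * N : ℕ) : ℝ)) ^ 2 ^ 6 ≤
      8 * N * (4 ^ 64 * LL N ^ 64) := by
    rw [← mul_pow]
    push_cast at h5 ⊢
    gcongr
  have h8 : 1 ≤ N * LL N ^ 64 := one_le_mul_of_one_le_of_one_le hN' h6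
  nlinarith

end Pool.Agent.P.MP_0ad054_nt.Sun
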