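import Pool.Agent.P.MP_0ad054_nt.Sun.Defs

/-! Many Gaussian integers of given norm, and primes congruent to one modulo four. -/

namespace Pool.Agent.P.MP_0ad054_nt.Sun

open Finset
open scoped ArithmeticFunction.vonMangoldt

namespace DeltaP

theorem mem_Del {D : ℕ} {δ : ℤ × ℤ} : δ ∈ Del D ↔ δ.1 ^ 2 + δ.2 ^ 2 = D := by
  simp only [Del, box, mem_filter, mem_product, mem_Icc]
  constructor
  · exact fun h => h.2
  · intro h
    refine ⟨⟨⟨?_, ?_⟩, ?_, ?_⟩, h⟩ <;> nlinarith [sq_nonneg (δ.1 + 1), sq_nonneg (δ.1 - 1),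
      sq_nonneg (δ.2 + 1), sq_nonneg (δ.2 - 1), sq_nonneg δ.1, sq_nonneg δ.2,
      Int.le_self_sq δ.1, Int.le_self_sq δ.2, Int.le_self_sq (-δ.1), Int.le_self_sq (-δ.2)]

theorem step {p a : ℕ} (hp : p.Prime) (h4 : p % 4 = 1) (ha : ¬ p ∣ a) :
    2 * (Del a).card ≤ (Del (p * a)).card := by
  have := Fact.mk hp
  obtain ⟨u0, v0, huv0⟩ := Nat.Prime.sq_add_sq (p := p) (by omega)
  obtain ⟨u, v, huv⟩ : ∃ u v : ℤ, u ^ 2 + v ^ 2 = p := ⟨u0, v0, by exact_mod_cast huv0⟩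
  have hP : Prime (p : ℤ) := Nat.prime_iff_prime_int.1 hp
  have hp0 : (p : ℤ) ≠ 0 := hP.ne_zero
  have hnu : ∀ u v : ℤ, u ^ 2 + v ^ 2 = p → ¬ (p : ℤ) ∣ u := by
    rintro u v h ⟨c, rfl⟩
    have h1 : (p : ℤ) ∣ v ^ 2 := ⟨1 - p * c ^ 2, by linear_combination h⟩
    obtain ⟨d, rfl⟩ := hP.dvd_of_dvd_pow h1
    have h2 : (p : ℤ) * (p * (c ^ 2 + d ^ 2)) = p * 1 := by linear_combination h
    exact hP.not_dvd_one ⟨_, (mul_left_cancel₀ hp0 h2).symm⟩
  have hu := hnu u v huv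
  have hv := hnu v u (by linarith)
  have h2 : ¬ (p : ℤ) ∣ 2 := by
    intro h
    have h' : p ∣ 2 := by exact_mod_cast h
    have := Nat.le_of_dvd (by norm_num) h'
    have := hp.two_le
    omega
  set φ : ℤ → ℤ × ℤ → ℤ × ℤ := fun v d => (u * d.1 - v * d.2, v * d.1 + u * d.2) with hφ
  have hinj : ∀ v : ℤ, u ^ 2 + v ^ 2 = p → Function.Injective (φ v) := by
    rintro v h ⟨x, y⟩ ⟨x', y'⟩ e
    simp only [hφ, Prod.mk.injEq] at e ⊢
    constructor
    · refine mul_left_cancel₀ hp0 ?_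
      linear_combination u * e.1 + v * e.2 - (x - x') * h
    · refine mul_left_cancel₀ hp0 ?_
      linear_combination u * e.2 - v * e.1 - (y - y') * h
  have hmem : ∀ v : ℤ, u ^ 2 + v ^ 2 = p → (Del a).image (φ v) ⊆ Del (p * a) := by
    intro v h x hx
    obtain ⟨d, hd, rfl⟩ := mem_image.1 hx
    rw [mem_Del] at hd ⊢
    simp only [hφ]
    push_cast
    rw [← h, ← hd]; ring
  have huv' : u ^ 2 + (-v) ^ 2 = p := by linarith
  have hdisj : Disjoint ((Del a).image (φ v)) ((Del a).image (φ (-v))) := by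
    rw [disjoint_left]
    intro x hx hx'
    obtain ⟨⟨s, t⟩, hd, rfl⟩ := mem_image.1 hx
    obtain ⟨⟨s', t'⟩, -, e⟩ := mem_image.1 hx'
    rw [mem_Del] at hd
    simp only [hφ, Prod.mk.injEq] at e hd
    have a1 : (p : ℤ) ∣ 2 * (u * (u * s - v * t)) :=
      ⟨s + s', by linear_combination (s + s') * huv - u * e.1 + v * e.2⟩
    have a2 : (p : ℤ) ∣ 2 * (v * (v * s + u * t)) :=
      ⟨s - s', by linear_combination (s - s') * huv + u * e.1 - v * e.2⟩
    obtain ⟨c, hc⟩ := (hP.dvd_or_dvd ((hP.dvd_or_dvd a1).resolve_left h2)).resolve_left hu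
    obtain ⟨d, hd'⟩ := (hP.dvd_or_dvd ((hP.dvd_or_dvd a2).resolve_left h2)).resolve_left hv
    have h3 : (p : ℤ) * a = p * (p * (c ^ 2 + d ^ 2)) := by
      have : (u * s - v * t) ^ 2 + (v * s + u * t) ^ 2 = p * a := by rw [← huv, ← hd]; ring
      rw [← this, hc, hd']; ring
    have h5 : (p : ℤ) ∣ a := ⟨_, mul_left_cancel₀ hp0 h3⟩
    exact ha (by exact_mod_cast h5)
  have := card_le_card (union_subset (hmem v huv) (hmem (-v) huv'))
  rw [card_union_of_disjoint hdisj, card_image_of_injective _ (hinj v huv),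
    card_image_of_injective _ (hinj (-v) huv')] at this
  omega

theorem psi_le (Z : ℕ) (hZ : 1 ≤ Z) :
    ∑ n ∈ (Icc 1 (2 * Z)).filter (fun n : ℕ => ((4 : ℕ) : ℤ) ∣ n - 1), Λ n -
      ∑ n ∈ (Icc 1 Z).filter (fun n : ℕ => ((4 : ℕ) : ℤ) ∣ n - 1), Λ n ≤
      (((Ioc Z (2 * Z)).filter (fun p => p.Prime ∧ p % 4 = 1)).card + 2 * Real.sqrt (2 * Z)) *
        Real.log (2 * Z) := by
  have hZ' : (1 : ℝ) ≤ Z := by exact_mod_cast hZ
  have h1 := Chebyshev.psi_sub_theta_le (x := ((2 * Z : ℕ) : ℝ)) (by push_cast; linarith)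
  rw [Chebyshev.psi_sub_theta_eq_sum_not_prime, Nat.floor_natCast] at h1
  push_cast at h1
  have hsub : (Icc 1 Z).filter (fun n : ℕ => ((4 : ℕ) : ℤ) ∣ n - 1) ⊆
      (Icc 1 (2 * Z)).filter (fun n : ℕ => ((4 : ℕ) : ℤ) ∣ n - 1) :=
    filter_subset_filter _ (Icc_subset_Icc le_rfl (by omega))
  rw [← sum_sdiff hsub, add_sub_cancel_right]
  have h2 : (Icc 1 (2 * Z)).filter (fun n : ℕ => ((4 : ℕ) : ℤ) ∣ n - 1) \
      (Icc 1 Z).filter (fun n : ℕ => ((4 : ℕ) : ℤ) ∣ n - 1) ⊆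
      (Ioc Z (2 * Z)).filter (fun p => p.Prime ∧ p % 4 = 1) ∪
        (Ioc 0 (2 * Z)).filter (fun n => ¬ n.Prime) := by
    intro n hn
    simp only [mem_sdiff, mem_filter, mem_Icc, mem_union, mem_Ioc, not_and] at hn ⊢
    by_cases h : n.Prime
    · left
      have h3 := hn.1.2
      have h4 := fun h => hn.2 h h3
      refine ⟨⟨?_, hn.1.1.2⟩, h, by omega⟩
      by_contra h5
      exact h4 ⟨hn.1.1.1, by omega⟩
    · right; exact ⟨⟨by omega, hn.1.1.2⟩, h⟩
  have h3 : ∑ n ∈ (Ioc Z (2 * Z)).filter (fun p => p.Prime ∧ p % 4 = 1), Λ n ≤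
      ((Ioc Z (2 * Z)).filter (fun p => p.Prime ∧ p % 4 = 1)).card * Real.log (2 * Z) := by
    rw [← nsmul_eq_mul]
    refine sum_le_card_nsmul _ _ _ fun n hn => ?_
    simp only [mem_filter, mem_Ioc] at hn
    refine ArithmeticFunction.vonMangoldt_le_log.trans (Real.log_le_log ?_ ?_)
    · exact_mod_cast hn.2.1.pos
    · exact_mod_cast hn.1.2
  have h4 := sum_le_sum_of_subset_of_nonneg (f := fun n => Λ n) h2
    fun _ _ _ => ArithmeticFunction.vonMangoldt_nonneg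
  have h5 := sum_union_inter (s₁ := (Ioc Z (2 * Z)).filter (fun p => p.Prime ∧ p % 4 = 1))
    (s₂ := (Ioc 0 (2 * Z)).filter (fun n => ¬ n.Prime)) (f := fun n => Λ n)
  have h6 : 0 ≤ ∑ n ∈ (Ioc Z (2 * Z)).filter (fun p => p.Prime ∧ p % 4 = 1) ∩
      (Ioc 0 (2 * Z)).filter (fun n => ¬ n.Prime), Λ n :=
    sum_nonneg fun _ _ => ArithmeticFunction.vonMangoldt_nonneg
  linarith

theorem psi_near (h : An.S_BV) : ∃ C : ℝ, 0 < C ∧ ∀ X : ℕ, 256 ≤ X →
    |∑ n ∈ (Icc 1 X).filter (fun n : ℕ => ((4 : ℕ) : ℤ) ∣ n - 1), Λ n - (X : ℝ) / 2| ≤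
      C * X / Real.log X := by
  obtain ⟨C, hC, hB⟩ := h (1 / 4) 1 (by norm_num)
  refine ⟨C, hC, fun X hX => ?_⟩
  have hX' : (256 : ℝ) ≤ X := by exact_mod_cast hX
  have h1 : ((4 : ℕ) : ℝ) ≤ (X : ℝ) ^ (1 / 4 : ℝ) := by
    have : ((4 : ℕ) : ℝ) = (256 : ℝ) ^ (1 / 4 : ℝ) := by
      rw [show (256 : ℝ) = 4 ^ (4 : ℝ) by norm_num, ← Real.rpow_mul (by norm_num)]; norm_num
    rw [this]
    exact Real.rpow_le_rpow (by norm_num) hX' (by norm_num)
  have h2 := hB X 4 (fun _ => 1) (by omega) h1 (fun k _ => isCoprime_one_left)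
  rw [pow_one] at h2
  refine le_trans ?_ h2
  have h3 := single_le_sum (s := Icc 1 4) (a := 4)
    (f := fun k : ℕ => |∑ n ∈ (Icc 1 X).filter (fun n : ℕ => (k : ℤ) ∣ n - 1), Λ n -
      (X : ℝ) / k.totient|) (fun _ _ => abs_nonneg _) (by simp)
  have h4 : Nat.totient 4 = 2 := by decide
  simp only [h4] at h3
  simpa using h3

end DeltaP

open DeltaP

theorem delta : S_Delta := by
  intro D
  induction D using induction_on_primes with
  | zero => intro h; exact absurd h not_squarefree_zero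
  | one =>
    intro _ _
    simp only [Nat.primeFactors_one, card_empty, pow_zero]
    exact card_pos.2 ⟨(1, 0), mem_Del.2 (by simp)⟩
  | prime_mul p a hp ih =>
    intro hs h4
    have ha0 : a ≠ 0 := by rintro rfl; simp at hs
    have hpa : ¬ p ∣ a := by
      intro h
      exact hp.one_lt.ne' (Nat.isUnit_iff.1 (hs p (Nat.mul_dvd_mul_left p h)))
    have e : (p * a).primeFactors = insert p a.primeFactors := by
      rw [Nat.primeFactors_mul hp.ne_zero ha0, hp.primeFactors]; rfl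
    rw [e] at h4 ⊢
    rw [card_insert_of_notMem (fun h => hpa (Nat.dvd_of_mem_primeFactors h)), pow_succ]
    have h1 := ih (hs.squarefree_of_dvd (Dvd.intro_left p rfl))
      (fun q hq => h4 q (mem_insert_of_mem hq))
    have h2 := step hp (h4 p (mem_insert_self _ _)) hpa
    omega

theorem primes (h : An.S_BV) : S_Primes := by
  obtain ⟨C, hC, hB⟩ := psi_near h
  obtain ⟨C1, hC1, hL⟩ := one_add_log_le (ε := 1 / 4) (by norm_num)
  obtain ⟨Z0, hZ0⟩ := exists_nat_ge (max (Real.exp (12 * C)) ((64 * C1) ^ 4))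
  refine ⟨max Z0 256, fun Z hZ => ?_⟩
  have hZ1 : 256 ≤ Z := le_trans (le_max_right _ _) hZ
  have hZ2 : (Z0 : ℝ) ≤ Z := by exact_mod_cast le_trans (le_max_left _ _) hZ
  have hZr : (256 : ℝ) ≤ Z := by exact_mod_cast hZ1
  have hl : 12 * C ≤ Real.log Z := by
    rw [Real.le_log_iff_exp_le (by linarith)]
    exact (le_max_left _ _).trans (hZ0.trans hZ2)
  have hl2 : Real.log Z ≤ Real.log (2 * Z) := Real.log_le_log (by linarith) (by linarith)
  have hl0 : 0 < Real.log Z := by linarith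
  have b1 := (abs_le.1 (hB Z hZ1)).2
  have b2 := (abs_le.1 (hB (2 * Z) (by omega))).1
  have b3 := psi_le Z (by omega)
  push_cast at b1 b2 b3
  have c1 : C * Z / Real.log Z ≤ Z / 12 := by
    rw [div_le_div_iff₀ hl0 (by norm_num)]; nlinarith
  have c2 : C * (2 * Z) / Real.log (2 * Z) ≤ Z / 6 := by
    rw [div_le_div_iff₀ (by linarith) (by norm_num)]; nlinarith
  by_contra hc
  push Not at hc
  set r := (Z : ℝ) ^ (1 / 4 : ℝ) with hr
  have hr0 : 0 < r := by positivity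
  have hr4 : r ^ 4 = Z := by
    rw [hr, ← Real.rpow_natCast, ← Real.rpow_mul (by linarith)]; norm_num
  have hr2 : Real.sqrt Z = r ^ 2 := by
    rw [← hr4, show r ^ 4 = (r ^ 2) ^ 2 by ring, Real.sqrt_sq (by positivity)]
  have hr3 : Real.sqrt (2 * Z) ≤ 3 / 2 * r ^ 2 := by
    rw [Real.sqrt_le_left (by positivity), ← hr4]; nlinarith [pow_pos hr0 4]
  have hr5 : 64 * C1 ≤ r := by
    refine le_of_pow_le_pow_left₀ (n := 4) (by norm_num) hr0.le ?_
    rw [hr4]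
    exact (le_max_right _ _).trans (hZ0.trans hZ2)
  have hr6 : Real.log (2 * Z) ≤ C1 * r := by
    have := hL Z (by linarith)
    rw [Real.log_mul (by norm_num) (by linarith)]
    linarith [Real.log_two_lt_d9]
  rw [hr2] at hc
  have d1 : (((Ioc Z (2 * Z)).filter (fun p => p.Prime ∧ p % 4 = 1)).card +
      2 * Real.sqrt (2 * Z)) * Real.log (2 * Z) ≤ (4 * r ^ 2) * (C1 * r) :=
    mul_le_mul (by linarith) hr6 (by linarith) (by positivity)
  have d2 : (4 * r ^ 2) * (C1 * r) ≤ r ^ 4 / 16 := by nlinarith [pow_pos hr0 3]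
  linarith

end Pool.Agent.P.MP_0ad054_nt.Sun
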