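import Pool.Agent.P.MP_0ad054_nt.Sun.RadB

/-! Complete quadratic sums over the lattice attached to a Gaussian integer. -/

namespace Pool.Agent.P.MP_0ad054_nt.Sun

open Finset Pool.Agent.Lib.H9

namespace RadP

theorem outer {θ : Fin 4 → ℚ} {D : ℕ} {δ : ℤ × ℤ} {p : ℕ} (hp : p.Prime) {h : Fin 4 → ℤ}
    (hh : h ∈ radical θ (lat D δ)) :
    ((p ^ ((θ 0).den.factorization p - (2 : ℕ).factorization p) : ℕ) : ℤ) ∣ h 0 ∧
    ((p ^ ((θ 3).den.factorization p - (2 : ℕ).factorization p) : ℕ) : ℤ) ∣ h 3 := by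
  have h2 : (2 : ℤ) = p ^ (2 : ℕ).factorization p * (ordCompl[p] 2 : ℕ) := by
    exact_mod_cast (Nat.ordProj_mul_ordCompl_eq_self 2 p).symm
  have hc : ¬ (p : ℤ) ∣ (ordCompl[p] 2 : ℕ) := by
    exact_mod_cast Nat.not_dvd_ordCompl hp two_ne_zero
  constructor
  · refine pow_sub_dvd hp hc ?_
    rw [← h2]
    exact (Int.natCast_dvd_natCast.2 (Nat.ordProj_dvd _ p)).trans (r0 hh)
  · refine pow_sub_dvd hp hc ?_
    rw [← h2]
    exact (Int.natCast_dvd_natCast.2 (Nat.ordProj_dvd _ p)).trans (r3 hh)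

theorem le_fact {n p a b c d : ℕ} (hp : p.Prime) (hn : n ≠ 0)
    (h : p ^ a * (p ^ b * (p ^ c * p ^ d)) ∣ n) : a + (b + (c + d)) ≤ n.factorization p := by
  rw [← pow_add, ← pow_add, ← pow_add] at h
  exact (hp.pow_dvd_iff_le_factorization hn).1 h

/-- the inner coordinates at a prime dividing `D`, general case -/
theorem inner_gen {θ : Fin 4 → ℚ} {D : ℕ} {δ : ℤ × ℤ} {p : ℕ} (hp : p.Prime)
    (H : AddSubgroup (Fin 4 → ℤ)) (hn : H.index ≠ 0) {i j : Fin 4} (hi0 : i ≠ 0) (hi3 : i ≠ 3)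
    (hj0 : j ≠ 0) (hj3 : j ≠ 3) (hij : j ≠ i) {x y c : ℤ} (hy : ¬ (p : ℤ) ∣ 2 * y)
    (hc : ¬ (p : ℤ) ∣ c) (hab : (θ i).den.factorization p ≤ (θ j).den.factorization p)
    (hH : ∀ h ∈ H, h ∈ radical θ (lat D δ))
    (h1 : ∀ h ∈ H, ((θ i).den : ℤ) ∣ p ^ 1 * c * h i)
    (h2 : ∀ h ∈ H, ∃ z : ℤ, θ i * (2 * x * h i : ℤ) + θ j * (2 * y * h j : ℤ) = z) :
    (θ 0).den.factorization p - (2 : ℕ).factorization p +
      ((θ 3).den.factorization p - (2 : ℕ).factorization p +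
      ((θ i).den.factorization p - 1 + (θ j).den.factorization p)) ≤ H.index.factorization p := by
  have hp' := Nat.prime_iff_prime_int.1 hp
  apply le_fact hp hn
  rcases Nat.eq_zero_or_pos ((θ j).den.factorization p) with hb | hb
  · refine idx H hi0 hi3 hj0 hj3 hij _ _ _ _ 0 1 isCoprime_one_left fun h hh =>
      ⟨(outer hp (hH h hh)).1, (outer hp (hH h hh)).2, ?_, ?_⟩
    · rw [show (θ i).den.factorization p - 1 = 0 by omega]; simp
    · rw [hb]; simp
  · have hpj : p ∣ (θ j).den := Nat.dvd_of_factorization_pos hb.ne'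
    have e1 := (Nat.ordProj_mul_ordCompl_eq_self (θ i).den p).symm
    have e2 := (Nat.ordProj_mul_ordCompl_eq_self (θ j).den p).symm
    have hm : ¬ (p : ℤ) ∣ (ordCompl[p] (θ i).den : ℕ) := by
      exact_mod_cast Nat.not_dvd_ordCompl hp (θ i).den_nz
    refine idx H hi0 hi3 hj0 hj3 hij _ _ _ _
      (p ^ ((θ j).den.factorization p - (θ i).den.factorization p) *
        (ordCompl[p] (θ j).den : ℕ) * (θ i).num * (2 * x))
      ((ordCompl[p] (θ i).den : ℕ) * (θ j).num * (2 * y)) (cop_of_not_dvd hp ?_ _) fun h hh =>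
      ⟨(outer hp (hH h hh)).1, (outer hp (hH h hh)).2, ?_, ?_⟩
    · intro h0
      rcases hp'.dvd_or_dvd h0 with h0 | h0
      · rcases hp'.dvd_or_dvd h0 with h0 | h0
        · exact hm h0
        · exact not_dvd_num hp hpj h0
      · exact hy h0
    · exact pow_sub_dvd hp hc
        ((Int.natCast_dvd_natCast.2 (Nat.ordProj_dvd _ p)).trans (h1 h hh))
    · obtain ⟨z, hz⟩ := h2 h hh
      have := mixed hab e1 e2 hz
      rwa [← mul_assoc, ← mul_assoc (_ * _) (2 * y)] at this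

theorem den_dvd_Lc (α β : ℚ) (j : Fin 4) : ∃ z : ℤ, (α + cc j * β) * Lc α β = z := by
  obtain ⟨a, ha⟩ : α.den ∣ Lc α β := Nat.dvd_lcm_left _ _
  obtain ⟨b, hb⟩ : β.den ∣ Lc α β := Nat.dvd_lcm_right _ _
  obtain ⟨c, hc⟩ : ∃ c : ℤ, cc j = c := by
    fin_cases j
    exacts [⟨1, by simp [cc]⟩, ⟨3, by simp [cc]⟩, ⟨5, by simp [cc]⟩, ⟨7, by simp [cc]⟩]
  refine ⟨α.num * a + c * (β.num * b), ?_⟩
  have e1 : α * Lc α β = α.num * a := by rw [ha, ← Rat.mul_den_eq_num]; push_cast; ring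
  have e2 : β * Lc α β = β.num * b := by rw [hb, ← Rat.mul_den_eq_num]; push_cast; ring
  rw [add_mul, mul_assoc, e1, e2, hc]; push_cast; ring

/-- the degenerate case: both inner coordinates are divisible by `p` -/
theorem inner_deg {D p : ℕ} {δ : ℤ × ℤ} {α β : ℚ} (hp : p.Prime) (hD : Squarefree D)
    (hδ : δ.1 ^ 2 + δ.2 ^ 2 = D) (hp2 : ¬ (p : ℤ) ∣ 2) (hpD : p ∣ D) (hpβ : p ∣ β.den)
    (hL : ¬ p ^ 2 ∣ Lc α β) {h : Fin 4 → ℤ}
    (hh : h ∈ radical (fun j => α + cc j * β) (lat D δ)) : (p : ℤ) ∣ h 1 ∧ (p : ℤ) ∣ h 2 := by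
  have hp' := Nat.prime_iff_prime_int.1 hp
  have n1 := not_dvd_of_sq hD hδ hp hpD
  have n2 := not_dvd_of_sq hD ((add_comm _ _).trans hδ) hp hpD
  obtain ⟨D', hD'⟩ := hpD
  obtain ⟨L', hL'⟩ : p ∣ Lc α β := hpβ.trans (Nat.dvd_lcm_right _ _)
  have nL : ¬ (p : ℤ) ∣ L' := by
    intro h0
    obtain ⟨c, hc⟩ := Int.natCast_dvd_natCast.1 h0
    exact hL ⟨c, by rw [hL', hc]; ring⟩
  obtain ⟨g, hg⟩ : (p : ℤ) ∣ δ.1 * h 2 - δ.2 * h 1 :=
    (Int.natCast_dvd_natCast.2 ⟨D', hD'⟩).trans hh.1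
  obtain ⟨z, hz⟩ := r12 hh
  obtain ⟨N1, hN1⟩ := den_dvd_Lc α β 1
  obtain ⟨N2, hN2⟩ := den_dvd_Lc α β 2
  simp only [cc, Matrix.cons_val_one, Matrix.cons_val_zero, Matrix.cons_val] at hz hN1 hN2
  have q1 : (δ.1 : ℚ) ^ 2 + (δ.2 : ℚ) ^ 2 = p * D' := by
    have : δ.1 ^ 2 + δ.2 ^ 2 = p * D' := by rw [hδ, hD']; push_cast; ring
    exact_mod_cast this
  have q2 : (δ.1 : ℚ) * h 2 - δ.2 * h 1 = p * g := by exact_mod_cast hg
  rw [hL'] at hN1 hN2
  push_cast at hN1 hN2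
  have key : β * (4 * h 1 * δ.2 ^ 2 * L' : ℤ) =
      (z * δ.1 * L' - 2 * h 1 * D' * N1 - 2 * g * δ.2 * N2 : ℤ) := by
    push_cast
    linear_combination (δ.1 * L' : ℚ) * hz + (-2 * (α + 3 * β) * h 1 * L') * q1 +
      (-2 * (α + 5 * β) * δ.2 * L') * q2 + (-2 * h 1 * D') * hN1 + (-2 * g * δ.2) * hN2
  have k1 : (p : ℤ) ∣ 4 * h 1 * δ.2 ^ 2 * L' := (Int.natCast_dvd_natCast.2 hpβ).trans (den_dvd key)
  have k2 : (p : ℤ) ∣ h 1 := by
    rcases hp'.dvd_or_dvd k1 with k1 | k1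
    · rcases hp'.dvd_or_dvd k1 with k1 | k1
      · rcases hp'.dvd_or_dvd k1 with k1 | k1
        · exact absurd (hp'.dvd_of_dvd_pow (n := 2) (by norm_num; exact k1)) hp2
        · exact k1
      · exact absurd (hp'.dvd_of_dvd_pow k1) n2
    · exact absurd k1 nL
  refine ⟨k2, ?_⟩
  have k3 : (p : ℤ) ∣ δ.1 * h 2 := by
    rw [show δ.1 * h 2 = p * g + δ.2 * h 1 by rw [← hg]; ring]
    exact dvd_add (dvd_mul_right _ _) (Dvd.dvd.mul_left k2 _)
  exact (hp'.dvd_or_dvd k3).resolve_left n1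

theorem dfl_dvd {D : ℕ} (α β : ℚ) : dfl D α β ∣ D :=
  (prod_dvd_prod_of_subset _ _ _ (filter_subset _ _)).trans (Nat.prod_primeFactors_dvd D)

theorem of_dvd_dfl {D p : ℕ} {α β : ℚ} (hp : p.Prime) (h : p ∣ dfl D α β) :
    p ∣ β.den ∧ ¬ p ^ 2 ∣ Lc α β := by
  obtain ⟨q, hq, hpq⟩ := (hp.prime.dvd_finsetProd_iff _).1 h
  obtain ⟨h1, h2⟩ := mem_filter.1 hq
  rwa [(Nat.prime_dvd_prime_iff_eq hp (Nat.prime_of_mem_primeFactors h1)).1 hpq]

theorem index_radical {D : ℕ} {δ : ℤ × ℤ} (α β : ℚ) (hD : Squarefree D) (hodd : Odd D)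
    (hδ : δ.1 ^ 2 + δ.2 ^ 2 = D)
    (hn : (radical (fun j => α + cc j * β) (lat D δ)).index ≠ 0) :
    D * (dfl D α β * ∏ j, (α + cc j * β).den) ∣
      2 ^ 4 * Nat.gcd D (Lc α β) ^ 2 * (radical (fun j => α + cc j * β) (lat D δ)).index := by
  set θ : Fin 4 → ℚ := fun j => α + cc j * β with hθ
  set H := radical θ (lat D δ) with hH
  have hD0 : D ≠ 0 := hD.ne_zero
  have hf0 : dfl D α β ≠ 0 := fun h => hD0 (Nat.eq_zero_of_zero_dvd (h ▸ dfl_dvd α β))
  have hg0 : Nat.gcd D (Lc α β) ≠ 0 := Nat.gcd_ne_zero_left hD0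
  have hL0 : Lc α β ≠ 0 := Nat.lcm_ne_zero α.den_nz β.den_nz
  have hd0 : ∀ j, (θ j).den ≠ 0 := fun j => (θ j).den_nz
  have hdL : ∀ j, (θ j).den ∣ Lc α β := fun j => by
    obtain ⟨z, hz⟩ := den_dvd_Lc α β j
    exact Int.natCast_dvd_natCast.1 (den_dvd (x := (Lc α β : ℕ)) (z := z) (by exact_mod_cast hz))
  rw [← Nat.factorization_prime_le_iff_dvd
    (mul_ne_zero hD0 (mul_ne_zero hf0 (prod_ne_zero_iff.2 fun j _ => hd0 j)))
    (mul_ne_zero (by positivity) hn)]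
  intro p hp
  have hp' := Nat.prime_iff_prime_int.1 hp
  rw [Fin.prod_univ_four]
  change (D * (dfl D α β * ((θ 0).den * (θ 1).den * (θ 2).den * (θ 3).den))).factorization p ≤ _
  have := hd0 0; have := hd0 1; have := hd0 2; have := hd0 3
  rw [Nat.factorization_mul hD0 (by positivity), Nat.factorization_mul hf0 (by positivity),
    Nat.factorization_mul (by positivity) (by positivity),
    Nat.factorization_mul (by positivity) (by positivity),
    Nat.factorization_mul (by positivity) (by positivity),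
    Nat.factorization_mul (by positivity) hn,
    Nat.factorization_mul (by positivity) (by positivity), Nat.factorization_pow,
    Nat.factorization_pow]
  simp only [Finsupp.add_apply, Finsupp.smul_apply, smul_eq_mul]
  have f1 : D.factorization p ≤ 1 := hD.natFactorization_le_one p
  have f2 : (dfl D α β).factorization p ≤ D.factorization p :=
    (Nat.factorization_le_iff_dvd hf0 hD0).2 (dfl_dvd α β) p
  by_cases hpD : p ∣ D
  swap
  · have f3 : D.factorization p = 0 := Nat.factorization_eq_zero_of_not_dvd hpD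
    have h2 : (2 : ℤ) * D = p ^ (2 : ℕ).factorization p * ((ordCompl[p] 2 : ℕ) * D) := by
      rw [← mul_assoc]; congr 1
      exact_mod_cast (Nat.ordProj_mul_ordCompl_eq_self 2 p).symm
    have hc : ¬ (p : ℤ) ∣ (ordCompl[p] 2 : ℕ) * D := by
      intro h0
      rcases hp'.dvd_or_dvd h0 with h0 | h0
      · exact Nat.not_dvd_ordCompl hp two_ne_zero (Int.natCast_dvd_natCast.1 h0)
      · exact hpD (Int.natCast_dvd_natCast.1 h0)
    have := le_fact hp hn (idx H (i := 1) (j := 2) (by decide) (by decide) (by decide) (by decide)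
      (by decide) _ _ (p ^ ((θ 1).den.factorization p - (2 : ℕ).factorization p))
      (p ^ ((θ 2).den.factorization p - (2 : ℕ).factorization p)) 0 1 isCoprime_one_left
      fun h hh => ⟨(outer hp hh).1, (outer hp hh).2, pow_sub_dvd hp hc (by
        rw [← h2]
        exact (Int.natCast_dvd_natCast.2 (Nat.ordProj_dvd _ p)).trans (r1 hh)), by
        rw [zero_mul, zero_add, one_mul]
        exact pow_sub_dvd hp hc (by
          rw [← h2]
          exact (Int.natCast_dvd_natCast.2 (Nat.ordProj_dvd _ p)).trans (r2 hh))⟩)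
    omega
  have hp2 : ¬ p ∣ 2 := fun h0 => by
    rw [(Nat.prime_dvd_prime_iff_eq hp Nat.prime_two).1 h0] at hpD
    exact (Nat.not_even_iff_odd.2 hodd) (even_iff_two_dvd.2 hpD)
  have hp2' : ¬ (p : ℤ) ∣ 2 := fun h0 => hp2 (by exact_mod_cast h0)
  have f3 : (2 : ℕ).factorization p = 0 := Nat.factorization_eq_zero_of_not_dvd hp2
  have n1 := not_dvd_of_sq hD hδ hp hpD
  have n2 := not_dvd_of_sq hD ((add_comm _ _).trans hδ) hp hpD
  by_cases hpL : p ∣ Lc α β
  swap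
  · have e : ∀ j, (θ j).den.factorization p = 0 := fun j =>
      Nat.factorization_eq_zero_of_not_dvd fun h0 => hpL (h0.trans (hdL j))
    have f4 : (dfl D α β).factorization p = 0 := Nat.factorization_eq_zero_of_not_dvd
      fun h0 => hpL ((of_dvd_dfl hp h0).1.trans (Nat.dvd_lcm_right _ _))
    have := le_fact hp hn (idx H (i := 1) (j := 2) (by decide) (by decide) (by decide) (by decide)
      (by decide) (p ^ 0) (p ^ 0) (p ^ 0) (p ^ 1) (-δ.2) δ.1 (cop_of_not_dvd hp n1 1)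
      fun h hh => ⟨by simp, by simp, by simp, by
        rw [show -δ.2 * h 1 + δ.1 * h 2 = δ.1 * h 2 - δ.2 * h 1 by ring, pow_one]
        exact (Int.natCast_dvd_natCast.2 hpD).trans hh.1⟩)
    rw [e 0, e 1, e 2, e 3]
    omega
  have f4 : 1 ≤ (Nat.gcd D (Lc α β)).factorization p :=
    (hp.dvd_iff_one_le_factorization hg0).1 (Nat.dvd_gcd hpD hpL)
  by_cases hpf : p ∣ dfl D α β
  · obtain ⟨hpβ, hL⟩ := of_dvd_dfl hp hpf
    have e : ∀ j, (θ j).den.factorization p ≤ 1 := fun j => by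
      by_contra h0
      exact hL (((hp.pow_dvd_iff_le_factorization (hd0 j)).2 (by omega)).trans (hdL j))
    have := le_fact hp hn (idx H (i := 1) (j := 2) (by decide) (by decide) (by decide) (by decide)
      (by decide) _ _ (p ^ 1) (p ^ 1) 0 1 isCoprime_one_left
      fun h hh => ⟨(outer hp hh).1, (outer hp hh).2, by
        rw [pow_one]; exact (inner_deg hp hD hδ hp2' hpD hpβ hL hh).1, by
        rw [pow_one, zero_mul, zero_add, one_mul]
        exact (inner_deg hp hD hδ hp2' hpD hpβ hL hh).2⟩)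
    have := e 1
    have := e 2
    omega
  have f5 : (dfl D α β).factorization p = 0 := Nat.factorization_eq_zero_of_not_dvd hpf
  obtain ⟨D', hD'⟩ := hpD
  have hc : ¬ (p : ℤ) ∣ 2 * D' := by
    intro h0
    rcases hp'.dvd_or_dvd h0 with h0 | h0
    · exact hp2' h0
    · obtain ⟨c, hc⟩ := Int.natCast_dvd_natCast.1 h0
      exact hp.not_isUnit (hD p ⟨c, by rw [hD', hc]; ring⟩)
  have h2 : (p : ℤ) ^ 1 * (2 * D') = 2 * D := by rw [hD']; push_cast; ring
  rcases Nat.le_total ((θ 1).den.factorization p) ((θ 2).den.factorization p) with hab | hab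
  · have := inner_gen (θ := θ) (D := D) (δ := δ) hp H hn (i := 1) (j := 2) (by decide) (by decide)
      (by decide) (by decide) (by decide) (x := δ.1) (y := δ.2)
      (fun h0 => (hp'.dvd_or_dvd h0).elim hp2' n2) hc hab (fun _ hh => hh)
      (fun h hh => by rw [h2]; exact r1 hh) (fun h hh => by
        obtain ⟨z, hz⟩ := r12 hh
        exact ⟨z, by rw [← hz]; push_cast; ring⟩)
    omega
  · have := inner_gen (θ := θ) (D := D) (δ := δ) hp H hn (i := 2) (j := 1) (by decide) (by decide)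
      (by decide) (by decide) (by decide) (x := δ.2) (y := δ.1)
      (fun h0 => (hp'.dvd_or_dvd h0).elim hp2' n1) hc hab (fun _ hh => hh)
      (fun h hh => by rw [h2]; exact r2 hh) (fun h hh => by
        obtain ⟨z, hz⟩ := r12 hh
        exact ⟨z, by rw [← hz]; push_cast; ring⟩)
    omega

end RadP

open RadP in
theorem rad : S_Rad := by
  classical
  intro D δ α β hD hodd hδ
  have hδ' : δ.1 ^ 2 + δ.2 ^ 2 = D := (mem_filter.1 hδ).2
  set θ : Fin 4 → ℚ := fun j => α + cc j * β with hθ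
  set M := Lc α β * D with hMdef
  have hD0 : D ≠ 0 := hD.ne_zero
  have hL0 : Lc α β ≠ 0 := Nat.lcm_ne_zero α.den_nz β.den_nz
  have hM : M ≠ 0 := mul_ne_zero hL0 hD0
  have hθM : ∀ j, ∃ z : ℤ, θ j * M = z := fun j => by
    obtain ⟨z, hz⟩ := den_dvd_Lc α β j
    exact ⟨z * D, by rw [hMdef]; push_cast; rw [← mul_assoc, hz]⟩
  have hDM : (D : ℤ) ∣ M := Int.natCast_dvd_natCast.2 (Dvd.intro_left _ rfl)
  have hΛ : ∀ v : Fin 4 → ℤ, (∀ j, (M : ℤ) ∣ v j) → v ∈ lat D δ := fun v hv =>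
    dvd_sub (Dvd.dvd.mul_left (hDM.trans (hv 2)) _) (Dvd.dvd.mul_left (hDM.trans (hv 1)) _)
  have hR : ∀ v : Fin 4 → ℤ, (∀ j, (M : ℤ) ∣ v j) → v ∈ radical θ (lat D δ) := fun v hv =>
    ⟨hΛ v hv, fun w _ => bil_int hθM fun j => Dvd.dvd.mul_right (hv j) _⟩
  have hper : Per M (psi D δ α β) := by
    intro v w hvw
    have hd : v - w ∈ lat D δ := hΛ _ hvw
    unfold psi
    by_cases hw : w ∈ lat D δ
    · have hv : v ∈ lat D δ := by simpa using (lat D δ).add_mem hd hw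
      rw [if_pos (mem_lat.1 hv), if_pos (mem_lat.1 hw)]
      choose n hn using hθM
      choose c hc using hvw
      rw [← e_add_int (∑ j, ((α + cc j * β : ℚ) : ℝ) * (w j : ℝ) ^ 2)
        (∑ j, n j * c j * (v j + w j))]
      congr 1
      push_cast
      rw [← sum_add_distrib]
      refine sum_congr rfl fun j _ => ?_
      have e1 : ((α : ℝ) + cc j * β) * M = n j := by exact_mod_cast hn j
      have e2 : (v j : ℝ) - w j = M * c j := by exact_mod_cast hc j
      rw [← e1]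
      linear_combination ((α : ℝ) + cc j * β) * (v j + w j) * e2
    · rw [if_neg (fun h => hw (mem_lat.2 h)), if_neg (fun h => hw (by
        simpa using (lat D δ).sub_mem (mem_lat.2 h) hd))]
  refine ⟨hper, fun k => ?_⟩
  set P : (Fin 4 → ℤ) → ℝ := fun r => (∑ j, (θ j : ℝ) * (r j : ℝ) ^ 2) + (dot k r : ℝ) / M with hP
  have hφ : ∀ r, psi D δ α β r * ee (dot k r / M) = if r ∈ lat D δ then e (P r) else 0 := by
    intro r
    unfold psi
    by_cases hr : r ∈ lat D δ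
    · rw [if_pos (mem_lat.1 hr), if_pos hr, hP, e_add]
      congr 1
      unfold e ee
      push_cast; rfl
    · rw [if_neg (fun h => hr (mem_lat.2 h)), if_neg hr, zero_mul]
  have hw := weyl hM θ hθM (lat D δ) hΛ P (by
      intro h s
      simp only [P, bil, dot, Fin.sum_univ_four, Pi.add_apply]
      push_cast; ring) (by
      intro v w hvw
      simp only [← hφ]
      rw [hper v w hvw, ee_congr hM (a := dot k v) (b := dot k w)]
      unfold dot
      rw [← sum_sub_distrib]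
      exact dvd_sum fun j _ => by rw [← mul_sub]; exact Dvd.dvd.mul_left (hvw j) _)
  have c1 := card_mul_index hM (lat D δ) hΛ
  have c2 := card_mul_index hM (radical θ (lat D δ)) hR
  have hM4 : M ^ 4 ≠ 0 := pow_ne_zero _ hM
  have i1 : (lat D δ).index ≠ 0 := fun h => hM4 (by rw [← c1, h, mul_zero])
  have i2 : (radical θ (lat D δ)).index ≠ 0 := fun h => hM4 (by rw [← c2, h, mul_zero])
  have j1 := Nat.le_of_dvd (Nat.pos_of_ne_zero i1) (dvd_index_lat hD hδ')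
  have hg0 : Nat.gcd D (Lc α β) ≠ 0 := Nat.gcd_ne_zero_left hD0
  have j2 := Nat.le_of_dvd (by positivity) (index_radical α β hD hodd hδ' i2)
  unfold fhat
  simp only [hφ]
  refine hw.trans ?_
  set A := ((res M).filter (· ∈ lat D δ)).card
  set B := ((res M).filter (· ∈ radical θ (lat D δ))).card
  set X := dfl D α β * ∏ j, (α + cc j * β).den with hX
  have hX0 : X ≠ 0 := mul_ne_zero
    (fun h => hD0 (Nat.eq_zero_of_zero_dvd (h ▸ dfl_dvd α β)))
    (prod_ne_zero_iff.2 fun j _ => Rat.den_nz _)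
  have k1 : A * D ≤ M ^ 4 := c1 ▸ Nat.mul_le_mul_left _ j1
  have k2 : B * (D * X) ≤ 2 ^ 4 * Nat.gcd D (Lc α β) ^ 2 * M ^ 4 := by
    rw [← c2]
    calc B * (D * X) ≤ B * (2 ^ 4 * Nat.gcd D (Lc α β) ^ 2 * _) := Nat.mul_le_mul_left _ j2
      _ = _ := by ring
  have k3 : A * B * (X * D ^ 2) ≤ 16 * Nat.gcd D (Lc α β) ^ 2 * M ^ 8 := by
    calc A * B * (X * D ^ 2) = (A * D) * (B * (D * X)) := by ring
      _ ≤ M ^ 4 * (2 ^ 4 * Nat.gcd D (Lc α β) ^ 2 * M ^ 4) := Nat.mul_le_mul k1 k2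
      _ = _ := by ring
  have e1 : wq D α β = (Nat.gcd D (Lc α β) : ℝ) ^ 2 / X := by
    unfold wq; rw [hX]; push_cast; rfl
  have hXp : (0 : ℝ) < X := by positivity
  have hDp : (0 : ℝ) < D := by positivity
  rw [e1, show 16 * ((Nat.gcd D (Lc α β) : ℝ) ^ 2 / X) / (D : ℝ) ^ 2 * (M : ℝ) ^ 8 =
    16 * (Nat.gcd D (Lc α β) : ℝ) ^ 2 * (M : ℝ) ^ 8 / (X * (D : ℝ) ^ 2) by field_simp,
    le_div_iff₀ (by positivity)]
  exact_mod_cast k3

end Pool.Agent.P.MP_0ad054_nt.Sun
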