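import Pool.Agent.P.MP_0ad054_nt.Sun.SphereB

/-! The sieve model on one sphere and one sublattice. -/

namespace Pool.Agent.P.MP_0ad054_nt.Sun

open Finset Pool.Agent.Lib.H9

namespace SphereP

/-- the local conditions -/
def bd (D y : ℕ) (δ : ℤ × ℤ) (l : ℕ) (w : Fin 4 → ZMod l) : Prop :=
  if l ∣ D then (δ.1 : ZMod l) * w 2 - δ.2 * w 1 = 0 else
    if l ≤ y then bad l w else w 0 ^ 2 + 3 * w 1 ^ 2 + 5 * w 2 ^ 2 + 7 * w 3 ^ 2 = 2

open Classical in
theorem expand {α : Type*} (A : Finset α) (b : α → ℕ → Prop) (PD P0 Ps : Finset ℕ)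
    (c : ℕ → ℝ) (lam : Finset ℕ → ℝ) :
    ∑ v ∈ A.filter (fun v => ∀ l ∈ PD, b v l),
      sform P0 c (fun l => if b v l then 1 else 0) * Sf Ps lam (fun l => if b v l then 1 else 0) =
    ∑ p ∈ P0.powerset ×ˢ Ps.powerset, c p.1.card * lam p.2 *
      ((A.filter (fun v => ∀ l ∈ PD ∪ (p.1 ∪ p.2), b v l)).card : ℝ) := by
  unfold sform Sf
  rw [sum_congr rfl fun v _ => (sum_mul_sum _ _ _ _).trans (sum_product' _ _ _).symm, sum_comm]
  refine sum_congr rfl fun p _ => ?_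
  rw [card_filter, sum_filter]
  push_cast
  rw [mul_sum]
  refine sum_congr rfl fun v _ => ?_
  rw [prod_boole, prod_boole]
  have h0 : (∀ l ∈ PD ∪ (p.1 ∪ p.2), b v l) ↔
      (∀ l ∈ PD, b v l) ∧ (∀ l ∈ p.1, b v l) ∧ ∀ l ∈ p.2, b v l := by
    simp only [mem_union, or_imp, forall_and]
  by_cases h1 : ∀ l ∈ PD, b v l
  · by_cases h2 : ∀ l ∈ p.1, b v l
    · by_cases h3 : ∀ l ∈ p.2, b v l
      · rw [if_pos h1, if_pos h2, if_pos h3, if_pos (h0.2 ⟨h1, h2, h3⟩)]; ring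
      · rw [if_pos h1, if_neg h3, if_neg (fun h => h3 (h0.1 h).2.2)]; ring
    · rw [if_pos h1, if_neg h2, if_neg (fun h => h2 (h0.1 h).2.1)]; ring
  · rw [if_neg h1, if_neg (fun h => h1 (h0.1 h).1)]; ring

theorem expand_main (g : ℕ → ℝ) (X : ℝ) (PD P0 Ps : Finset ℕ) (h1 : Disjoint PD P0)
    (h2 : Disjoint PD Ps) (h3 : Disjoint P0 Ps) (c : ℕ → ℝ) (lam : Finset ℕ → ℝ) :
    X * (∏ l ∈ PD, g l) * (sform P0 c g * Sf Ps lam g) =
    ∑ p ∈ P0.powerset ×ˢ Ps.powerset, c p.1.card * lam p.2 *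
      (X * ∏ l ∈ PD ∪ (p.1 ∪ p.2), g l) := by
  unfold sform Sf
  rw [sum_mul_sum, ← sum_product', mul_sum]
  refine sum_congr rfl fun p hp => ?_
  rw [mem_product, mem_powerset, mem_powerset] at hp
  rw [prod_union (disjoint_union_right.2 ⟨h1.mono_right hp.1, h2.mono_right hp.2⟩),
    prod_union (h3.mono hp.1 hp.2)]
  ring

theorem mdlp_ge {N : ℕ} (s : Sv N) (m : ℕ) : mdl s m ≤ mdlp s m := by
  unfold mdlp
  split_ifs
  · linarith [abs_nonneg (mdl s m)]
  · linarith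

theorem mdlp_nonneg {N : ℕ} (s : Sv N) {m l : ℕ} (hl : l.Prime) (hy : l ≤ s.y) (hm : l ∣ m) :
    0 ≤ mdlp s m := by
  unfold mdlp
  split_ifs with h
  · linarith [neg_abs_le (mdl s m)]
  · have hw : ∀ i ∈ Nat.primesLE s.y, 0 ≤ w0 m i ∧ w0 m i ≤ 1 := by
      intro i _; unfold w0; split_ifs <;> norm_num
    have h0 : ∏ i ∈ Nat.primesLE s.y, (1 - w0 m i) = 0 :=
      prod_eq_zero (Nat.mem_primesLE.2 ⟨hy, hl⟩) (by simp [w0, hm.mul_right])
    have h1 := prod_le_sform_cY _ _ hw s.k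
    have h2 := sform_cY_sub_le _ _ hw s.k
    have h3 : sform (Nat.primesLE s.y) (cZ (2 * s.k + 1)) (w0 m) = 0 := by
      refine sum_eq_zero fun T hT => ?_
      unfold cZ
      split_ifs with hc
      · by_contra h4
        apply h
        unfold B0
        have h5 : T ⊆ (Nat.primesLE s.y).filter (fun l => l ∣ m * (m - 2)) := by
          intro i hi
          rw [mem_filter]
          refine ⟨mem_powerset.1 hT hi, ?_⟩
          by_contra h6
          exact h4 (by rw [prod_eq_zero hi (by simp [w0, h6]), mul_zero])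
        have := card_le_card h5
        omega
      · simp
    have h4 : Yf s.y s.k (w0 m) = 0 := by unfold Yf; linarith
    simp [mdl, h4]

theorem sform_congr {B : Finset ℕ} {c : ℕ → ℝ} {w w' : ℕ → ℝ} (h : ∀ l ∈ B, w l = w' l) :
    sform B c w = sform B c w' :=
  sum_congr rfl fun T hT => by
    rw [prod_congr rfl fun l hl => h l (mem_powerset.1 hT hl)]

theorem Sf_congr {B : Finset ℕ} {lam : Finset ℕ → ℝ} {w w' : ℕ → ℝ} (h : ∀ l ∈ B, w l = w' l) :
    Sf B lam w = Sf B lam w' :=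
  sum_congr rfl fun T hT => by
    rw [prod_congr rfl fun l hl => h l (mem_powerset.1 hT hl)]

theorem nsq_le_Q2 (v : Fin 4 → ℤ) : nsq v ≤ Q2 v := by
  rw [nsq_eq', Q2]; nlinarith [sq_nonneg (v 1), sq_nonneg (v 2), sq_nonneg (v 3)]

open Classical in
theorem mdl_eq {N D n : ℕ} (s : Sv N) (δ : ℤ × ℤ)
    (hD : ∀ l ∈ D.primeFactors, s.y < l ∧ l ∉ s.Ps) (hD0 : D ≠ 0) (hodd : Odd n) (hn : 3 ≤ n)
    {v : Fin 4 → ℤ} (hv : nsq v = n) :
    mdl s (Q2 v).toNat = cW s.y *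
      (sform ((Nat.primesLE s.y).erase 2) (cY (2 * s.k + 1))
        (fun l => if bd D s.y δ l (fun j => v j) then 1 else 0) *
      Sf s.Ps s.lam (fun l => if bd D s.y δ l (fun j => v j) then 1 else 0)) := by
  have h1 := nsq_le_Q2 v
  set m := (Q2 v).toNat
  have hm : (m : ℤ) = Q2 v := Int.toNat_of_nonneg (by omega)
  have hm2 : ((m - 2 : ℕ) : ℤ) = Q2 v - 2 := by omega
  have hc : ∀ l : ℕ, ((Q2 v : ℤ) : ZMod l) =
      (v 0 : ZMod l) ^ 2 + 3 * (v 1 : ZMod l) ^ 2 + 5 * (v 2 : ZMod l) ^ 2 +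
        7 * (v 3 : ZMod l) ^ 2 := by
    intro l; unfold Q2; push_cast; rfl
  have d0 : ∀ l : ℕ, l ∣ m ↔ ((Q2 v : ℤ) : ZMod l) = 0 := by
    intro l
    rw [ZMod.intCast_zmod_eq_zero_iff_dvd, ← hm, Int.natCast_dvd_natCast]
  have d2 : ∀ l : ℕ, l ∣ m - 2 ↔ ((Q2 v : ℤ) : ZMod l) = 2 := by
    intro l
    rw [← Int.natCast_dvd_natCast, hm2, ← ZMod.intCast_zmod_eq_zero_iff_dvd]
    push_cast
    exact sub_eq_zero
  have hmo : Odd m := by
    rw [← Int.odd_coe_nat, hm]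
    obtain ⟨k, hk⟩ := hodd
    rw [nsq_eq'] at hv
    have hk' : (n : ℤ) = 2 * k + 1 := by exact_mod_cast hk
    exact ⟨k + v 1 ^ 2 + 2 * v 2 ^ 2 + 3 * v 3 ^ 2, by unfold Q2; linear_combination hv + hk'⟩
  have h2 : w0 m 2 = 0 := by
    unfold w0
    rw [if_neg]
    intro h
    have : Odd (m * (m - 2)) := hmo.mul (by obtain ⟨k, hk⟩ := hmo; exact ⟨k - 1, by omega⟩)
    exact (Nat.not_even_iff_odd.2 this) (even_iff_two_dvd.2 h)
  unfold mdl Yf
  rw [mul_assoc]
  congr 2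
  · have h3 : Nat.primesLE s.y = insert 2 ((Nat.primesLE s.y).erase 2) :=
      (insert_erase (Nat.mem_primesLE.2 ⟨s.hy, Nat.prime_two⟩)).symm
    conv_lhs => rw [h3]
    rw [sform_insert (notMem_erase _ _), h2, zero_mul, add_zero]
    refine sform_congr fun l hl => ?_
    obtain ⟨hly, hp⟩ := Nat.mem_primesLE.1 (mem_of_mem_erase hl)
    have h4 : ¬ l ∣ D := fun h =>
      absurd (hD l (Nat.mem_primeFactors.2 ⟨hp, h, hD0⟩)).1 (not_lt.2 hly)
    unfold w0 bd
    rw [if_neg h4, if_pos hly]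
    congr 1
    rw [hp.dvd_mul, d0, d2, hc, bad]
  · refine Sf_congr fun l hl => ?_
    obtain ⟨hp, hly, _⟩ := s.hP l hl
    have h4 : ¬ l ∣ D := fun h => (hD l (Nat.mem_primeFactors.2 ⟨hp, h, hD0⟩)).2 hl
    unfold w1 bd
    rw [if_neg h4, if_neg (not_le.2 hly)]
    congr 1
    rw [d2, hc]

theorem lat_iff {D y : ℕ} (hD : Squarefree D) (δ : ℤ × ℤ) (v : Fin 4 → ℤ) :
    (D : ℤ) ∣ δ.1 * v 2 - δ.2 * v 1 ↔ ∀ l ∈ D.primeFactors, bd D y δ l (fun j => v j) := by
  have h1 : ∀ l ∈ D.primeFactors, bd D y δ l (fun j => v j) ↔ (l : ℤ) ∣ δ.1 * v 2 - δ.2 * v 1 := by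
    intro l hl
    unfold bd
    rw [if_pos (Nat.dvd_of_mem_primeFactors hl), ← ZMod.intCast_zmod_eq_zero_iff_dvd]
    push_cast; rfl
  constructor
  · intro h l hl
    exact (h1 l hl).2 ((Int.natCast_dvd_natCast.2 (Nat.dvd_of_mem_primeFactors hl)).trans h)
  · intro h
    rw [← Nat.prod_primeFactors_of_squarefree hD, Int.natCast_dvd]
    refine Finset.prod_primes_dvd _ (fun l hl => (Nat.prime_of_mem_primeFactors hl).prime)
      fun l hl => Int.natCast_dvd.1 ((h1 l hl).1 (h l hl))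

theorem prod_dens_ge {N : ℕ} (hN : 2 ≤ N) (P : Finset ℕ) (hP : ∀ l ∈ P, l.Prime ∧ l ≤ N)
    (g : ℕ → ℝ) (hg : ∀ l ∈ P, 0 ≤ g l ∧ g l ≤ 9 / l ∧ g l ≤ 1 - 1 / 2401) :
    Real.exp (-172872) / LL N ^ 86436 ≤ ∏ l ∈ P, (1 - g l) := by
  refine le_trans ?_ (exp_neg_le_prod P g (η := 1 / 2401) (by norm_num)
    fun l hl => ⟨(hg l hl).1, (hg l hl).2.2⟩)
  have h1 : ∑ l ∈ P, g l ≤ 9 * ∑ p ∈ Nat.primesLE N, 1 / (p : ℝ) := by
    rw [mul_sum]
    refine (sum_le_sum fun l hl => (hg l hl).2.1).trans ?_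
    simp_rw [mul_one_div]
    exact sum_le_sum_of_subset_of_nonneg
      (fun l hl => Nat.mem_primesLE.2 ⟨(hP l hl).2, (hP l hl).1⟩) fun _ _ _ => by positivity
  have h2 := sum_inv_primes_le hN
  have h3 : 0 < LL N := by unfold LL; linarith [Real.log_natCast_nonneg N]
  have h4 : LL N ^ 86436 = Real.exp ((86436 : ℕ) * Real.log (LL N)) := by
    rw [Real.exp_nat_mul, Real.exp_log h3]
  rw [h4, ← Real.exp_sub, Real.exp_le_exp]
  have h5 : LL N = Real.log N + 1 := by unfold LL; ring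
  rw [h5]
  push_cast
  linarith

end SphereP

open SphereP in
theorem sphere : S_Sphere := by
  classical
  obtain ⟨C, hC, hrem⟩ := sphere_remainder
  refine ⟨Real.exp (-172872) / 4, C, 86436, by positivity, hC, ?_⟩
  intro N D n s δ hG hδ hD hodd hn3 hnN hsq
  have hD0 : D ≠ 0 := hG.1.ne_zero
  rw [sum_box_eq hG.1 hδ (by exact_mod_cast hnN) (fun m => mdlp s m.toNat)]
  set P0 := (Nat.primesLE s.y).erase 2
  set PD := D.primeFactors
  set c := cY (2 * s.k + 1)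
  set b : (Fin 4 → ℤ) → ℕ → Prop := fun v l => bd D s.y δ l (fun j => v j)
  set g : ℕ → ℝ := dens (bd D s.y δ) n
  have hP0 : ∀ l ∈ P0, l.Prime ∧ l ≠ 2 ∧ l ≤ s.y := fun l hl =>
    ⟨(Nat.mem_primesLE.1 (mem_of_mem_erase hl)).2, ne_of_mem_erase hl,
      (Nat.mem_primesLE.1 (mem_of_mem_erase hl)).1⟩
  have hy2 := s.hy
  have d1 : Disjoint PD P0 := disjoint_left.2 fun l h1 h2 =>
    absurd (hD l h1).1 (not_lt.2 (hP0 l h2).2.2)
  have d2 : Disjoint PD s.Ps := disjoint_left.2 fun l h1 => (hD l h1).2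
  have d3 : Disjoint P0 s.Ps := disjoint_left.2 fun l h1 h2 =>
    absurd (s.hP l h2).2.1 (not_lt.2 (hP0 l h1).2.2)
  -- pass to primitive points
  have step1 : ∑ v ∈ (psphere n).filter (fun v => ∀ l ∈ PD, b v l), mdl s (Q2 v).toNat ≤
      ∑ v ∈ (Lib.H9.sphere n).filter (fun v => (D : ℤ) ∣ δ.1 * v 2 - δ.2 * v 1),
        mdlp s (Q2 v).toNat := by
    refine (sum_le_sum fun v _ => mdlp_ge s _).trans (sum_le_sum_of_subset_of_nonneg ?_ ?_)
    · intro v hv
      rw [mem_filter] at hv ⊢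
      exact ⟨(mem_filter.1 hv.1).1, (lat_iff hG.1 δ v).2 hv.2⟩
    · intro v hv hv'
      rw [mem_filter] at hv hv'
      have h1 : cont v ≠ 1 := fun h =>
        hv' ⟨mem_filter.2 ⟨hv.1, h⟩, (lat_iff hG.1 δ v).1 hv.2⟩
      obtain ⟨l, hl, h2⟩ := Nat.exists_prime_and_dvd h1
      rw [dvd_cont] at h2
      have h3 : (l : ℤ) ^ 2 ∣ n := mem_sphere.1 hv.1 ▸ sq_dvd_nsq h2
      refine mdlp_nonneg s hl (not_lt.1 fun h => hsq l hl h (by exact_mod_cast h3)) ?_
      rw [← Int.natCast_dvd_natCast,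
        Int.toNat_of_nonneg ((nsq_nonneg v).trans (nsq_le_Q2 v))]
      unfold Q2
      have := fun j => dvd_pow (h2 j) two_ne_zero
      exact dvd_add (dvd_add (dvd_add (this 0) ((this 1).mul_left _)) ((this 2).mul_left _))
        ((this 3).mul_left _)
  refine le_trans ?_ step1
  have hps : ∀ v ∈ psphere n, nsq v = n := fun v hv => mem_sphere.1 (mem_filter.1 hv).1
  rw [sum_congr rfl fun v hv => mdl_eq s δ hD hD0 hodd hn3 (hps v (mem_filter.1 hv).1), ← mul_sum]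
  have e1 := expand (psphere n) b PD P0 s.Ps c s.lam
  have e2 := expand_main g (psphere n).card PD P0 s.Ps d1 d2 d3 c s.lam
  set Sm := ∑ v ∈ (psphere n).filter (fun v => ∀ l ∈ PD, b v l),
    sform P0 c (fun l => if b v l then 1 else 0) * Sf s.Ps s.lam (fun l => if b v l then 1 else 0)
  set Mn := ((psphere n).card : ℝ) * (∏ l ∈ PD, g l) * (sform P0 c g * Sf s.Ps s.lam g)
  set E := C * ((D * s.DD : ℕ) : ℝ) ^ 9 * (n : ℝ) ^ (39 / 40 : ℝ)
  have hE : 0 ≤ E := by positivity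
  have herr : Mn - Sm ≤ s.DD * E := by
    rw [e1, e2, ← sum_sub_distrib]
    have h1 := card_pairs_le P0 s.Ps (fun l hl => (hP0 l hl).1) (fun l hl => (s.hP l hl).1) d3 s.DD
    refine le_trans (sum_le_sum (g := fun p => if (∏ l ∈ p.1, l) * ∏ l ∈ p.2, l ≤ s.DD then E else 0)
      fun p hp => ?_) ?_
    · rw [mem_product, mem_powerset, mem_powerset] at hp
      rw [← mul_sub]
      by_cases h0 : c p.1.card * s.lam p.2 = 0
      · rw [h0, zero_mul]; split_ifs <;> [exact hE; exact le_rfl]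
      have h2 : p.1.card ≤ 2 * s.k := by
        by_contra h
        apply h0
        simp only [c, cY]
        rw [if_neg (by omega), zero_mul]
      have h3 : (∏ l ∈ p.1, l) * ∏ l ∈ p.2, l ≤ s.DD := by
        refine le_trans (Nat.mul_le_mul_right _ ?_) (s.lev p.2 hp.2 (right_ne_zero_of_mul h0))
        exact (prod_le_pow_card _ _ _ fun l hl => (hP0 l (hp.1 hl)).2.2).trans
          (Nat.pow_le_pow_right (by omega) h2)
      rw [if_pos h3]
      have h4 := hrem (bd D s.y δ) n (PD ∪ (p.1 ∪ p.2)) (by exact_mod_cast (by omega : 0 < n))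
        (by
          intro l hl
          rcases mem_union.1 hl with h | h
          · exact ⟨Nat.prime_of_mem_primeFactors h, by have := (hD l h).1; omega⟩
          rcases mem_union.1 h with h | h
          · exact ⟨(hP0 l (hp.1 h)).1, (hP0 l (hp.1 h)).2.1⟩
          · exact ⟨(s.hP l (hp.2 h)).1, by have := (s.hP l (hp.2 h)).2.1; omega⟩)
      rw [prod_union (disjoint_union_right.2 ⟨d1.mono_right hp.1, d2.mono_right hp.2⟩) (f := fun l => l),
        prod_union (d3.mono hp.1 hp.2) (f := fun l => l),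
        Nat.prod_primeFactors_of_squarefree hG.1] at h4
      have h5 : |c p.1.card * s.lam p.2| ≤ 1 := by
        rw [abs_mul]
        refine mul_le_one₀ ?_ (abs_nonneg _) (s.low.1 _)
        simp only [c, cY]; split_ifs <;> simp
      refine (le_abs_self _).trans ?_
      rw [abs_mul, abs_sub_comm]
      refine (mul_le_of_le_one_left (abs_nonneg _) h5).trans (le_trans (le_of_eq ?_) (h4.trans ?_))
      · congr!
      · simp only [E, Int.cast_natCast]
        gcongr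
    · rw [← sum_filter, sum_const, nsmul_eq_mul]
      gcongr
  have hgb : ∀ l : ℕ, l.Prime → l ≠ 2 → l ∉ PD → 0 ≤ g l ∧ g l ≤ 9 / l ∧ g l ≤ 1 - 1 / 2401 := by
    intro l hl hl2 hlD
    have h1 : g l ≤ dens bad n l := by
      refine dens_mono _ _ fun w hw => ?_
      unfold bd at hw
      rw [if_neg (fun h => hlD (Nat.mem_primeFactors.2 ⟨hl, h, hD0⟩))] at hw
      split_ifs at hw
      exacts [hw, Or.inr hw]
    have h2 := dens_bad n l hl hl2
    exact ⟨dens_nonneg _ _ _, h1.trans h2.1, h1.trans h2.2⟩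
  have hg0 : ∀ l ∈ P0, 0 ≤ g l ∧ g l ≤ 9 / l ∧ g l ≤ 1 - 1 / 2401 := fun l hl =>
    hgb l (hP0 l hl).1 (hP0 l hl).2.1 (disjoint_right.1 d1 hl)
  have hgs : ∀ l ∈ s.Ps, 0 ≤ g l ∧ g l ≤ 9 / l ∧ g l ≤ 1 - 1 / 2401 := fun l hl =>
    hgb l (s.hP l hl).1 (by have := (s.hP l hl).2.1; omega) (disjoint_right.1 d2 hl)
  have hL : 0 < LL N := by unfold LL; linarith [Real.log_natCast_nonneg N]
  have hmain : Real.exp (-172872) / 4 * n / (D * LL N ^ 86436) ≤ Mn := by
    have a1 : (n : ℝ) ≤ (psphere n).card := by exact_mod_cast le_card_psphere hodd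
    have a2 : 1 / (2 * (D : ℝ)) ≤ ∏ l ∈ PD, g l := by
      refine (prod_line_ge hG).trans (prod_le_prod (fun l hl => ?_) fun l hl => ?_)
      · have : (2 : ℝ) ≤ l := by exact_mod_cast (Nat.prime_of_mem_primeFactors hl).two_le
        refine div_nonneg ?_ (by positivity)
        rw [sub_nonneg, div_le_one (by positivity)]; linarith
      · have hp := Nat.prime_of_mem_primeFactors hl
        have hd := Nat.dvd_of_mem_primeFactors hl
        refine dens_line n hp (by have := (hD l hl).1; omega) (d1 := δ.1) (d2 := δ.2) ?_ ?_ ?_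
        · rw [Ne, ZMod.intCast_zmod_eq_zero_iff_dvd]
          exact not_dvd_fst hG.1 hδ hp hd
        · have h1 := congrArg (Int.cast : ℤ → ZMod l) (mem_Del hδ)
          push_cast at h1
          rw [h1, ZMod.natCast_eq_zero_iff]; exact hd
        · intro w hw; unfold bd; rw [if_pos hd]; exact hw
    have a3 := prod_le_sform_cY P0 g
      (fun l hl => ⟨(hg0 l hl).1, by linarith [(hg0 l hl).2.2]⟩) s.k
    have a4 := s.low.2.2 g hgs
    have a5 := prod_dens_ge (N := N) (by omega) (P0 ∪ s.Ps) (by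
      intro l hl
      rcases mem_union.1 hl with h | h
      · exact ⟨(hP0 l h).1, (hP0 l h).2.2.trans (s.hyD.trans s.hDN)⟩
      · exact ⟨(s.hP l h).1, (s.hP l h).2.2⟩) g (by
      intro l hl
      rcases mem_union.1 hl with h | h
      exacts [hg0 l h, hgs l h])
    rw [prod_union d3] at a5
    have a6 : 0 ≤ ∏ l ∈ P0, (1 - g l) := prod_nonneg fun l hl => by linarith [(hg0 l hl).2.2]
    have a7 : 0 ≤ ∏ l ∈ s.Ps, (1 - g l) := prod_nonneg fun l hl => by linarith [(hgs l hl).2.2]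
    have a8 : Real.exp (-172872) / LL N ^ 86436 / 2 ≤ sform P0 c g * Sf s.Ps s.lam g :=
      calc _ ≤ (∏ l ∈ P0, (1 - g l)) * ((∏ l ∈ s.Ps, (1 - g l)) / 2) := by linarith
        _ ≤ _ := mul_le_mul a3 a4 (by positivity) (a6.trans a3)
    have a9 : 0 ≤ ∏ l ∈ PD, g l := le_trans (by positivity) a2
    have hZ : 0 < LL N ^ 86436 := pow_pos hL _
    generalize LL N ^ 86436 = Z at a8 hZ ⊢
    have hD1 : (0 : ℝ) < D := by exact_mod_cast Nat.pos_of_ne_zero hD0
    calc Real.exp (-172872) / 4 * n / (D * Z)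
        = n * (1 / (2 * (D : ℝ))) * (Real.exp (-172872) / Z / 2) := by field_simp; ring
      _ ≤ _ := mul_le_mul (mul_le_mul a1 a2 (by positivity) (by positivity)) a8 (by positivity)
        (by positivity)
  have hc1 := one_le_cW s.y
  have hc2 : cW s.y ≤ s.DD := (cW_le_self (by omega)).trans (by exact_mod_cast s.hyD)
  have hZ : 0 < LL N ^ 86436 := pow_pos hL _
  generalize LL N ^ 86436 = Z at hmain hZ ⊢
  have hM0 : 0 ≤ Mn := le_trans (by positivity) hmain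
  clear_value Sm Mn
  have hfin : cW s.y * (s.DD * E) ≤ C * ((D * s.DD : ℕ) : ℝ) ^ 11 * (n : ℝ) ^ (39 / 40 : ℝ) := by
    have h1 : (s.DD : ℝ) ≤ ((D * s.DD : ℕ) : ℝ) := by
      exact_mod_cast Nat.le_mul_of_pos_left _ (Nat.pos_of_ne_zero hD0)
    calc cW s.y * (s.DD * E) ≤ ((D * s.DD : ℕ) : ℝ) * (((D * s.DD : ℕ) : ℝ) * E) :=
          mul_le_mul (hc2.trans h1) (by gcongr) (by positivity) (by positivity)
      _ = _ := by simp only [E]; ring
  have h1 : cW s.y * (Mn - s.DD * E) ≤ cW s.y * Sm :=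
    mul_le_mul_of_nonneg_left (by linarith) (by linarith)
  have h2 : Mn ≤ cW s.y * Mn := le_mul_of_one_le_left hM0 hc1
  rw [mul_sub] at h1
  linarith

end Pool.Agent.P.MP_0ad054_nt.Sun
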