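import Pool.Agent.P.MP_0ad054_nt.Sun.U2C

/-! The counting form is controlled by the largest Fourier coefficient. -/

namespace Pool.Agent.P.MP_0ad054_nt.Sun

namespace U2P

open Finset ZMod
open scoped ComplexConjugate

theorem card_fib (D : ℕ) (w : ℤ) : ((Del D).filter (fun δ => δ.2 ^ 2 = w)).card ≤ 4 := by
  rcases ((Del D).filter (fun δ => δ.2 ^ 2 = w)).eq_empty_or_nonempty with h | ⟨p, hp⟩
  · simp [h]
  · refine le_trans (card_le_card (t := {p.1, -p.1} ×ˢ {p.2, -p.2}) fun q hq => ?_) ?_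
    · rw [mem_filter, mem_Del] at hp hq
      simp only [mem_product, mem_insert, mem_singleton]
      exact ⟨sq_eq_sq_iff_eq_or_eq_neg.1 (by linarith [hp.1, hp.2, hq.1, hq.2]),
        sq_eq_sq_iff_eq_or_eq_neg.1 (hq.2.trans hp.2.symm)⟩
    · rw [card_product]
      exact Nat.mul_le_mul card_le_two card_le_two

theorem card_quad (D : ℕ) {A B C : ℤ} (hA : A ≠ 0) :
    ((Del D).filter (fun δ => A * (δ.2 ^ 2) ^ 2 + B * δ.2 ^ 2 + C = 0)).card ≤ 8 := by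
  rcases ((Del D).filter (fun δ => A * (δ.2 ^ 2) ^ 2 + B * δ.2 ^ 2 + C = 0)).eq_empty_or_nonempty
    with h | ⟨p, hp⟩
  · simp [h]
  · refine le_trans (card_le_card (t := (Del D).filter (fun δ => δ.2 ^ 2 = p.2 ^ 2) ∪
      (Del D).filter (fun δ => δ.2 ^ 2 = (-B - A * p.2 ^ 2) / A)) fun q hq => ?_) ?_
    · rw [mem_filter] at hp hq
      have : (q.2 ^ 2 - p.2 ^ 2) * (A * q.2 ^ 2 - (-B - A * p.2 ^ 2)) = 0 := by
        linear_combination hq.2 - hp.2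
      rcases mul_eq_zero.1 this with h | h
      · exact mem_union_left _ (mem_filter.2 ⟨hq.1, by linarith⟩)
      · refine mem_union_right _ (mem_filter.2 ⟨hq.1, ?_⟩)
        rw [← sub_eq_zero.1 h, Int.mul_ediv_cancel_left _ hA]
    · exact (card_union_le _ _).trans (Nat.add_le_add (card_fib _ _) (card_fib _ _))

/-- good pairs -/
def Good (D : ℕ) (δ ε : ℤ × ℤ) : Prop := δ.2 ^ 2 ≠ ε.2 ^ 2 ∧
  (3 * D + 2 * δ.2 ^ 2) * (2 * ε.1 * ε.2) - (3 * D + 2 * ε.2 ^ 2) * (2 * δ.1 * δ.2) ≠ 0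

open Classical in
theorem card_bad {D : ℕ} (hD : 1 ≤ D) (δ : ℤ × ℤ) :
    ((Del D).filter (fun ε => ¬ Good D δ ε)).card ≤ 12 := by
  set a : ℤ := 3 * D + 2 * δ.2 ^ 2
  set τ : ℤ := 2 * δ.1 * δ.2
  have ha : 0 < a := by positivity
  refine le_trans (card_le_card (t := (Del D).filter (fun ε => ε.2 ^ 2 = δ.2 ^ 2) ∪
      (Del D).filter (fun ε => (4 * τ ^ 2 + 4 * a ^ 2) * (ε.2 ^ 2) ^ 2 +
        (12 * D * τ ^ 2 - 4 * a ^ 2 * D) * ε.2 ^ 2 + 9 * D ^ 2 * τ ^ 2 = 0)) fun q hq => ?_) ?_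
  · rw [mem_filter, Good, not_and_or, not_not, not_not] at hq
    rcases hq.2 with h | h
    · exact mem_union_left _ (mem_filter.2 ⟨hq.1, h.symm⟩)
    · refine mem_union_right _ (mem_filter.2 ⟨hq.1, ?_⟩)
      have h1 := mem_Del.1 hq.1
      linear_combination (-(a * (2 * q.1 * q.2) + (3 * D + 2 * q.2 ^ 2) * τ)) * h +
        4 * a ^ 2 * q.2 ^ 2 * h1
  · exact (card_union_le _ _).trans (Nat.add_le_add (card_fib _ _) (card_quad _ (by positivity)))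

theorem comm3 {α β γ : Type*} (s : Finset α) (s' : Finset β) (t : Finset γ) (F : α → β → γ → ℂ) :
    ∑ a ∈ s, ∑ b ∈ s', ∑ c ∈ t, F a b c = ∑ c ∈ t, ∑ a ∈ s, ∑ b ∈ s', F a b c := by
  rw [sum_congr rfl fun a _ => sum_comm, sum_comm]

variable {M : ℕ} [NeZero M]

/-- the pair correlation -/
noncomputable def OO (N D : ℕ) (u : ℤ → ℂ) (f : ZMod M → ℂ) (δ ε : ℤ × ℤ) : ℂ :=
  ∑ η ∈ box (Nat.sqrt (N / D)), ∑ g ∈ Icc (0 : ℤ) (8 * N), ((rG N g * ‖u g‖ ^ 2 : ℝ) : ℂ) *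
    (f (g + (AA δ η : ℤ)) * conj (f (g + (AA ε η : ℤ))))

omit [NeZero M] in
theorem TT_sq_le {N D : ℕ} (hD : 1 ≤ D) (hN : D ≤ N) (γ u : ℤ → ℂ) (f : ZMod M → ℂ)
    (hγ : ∀ n, ‖γ n‖ ≤ 1) : ‖TT N D γ u (fun m => f m)‖ ^ 2 ≤
      9 * N * (9 * N / D) * ∑ δ ∈ Del D, ∑ ε ∈ Del D, ‖OO N D u f δ ε‖ := by
  set X := box (Nat.sqrt N)
  set H := box (Nat.sqrt (N / D))
  have e1 : TT N D γ u (fun m => f m) = ∑ p ∈ X ×ˢ H, γ (QQ D p.1 p.2) *
      (u (GG p.1) * ∑ δ ∈ Del D, f (GG p.1 + AA δ p.2 : ℤ)) := by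
    unfold TT T1
    rw [sum_product, sum_comm]
    refine sum_congr rfl fun ξ _ => ?_
    rw [sum_comm]
    refine sum_congr rfl fun η _ => ?_
    rw [mul_sum, mul_sum]
    exact sum_congr rfl fun δ _ => by ring
  rw [e1]
  refine (cs_norm _ _ _).trans ?_
  gcongr
  · calc _ ≤ ∑ p ∈ X ×ˢ H, (1 : ℝ) := sum_le_sum fun p _ => pow_le_one₀ (norm_nonneg _) (hγ _)
      _ ≤ _ := by
        rw [sum_const, card_product, nsmul_eq_mul, mul_one, Nat.cast_mul]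
        gcongr
        · exact card_box_sqrt (by omega)
        · exact card_box_div hD hN
  · have e2 : ((∑ p ∈ X ×ˢ H, ‖u (GG p.1) * ∑ δ ∈ Del D, f (GG p.1 + AA δ p.2 : ℤ)‖ ^ 2 : ℝ) : ℂ) =
        ∑ δ ∈ Del D, ∑ ε ∈ Del D, OO N D u f δ ε := by
      unfold OO
      rw [Complex.ofReal_sum, sum_product_right, comm3]
      refine sum_congr rfl fun η _ => ?_
      rw [sum_GG N (fun g => ((‖u g * ∑ δ ∈ Del D, f (g + AA δ η : ℤ)‖ ^ 2 : ℝ) : ℂ))]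
      rw [comm3]
      refine sum_congr rfl fun g _ => ?_
      simp only [← mul_sum]
      rw [norm_mul, mul_pow, Complex.ofReal_mul, normSq_eq (∑ δ ∈ Del D, _), map_sum,
        ← sum_mul, Complex.real_smul]
      push_cast
      ring
    have e3 := congrArg norm e2
    rw [Complex.norm_real, Real.norm_of_nonneg (by positivity)] at e3
    rw [e3]
    exact (norm_sum_le _ _).trans (sum_le_sum fun δ _ => norm_sum_le _ _)

theorem rho_le {N : ℕ} {u : ℤ → ℂ} {K : ℝ} (hu : ∀ g, ‖u g‖ ≤ 1) (hK : ∀ g, ‖u g‖ * rG N g ≤ K)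
    (g : ℤ) : ‖((rG N g * ‖u g‖ ^ 2 : ℝ) : ℂ)‖ ≤ K := by
  have := rG_nonneg N g
  rw [Complex.norm_real, Real.norm_of_nonneg (by positivity)]
  calc _ = ‖u g‖ * rG N g * ‖u g‖ := by ring
    _ ≤ ‖u g‖ * rG N g := mul_le_of_le_one_right (by positivity) (hu g)
    _ ≤ K := hK g

theorem short {N : ℕ} (hM : 20 * N < M) (φ : ZMod M → ℝ) (hφ : ∀ x, 0 ≤ φ x) :
    ∑ g ∈ Icc (0 : ℤ) (8 * N), φ g ≤ ∑ x, φ x :=
  sum_cast_le φ hφ _ fun a ha b hb => by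
    rw [mem_Icc] at ha hb; rw [abs_lt]; omega

theorem OO_triv {N D : ℕ} (hD : 1 ≤ D) (hN : D ≤ N) (hM : 20 * N < M) {u : ℤ → ℂ} {K E : ℝ}
    (hu : ∀ g, ‖u g‖ ≤ 1) (hK : ∀ g, ‖u g‖ * rG N g ≤ K) (f : ZMod M → ℂ)
    (hE : ∑ x, ‖f x‖ ^ 2 ≤ E) (δ ε : ℤ × ℤ) : ‖OO N D u f δ ε‖ ≤ 9 * N / D * (K * E) := by
  have hK0 : 0 ≤ K := le_trans (norm_nonneg _) (rho_le hu hK 0)
  have hE0 : 0 ≤ E := le_trans (by positivity) hE
  have h1 : ∀ a : ZMod M, ∑ g ∈ Icc (0 : ℤ) (8 * N), ‖f (g + a)‖ ^ 2 ≤ E := by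
    intro a
    refine (short hM (fun x => ‖f (x + a)‖ ^ 2) fun _ => by positivity).trans (le_trans ?_ hE)
    exact le_of_eq (Equiv.sum_comp (Equiv.addRight a) (fun y => ‖f y‖ ^ 2))
  refine (norm_sum_le _ _).trans ((sum_le_sum (g := fun _ => K * E) fun η _ => ?_).trans ?_)
  · refine (norm_sum_le _ _).trans ?_
    calc _ ≤ ∑ g ∈ Icc (0 : ℤ) (8 * N), K * ((‖f (g + (AA δ η : ℤ))‖ ^ 2 +
          ‖f (g + (AA ε η : ℤ))‖ ^ 2) / 2) := sum_le_sum fun g _ => by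
          rw [norm_mul, norm_mul, Complex.norm_conj]
          gcongr
          · exact rho_le hu hK g
          · nlinarith [sq_nonneg (‖f (g + (AA δ η : ℤ))‖ - ‖f (g + (AA ε η : ℤ))‖)]
      _ ≤ _ := by
          rw [← mul_sum, ← sum_div, sum_add_distrib]
          gcongr
          linarith [h1 (AA δ η : ℤ), h1 (AA ε η : ℤ)]
  · rw [sum_const, nsmul_eq_mul]
    gcongr
    exact card_box_div hD hN

theorem AA_eq {D : ℕ} {δ : ℤ × ℤ} (h : δ ∈ Del D) (s u : ℤ) :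
    AA δ (s, u) = PP (3 * D + 2 * δ.2 ^ 2) (2 * δ.1 * δ.2) (3 * D + 2 * δ.1 ^ 2) s u := by
  rw [← mem_Del.1 h, AA, PP]; ring

theorem OO_good (hM : M.Prime) {N D : ℕ} (hM1 : 20 * N < M) (hM2 : M ≤ 40 * N)
    (hD : 1 ≤ D) (hN : D ≤ N) {u : ℤ → ℂ} {K : ℝ}
    (hu : ∀ g, ‖u g‖ ≤ 1) (hK : ∀ g, ‖u g‖ * rG N g ≤ K) (f : ZMod M → ℂ)
    {δ ε : ℤ × ℤ} (hδ : δ ∈ Del D) (hε : ε ∈ Del D) (hg : Good D δ ε)
    {t ν C E : ℝ} (ht : (N : ℝ) = t ^ 4) (hν : 1 ≤ ν)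
    (hνt : ν ^ 250 ≤ t) (hDν : (D : ℝ) ≤ ν) (hKν : K ≤ ν) (hC : 1 ≤ C)
    (hτ : ∀ k : ℕ, k ≤ 44 * N → tau k ≤ C * ν) (hl : 1 + Real.log N ≤ C * ν)
    (hE : ∑ x, ‖f x‖ ^ 2 ≤ E) (hE' : E ≤ t ^ 4 * ν) (hF : ∀ x, ‖f x‖ ^ 2 ≤ t)
    (hS : ∀ r, ‖dft f r‖ ≤ t ^ 4 / ν ^ 100) :
    ‖OO N D u f δ ε‖ ≤ 10 ^ 6 * C * t ^ 8 / ν ^ 7 := by
  have d1 := mem_Del.1 hδ
  have d2 := mem_Del.1 hε
  have bd : ∀ x y : ℤ, x ^ 2 + y ^ 2 = D →
      |3 * (D : ℤ) + 2 * y ^ 2| ≤ 5 * (D : ℤ) ∧ |2 * x * y| ≤ (D : ℤ) := by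
    intro x y h
    refine ⟨?_, ?_⟩
    · rw [abs_of_nonneg (by positivity)]; nlinarith [sq_nonneg x]
    · rw [abs_le]; constructor <;> nlinarith [sq_nonneg (x + y), sq_nonneg (x - y)]
  have hb : ¬ (M : ℤ) ∣ 2 * (15 * D ^ 2) * (3 * D + 2 * δ.2 ^ 2 - (3 * D + 2 * ε.2 ^ 2)) := by
    have hp := Nat.prime_iff_prime_int.1 hM
    have h0 : ∀ k : ℤ, k ≠ 0 → |k| < M → ¬ (M : ℤ) ∣ k := fun k h1 h2 h3 =>
      h1 (Int.eq_zero_of_abs_lt_dvd h3 h2)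
    rw [show 2 * (15 * (D : ℤ) ^ 2) * (3 * D + 2 * δ.2 ^ 2 - (3 * D + 2 * ε.2 ^ 2)) =
      4 * (15 * (D * (D * (δ.2 ^ 2 - ε.2 ^ 2)))) by ring]
    have hD' : ¬ (M : ℤ) ∣ D := h0 _ (by omega) (by rw [abs_lt]; omega)
    refine hp.not_dvd_mul (h0 _ (by norm_num) (by rw [abs_lt]; omega))
      (hp.not_dvd_mul (h0 _ (by norm_num) (by rw [abs_lt]; omega))
      (hp.not_dvd_mul hD' (hp.not_dvd_mul hD' (h0 _ (sub_ne_zero.2 hg.1) ?_))))
    have : (D : ℤ) < M := by omega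
    rw [abs_lt]
    constructor <;> nlinarith [sq_nonneg δ.1, sq_nonneg δ.2, sq_nonneg ε.1, sq_nonneg ε.2]
  have key := pair_W hM (by omega) hM1 hM2 hD f (Δ := 15 * D ^ 2)
    (a1 := 3 * D + 2 * δ.2 ^ 2) (t1 := 2 * δ.1 * δ.2) (c1 := 3 * D + 2 * δ.1 ^ 2)
    (a2 := 3 * D + 2 * ε.2 ^ 2) (t2 := 2 * ε.1 * ε.2) (c2 := 3 * D + 2 * ε.1 ^ 2)
    (by linear_combination 6 * D * d1) (by linear_combination 6 * D * d2)
    (by positivity) (by positivity) hg.2 hb (bd _ _ d1).1 (bd _ _ d2).1 (bd _ _ d1).2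
    (bd _ _ d2).2 ht hν hνt hDν hC hτ hl hE hE' hF hS
  set R := Nat.sqrt (N / D)
  set I := Icc (-(R : ℤ)) R
  set Xs : ℤ → ZMod M → ℂ := fun v g => ∑ s ∈ I, f (g + (PP (3 * D + 2 * δ.2 ^ 2) (2 * δ.1 * δ.2)
    (3 * D + 2 * δ.1 ^ 2) s v : ℤ)) * conj (f (g + (PP (3 * D + 2 * ε.2 ^ 2) (2 * ε.1 * ε.2)
    (3 * D + 2 * ε.1 ^ 2) s v : ℤ)))
  have e1 : OO N D u f δ ε = ∑ p ∈ I ×ˢ Icc (0 : ℤ) (8 * N),
      ((rG N p.2 * ‖u p.2‖ ^ 2 : ℝ) : ℂ) * Xs p.1 p.2 := by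
    unfold OO
    rw [box, sum_product_right, sum_product]
    refine sum_congr rfl fun v _ => ?_
    rw [sum_comm]
    refine sum_congr rfl fun g _ => ?_
    simp only [Xs, mul_sum, AA_eq hδ, AA_eq hε]
    rfl
  have ht1 : 1 ≤ t := le_trans (one_le_pow₀ hν) hνt
  have hR : ((2 * R + 1 : ℕ) : ℝ) ≤ 3 * t ^ 2 := by
    refine (pow_le_pow_iff_left₀ (by positivity) (by positivity) two_ne_zero).1 ?_
    have h1 := card_box_div hD hN
    rw [card_box] at h1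
    have h2 : 9 * (N : ℝ) / D ≤ 9 * N := div_le_self (by positivity) (by exact_mod_cast hD)
    push_cast at h1 ⊢
    nlinarith
  have hpos : 0 ≤ 10 ^ 6 * C * t ^ 8 / ν ^ 7 := by positivity
  refine (pow_le_pow_iff_left₀ (norm_nonneg _) hpos two_ne_zero).1 ?_
  rw [e1]
  refine (cs_norm _ _ _).trans ?_
  calc _ ≤ (3 * t ^ 2 * (9 * t ^ 4) * ν ^ 2) * (10 ^ 10 * C ^ 2 * t ^ 10 / ν ^ 17) := by
        gcongr
        · calc _ ≤ ∑ p ∈ I ×ˢ Icc (0 : ℤ) (8 * N), ν ^ 2 := sum_le_sum fun p _ => by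
                gcongr; exact (rho_le hu hK _).trans hKν
            _ ≤ _ := by
                have c1 : I.card = 2 * R + 1 := by rw [Int.card_Icc]; omega
                have c2 : (Icc (0 : ℤ) (8 * N)).card = 8 * N + 1 := by rw [Int.card_Icc]; omega
                rw [sum_const, card_product, c1, c2, nsmul_eq_mul, Nat.cast_mul]
                gcongr
                push_cast
                have := one_le_pow₀ (n := 4) ht1
                linarith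
        · rw [sum_product]
          exact le_trans (sum_le_sum fun v _ => short hM1 (fun g => ‖Xs v g‖ ^ 2)
            fun _ => by positivity) key
    _ = 27 * 10 ^ 10 * C ^ 2 * t ^ 16 / ν / ν ^ 14 := by field_simp; ring
    _ ≤ 10 ^ 12 * C ^ 2 * t ^ 16 / 1 / ν ^ 14 := by gcongr; norm_num
    _ = _ := by field_simp

end U2P

open U2P Finset in
theorem u2 : S_U2 := by
  intro c1 hc hc'
  classical
  obtain ⟨C1, hC1, h1⟩ := tau_le (ε := c1 / 100) (by positivity)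
  obtain ⟨C2, hC2, h2⟩ := one_add_log_le (ε := c1 / 100) (by positivity)
  set C := 1 + 44 * C1 + C2 with hCd
  refine ⟨c1 / 100, by positivity, 10 ^ 8 * C, by positivity, ?_⟩
  intro N D M _ K E2 γ u f hN hM hM1 hM2 hD hDν hK1 hKν hE0 hE' hγ hu hK hF hE hS
  have hN' : (1 : ℝ) ≤ N := by exact_mod_cast hN
  have hN0 : (0 : ℝ) < N := by linarith
  set ν : ℝ := (N : ℝ) ^ (c1 / 100) with hνd
  set t : ℝ := (N : ℝ) ^ (1 / 4 : ℝ) with htd
  have ht : (N : ℝ) = t ^ 4 := by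
    rw [htd, ← Real.rpow_natCast, ← Real.rpow_mul hN0.le]; norm_num
  have hν : 1 ≤ ν := Real.one_le_rpow hN' (by positivity)
  have hνt : ν ^ 250 ≤ t := by
    rw [hνd, ← Real.rpow_natCast, ← Real.rpow_mul hN0.le]
    exact Real.rpow_le_rpow_of_exponent_le hN' (by push_cast; linarith)
  have hDN : D ≤ N := by
    have : ν ≤ N := by
      rw [hνd]
      exact (Real.rpow_le_rpow_of_exponent_le hN' (by linarith)).trans_eq (Real.rpow_one _)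
    exact_mod_cast hDν.trans this
  have hτ : ∀ k : ℕ, k ≤ 44 * N → tau k ≤ C * ν := by
    intro k hk
    refine (h1 k).trans ?_
    calc _ ≤ C1 * (44 * N : ℝ) ^ (c1 / 100) := by gcongr; exact_mod_cast hk
      _ = C1 * (44 : ℝ) ^ (c1 / 100) * ν := by rw [Real.mul_rpow (by norm_num) hN0.le]; ring
      _ ≤ C1 * (44 : ℝ) ^ (1 : ℝ) * ν := by gcongr <;> linarith
      _ ≤ _ := by rw [Real.rpow_one]; gcongr; linarith
  have hl : 1 + Real.log N ≤ C * ν := (h2 N hN').trans (by gcongr; linarith)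
  have hE2 : E2 ≤ t ^ 4 * ν := by rwa [← ht, hνd, ← Real.rpow_one_add' hN0.le (by positivity)]
  have hF' : ∀ x, ‖f x‖ ^ 2 ≤ t := by
    intro x
    calc _ ≤ ((N : ℝ) ^ (1 / 100 : ℝ)) ^ 2 := by gcongr; exact hF x
      _ ≤ t := by
        rw [← Real.rpow_natCast, ← Real.rpow_mul hN0.le]
        exact Real.rpow_le_rpow_of_exponent_le hN' (by norm_num)
  have hS' : ∀ r, ‖ZMod.dft f r‖ ≤ t ^ 4 / ν ^ 100 := by
    intro r
    refine (hS r).trans (le_of_eq ?_)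
    rw [← ht, hνd, ← Real.rpow_natCast, ← Real.rpow_mul hN0.le, Real.rpow_sub hN0, Real.rpow_one]
    congr 2; push_cast; ring
  have hC : 1 ≤ C := by linarith [show 0 ≤ 44 * C1 by positivity]
  have hD0 : (0 : ℝ) < D := by exact_mod_cast hD
  have s1 : ∀ δ ∈ Del D, ∑ ε ∈ Del D, ‖OO N D u f δ ε‖ ≤
      12 * (9 * N / D * (K * E2)) + (Del D).card * (10 ^ 6 * C * t ^ 8 / ν ^ 7) := by
    intro δ hδ
    rw [← sum_filter_add_sum_filter_not (Del D) (fun ε => ¬ Good D δ ε)]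
    gcongr
    · refine (sum_le_sum fun ε _ => OO_triv hD hDN hM1 hu hK f hE δ ε).trans ?_
      rw [sum_const, nsmul_eq_mul]
      gcongr
      exact_mod_cast card_bad hD δ
    · refine (sum_le_sum fun ε hε => OO_good hM hM1 hM2 hD hDN hu hK f hδ (mem_filter.1 hε).1
        (not_not.1 (mem_filter.1 hε).2) ht hν hνt hDν hKν hC hτ hl hE hE2 hF' hS').trans ?_
      rw [sum_const, nsmul_eq_mul]
      gcongr
      exact filter_subset _ _
  refine (TT_sq_le hD hDN γ u f hγ).trans ?_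
  have e1 : (N : ℝ) ^ (-(c1 / 100)) = 1 / ν := by rw [Real.rpow_neg hN0.le, one_div]
  have e2 : t ^ 8 = (N : ℝ) ^ 2 := by rw [ht]; ring
  rw [e1]
  clear_value C ν t
  have hd : (0 : ℝ) ≤ (Del D).card := Nat.cast_nonneg _
  have s2 := (sum_le_sum s1).trans_eq (sum_const _)
  rw [nsmul_eq_mul] at s2
  generalize ((Del D).card : ℝ) = d at *
  calc _ ≤ 9 * N * (9 * N / D) * (d * (12 * (9 * N / D * (K * E2)) +
        d * (10 ^ 6 * C * t ^ 8 / ν ^ 7))) := by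
        gcongr
    _ = ((N : ℝ) ^ 2 / D) ^ 2 * (8748 * 1 * (d * K * E2 / N) +
        81 * 10 ^ 6 * C * d ^ 2 * (D / ν ^ 6 * (1 / ν))) := by
        rw [e2]; field_simp; ring
    _ ≤ ((N : ℝ) ^ 2 / D) ^ 2 * (10 ^ 8 * C * (d * K * E2 / N) +
        10 ^ 8 * C * d ^ 2 * (1 * (1 / ν))) := by
        gcongr
        · norm_num
        · norm_num
        · rw [div_le_one (by positivity)]
          exact hDν.trans (le_self_pow₀ hν (by norm_num))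
    _ = _ := by ring

end Pool.Agent.P.MP_0ad054_nt.Sun
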