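import Pool.Agent.P.MP_0ad054_nt.Sun.CentralB

/-! The central arcs: the difference of the sifted primes and of the model is small in
progressions with small moduli. -/

namespace Pool.Agent.P.MP_0ad054_nt.Sun

open Finset Pool.Agent.Lib.H9
open scoped ArithmeticFunction.vonMangoldt

namespace CentralP

variable {N : ℕ} {s : Sv N}

lemma card_le_log {q : ℕ} (hq : 0 < q) : (q.primeFactors.card : ℝ) ≤ 2 * Real.log q := by
  have h1 : (2 : ℝ) ^ q.primeFactors.card ≤ q :=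
    (two_pow_le_tau hq.ne').trans (by unfold tau; exact_mod_cast Nat.card_divisors_le_self q)
  have h2 := Real.log_le_log (by positivity) h1
  rw [Real.log_pow] at h2
  have h3 := mul_le_mul_of_nonneg_left Real.log_two_gt_d9.le
    (Nat.cast_nonneg q.primeFactors.card : (0 : ℝ) ≤ _)
  have h4 : (0 : ℝ) ≤ q.primeFactors.card := Nat.cast_nonneg _
  linarith

lemma Yf_approx {y k q : ℕ} (hy : 2 ≤ y) (hk : 50 * (1 + Real.log y) ≤ k) (hq : 0 < q)
    (hq' : q ≤ y) {g : ℕ → ℝ} (hg : ∀ l ∈ Nat.primesLE y, 0 ≤ g l ∧ g l ≤ 1)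
    (hg' : ∀ l ∈ Nat.primesLE y, ¬ l ∣ q → g l ≤ 2 / l) :
    |Yf y k g - ∏ l ∈ Nat.primesLE y, (1 - g l)| ≤ 1 / 2 ^ k := by
  rw [Yf, abs_of_nonneg (sub_nonneg.2 (prod_le_sform_cY _ _ hg k))]
  refine (sform_cY_sub_le _ _ hg k).trans ((sform_cZ_le _ _ (fun l hl => (hg l hl).1) _).trans ?_)
  set S := ∑ l ∈ Nat.primesLE y, g l with hS
  have S0 : 0 ≤ S := sum_nonneg fun l hl => (hg l hl).1
  have l0 := Real.log_natCast_nonneg y
  have h1 : S ≤ 2 * Real.log q + 2 * (8 + 4 * Real.log (Real.log y + 1)) := by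
    calc S ≤ ∑ l ∈ Nat.primesLE y, ((if l ∣ q then 1 else 0) + 2 * (1 / (l : ℝ))) := by
          refine sum_le_sum fun l hl => ?_
          split_ifs with h
          · exact le_add_of_le_of_nonneg (hg l hl).2 (by positivity)
          · rw [zero_add, mul_one_div]
            exact hg' l hl h
      _ ≤ _ := by
          rw [sum_add_distrib, sum_boole, ← mul_sum]
          refine add_le_add (le_trans ?_ (card_le_log hq)) (by linarith [sum_inv_primes_le hy])
          exact_mod_cast card_le_card fun l hl => Nat.mem_primeFactors.2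
            ⟨(Nat.mem_primesLE.1 (mem_filter.1 hl).1).2, (mem_filter.1 hl).2, hq.ne'⟩
  have h2 : Real.log q ≤ Real.log y :=
    Real.log_le_log (by exact_mod_cast hq) (by exact_mod_cast hq')
  have h3 := Real.log_le_sub_one_of_pos (show 0 < Real.log y + 1 by linarith)
  have h4 : 4 * S ≤ k * 2 := by linarith
  have h5 := (Real.pow_div_factorial_le_exp (4 * S) (by positivity) (2 * k + 1)).trans
    (Real.exp_le_exp.2 h4)
  have h6 : Real.exp (k * 2) ≤ 8 ^ k := by
    rw [Real.exp_nat_mul]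
    refine pow_le_pow_left₀ (Real.exp_pos _).le ?_ _
    have := Real.exp_one_lt_d9
    have h7 := Real.exp_pos 1
    rw [show (2 : ℝ) = 1 + 1 by norm_num, Real.exp_add]
    nlinarith
  have h7 : (4 : ℝ) ^ (2 * k + 1) = 4 * (8 ^ k * 2 ^ k) := by
    rw [← mul_pow, pow_succ, pow_mul]
    norm_num [mul_comm]
  rw [mul_pow, mul_div_assoc, h7] at h5
  rw [le_div_iff₀ (by positivity)]
  have h8 : (0 : ℝ) < 8 ^ k := by positivity
  have h9 : 0 ≤ S ^ (2 * k + 1) / ((2 * k + 1).factorial : ℝ) * 2 ^ k := by positivity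
  refine le_of_mul_le_mul_left ?_ h8
  nlinarith

lemma inv_eq {l : ℕ} (hl : 2 ≤ l) : 1 + 1 / ((l : ℝ) - 1) = (1 - 1 / (l : ℝ))⁻¹ := by
  have h : (2 : ℝ) ≤ l := by exact_mod_cast hl
  have : (l : ℝ) - 1 ≠ 0 := by linarith
  field_simp
  ring

lemma prod_le_cW {T : Finset ℕ} (hT : T ⊆ s.Ps) : ∏ l ∈ T, (1 + 1 / ((l : ℝ) - 1)) ≤ cW N := by
  rw [prod_congr rfl fun l hl => inv_eq (s.hP l (hT hl)).1.two_le]
  exact prod_le_prod_of_subset_of_one_le (fun l hl => Nat.mem_primesLE.2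
    ⟨(s.hP l (hT hl)).2.2, (s.hP l (hT hl)).1⟩)
    (fun l hl => zero_le_one.trans (inv_one_sub_bd (s.hP l (hT hl)).1.two_le).1)
    fun l hl _ => (inv_one_sub_bd (Nat.mem_primesLE.1 hl).2.two_le).1

lemma Sf_le {h : ℕ → ℝ} (hh : ∀ l ∈ s.Ps, 0 ≤ h l ∧ h l ≤ 1 / ((l : ℝ) - 1)) :
    |Sf s.Ps s.lam h| ≤ cW N := by
  refine (abs_sum_le_sum_abs _ _).trans ((sum_le_sum (g := fun T => ∏ l ∈ T, h l)
    fun T hT => ?_).trans ?_)
  · have := prod_nonneg fun l hl => (hh l (mem_powerset.1 hT hl)).1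
    rw [abs_mul, abs_of_nonneg this]
    exact mul_le_of_le_one_left this (s.low.1 T)
  · rw [← prod_one_add]
    exact (prod_le_prod (fun l hl => by linarith [(hh l hl).1])
      fun l hl => by linarith [(hh l hl).2]).trans (prod_le_cW Subset.rfl)

lemma tele (y n : ℕ) :
    ∑ l ∈ Ioc y (y + n), (1 / ((l : ℝ) - 1) - 1 / l) = 1 / y - 1 / (y + n : ℕ) := by
  induction n with
  | zero => simp
  | succ n ih =>
    rw [← add_assoc, sum_Ioc_succ_top (by omega), ih]
    push_cast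
    ring

lemma inv_le {l : ℕ} (hl : 2 ≤ l) : 1 / (l : ℝ) ≤ 1 / ((l : ℝ) - 1) := by
  have h : (2 : ℝ) ≤ l := by exact_mod_cast hl
  exact one_div_le_one_div_of_le (by linarith) (by linarith)

lemma Sf_sub {h h' : ℕ → ℝ} (hh : ∀ l ∈ s.Ps, h l = 1 / ((l : ℝ) - 1))
    (hh' : ∀ l ∈ s.Ps, h' l = 1 / (l : ℝ)) :
    |Sf s.Ps s.lam h - Sf s.Ps s.lam h'| ≤ cW N * (1 / s.y) := by
  have a0 : ∀ l ∈ s.Ps, 0 ≤ h' l := fun l hl => by rw [hh' l hl]; positivity
  have a1 : ∀ l ∈ s.Ps, h' l ≤ h l := fun l hl => by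
    rw [hh' l hl, hh l hl]; exact inv_le (s.hP l hl).1.two_le
  rw [Sf, Sf, ← sum_sub_distrib]
  refine (abs_sum_le_sum_abs _ _).trans ((sum_le_sum
    (g := fun T => ∏ l ∈ T, h l - ∏ l ∈ T, h' l) fun T hT => ?_).trans ?_)
  · have := sub_nonneg.2 (prod_le_prod (fun l hl => a0 l (mem_powerset.1 hT hl))
      fun l hl => a1 l (mem_powerset.1 hT hl))
    rw [← mul_sub, abs_mul, abs_of_nonneg this]
    exact mul_le_of_le_one_left this (s.low.1 T)
  rw [sum_sub_distrib, ← prod_one_add, ← prod_one_add]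
  refine (prod_sub_prod_le _ (fun l => 1 + h' l) (fun l => 1 + h l)
    (fun l hl => by linarith [a0 l hl]) fun l hl => by linarith [a1 l hl]).trans ?_
  calc _ ≤ ∑ l ∈ s.Ps, cW N * (1 / ((l : ℝ) - 1) - 1 / l) := by
        refine sum_le_sum fun l hl => ?_
        rw [add_sub_add_left_eq_sub, hh l hl, hh' l hl, mul_comm,
          prod_congr rfl fun j hj => by rw [hh j (mem_of_mem_erase hj)]]
        exact mul_le_mul_of_nonneg_right (prod_le_cW (erase_subset _ _))
          (sub_nonneg.2 (inv_le (s.hP l hl).1.two_le))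
    _ ≤ _ := by
        rw [← mul_sum]
        refine mul_le_mul_of_nonneg_left ((sum_le_sum_of_subset_of_nonneg
          (t := Ioc s.y (s.y + N)) (fun l hl => mem_Ioc.2
            ⟨(s.hP l hl).2.1, (s.hP l hl).2.2.trans (Nat.le_add_left _ _)⟩)
          fun l hl _ => sub_nonneg.2 (inv_le (s.hy.trans (mem_Ioc.1 hl).1.le))).trans ?_)
          (zero_le_one.trans (one_le_cW _))
        rw [tele]
        exact sub_le_self _ (by positivity)

lemma g2_small {y q l : ℕ} (b : ℤ) (hl : l ∈ Nat.primesLE y) :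
    g2 y q b l = if l ∣ q then (if (l : ℤ) ∣ b * (b - 2) then 1 else 0)
      else if l = 2 then 1 / 2 else 2 / (l : ℝ) := by
  obtain ⟨h1, h2⟩ := Nat.mem_primesLE.1 hl
  simp only [g2, pp, if_pos h1]
  refine if_congr Iff.rfl rfl ?_
  split_ifs with h
  · subst h
    have : ((range 2).filter fun n : ℕ => ((2 : ℕ) : ℤ) ∣ n * (n - 2)).card = 1 := by decide
    rw [this]
    norm_num
  · rw [card_two h2 h]
    norm_num

lemma g2_big {y q l : ℕ} (b : ℤ) (hy : 2 ≤ y) (hq : 0 < q) (hq' : q ≤ y) (hl : y < l) :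
    g2 y q b l = 1 / (l : ℝ) := by
  simp only [g2, pp, if_neg (not_le.2 hl), one_mul]
  rw [if_neg fun h => absurd (Nat.le_of_dvd hq h) (by omega), card_one (by omega)]
  norm_num

lemma II_bd (q : ℕ) (hq : 0 < q) (b : ℤ) : 0 ≤ II q b ∧ II q b ≤ 1 := by
  have : (1 : ℝ) ≤ q.totient := by exact_mod_cast Nat.totient_pos.2 hq
  unfold II
  split_ifs
  · exact ⟨by positivity, (div_le_one (by positivity)).2 this⟩
  · simp

lemma main_eq {y q : ℕ} (hq : 0 < q) (hq' : q ≤ y) (b : ℤ) :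
    II q b * ∏ l ∈ Nat.primesLE y, (1 - g1 q b l)
      = cW y / q * ∏ l ∈ Nat.primesLE y, (1 - g2 y q b l) := by
  by_cases hb : IsCoprime b q
  swap
  · obtain ⟨r, hr, h1, h2⟩ :=
      Nat.Prime.not_coprime_iff_dvd.1 (mt Int.isCoprime_iff_nat_coprime.2 hb)
    rw [Int.natAbs_natCast] at h2
    have h3 : r ∈ Nat.primesLE y := Nat.mem_primesLE.2 ⟨(Nat.le_of_dvd hq h2).trans hq', hr⟩
    rw [II, if_neg hb, zero_div, zero_mul, prod_eq_zero h3 (by
      rw [g2_small b h3, if_pos h2, if_pos ((Int.natCast_dvd.2 h1).mul_right _), sub_self]),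
      mul_zero]
  have h1 : (q.totient : ℝ) = q * ∏ l ∈ Nat.primesLE y, if l ∣ q then 1 - 1 / (l : ℝ) else 1 := by
    have e : (Nat.primesLE y).filter (fun l => l ∣ q) = q.primeFactors := by
      ext l
      simp only [mem_filter, Nat.mem_primesLE, Nat.mem_primeFactors]
      exact ⟨fun h => ⟨h.1.2, h.2, hq.ne'⟩,
        fun h => ⟨⟨(Nat.le_of_dvd hq h.2.1).trans hq', h.1⟩, h.2.1⟩⟩
    rw [← prod_filter, e]
    have := congrArg (Rat.cast : ℚ → ℝ) (Nat.totient_eq_mul_prod_factors q)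
    push_cast at this
    simpa using this
  rw [II, if_pos hb, h1, cW, one_div, mul_inv, ← prod_inv_distrib, mul_assoc, ← prod_mul_distrib,
    div_eq_inv_mul, mul_assoc, ← prod_mul_distrib]
  refine congrArg _ (prod_congr rfl fun l hl => ?_)
  have h2 := (Nat.mem_primesLE.1 hl).2
  rw [g2_small b hl, g1]
  by_cases h3 : l ∣ q
  · simp only [if_pos h3]
    congr 2
    refine if_congr ⟨fun h => h.mul_left _, fun h => ?_⟩ rfl rfl
    refine ((Nat.prime_iff_prime_int.1 h2).dvd_or_dvd h).resolve_left fun h4 => ?_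
    exact (Nat.prime_iff_prime_int.1 h2).not_isUnit
      (hb.isUnit_of_dvd' h4 (Int.natCast_dvd_natCast.2 h3))
  simp only [if_neg h3]
  split_ifs with h4
  · subst h4
    norm_num
  · have h : (2 : ℝ) ≤ l := by exact_mod_cast h2.two_le
    have : (l : ℝ) - 1 ≠ 0 := by linarith
    field_simp
    ring

lemma main_diff {q : ℕ} (hq : 0 < q) (hq' : q ≤ s.y) (hk : 50 * (1 + Real.log s.y) ≤ s.k)
    (b : ℤ) : |II q b * WW s (g1 q b) - cW s.y / q * WW s (g2 s.y q b)|
      ≤ 2 * cW s.y * cW N * (1 / s.y + 1 / 2 ^ s.k) := by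
  have b1 : ∀ l ∈ s.Ps, g1 q b l = 1 / ((l : ℝ) - 1) := fun l hl => by
    have := (s.hP l hl).2.1
    have := s.hy
    rw [g1, if_neg fun h => absurd (Nat.le_of_dvd hq h) (by omega), if_neg (by omega)]
  have b2 : ∀ l ∈ s.Ps, g2 s.y q b l = 1 / (l : ℝ) := fun l hl =>
    g2_big b s.hy hq hq' (s.hP l hl).2.1
  have c1 : ∀ l ∈ Nat.primesLE s.y, 0 ≤ g1 q b l ∧ g1 q b l ≤ 1 := fun l hl => by
    have h : (2 : ℝ) ≤ l := by exact_mod_cast (Nat.mem_primesLE.1 hl).2.two_le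
    unfold g1
    split_ifs
    iterate 3 simp
    exact ⟨div_nonneg zero_le_one (by linarith), (div_le_one (by linarith)).2 (by linarith)⟩
  have y1 := Yf_approx s.hy hk hq hq' c1 fun l hl h => by
    have h2 : (2 : ℝ) ≤ l := by exact_mod_cast (Nat.mem_primesLE.1 hl).2.two_le
    rw [g1, if_neg h]
    split_ifs
    · positivity
    · rw [div_le_div_iff₀ (by linarith) (by linarith)]
      linarith
  have y2 := Yf_approx s.hy hk hq hq' (g := g2 s.y q b) (fun l hl => by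
    have h : (2 : ℝ) ≤ l := by exact_mod_cast (Nat.mem_primesLE.1 hl).2.two_le
    rw [g2_small b hl]
    split_ifs
    iterate 3 norm_num
    exact ⟨by positivity, (div_le_one (by linarith)).2 h⟩) fun l hl h => by
    rw [g2_small b hl, if_neg h]
    split_ifs with h2
    · subst h2
      norm_num
    · rfl
  have s1 := Sf_le (s := s) (h := g1 q b) fun l hl => by
    rw [b1 l hl]
    exact ⟨le_trans (by positivity) (inv_le (s.hP l hl).1.two_le), le_rfl⟩
  have s2 := Sf_le (s := s) (h := g2 s.y q b) fun l hl => by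
    rw [b2 l hl]
    exact ⟨by positivity, inv_le (s.hP l hl).1.two_le⟩
  have s3 := Sf_sub b1 b2
  have e := main_eq hq hq' b
  obtain ⟨i0, i1⟩ := II_bd q hq b
  have a0 : 0 ≤ ∏ l ∈ Nat.primesLE s.y, (1 - g1 q b l) :=
    prod_nonneg fun l hl => by linarith [(c1 l hl).2]
  have a1 : ∏ l ∈ Nat.primesLE s.y, (1 - g1 q b l) ≤ 1 :=
    prod_le_one (fun l hl => by linarith [(c1 l hl).2]) fun l hl => by linarith [(c1 l hl).1]
  have w1 := one_le_cW s.y
  have w2 := one_le_cW N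
  have w3 : cW s.y / q ≤ cW s.y := div_le_self (by linarith) (by exact_mod_cast hq)
  have w4 : 0 ≤ cW s.y / q := by positivity
  have p1 : (0 : ℝ) ≤ 1 / s.y := by positivity
  have p2 : (0 : ℝ) ≤ 1 / 2 ^ s.k := by positivity
  unfold WW
  generalize cW s.y / q = V at *
  generalize Yf s.y s.k (g1 q b) = Y1, Yf s.y s.k (g2 s.y q b) = Y2, Sf s.Ps s.lam (g1 q b) = S1,
    Sf s.Ps s.lam (g2 s.y q b) = S2, ∏ l ∈ Nat.primesLE s.y, (1 - g1 q b l) = A1,
    ∏ l ∈ Nat.primesLE s.y, (1 - g2 s.y q b l) = A2, II q b = I,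
    (1 : ℝ) / s.y = u, (1 : ℝ) / 2 ^ s.k = v, cW N = W, cW s.y = U at *
  have e1 : I * (Y1 * S1) - V * (Y2 * S2) =
      I * ((Y1 - A1) * S1) - V * ((Y2 - A2) * S2) + I * A1 * (S1 - S2) := by
    linear_combination S2 * e
  have t1 : |I * ((Y1 - A1) * S1)| ≤ U * (v * W) := by
    rw [abs_mul, abs_mul, abs_of_nonneg i0]
    exact mul_le_mul (i1.trans w1) (mul_le_mul y1 s1 (abs_nonneg _) p2) (by positivity)
      (by positivity)
  have t2 : |V * ((Y2 - A2) * S2)| ≤ U * (v * W) := by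
    rw [abs_mul, abs_mul, abs_of_nonneg w4]
    exact mul_le_mul w3 (mul_le_mul y2 s2 (abs_nonneg _) p2) (by positivity) (by positivity)
  have t3 : |I * A1 * (S1 - S2)| ≤ U * (W * u) := by
    rw [abs_mul, abs_of_nonneg (mul_nonneg i0 a0)]
    exact mul_le_mul ((mul_le_one₀ i1 a0 a1).trans w1) s3 (abs_nonneg _) (by positivity)
  have t4 : 0 ≤ U * (W * u) := by positivity
  rw [abs_le] at t1 t2 t3
  rw [e1, abs_le]
  constructor <;> linarith

lemma pow_save (B : ℕ) : ∃ C : ℝ, 0 < C ∧ ∀ N : ℕ, 1 ≤ N →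
    LL N * LL N ^ B ≤ C * (N : ℝ) ^ (1 / 4 : ℝ) := by
  obtain ⟨C, hC, h⟩ := one_add_log_le (ε := 1 / 4 / (B + 1 : ℕ)) (by positivity)
  refine ⟨C ^ (B + 1), by positivity, fun N hN => ?_⟩
  have h1 := pow_le_pow_left₀ (by linarith [Real.log_natCast_nonneg N])
    (h N (by exact_mod_cast hN)) (B + 1)
  rwa [mul_pow, ← Real.rpow_natCast (_ ^ _), ← Real.rpow_mul (Nat.cast_nonneg _),
    div_mul_cancel₀ _ (by positivity), pow_succ'] at h1

lemma cW_le_LL {y N : ℕ} (hy : 2 ≤ y) (h : y ≤ N) : cW y ≤ Real.exp 16 * LL N ^ 8 := by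
  refine (cW_le_log hy).trans (mul_le_mul_of_nonneg_left (pow_le_pow_left₀
    (by linarith [Real.log_natCast_nonneg y]) ?_ _) (Real.exp_pos _).le)
  have := Real.log_le_log (by positivity) (Nat.cast_le.2 h : (y : ℝ) ≤ N)
  unfold LL
  linarith

lemma aa_le {m : ℕ} (hm : 3 ≤ m) (hm' : m ≤ N) : |aa s m| ≤ 2 * s.DD ^ 2 * LL N := by
  have l0 := Real.log_natCast_nonneg N
  have d1 : (1 : ℝ) ≤ s.DD := by exact_mod_cast le_trans (by norm_num) (s.hy.trans s.hyD)
  have h1 : |Λ m * sig s m| ≤ Real.log N * s.DD := by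
    rw [abs_mul, abs_of_nonneg ArithmeticFunction.vonMangoldt_nonneg]
    refine mul_le_mul (ArithmeticFunction.vonMangoldt_le_log.trans (Real.log_le_log
      (by positivity) (by exact_mod_cast hm'))) (WW_le fun l => ?_) (abs_nonneg _) l0
    unfold w1
    split_ifs <;> simp
  have h2 : |mdl s m| ≤ s.DD * s.DD := by
    rw [mdl_eq hm, one_mul, abs_mul, abs_of_nonneg (zero_le_one.trans (one_le_cW _))]
    refine mul_le_mul ((cW_le_self (by linarith [s.hy])).trans (by exact_mod_cast s.hyD))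
      (WW_le fun l => ?_) (abs_nonneg _) (by linarith)
    split_ifs <;> simp
  have h3 : Real.log N * s.DD ≤ Real.log N * (s.DD * s.DD) :=
    mul_le_mul_of_nonneg_left (le_mul_of_one_le_left (by linarith) d1) l0
  have h4 : (0 : ℝ) ≤ s.DD * s.DD := by positivity
  have h5 := mul_nonneg l0 h4
  refine (abs_sub _ _).trans ?_
  unfold LL
  linarith

end CentralP

open CentralP in
theorem central (h : An.S_BV) : S_Central := by
  intro B B1
  obtain ⟨C1, hC1, bv⟩ := h (1 / 4) (B + B1) (by norm_num)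
  obtain ⟨C2, hC2, sv⟩ := pow_save B
  refine ⟨7 * C2 + 7 * C1 * 4 ^ (B + B1) + 14 * Real.exp 16 ^ 2, 16, by positivity,
    fun N s q X b hD hk hq hq' hqL hX => ?_⟩
  have hN : 2 ≤ N := s.hy.trans (s.hyD.trans s.hDN)
  have d2 : 2 ≤ s.DD := s.hy.trans s.hyD
  have n2 : (2 : ℝ) ≤ N := by exact_mod_cast hN
  have d1 : (1 : ℝ) ≤ s.DD := by exact_mod_cast le_trans (by norm_num) d2
  have l0 := Real.log_natCast_nonneg N
  have L1 : 1 ≤ LL N := by unfold LL; linarith
  have LB : 0 < LL N ^ B := by positivity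
  set R := (N : ℝ) ^ (1 / 4 : ℝ) with hR
  have R4 : R ^ 4 = N := by
    rw [hR, ← Real.rpow_natCast, ← Real.rpow_mul (Nat.cast_nonneg _)]
    norm_num
  have R1 : 1 ≤ R := Real.one_le_rpow (by linarith) (by norm_num)
  have dR : (s.DD : ℝ) ^ 10 ≤ R := by
    refine le_of_pow_le_pow_left₀ (n := 4) (by norm_num) (by linarith) ?_
    rw [R4, ← pow_mul]
    exact_mod_cast hD
  have d4 : (s.DD : ℝ) ^ 4 ≤ R := (pow_le_pow_right₀ d1 (by norm_num)).trans dR
  have d3 : (s.DD : ℝ) ^ 2 ≤ R := (pow_le_pow_right₀ d1 (by norm_num)).trans dR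
  have sv' : R ^ 3 * LL N ≤ C2 * N * (1 / LL N ^ B) := by
    rw [mul_one_div, le_div_iff₀ LB, ← R4]
    have := mul_le_mul_of_nonneg_left (sv N (by omega)) (show 0 ≤ R ^ 3 by positivity)
    linarith
  have fin : ∀ x : ℝ, x ≤ 7 * (R ^ 3 * LL N) + 7 * C1 * 4 ^ (B + B1) * N * (1 / LL N ^ B) +
      14 * Real.exp 16 ^ 2 * N * (LL N ^ 16 * (1 / s.y + 1 / 2 ^ s.k)) →
      x ≤ (7 * C2 + 7 * C1 * 4 ^ (B + B1) + 14 * Real.exp 16 ^ 2) * N *
        (1 / LL N ^ B + LL N ^ 16 * (1 / s.y + 1 / 2 ^ s.k)) := fun x hx => by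
    have p1 : 0 ≤ Real.exp 16 ^ 2 * N * (1 / LL N ^ B) := by positivity
    have p2 : 0 ≤ C2 * N * (LL N ^ 16 * (1 / s.y + 1 / 2 ^ s.k)) := by positivity
    have p3 : 0 ≤ C1 * 4 ^ (B + B1) * N * (LL N ^ 16 * (1 / s.y + 1 / 2 ^ s.k)) := by positivity
    generalize LL N ^ 16 * (1 / (s.y : ℝ) + 1 / 2 ^ s.k) = v, 1 / LL N ^ B = u,
      (4 : ℝ) ^ (B + B1) = w at *
    linarith
  refine fin _ ?_
  have p1 : 0 ≤ 7 * C1 * 4 ^ (B + B1) * N * (1 / LL N ^ B) := by positivity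
  have p2 : 0 ≤ 14 * Real.exp 16 ^ 2 * N * (LL N ^ 16 * (1 / s.y + 1 / 2 ^ s.k)) := by positivity
  rcases lt_or_ge (X ^ 2) N with hs | hs
  · have x1 : (X : ℝ) ≤ R ^ 2 := by
      refine le_of_pow_le_pow_left₀ (n := 2) (by norm_num) (by positivity) ?_
      rw [← pow_mul, R4]
      exact_mod_cast hs.le
    have x2 : X ≤ N := (Nat.le_self_pow (by norm_num) X).trans hs.le
    refine le_add_of_le_of_nonneg (le_add_of_le_of_nonneg ((abs_sum_le_sum_abs _ _).trans
      ((sum_le_card_nsmul _ _ _ fun m hm => aa_le (mem_Icc.1 (mem_filter.1 hm).1).1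
        ((mem_Icc.1 (mem_filter.1 hm).1).2.trans x2)).trans ?_)) p1) p2
    have x3 : (((Icc 3 X).filter (fun m : ℕ => (q : ℤ) ∣ m - b)).card : ℝ) ≤ X := by
      exact_mod_cast (card_filter_le _ _).trans (by simp)
    rw [nsmul_eq_mul]
    calc _ ≤ R ^ 2 * (2 * R * LL N) := by gcongr; exact x3.trans x1
      _ ≤ _ := by
          have : 0 ≤ R ^ 3 * LL N := by positivity
          linarith
  have x8 : s.DD ^ 8 ≤ X := by
    refine (Nat.pow_le_pow_iff_left (n := 2) (by norm_num)).1 (le_trans ?_ (hD.trans hs))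
    rw [← pow_mul]
    exact Nat.pow_le_pow_right (by omega) (by norm_num)
  have x2 : 2 ≤ X := d2.trans ((Nat.le_self_pow (by norm_num) _).trans x8)
  have x0 : (0 : ℝ) < X := by positivity
  have x7 : (X : ℝ) ≤ 7 * N := by exact_mod_cast hX
  have b1 := bv X (s.DD ^ 2) (cK q b) x2 (by
    refine le_of_pow_le_pow_left₀ (n := 4) (by norm_num) (by positivity) ?_
    rw [← Real.rpow_natCast (_ ^ _), ← Real.rpow_mul x0.le]
    norm_num
    rw [← pow_mul]
    exact_mod_cast x8) fun k _ => cK_cop q b k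
  have l1 : 1 ≤ Real.log N := by
    have := Real.log_le_log (by positivity) (show (2 : ℝ) ^ 40 ≤ N by
      exact_mod_cast (Nat.pow_le_pow_left d2 40).trans hD)
    rw [Real.log_pow] at this
    have := Real.log_two_gt_d9
    push_cast at *
    linarith
  have l2 : LL N / 4 ≤ Real.log X := by
    have := Real.log_le_log (by linarith) (show (N : ℝ) ≤ X ^ 2 by exact_mod_cast hs)
    rw [Real.log_pow] at this
    unfold LL
    push_cast at *
    linarith
  have l3 : Real.log X + 2 ≤ 4 * LL N := by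
    have := Real.log_le_log x0 (show (X : ℝ) ≤ N ^ 4 by
      have : (2 : ℝ) ^ 3 ≤ N ^ 3 := by gcongr
      nlinarith)
    rw [Real.log_pow] at this
    unfold LL
    push_cast at *
    linarith
  have e1 : q * ∑ k ∈ Icc 1 (s.DD ^ 2), EK q b X k ≤ 7 * C1 * 4 ^ (B + B1) * N * (1 / LL N ^ B) :=
    calc _ ≤ LL N ^ B1 * (C1 * (7 * N) / (LL N / 4) ^ (B + B1)) := by
          refine mul_le_mul hqL (b1.trans ?_) (sum_nonneg fun _ _ => abs_nonneg _) (by positivity)
          gcongr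
      _ = _ := by
          rw [div_pow, pow_add (LL N)]
          field_simp
  have qD : (q : ℝ) ≤ s.DD := by exact_mod_cast hq'.trans s.hyD
  have e2 := lam_side (s := s) hq (hq'.trans s.hyD) b (show 1 ≤ X by omega)
  have e3 := mdl_side (s := s) hq b X
  have e4 := main_diff hq hq' hk b
  have c1 : cW s.y ≤ s.DD := (cW_le_self (by linarith [s.hy])).trans (by exact_mod_cast s.hyD)
  have R3 : R * LL N ≤ R ^ 3 * LL N := by
    gcongr
    exact le_self_pow₀ R1 (by norm_num)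
  have e5 : s.DD * (Real.log X + 2) ≤ 4 * (R ^ 3 * LL N) :=
    calc _ ≤ R * (4 * LL N) := by
          gcongr
          exact (le_self_pow₀ d1 (by norm_num)).trans d3
      _ ≤ _ := by linarith
  have e6 : cW s.y * (s.DD * (q * s.DD + 2)) ≤ 3 * (R ^ 3 * LL N) :=
    calc _ ≤ s.DD * (s.DD * (s.DD * s.DD + 2) : ℝ) := by gcongr
      _ ≤ 3 * (R * 1) := by linarith
      _ ≤ 3 * (R * LL N) := by gcongr
      _ ≤ _ := by linarith
  have e7 : |X * (II q b * WW s (g1 q b) - cW s.y / q * WW s (g2 s.y q b))| ≤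
      14 * Real.exp 16 ^ 2 * N * (LL N ^ 16 * (1 / s.y + 1 / 2 ^ s.k)) := by
    rw [abs_mul, abs_of_pos x0]
    have c2 := cW_le_LL s.hy (s.hyD.trans s.hDN)
    have c3 := cW_le_LL hN le_rfl
    have c4 := one_le_cW N
    calc _ ≤ 7 * N * (2 * (Real.exp 16 * LL N ^ 8) * (Real.exp 16 * LL N ^ 8) *
          (1 / s.y + 1 / 2 ^ s.k)) := by
          refine mul_le_mul x7 (e4.trans ?_) (abs_nonneg _) (by positivity)
          gcongr
      _ = _ := by ring
  simp only [aa, sum_sub_distrib]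
  rw [abs_le] at e2 e3 e7
  have e8 : X * (II q b * WW s (g1 q b) - cW s.y / q * WW s (g2 s.y q b)) =
    X * II q b * WW s (g1 q b) - cW s.y * (X / q * WW s (g2 s.y q b)) := by ring
  rw [e8] at e7
  rw [abs_le]
  constructor <;> linarith

end Pool.Agent.P.MP_0ad054_nt.Sun
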