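import Pool.Agent.P.MP_0ad054_nt.Sun.TransB

/-! The transference step. -/

namespace Pool.Agent.P.MP_0ad054_nt.Sun

open Finset ZMod

namespace TransP

theorem approx {M N : ℕ} [NeZero M] (hN : 1 ≤ N) {Q : ℝ} (hQ : Q ≤ N) (r : ZMod M)
    (h : ¬ Minor N Q ((r.val : ℝ) / M)) :
    ∃ β : ℚ, -1 ≤ β ∧ β ≤ 2 ∧ (β.den : ℝ) ≤ Q ∧ N * |(r.val : ℝ) / M - β| ≤ Q := by
  unfold Minor at h
  push Not at h
  obtain ⟨q, hq, hqQ, h⟩ := h
  have hN0 : (0 : ℝ) < N := by exact_mod_cast hN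
  have hq1 : (1 : ℝ) ≤ q := by exact_mod_cast hq
  have hM0 : (0 : ℝ) < M := by exact_mod_cast Nat.pos_of_ne_zero (NeZero.ne M)
  set x := (r.val : ℝ) / M with hx
  have hx0 : 0 ≤ x := by positivity
  have hx1 : x ≤ 1 := by
    rw [hx, div_le_one hM0]; exact_mod_cast (ZMod.val_lt r).le
  set a := round (q * x)
  have h1 : N * |x - (((a : ℚ) / q : ℚ) : ℝ)| ≤ Q := by
    unfold dn at h
    rw [le_div_iff₀ hN0] at h
    have : (q : ℝ) * x - a = q * (x - (((a : ℚ) / q : ℚ) : ℝ)) := by push_cast; field_simp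
    rw [this, abs_mul, abs_of_pos (by linarith : (0 : ℝ) < q)] at h
    have := abs_nonneg (x - (((a : ℚ) / q : ℚ) : ℝ))
    nlinarith [mul_nonneg this hN0.le]
  have h2 : |x - (((a : ℚ) / q : ℚ) : ℝ)| ≤ 1 := by
    refine le_of_mul_le_mul_left ?_ hN0
    linarith
  rw [abs_le] at h2
  refine ⟨(a : ℚ) / q, ?_, ?_, ?_, h1⟩
  · have : (-1 : ℝ) ≤ (((a : ℚ) / q : ℚ) : ℝ) := by linarith [h2.2]
    exact_mod_cast this
  · have : (((a : ℚ) / q : ℚ) : ℝ) ≤ 2 := by linarith [h2.1]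
    exact_mod_cast this
  · refine le_trans ?_ hqQ
    have := Rat.den_dvd a q
    rw [Rat.divInt_eq_div] at this
    have h3 := Nat.le_of_dvd hq (Int.natCast_dvd_natCast.1 this)
    exact_mod_cast h3

/-- extension by zero -/
noncomputable def ext (M N : ℕ) (f : ℕ → ℂ) (g : ZMod M) : ℂ :=
  if g.val ∈ Icc 3 (7 * N) then f g.val else 0

theorem sum_val {M N : ℕ} [NeZero M] (hM : 7 * N < M) {A : Type*} [AddCommMonoid A] (φ : ℕ → A) :
    ∑ g : ZMod M, (if g.val ∈ Icc 3 (7 * N) then φ g.val else 0) = ∑ m ∈ Icc 3 (7 * N), φ m := by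
  rw [← sum_filter]
  refine sum_nbij' (fun g => g.val) (fun m => (m : ZMod M)) ?_ ?_ ?_ ?_ ?_
  · intro g hg; exact (mem_filter.1 hg).2
  · intro m hm
    have := (mem_Icc.1 hm).2
    rw [mem_filter, ZMod.val_cast_of_lt (by omega)]
    exact ⟨mem_univ _, hm⟩
  · intro g _; exact natCast_zmod_val g
  · intro m hm
    have := (mem_Icc.1 hm).2
    exact ZMod.val_cast_of_lt (by omega)
  · intro g _; rfl

theorem dft_ext {M N : ℕ} [NeZero M] (hM : 7 * N < M) (f : ℕ → ℂ) (r : ZMod M) :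
    dft (ext M N f) r = ∑ m ∈ Icc 3 (7 * N), f m * e (-((r.val : ℝ) / M) * m) := by
  rw [dft_apply, ← sum_val hM]
  refine sum_congr rfl fun g _ => ?_
  unfold ext
  split_ifs
  · have := char_eq r (-(g.val : ℤ))
    push_cast at this
    rw [natCast_zmod_val] at this
    rw [smul_eq_mul, mul_comm g r, ← mul_neg, this, mul_comm]
    congr 2; ring
  · simp

theorem sq_ext {M N : ℕ} [NeZero M] (hM : 7 * N < M) (f : ℕ → ℂ) :
    ∑ g, ‖ext M N f g‖ ^ 2 = ∑ m ∈ Icc 3 (7 * N), ‖f m‖ ^ 2 := by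
  rw [← sum_val hM]
  refine sum_congr rfl fun g _ => ?_
  unfold ext
  split_ifs <;> simp

theorem ext_cast {M N : ℕ} [NeZero M] (hM : 7 * N < M) (f : ℕ → ℂ) (m : ℤ) (h1 : 3 ≤ m)
    (h2 : m ≤ 7 * N) : ext M N f (m : ZMod M) = f m.toNat := by
  obtain ⟨k, rfl⟩ := Int.eq_ofNat_of_zero_le (by omega : 0 ≤ m)
  unfold ext
  rw [Int.cast_natCast, ZMod.val_cast_of_lt (by omega), Int.toNat_natCast,
    if_pos (mem_Icc.2 ⟨by omega, by omega⟩)]

theorem sum_cast_le {M N : ℕ} [NeZero M] (hM : 7 * N < M) (G : ZMod M → ℝ) (hG : ∀ g, 0 ≤ G g) :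
    ∑ m ∈ Icc (3 : ℤ) (7 * N), G m ≤ ∑ g, G g := by
  have hinj : Set.InjOn (fun m : ℤ => (m : ZMod M)) (Icc (3 : ℤ) (7 * N) : Finset ℤ) := by
    intro a ha b hb h
    simp only [coe_Icc, Set.mem_Icc] at ha hb
    have := (ZMod.intCast_eq_intCast_iff_dvd_sub a b M).1 h
    have h3 := Int.eq_zero_of_abs_lt_dvd this (by rw [abs_lt]; omega)
    omega
  rw [← sum_image (f := G) hinj]
  exact sum_le_sum_of_subset_of_nonneg (subset_univ _) fun g _ _ => hG g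

theorem one_le_LL (N : ℕ) : 1 ≤ LL N := by
  unfold LL; have := Real.log_natCast_nonneg N; linarith

theorem rG_nonneg (N : ℕ) (g : ℤ) : 0 ≤ rG N g := Nat.cast_nonneg _

theorem part_compl (hB : S_UB) (hR : S_RG) : ∃ (C : ℝ) (k : ℕ), 0 < C ∧
    ∀ (M N D : ℕ) [NeZero M] (K E2 : ℝ) (γ : ℤ → ℂ) (G : ZMod M → ℂ), 7 * N < M → 1 ≤ D → D ≤ N →
    1 ≤ K → (∀ n, ‖γ n‖ ≤ 1) → (∀ n, γ n ≠ 0 → 3 ≤ n ∧ n ≤ N) → ∑ g, ‖G g‖ ^ 2 ≤ E2 →
    ‖TT N D γ (fun g => 1 - uK N K g) (fun m => G m)‖ ≤ C * ((Del D).card * ((N : ℝ) ^ 2 / D)) *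
      (Real.sqrt (E2 / N) * (LL N ^ k / Real.sqrt K)) := by
  obtain ⟨C, k, hC, h⟩ := hR
  refine ⟨9 * Real.sqrt C, k, by positivity, fun M N D _ K E2 γ G hM hD hDN hK hγ hγ' hG => ?_⟩
  have hN : 1 ≤ N := hD.trans hDN
  have hN0 : (0 : ℝ) < N := by exact_mod_cast hN
  have hL := one_le_LL N
  refine (hB N D E2 γ _ _ hD hDN hγ hγ'
    ((sum_cast_le hM (fun g => ‖G g‖ ^ 2) fun g => by positivity).trans hG)).trans ?_
  have e1 : ∑ g ∈ Icc (0 : ℤ) (8 * N), ‖1 - uK N K g‖ ^ 2 * rG N g ^ 2 ≤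
      C * N * (LL N ^ k) ^ 2 / K := by
    rw [le_div_iff₀ (by linarith), sum_mul]
    refine le_trans (sum_le_sum fun g _ => ?_) ((h N hN).trans ?_)
    · have := rG_nonneg N g
      unfold uK
      split_ifs with h1
      · simp only [sub_self, norm_zero]; ring_nf; positivity
      · simp only [sub_zero, norm_one, one_pow, one_mul]
        rw [pow_succ (rG N g) 2]
        gcongr
        exact (not_le.1 h1).le
    · have := one_le_pow₀ (n := k) hL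
      gcongr
      nlinarith
  have e2 := Real.sqrt_le_sqrt e1
  have e3 : Real.sqrt (C * N * (LL N ^ k) ^ 2 / K) =
      Real.sqrt C * Real.sqrt N * LL N ^ k / Real.sqrt K := by
    rw [Real.sqrt_div (by positivity), Real.sqrt_mul (by positivity), Real.sqrt_mul hC.le,
      Real.sqrt_sq (by positivity)]
  rw [e3] at e2
  refine le_trans (mul_le_mul_of_nonneg_right (mul_le_mul_of_nonneg_left e2 (by positivity))
    (Real.sqrt_nonneg _)) (le_of_eq ?_)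
  have hs : 0 < Real.sqrt N := Real.sqrt_pos.2 hN0
  have hs2 : (N : ℝ) = Real.sqrt N ^ 2 := (Real.sq_sqrt hN0.le).symm
  rw [Real.sqrt_div' _ hN0.le]
  generalize Real.sqrt N = s at hs hs2 ⊢
  rw [hs2]
  field_simp

theorem part_major (hG : S_Gamma) (hK : S_Kap) : ∃ C : ℝ, 0 < C ∧
    ∀ (M N D : ℕ) [NeZero M] (y E2 S : ℝ) (γ : ℤ → ℂ) (f : ℕ → ℂ) (R : Finset (ZMod M))
    (β : ZMod M → ℚ), 1 ≤ N → 7 * N < M → M ≤ 40 * N → GoodD D →
    (D : ℝ) ≤ (N : ℝ) ^ (1 / 1000 : ℝ) → D ≤ N → 1 ≤ y → 0 ≤ S →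
    (∀ n, ‖γ n‖ ≤ 1) → (∀ n, γ n ≠ 0 → n ≤ N) → ∑ m ∈ Icc 3 (7 * N), ‖f m‖ ^ 2 ≤ E2 →
    (∀ (q X : ℕ) (b : ℤ), 1 ≤ q → (q : ℝ) ≤ y → X ≤ 7 * N →
      ‖∑ m ∈ (Icc 3 X).filter (fun m : ℕ => (q : ℤ) ∣ m - b), f m‖ ≤ S) →
    (∀ r ∈ R, -1 ≤ β r ∧ β r ≤ 2 ∧ ((β r).den : ℝ) ≤ (N : ℝ) ^ (1 / 1000 : ℝ) ∧
      N * |(r.val : ℝ) / M - β r| ≤ (N : ℝ) ^ (1 / 1000 : ℝ)) →
    ‖TT N D γ (fun _ => 1) (fun m => proj R (ext M N f) m)‖ ≤
      C * ((Del D).card * ((N : ℝ) ^ 2 / D)) * (Real.sqrt (E2 / N) *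
        (y ^ (-(1 / 16) : ℝ) + (N : ℝ) ^ (-(1 / 100) : ℝ)) + y ^ 5 * S / N) := by
  obtain ⟨C, hC, h⟩ := major hG hK
  refine ⟨Real.sqrt C + 324 * 57 * 81, by positivity,
    fun M N D _ y E2 S γ f R β hN hM hM' hD hDQ hDN hy hS hγ hγ' hE hAP hR => ?_⟩
  have hN0 : (0 : ℝ) < N := by exact_mod_cast hN
  have hD1 : 1 ≤ D := Nat.pos_of_ne_zero hD.1.ne_zero
  have hNM : (N : ℝ) ≤ M := by exact_mod_cast (by omega : N ≤ M)
  have hM0 : (0 : ℝ) < M := by linarith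
  set F := ext M N f with hF
  set W : ℝ := (Del D).card * ((N : ℝ) ^ 2 / D) with hW
  have hW0 : 0 ≤ W := by positivity
  set Γ : ZMod M → ℂ := fun r => TT N D γ (fun _ => 1) (fun m => e ((r.val : ℝ) / M * m)) with hΓ
  have e0 : TT N D γ (fun _ => 1) (fun m => proj R F m) =
      ∑ r ∈ R, ((M : ℂ)⁻¹ * dft F r) * Γ r := by
    simp only [proj_apply, char_eq]
    exact TT_sum N D γ _ R _ _
  set P : ZMod M → Prop := fun r => ((β r).den : ℝ) ≤ y ∧ N * |(r.val : ℝ) / M - β r| ≤ y with hP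
  classical
  rw [e0, ← sum_filter_add_sum_filter_not R P]
  have hinv : ‖(M : ℂ)⁻¹‖ = 1 / M := by simp
  have e1 : ‖∑ r ∈ R.filter P, ((M : ℂ)⁻¹ * dft F r) * Γ r‖ ≤
      324 * 57 * 81 * W * (y ^ 5 * S / N) := by
    have hc := count hM' (R.filter P) β hy fun r hr => by
      obtain ⟨a, b⟩ := mem_filter.1 hr
      exact ⟨(hR r a).1, (hR r a).2.1, b.1, b.2⟩
    refine (norm_sum_le _ _).trans ((sum_le_card_nsmul _ _
      (1 / N * (57 * y ^ 2 * S) * (81 * W)) fun r hr => ?_).trans ?_)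
    · obtain ⟨a, b1, b2⟩ := mem_filter.1 hr
      have c1 : ‖dft F r‖ ≤ 57 * y ^ 2 * S := by
        have := classes f (-β r) (-((r.val : ℝ) / M - β r)) S (7 * N) fun b X hX => by
          rw [Rat.neg_den]; exact hAP _ X b (β r).den_pos b1 hX
        rw [Rat.neg_den, abs_neg] at this
        rw [hF, dft_ext hM]
        have c2 : (((-β r : ℚ) : ℝ) + -((r.val : ℝ) / M - β r)) = -((r.val : ℝ) / M) := by
          push_cast; ring
        rw [c2] at this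
        refine this.trans ?_
        have c3 : 1 + 2 * Real.pi * |(r.val : ℝ) / M - β r| * (7 * N : ℕ) ≤ 57 * y := by
          have := Real.pi_le_four
          have : 0 ≤ N * |(r.val : ℝ) / M - β r| := by positivity
          push_cast
          nlinarith
        calc _ ≤ y * (S * (57 * y)) := by gcongr
          _ = _ := by ring
      have c4 : ‖Γ r‖ ≤ 81 * W := by
        refine (TT_triv hD1 hDN hγ fun n => (norm_e _).le).trans (le_of_eq ?_)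
        rw [hW]; ring
      rw [norm_mul, norm_mul, hinv]
      gcongr
    · rw [nsmul_eq_mul]
      calc _ ≤ 324 * y ^ 3 * (1 / N * (57 * y ^ 2 * S) * (81 * W)) := by gcongr
        _ = _ := by ring
  have e2 : ‖∑ r ∈ R.filter (fun r => ¬ P r), ((M : ℂ)⁻¹ * dft F r) * Γ r‖ ≤
      Real.sqrt C * W * (Real.sqrt (E2 / N) *
        (y ^ (-(1 / 16) : ℝ) + (N : ℝ) ^ (-(1 / 100) : ℝ))) := by
    have hE0 : 0 ≤ E2 := le_trans (sum_nonneg fun _ _ => by positivity) hE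
    have c1 := h M N D hN hM' hD hDQ γ hγ hγ' (R.filter (fun r => ¬ P r)) β y hy fun r hr => by
      obtain ⟨a, b⟩ := mem_filter.1 hr
      refine ⟨(hR r a).1, (hR r a).2.1, (hR r a).2.2.1, (hR r a).2.2.2, ?_⟩
      by_contra hh
      push Not at hh
      exact b ⟨hh.1.le, hh.2.le⟩
    have c2 : ∑ r ∈ R.filter (fun r => ¬ P r), ‖(M : ℂ)⁻¹ * dft F r‖ ^ 2 ≤ E2 / N := by
      refine (sum_le_sum_of_subset_of_nonneg (subset_univ _) fun _ _ _ => by positivity).trans ?_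
      simp only [norm_mul, hinv, mul_pow, ← mul_sum]
      rw [parseval, hF, sq_ext hM]
      calc _ ≤ (1 / M) ^ 2 * (M * E2) := by gcongr
        _ = E2 / M := by field_simp
        _ ≤ _ := by gcongr
    refine (sq_le_sq₀ (norm_nonneg _) (by positivity)).1 ?_
    refine (cs_norm _ _ _).trans ((mul_le_mul c2 c1 (sum_nonneg fun _ _ => by positivity)
      (by positivity)).trans ?_)
    have c3 : y ^ (-(1 / 8) : ℝ) = (y ^ (-(1 / 16) : ℝ)) ^ 2 := by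
      rw [← Real.rpow_natCast, ← Real.rpow_mul (by linarith)]; norm_num
    have c4 : (N : ℝ) ^ (-(1 / 50) : ℝ) = ((N : ℝ) ^ (-(1 / 100) : ℝ)) ^ 2 := by
      rw [← Real.rpow_natCast, ← Real.rpow_mul hN0.le]; norm_num
    rw [← hW, c3, c4, mul_pow (Real.sqrt C * W), mul_pow (Real.sqrt C), mul_pow (Real.sqrt _),
      Real.sq_sqrt hC.le, Real.sq_sqrt (by positivity)]
    have p1 : 0 ≤ y ^ (-(1 / 16) : ℝ) := by positivity
    have p2 : 0 ≤ (N : ℝ) ^ (-(1 / 100) : ℝ) := by positivity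
    calc _ = C * W ^ 2 * (E2 / N * ((y ^ (-(1 / 16) : ℝ)) ^ 2 +
          ((N : ℝ) ^ (-(1 / 100) : ℝ)) ^ 2)) := by ring
      _ ≤ _ := by gcongr; nlinarith [mul_nonneg p1 p2]
  refine (norm_add_le _ _).trans ((add_le_add e1 e2).trans ?_)
  have p1 : 0 ≤ W * (y ^ 5 * S / N) := by positivity
  have p2 : 0 ≤ W * (Real.sqrt (E2 / N) *
      (y ^ (-(1 / 16) : ℝ) + (N : ℝ) ^ (-(1 / 100) : ℝ))) := by positivity
  have p3 := Real.sqrt_nonneg C
  nlinarith [mul_nonneg p3 p1]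

theorem part_minor (hU : S_U2) (c1 : ℝ) (h0 : 0 < c1) (h1 : c1 ≤ 1 / 10) :
    ∃ c2 : ℝ, 0 < c2 ∧ ∃ C : ℝ, 0 < C ∧
    ∀ (M N D : ℕ) [NeZero M] (K E2 : ℝ) (γ : ℤ → ℂ) (f : ℕ → ℂ) (R : Finset (ZMod M)),
    1 ≤ N → M.Prime → 20 * N < M → M ≤ 40 * N → 1 ≤ D → (D : ℝ) ≤ (N : ℝ) ^ c2 →
    1 ≤ K → K ≤ (N : ℝ) ^ c2 → E2 ≤ (N : ℝ) ^ (1 + c2) → (∀ n, ‖γ n‖ ≤ 1) →
    (∀ m ∈ Icc 3 (7 * N), ‖f m‖ ≤ (N : ℝ) ^ (1 / 1000 : ℝ)) →
    ∑ m ∈ Icc 3 (7 * N), ‖f m‖ ^ 2 ≤ E2 →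
    (∀ r ∉ R, ‖dft (ext M N f) r‖ ≤ (N : ℝ) ^ (1 - c1)) →
    (R.card : ℝ) ≤ 324 * ((N : ℝ) ^ (1 / 1000 : ℝ)) ^ 3 →
    ‖TT N D γ (uK N K) (fun m => proj Rᶜ (ext M N f) m)‖ ≤
      C * ((Del D).card * ((N : ℝ) ^ 2 / D)) *
        (Real.sqrt (K * E2 / (N * (Del D).card)) + (N : ℝ) ^ (-(c2 / 2))) := by
  obtain ⟨c2, hc2, C, hC, h⟩ := hU c1 h0 h1
  refine ⟨c2, hc2, 325 * Real.sqrt C, by positivity,
    fun M N D _ K E2 γ f R hN hp hM hM' hD hDc hK hKc hEc hγ hf hE hmin hR => ?_⟩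
  have hN0 : (0 : ℝ) < N := by exact_mod_cast hN
  have hN1 : (1 : ℝ) ≤ N := by exact_mod_cast hN
  have hM7 : 7 * N < M := by omega
  have hNM : 7 * (N : ℝ) ≤ M := by exact_mod_cast hM7.le
  have hM0 : (0 : ℝ) < M := by linarith
  have hE0 : 0 ≤ E2 := le_trans (sum_nonneg fun _ _ => by positivity) hE
  set Q := (N : ℝ) ^ (1 / 1000 : ℝ) with hQ
  have hQ1 : 1 ≤ Q := Real.one_le_rpow hN1 (by norm_num)
  set F := ext M N f with hF
  set G : ZMod M → ℂ := (1 / 325 : ℂ) • proj Rᶜ F with hG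
  have hGn : ∀ g, ‖G g‖ = 1 / 325 * ‖proj Rᶜ F g‖ := by
    intro g; rw [hG, Pi.smul_apply, norm_smul]; simp
  have a1 : ∀ g, ‖F g‖ ≤ Q := by
    intro g
    rw [hF]; unfold ext
    split_ifs with hg
    · exact hf _ hg
    · rw [norm_zero]; linarith
  have a2 : ∀ r, ‖dft F r‖ ≤ M * Q := by
    intro r
    rw [hF, dft_ext hM7]
    refine (norm_sum_le _ _).trans ((sum_le_card_nsmul _ _ Q fun m hm => ?_).trans ?_)
    · rw [norm_mul, norm_e, mul_one]; exact hf m hm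
    · rw [nsmul_eq_mul, Nat.card_Icc]
      gcongr
      omega
  have a3 : ∀ g, ‖proj R F g‖ ≤ 324 * Q ^ 4 := by
    intro g
    rw [proj_apply]
    refine (norm_sum_le _ _).trans ((sum_le_card_nsmul _ _ Q fun r _ => ?_).trans ?_)
    · have := char_eq (r * g) 1
      rw [Int.cast_one, mul_one] at this
      rw [norm_mul, this, norm_e, mul_one, norm_mul, norm_inv, Complex.norm_natCast,
        inv_mul_le_iff₀ hM0]
      exact a2 r
    · rw [nsmul_eq_mul]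
      calc _ ≤ 324 * Q ^ 3 * Q := by gcongr
        _ = _ := by ring
  have a4 : ∀ g, ‖G g‖ ≤ (N : ℝ) ^ (1 / 100 : ℝ) := by
    intro g
    have b1 : proj Rᶜ F g = F g - proj R F g := by rw [proj_add R F g]; ring
    have b2 := norm_sub_le (F g) (proj R F g)
    have b3 : Q ≤ Q ^ 4 := le_self_pow₀ hQ1 (by norm_num)
    have b4 : Q ^ 4 ≤ (N : ℝ) ^ (1 / 100 : ℝ) := by
      rw [hQ, ← Real.rpow_natCast, ← Real.rpow_mul hN0.le]
      exact Real.rpow_le_rpow_of_exponent_le hN1 (by norm_num)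
    rw [hGn, b1]
    linarith [a1 g, a3 g]
  have a5 : ∑ g, ‖G g‖ ^ 2 ≤ E2 := by
    refine le_trans (sum_le_sum fun g _ => ?_) ((proj_sq_le Rᶜ F).trans ?_)
    · rw [hGn]; have := norm_nonneg (proj Rᶜ F g); nlinarith
    · rw [hF, sq_ext hM7]; exact hE
  have a6 : ∀ r, ‖dft G r‖ ≤ (N : ℝ) ^ (1 - c1) := by
    intro r
    have hp : 0 ≤ (N : ℝ) ^ (1 - c1) := by positivity
    rw [hG, _root_.map_smul, Pi.smul_apply, dft_proj, norm_smul]
    split_ifs with hr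
    · have := hmin r (mem_compl.1 hr)
      have h325 : ‖(1 / 325 : ℂ)‖ = 1 / 325 := by simp
      rw [h325]; linarith
    · simpa using hp
  have a7 := h N D M K E2 γ (uK N K) G hN hp hM hM' hD hDc hK hKc hE0 hEc hγ
    (fun g => by unfold uK; split_ifs <;> simp)
    (fun g => by
      unfold uK
      split_ifs with hg
      · simpa using hg
      · rw [norm_zero, zero_mul]; linarith) a4 a5 a6
  have a8 : TT N D γ (uK N K) (fun m => proj Rᶜ F m) = 325 * TT N D γ (uK N K) (fun m => G m) := by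
    rw [← TT_mul]; congr 1; funext m; rw [hG, Pi.smul_apply, smul_eq_mul]; ring
  rw [a8, norm_mul, mul_assoc, mul_assoc]
  have h325 : ‖(325 : ℂ)‖ = 325 := by simp
  rw [h325]
  gcongr
  refine (sq_le_sq₀ (norm_nonneg _) (by positivity)).1 (a7.trans ?_)
  have c4 : (N : ℝ) ^ (-c2) = ((N : ℝ) ^ (-(c2 / 2))) ^ 2 := by
    rw [← Real.rpow_natCast, ← Real.rpow_mul hN0.le]; congr 1; push_cast; ring
  have c5 : ((Del D).card : ℝ) * K * E2 / N =
      ((Del D).card : ℝ) ^ 2 * Real.sqrt (K * E2 / (N * (Del D).card)) ^ 2 := by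
    rw [Real.sq_sqrt (by positivity)]
    rcases eq_or_ne ((Del D).card : ℝ) 0 with h | h
    · simp [h]
    · field_simp
  rw [c4, c5, mul_pow, mul_pow, mul_pow, Real.sq_sqrt hC.le]
  have p1 := Real.sqrt_nonneg (K * E2 / (N * (Del D).card))
  have p2 : 0 ≤ (N : ℝ) ^ (-(c2 / 2)) := by positivity
  calc _ = C * (((Del D).card : ℝ) ^ 2 * ((N : ℝ) ^ 2 / D) ^ 2 *
        (Real.sqrt (K * E2 / (N * (Del D).card)) ^ 2 + ((N : ℝ) ^ (-(c2 / 2))) ^ 2)) := by ring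
    _ ≤ _ := by gcongr; nlinarith [mul_nonneg p1 p2]

theorem final_alg {C1 C2 C3 a w A B B1 B2 s Y L Z : ℝ} (h1 : 0 ≤ C1) (h2 : 0 ≤ C2) (h3 : 0 ≤ C3)
    (hW : 0 ≤ a * w) (pA : 0 ≤ A) (pB : 0 ≤ B) (ps : 0 ≤ s) (pY : 0 ≤ Y) (pL : 0 ≤ L) (pZ : 0 ≤ Z)
    (d1 : B1 ≤ B) (d2 : s * B2 ≤ B) :
    C1 * (a * w) * (A + B1) + (C3 * (a * w) * (s * (Y + B2) + Z) + C2 * (a * w) * (s * L)) ≤
      (C1 + C2 + C3) * (a * w) * (A + B + s * (Y + L) + Z) := by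
  have qY := mul_nonneg ps pY
  have qL := mul_nonneg ps pL
  have f1 : C1 * (a * w) * (A + B1) ≤ C1 * (a * w) * (A + B + s * (Y + L) + Z) :=
    mul_le_mul_of_nonneg_left (by linarith) (mul_nonneg h1 hW)
  have f2 : C2 * (a * w) * (s * L) ≤ C2 * (a * w) * (A + B + s * (Y + L) + Z) :=
    mul_le_mul_of_nonneg_left (by linarith) (mul_nonneg h2 hW)
  have f3 : C3 * (a * w) * (s * (Y + B2) + Z) ≤ C3 * (a * w) * (A + B + s * (Y + L) + Z) :=
    mul_le_mul_of_nonneg_left (by linarith) (mul_nonneg h3 hW)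
  linarith

end TransP

open TransP in
theorem trans (hU : S_U2) (hB : S_UB) (hG : S_Gamma) (hK : S_Kap) (hR : S_RG) : S_Trans := by
  intro c1 h0 h1
  obtain ⟨c, hc, C1, hC1, H1⟩ := part_minor hU c1 h0 h1
  obtain ⟨C2, k, hC2, H2⟩ := part_compl hB hR
  obtain ⟨C3, hC3, H3⟩ := part_major hG hK
  refine ⟨min (c / 2) (1 / 1000), lt_min (by linarith) (by norm_num), C1 + C2 + C3, k,
    by positivity, ?_⟩
  intro N D K y E2 S γ f hN hD hDc hK1 hKc hy hE1 hEc hS hγ hγ' hf hE hmin hAP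
  set c2 := min (c / 2) (1 / 1000) with hc2
  have hca : c2 ≤ c / 2 := min_le_left _ _
  have hcb : c2 ≤ 1 / 1000 := min_le_right _ _
  have hN0 : (0 : ℝ) < N := by exact_mod_cast hN
  have hN1 : (1 : ℝ) ≤ N := by exact_mod_cast hN
  have mono : ∀ a b : ℝ, a ≤ b → (N : ℝ) ^ a ≤ (N : ℝ) ^ b := fun a b h =>
    Real.rpow_le_rpow_of_exponent_le hN1 h
  have hD1 : 1 ≤ D := Nat.pos_of_ne_zero hD.1.ne_zero
  have hQN : (N : ℝ) ^ (1 / 1000 : ℝ) ≤ N := by simpa using mono (1 / 1000) 1 (by norm_num)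
  have hQ1 : 1 ≤ (N : ℝ) ^ (1 / 1000 : ℝ) := Real.one_le_rpow hN1 (by norm_num)
  have hDQ := hDc.trans (mono _ _ hcb)
  have hDN : D ≤ N := by exact_mod_cast hDQ.trans hQN
  obtain ⟨M, hp, hM, hM'⟩ := Nat.exists_prime_lt_and_le_two_mul (20 * N) (by omega)
  have : NeZero M := ⟨hp.ne_zero⟩
  have hM7 : 7 * N < M := by omega
  have hM40 : M ≤ 40 * N := by omega
  classical
  set R : Finset (ZMod M) :=
    univ.filter (fun r => ¬ Minor N ((N : ℝ) ^ (1 / 1000 : ℝ)) ((r.val : ℝ) / M)) with hRd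
  have hex : ∀ r : ZMod M, ∃ β : ℚ, r ∈ R → -1 ≤ β ∧ β ≤ 2 ∧
      (β.den : ℝ) ≤ (N : ℝ) ^ (1 / 1000 : ℝ) ∧
      N * |(r.val : ℝ) / M - β| ≤ (N : ℝ) ^ (1 / 1000 : ℝ) := by
    intro r
    by_cases hr : r ∈ R
    · obtain ⟨β, hβ⟩ := approx hN hQN r (mem_filter.1 hr).2
      exact ⟨β, fun _ => hβ⟩
    · exact ⟨0, fun h => absurd h hr⟩
  choose β hβ using hex
  set F := ext M N f with hF
  have b1 := H1 M N D K E2 γ f R hN hp hM hM40 hD1 (hDc.trans (mono _ _ (by linarith))) hK1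
    (hKc.trans (mono _ _ (by linarith))) (hEc.trans (mono _ _ (by linarith))) hγ hf hE
    (fun r hr => by
      rw [dft_ext hM7]
      refine hmin _ fun q hq hqQ => ?_
      have : Minor N ((N : ℝ) ^ (1 / 1000 : ℝ)) ((r.val : ℝ) / M) := by
        by_contra hh
        exact hr (mem_filter.2 ⟨mem_univ _, hh⟩)
      rw [mul_neg, dn_neg]
      exact this q hq hqQ)
    (count hM40 R β hQ1 hβ)
  have b2 := H2 M N D K E2 γ (proj R F) hM7 hD1 hDN hK1 hγ hγ'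
    ((proj_sq_le R F).trans (by rw [hF, sq_ext hM7]; exact hE))
  have b3 := H3 M N D y E2 S γ f R β hN hM7 hM40 hD hDQ hDN hy hS hγ (fun n hn => (hγ' n hn).2)
    hE hAP hβ
  have e0 : TT N D γ (uK N K) (fun m => f m.toNat) =
      TT N D γ (uK N K) (fun m => proj Rᶜ F m) + (TT N D γ (fun _ => 1) (fun m => proj R F m) -
        TT N D γ (fun g => 1 - uK N K g) (fun m => proj R F m)) := by
    rw [← TT_compl, ← TT_add]
    refine TT_congr hγ' fun m m1 m2 => ?_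
    rw [add_comm, ← proj_add, hF, ext_cast hM7 f m m1 m2]
  rw [e0, mul_assoc (C1 + C2 + C3)]
  refine (norm_add_le _ _).trans ((add_le_add b1 ((norm_sub_le _ _).trans
    (add_le_add b3 b2))).trans ?_)
  have d1 : (N : ℝ) ^ (-(c / 2)) ≤ (N : ℝ) ^ (-c2) := mono _ _ (by linarith)
  have d2 : Real.sqrt (E2 / N) * (N : ℝ) ^ (-(1 / 100) : ℝ) ≤ (N : ℝ) ^ (-c2) := by
    have d3 : Real.sqrt (E2 / N) ≤ (N : ℝ) ^ c2 := by
      have d4 : E2 / N ≤ (N : ℝ) ^ c2 := by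
        rw [div_le_iff₀ hN0]
        refine hEc.trans (le_of_eq ?_)
        rw [Real.rpow_add hN0, Real.rpow_one, mul_comm]
      have d5 : 1 ≤ E2 / N := (one_le_div hN0).2 hE1
      refine le_trans ?_ d4
      rw [Real.sqrt_le_left (by linarith)]
      nlinarith
    calc _ ≤ (N : ℝ) ^ c2 * (N : ℝ) ^ (-(1 / 100) : ℝ) := by gcongr
      _ = (N : ℝ) ^ (c2 + -(1 / 100) : ℝ) := (Real.rpow_add hN0 _ _).symm
      _ ≤ _ := mono _ _ (by linarith)
  have hL := one_le_LL N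
  exact final_alg hC1.le hC2.le hC3.le (by positivity) (by positivity) (by positivity)
    (by positivity) (by positivity) (by positivity) (by positivity) d1 d2

end Pool.Agent.P.MP_0ad054_nt.Sun
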