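import Pool.Agent.P.MP_0ad054_nt.Sun.UB

/-! Fourier analysis on `ZMod M` and counting lemmas. -/

namespace Pool.Agent.P.MP_0ad054_nt.Sun.U2P

open Finset ZMod
open scoped ComplexConjugate

variable {M : ℕ} [NeZero M]

theorem norm_ch (x : ZMod M) : ‖stdAddChar x‖ = 1 := by
  rw [stdAddChar_apply]; exact Circle.norm_coe _

theorem conj_ch (x : ZMod M) : conj (stdAddChar x) = stdAddChar (-x) :=
  (AddChar.map_neg_eq_conj _ _).symm

theorem ch_int (k : ℤ) : stdAddChar (k : ZMod M) = e (k / M) := by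
  rw [stdAddChar_coe]; unfold e; congr 1; push_cast; ring

theorem orth (x : ZMod M) : ∑ r : ZMod M, stdAddChar (r * x) = if x = 0 then (M : ℂ) else 0 := by
  have := AddChar.sum_mulShift x (isPrimitive_stdAddChar M)
  rw [this, ZMod.card]; split_ifs <;> simp

theorem parseval (f g : ZMod M → ℂ) :
    ∑ r, dft f r * conj (dft g r) = M * ∑ x, f x * conj (g x) := by
  simp only [dft_apply, smul_eq_mul, map_sum, sum_mul_sum, map_mul, conj_ch]
  rw [sum_comm, mul_sum]
  refine sum_congr rfl fun x _ => ?_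
  rw [sum_comm]
  have : ∀ y : ZMod M, ∑ r : ZMod M, stdAddChar (-(x * r)) * f x *
      (stdAddChar (-(-(y * r))) * conj (g y)) = if y = x then M * (f x * conj (g y)) else 0 := by
    intro y
    have h : ∀ r : ZMod M, stdAddChar (-(x * r)) * f x * (stdAddChar (-(-(y * r))) * conj (g y)) =
        stdAddChar (r * (y - x)) * (f x * conj (g y)) := by
      intro r
      rw [show r * (y - x) = -(x * r) + -(-(y * r)) by ring, AddChar.map_add_eq_mul]; ring
    rw [sum_congr rfl fun r _ => h r, ← sum_mul, orth]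
    simp only [sub_eq_zero]
    split_ifs <;> simp
  rw [sum_congr rfl fun y _ => this y, sum_ite_eq']
  simp

theorem parseval_sq (f : ZMod M → ℂ) : ∑ r, ‖dft f r‖ ^ 2 = M * ∑ x, ‖f x‖ ^ 2 := by
  have := parseval f f
  simp only [← normSq_eq] at this
  exact_mod_cast this

theorem dft_shift (f : ZMod M → ℂ) (a r : ZMod M) :
    dft (fun x => f (x + a)) r = stdAddChar (r * a) * dft f r := by
  simp only [dft_apply, smul_eq_mul, mul_sum]
  rw [← Equiv.sum_comp (Equiv.addRight a) (fun j => stdAddChar (r * a) *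
    (stdAddChar (-(j * r)) * f j))]
  refine sum_congr rfl fun x _ => ?_
  simp only [Equiv.coe_addRight]
  rw [← mul_assoc, ← AddChar.map_add_eq_mul]; congr 2; ring

theorem corr (f g : ZMod M → ℂ) (a b : ZMod M) :
    M * ∑ x, f (x + a) * conj (g (x + b)) =
      ∑ r, dft f r * conj (dft g r) * stdAddChar (r * (a - b)) := by
  rw [← parseval (fun x => f (x + a)) (fun x => g (x + b))]
  refine sum_congr rfl fun r _ => ?_
  rw [dft_shift, dft_shift, map_mul (starRingEnd ℂ), conj_ch, show r * (a - b) = r * a + -(r * b) by ring,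
    AddChar.map_add_eq_mul]
  ring

/-- multiplicative derivative -/
noncomputable def Dk (f : ZMod M → ℂ) (k : ZMod M) : ZMod M → ℂ := fun x => f x * conj (f (x + k))

theorem sum_Dk_major (f : ZMod M → ℂ) {S E : ℝ} (hS : ∀ r, ‖dft f r‖ ≤ S)
    (hE : ∑ x, ‖f x‖ ^ 2 ≤ E) (r : ZMod M) : ∑ k, ‖dft (Dk f k) r‖ ^ 2 ≤ S ^ 2 * E := by
  have hM : (0 : ℝ) < M := by exact_mod_cast NeZero.pos M
  set h : ZMod M → ℂ := fun x => stdAddChar (-(x * r)) * f x
  set G : ZMod M → ℂ := fun t => dft h t * conj (dft f t)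
  have e1 : ∀ k, (M : ℂ) * dft (Dk f k) r = dft G k := by
    intro k
    have := corr h f 0 k
    simp only [add_zero, zero_sub] at this
    rw [dft_apply, dft_apply]
    simp only [smul_eq_mul, Dk]
    rw [sum_congr rfl (g := fun x => h x * conj (f (x + k))) fun x _ => by simp only [h]; ring,
      this]
    exact sum_congr rfl fun t _ => by simp only [G, mul_neg]; ring
  have e2 : ∑ k, ‖dft G k‖ ^ 2 = M ^ 2 * ∑ k, ‖dft (Dk f k) r‖ ^ 2 := by
    rw [mul_sum]
    exact sum_congr rfl fun k _ => by rw [← e1, norm_mul, Complex.norm_natCast, mul_pow]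
  have e3 : ∑ t, ‖G t‖ ^ 2 ≤ S ^ 2 * (M * E) := by
    calc ∑ t, ‖G t‖ ^ 2 ≤ ∑ t, S ^ 2 * ‖dft h t‖ ^ 2 := sum_le_sum fun t _ => by
          simp only [G]
          rw [norm_mul, Complex.norm_conj, mul_pow, mul_comm]
          gcongr; exact hS t
      _ = S ^ 2 * (M * ∑ x, ‖f x‖ ^ 2) := by
          rw [← mul_sum, parseval_sq]
          simp only [h, norm_mul, norm_ch, one_mul]
      _ ≤ _ := by gcongr
  rw [parseval_sq] at e2
  have : (M : ℝ) ^ 2 * ∑ k, ‖dft (Dk f k) r‖ ^ 2 ≤ M ^ 2 * (S ^ 2 * E) := by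
    rw [← e2]; nlinarith
  exact le_of_mul_le_mul_left this (by positivity)

theorem sum_Dk_all (f : ZMod M → ℂ) {E : ℝ} (hE : ∑ x, ‖f x‖ ^ 2 ≤ E) :
    ∑ r, ∑ k, ‖dft (Dk f k) r‖ ^ 2 ≤ M * E ^ 2 := by
  rw [sum_comm]
  simp only [parseval_sq, Dk, norm_mul, Complex.norm_conj, mul_pow]
  rw [← mul_sum, sum_comm]
  have : ∀ x : ZMod M, ∑ k : ZMod M, ‖f x‖ ^ 2 * ‖f (x + k)‖ ^ 2 = ‖f x‖ ^ 2 * ∑ y, ‖f y‖ ^ 2 := by
    intro x
    rw [← mul_sum, ← Equiv.sum_comp (Equiv.addLeft x) (fun y => ‖f y‖ ^ 2)]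
    rfl
  rw [sum_congr rfl fun x _ => this x, ← sum_mul, ← sq]
  gcongr

theorem sum_D0_all (f : ZMod M → ℂ) {E F : ℝ} (hE : ∑ x, ‖f x‖ ^ 2 ≤ E)
    (hF : ∀ x, ‖f x‖ ^ 2 ≤ F) : ∑ r, ‖dft (Dk f 0) r‖ ^ 2 ≤ M * (F * E) := by
  have hF0 : 0 ≤ F := le_trans (by positivity) (hF 0)
  simp only [parseval_sq, Dk, norm_mul, Complex.norm_conj, mul_pow, add_zero]
  gcongr
  calc _ ≤ ∑ x, F * ‖f x‖ ^ 2 := sum_le_sum fun x _ => by gcongr; exact hF x
    _ ≤ _ := by rw [← mul_sum]; gcongr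

theorem D0_le (f : ZMod M → ℂ) {E : ℝ} (hE : ∑ x, ‖f x‖ ^ 2 ≤ E) (r : ZMod M) :
    ‖dft (Dk f 0) r‖ ^ 2 ≤ E ^ 2 := by
  gcongr
  rw [dft_apply]
  refine (norm_sum_le _ _).trans (le_trans (le_of_eq (sum_congr rfl fun x _ => ?_)) hE)
  simp only [Dk, smul_eq_mul, norm_mul, norm_ch, Complex.norm_conj, add_zero]; ring

/-- a sum over an interval shorter than `M` -/
theorem sum_cast_le (φ : ZMod M → ℝ) (hφ : ∀ x, 0 ≤ φ x) (S : Finset ℤ)
    (hS : ∀ a ∈ S, ∀ b ∈ S, |a - b| < M) : ∑ k ∈ S, φ k ≤ ∑ x, φ x := by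
  rw [← sum_image (g := fun k : ℤ => (k : ZMod M)) (f := φ)]
  · exact sum_le_sum_of_subset_of_nonneg (subset_univ _) fun _ _ _ => hφ _
  · intro a ha b hb h
    have := (ZMod.intCast_eq_intCast_iff_dvd_sub _ _ _).1 h
    have h2 := Int.eq_zero_of_abs_lt_dvd this (hS b hb a ha)
    omega

theorem sum_cast_le' (φ : ZMod M → ℝ) (hφ : ∀ x, 0 ≤ φ x) (a : ℤ) (c : ℕ) :
    ∑ k ∈ Ico a (a + c * M), φ k ≤ c * ∑ x, φ x := by
  induction c with
  | zero => simp
  | succ c ih =>
    have hM : (0 : ℤ) < M := by exact_mod_cast NeZero.pos M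
    rw [← Ico_union_Ico_eq_Ico (b := a + c * M) (by nlinarith) (by push_cast; nlinarith),
      sum_union (Ico_disjoint_Ico_consecutive _ _ _)]
    have := sum_cast_le φ hφ (Ico (a + c * M) (a + ((c + 1 : ℕ) : ℤ) * M)) fun x hx y hy => by
      rw [mem_Ico] at hx hy; push_cast at hx hy
      rw [abs_lt]; constructor <;> nlinarith
    push_cast at this ⊢
    linarith

/-- frequencies close to an integer after multiplication by a unit -/
theorem card_close (hM : M.Prime) {c : ℤ} (hc : ¬ (M : ℤ) ∣ c) {θ : ℝ} (hθ : 0 ≤ θ) :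
    ((univ.filter (fun r : ZMod M => dn (c * (r.val / M)) ≤ θ)).card : ℝ) ≤ 2 * M * θ + 1 := by
  have : Fact M.Prime := ⟨hM⟩
  have hM0 : (0 : ℝ) < M := by exact_mod_cast hM.pos
  have hc' : (c : ZMod M) ≠ 0 := fun h => hc ((ZMod.intCast_zmod_eq_zero_iff_dvd _ _).1 h)
  set φ : ZMod M → ℤ := fun r => c * r.val - M * round ((c : ℝ) * (r.val / M))
  have h1 : (univ.filter (fun r : ZMod M => dn (c * (r.val / M)) ≤ θ)).card ≤
      (Icc (-⌊M * θ⌋) ⌊M * θ⌋).card := by
    refine card_le_card_of_injOn φ (fun r hr => ?_) fun r _ s _ h => ?_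
    · have h2 : dn (c * (r.val / M)) ≤ θ := by simpa using hr
      have h3 : |(φ r : ℝ)| ≤ M * θ := by
        have : (φ r : ℝ) = M * (c * (r.val / M) - round ((c : ℝ) * (r.val / M))) := by
          simp only [φ]; push_cast; field_simp
        rw [this, abs_mul, abs_of_pos hM0]
        gcongr; exact h2
      rw [abs_le] at h3
      simp only [coe_Icc, Set.mem_Icc]
      exact ⟨by rw [neg_le, Int.le_floor]; push_cast; linarith, Int.le_floor.2 h3.2⟩
    · have := congrArg (fun k : ℤ => (k : ZMod M)) h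
      simp only [φ] at this
      push_cast at this
      simpa [hc'] using this
  have h4 : (0 : ℤ) ≤ ⌊M * θ⌋ := Int.floor_nonneg.2 (by positivity)
  have h5 : ((Icc (-⌊M * θ⌋) ⌊M * θ⌋).card : ℤ) = 2 * ⌊M * θ⌋ + 1 := by
    rw [Int.card_Icc]; omega
  have h6 := Int.floor_le (M * θ)
  have h7 : ((Icc (-⌊M * θ⌋) ⌊M * θ⌋).card : ℝ) = 2 * ⌊M * θ⌋ + 1 := by exact_mod_cast h5
  calc _ ≤ ((Icc (-⌊M * θ⌋) ⌊M * θ⌋).card : ℝ) := by exact_mod_cast h1
    _ ≤ _ := by rw [h7]; linarith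

/-- multiplicity of the shifts `h (2 l + a h)` -/
theorem sum_shift_le (φ : ℤ → ℝ) (hφ : ∀ k, 0 ≤ φ k) (a : ℤ) (H I J : Finset ℤ) {T : ℝ}
    (hJ : ∀ h ∈ H, ∀ l ∈ I, h * (2 * l + a * h) ∈ J ∧ tau (h * (2 * l + a * h)).natAbs ≤ T)
    (hT : 0 ≤ T) :
    ∑ h ∈ H, ∑ l ∈ I, φ (h * (2 * l + a * h)) ≤
      2 * T * ∑ k ∈ J, φ k + (H.card + I.card) * φ 0 := by
  rw [← sum_product', ← sum_filter_add_sum_filter_not (H ×ˢ I)
    (fun p => p.1 * (2 * p.2 + a * p.1) ≠ 0)]
  gcongr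
  · rw [← sum_fiberwise_of_maps_to (g := fun p : ℤ × ℤ => p.1 * (2 * p.2 + a * p.1)) (t := J)
      fun p hp => (hJ _ (mem_product.1 (mem_filter.1 hp).1).1 _
        (mem_product.1 (mem_filter.1 hp).1).2).1, mul_sum]
    refine sum_le_sum fun k _ => ?_
    rw [sum_congr rfl (g := fun _ => φ k) fun p hp => by rw [(mem_filter.1 hp).2], sum_const,
      nsmul_eq_mul]
    gcongr
    · exact hφ k
    set A := ((H ×ˢ I).filter (fun p => p.1 * (2 * p.2 + a * p.1) ≠ 0)).filter
      (fun p => p.1 * (2 * p.2 + a * p.1) = k)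
    rcases A.eq_empty_or_nonempty with h0 | ⟨p0, hp0⟩
    · rw [h0]; simpa using hT
    have h1 : tau k.natAbs ≤ T := by
      simp only [A, mem_filter, mem_product] at hp0
      rw [← hp0.2]; exact (hJ _ hp0.1.1.1 _ hp0.1.1.2).2
    have h2 : A.card ≤ (k.natAbs.divisors ×ˢ ({1, -1} : Finset ℤ)).card := by
      refine card_le_card_of_injOn (fun p => (p.1.natAbs, p.1.sign)) (fun p hp => ?_) ?_
      · simp only [A, coe_filter, mem_filter, mem_product, Set.mem_ofPred_eq] at hp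
        have h3 : p.1 ≠ 0 := left_ne_zero_of_mul hp.1.2
        simp only [coe_product, Set.mem_prod, mem_coe, Nat.mem_divisors, mem_insert,
          mem_singleton]
        refine ⟨⟨Int.natAbs_dvd_natAbs.2 ⟨_, hp.2.symm⟩, ?_⟩, ?_⟩
        · rw [← hp.2]; exact Int.natAbs_ne_zero.2 hp.1.2
        · rcases lt_or_gt_of_ne h3 with h | h
          · exact Or.inr (Int.sign_eq_neg_one_of_neg h)
          · exact Or.inl (Int.sign_eq_one_of_pos h)
      · intro p hp q hq h
        simp only [A, coe_filter, mem_filter, mem_product, Set.mem_ofPred_eq] at hp hq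
        simp only [Prod.mk.injEq] at h
        have h3 : p.1 = q.1 := by
          rw [← Int.sign_mul_natAbs p.1, ← Int.sign_mul_natAbs q.1, h.1, h.2]
        have h4 : p.1 ≠ 0 := left_ne_zero_of_mul hp.1.2
        have h5 := hp.2.trans hq.2.symm
        rw [← h3] at h5
        have h6 := mul_left_cancel₀ h4 h5
        exact Prod.ext h3 (by omega)
    rw [card_product] at h2
    have h3 : (A.card : ℝ) ≤ tau k.natAbs * 2 := by
      unfold tau; exact_mod_cast h2
    linarith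
  · set A := (H ×ˢ I).filter (fun p => ¬ p.1 * (2 * p.2 + a * p.1) ≠ 0)
    rw [sum_congr rfl (g := fun _ => φ 0) fun p hp => by
      rw [not_not.1 (mem_filter.1 hp).2], sum_const, nsmul_eq_mul]
    gcongr
    · exact hφ 0
    have h1 : A ⊆ (A.filter (fun p => p.1 = 0)) ∪ (A.filter (fun p => 2 * p.2 + a * p.1 = 0)) := by
      intro p hp
      rcases mul_eq_zero.1 (not_not.1 (mem_filter.1 hp).2) with h | h
      · exact mem_union_left _ (mem_filter.2 ⟨hp, h⟩)
      · exact mem_union_right _ (mem_filter.2 ⟨hp, h⟩)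
    have h2 : (A.filter (fun p => p.1 = 0)).card ≤ I.card :=
      card_le_card_of_injOn (fun p => p.2)
        (fun p hp => (mem_product.1 (mem_filter.1 (mem_filter.1 hp).1).1).2)
        fun p hp q hq h => Prod.ext ((mem_filter.1 hp).2.trans (mem_filter.1 hq).2.symm) h
    have h3 : (A.filter (fun p => 2 * p.2 + a * p.1 = 0)).card ≤ H.card :=
      card_le_card_of_injOn (fun p => p.1)
        (fun p hp => (mem_product.1 (mem_filter.1 (mem_filter.1 hp).1).1).1)
        fun p hp q hq h => Prod.ext h (by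
          have h4 := (mem_filter.1 hp).2
          have h5 := (mem_filter.1 hq).2
          simp only at h
          rw [h] at h4
          omega)
    have := (card_le_card h1).trans (card_union_le _ _)
    exact_mod_cast (show A.card ≤ H.card + I.card by omega)

end Pool.Agent.P.MP_0ad054_nt.Sun.U2P
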