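import Pool.Agent.P.MP_0ad054_nt.Sun.TransA

/-! The counting form: linearity, support, and the major arcs. -/

namespace Pool.Agent.P.MP_0ad054_nt.Sun.TransP

open Finset ZMod

theorem TT_congr {N D : ℕ} {γ u f g : ℤ → ℂ} (hγ : ∀ n, γ n ≠ 0 → 3 ≤ n ∧ n ≤ N)
    (h : ∀ m : ℤ, 3 ≤ m → m ≤ 7 * N → f m = g m) : TT N D γ u f = TT N D γ u g := by
  unfold TT T1
  refine sum_congr rfl fun δ hδ => sum_congr rfl fun ξ _ => sum_congr rfl fun η _ => ?_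
  by_cases h0 : γ (QQ D ξ η) = 0
  · simp [h0]
  obtain ⟨h1, h2⟩ := hγ _ h0
  have hd : δ.1 ^ 2 + δ.2 ^ 2 = D := (mem_filter.1 hδ).2
  have hq : QQ D ξ η = ξ.1 ^ 2 + ξ.2 ^ 2 + (δ.1 * η.1 - δ.2 * η.2) ^ 2 +
      (δ.2 * η.1 + δ.1 * η.2) ^ 2 := by
    unfold QQ; rw [← hd]; ring
  rw [hq] at h1 h2
  have a1 := sq_nonneg ξ.1
  have a2 := sq_nonneg ξ.2
  have a3 := sq_nonneg (δ.1 * η.1 - δ.2 * η.2)
  have a4 := sq_nonneg (δ.2 * η.1 + δ.1 * η.2)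
  rw [h _ (by unfold GG AA; linarith) (by unfold GG AA; linarith)]

theorem TT_sum {ι : Type*} (N D : ℕ) (γ u : ℤ → ℂ) (R : Finset ι) (c : ι → ℂ) (φ : ι → ℤ → ℂ) :
    TT N D γ u (fun m => ∑ r ∈ R, c r * φ r m) = ∑ r ∈ R, c r * TT N D γ u (φ r) := by
  unfold TT T1
  simp only [mul_sum]
  rw [sum_comm (s := R)]
  refine sum_congr rfl fun δ _ => ?_
  rw [sum_comm (s := R)]
  refine sum_congr rfl fun ξ _ => ?_
  rw [sum_comm (s := R)]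
  refine sum_congr rfl fun η _ => sum_congr rfl fun r _ => by ring

theorem TT_add (N D : ℕ) (γ u f g : ℤ → ℂ) :
    TT N D γ u (fun m => f m + g m) = TT N D γ u f + TT N D γ u g := by
  unfold TT T1
  simp only [mul_add, sum_add_distrib]

theorem TT_mul (N D : ℕ) (γ u f : ℤ → ℂ) (c : ℂ) :
    TT N D γ u (fun m => c * f m) = c * TT N D γ u f := by
  unfold TT T1
  simp only [mul_sum]
  exact sum_congr rfl fun δ _ => sum_congr rfl fun ξ _ => sum_congr rfl fun η _ => by ring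

theorem TT_compl (N D : ℕ) (γ u f : ℤ → ℂ) :
    TT N D γ u f = TT N D γ (fun _ => 1) f - TT N D γ (fun g => 1 - u g) f := by
  unfold TT T1
  simp only [← sum_sub_distrib]
  exact sum_congr rfl fun δ _ => sum_congr rfl fun ξ _ => sum_congr rfl fun η _ => by ring

theorem card_box {n : ℕ} (hn : 1 ≤ n) : ((box (Nat.sqrt n)).card : ℝ) ≤ 9 * n := by
  have h1 : (box (Nat.sqrt n)).card = (2 * Nat.sqrt n + 1) ^ 2 := by
    unfold box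
    rw [card_product, Int.card_Icc]
    have : ((Nat.sqrt n : ℤ) + 1 - -(Nat.sqrt n : ℤ)).toNat = 2 * Nat.sqrt n + 1 := by omega
    rw [this]; ring
  have h2 := Nat.sqrt_le' n
  have h3 : 1 ≤ Nat.sqrt n := Nat.le_sqrt'.2 (by simpa using hn)
  have h4 : (2 * Nat.sqrt n + 1) ^ 2 ≤ 9 * n := by nlinarith
  rw [h1]; exact_mod_cast h4

theorem TT_triv {N D : ℕ} {γ φ : ℤ → ℂ} (hD : 1 ≤ D) (hDN : D ≤ N) (hγ : ∀ n, ‖γ n‖ ≤ 1)
    (hφ : ∀ n, ‖φ n‖ ≤ 1) :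
    ‖TT N D γ (fun _ => 1) φ‖ ≤ (Del D).card * (81 * ((N : ℝ) ^ 2 / D)) := by
  unfold TT
  refine (norm_sum_le _ _).trans ((sum_le_card_nsmul _ _ _ fun δ _ => ?_).trans
    (by rw [nsmul_eq_mul]))
  unfold T1
  have h1 := card_box (hD.trans hDN)
  have h2 := card_box ((Nat.one_le_div_iff hD).2 hDN)
  have h3 : ((N / D : ℕ) : ℝ) ≤ N / D := Nat.cast_div_le
  refine (norm_sum_le _ _).trans ((sum_le_card_nsmul _ _ (9 * ((N : ℝ) / D)) fun ξ _ => ?_).trans ?_)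
  · refine (norm_sum_le _ _).trans ((sum_le_card_nsmul _ _ 1 fun η _ => ?_).trans ?_)
    · rw [mul_one, norm_mul]
      exact mul_le_one₀ (hγ _) (norm_nonneg _) (hφ _)
    · rw [nsmul_eq_mul]; linarith
  · rw [nsmul_eq_mul]
    have : (0 : ℝ) ≤ 9 * ((N : ℝ) / D) := by positivity
    refine (mul_le_mul_of_nonneg_right h1 this).trans (le_of_eq ?_)
    ring

theorem kap_nonneg (D q : ℕ) : 0 ≤ kap D q := by
  unfold kap; have := tau_nonneg q; positivity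

theorem count {M N : ℕ} [NeZero M] (hM : M ≤ 40 * N) (R : Finset (ZMod M)) (β : ZMod M → ℚ)
    {y : ℝ} (hy : 1 ≤ y) (hR : ∀ r ∈ R, -1 ≤ β r ∧ β r ≤ 2 ∧ ((β r).den : ℝ) ≤ y ∧
      N * |(r.val : ℝ) / M - β r| ≤ y) : (R.card : ℝ) ≤ 324 * y ^ 3 := by
  rw [card_eq_sum_card_image β]
  push_cast
  refine (sum_le_card_nsmul (R.image β) (fun b => ((R.filter (fun r => β r = b)).card : ℝ))
    (81 * y) fun b _ => near_card hM _ b hy fun r hr => ?_).trans ?_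
  · obtain ⟨h1, h2⟩ := mem_filter.1 hr
    rw [← h2]; exact (hR r h1).2.2.2
  · have := frac_count (R.image β) hy fun b hb => by
      obtain ⟨r, hr, rfl⟩ := mem_image.1 hb
      exact ⟨(hR r hr).1, (hR r hr).2.1, (hR r hr).2.2.1⟩
    rw [nsmul_eq_mul]
    nlinarith

theorem kapsum (hK : S_Kap) : ∃ C : ℝ, 0 < C ∧ ∀ (M N D : ℕ) [NeZero M], 1 ≤ N → M ≤ 40 * N →
    GoodD D → ∀ (R : Finset (ZMod M)) (β : ZMod M → ℚ) (y : ℝ), 1 ≤ y →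
    (∀ r ∈ R, -1 ≤ β r ∧ β r ≤ 2 ∧ y ≤ (β r).den) →
    ∑ r ∈ R, kap D (β r).den * wt (N * |(r.val : ℝ) / M - β r|) ≤ C * y ^ (-(1 / 8) : ℝ) := by
  obtain ⟨C0, hC0, h0⟩ := spaced
  obtain ⟨C1, hC1, h1⟩ := hK
  refine ⟨C0 * 4 * C1, by positivity, fun M N D _ hN hM hD R β y hy hR => ?_⟩
  rw [← sum_fiberwise_of_maps_to (g := β) (t := R.image β) (fun r hr => mem_image_of_mem _ hr)]
  have e1 : ∀ b ∈ R.image β, ∑ r ∈ R.filter (fun r => β r = b),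
      kap D (β r).den * wt (N * |(r.val : ℝ) / M - β r|) ≤ C0 * kap D b.den := by
    intro b _
    rw [sum_congr rfl (g := fun r => kap D b.den * wt (N * |(r.val : ℝ) / M - b|))
      (fun r hr => by rw [(mem_filter.1 hr).2]), ← mul_sum, mul_comm C0]
    exact mul_le_mul_of_nonneg_left (h0 M N hN hM _ b) (kap_nonneg _ _)
  refine (sum_le_sum e1).trans ?_
  rw [← mul_sum]
  have e2 := frac_sum (R.image β) (fun b hb => by
    obtain ⟨r, hr, rfl⟩ := mem_image.1 hb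
    exact ⟨(hR r hr).1, (hR r hr).2.1⟩) (kap D) (kap_nonneg D)
  have e3 := h1 D y ((R.image β).image Rat.den) hD hy fun q hq => by
    obtain ⟨b, hb, rfl⟩ := mem_image.1 hq
    obtain ⟨r, hr, rfl⟩ := mem_image.1 hb
    exact (hR r hr).2.2
  calc C0 * ∑ b ∈ R.image β, kap D b.den ≤ C0 * (4 * (C1 * y ^ (-(1 / 8) : ℝ))) := by
        gcongr; exact e2.trans (by gcongr)
    _ = _ := by ring

theorem kapsum2 (hK : S_Kap) : ∃ C : ℝ, 0 < C ∧ ∀ (M N D : ℕ) [NeZero M], 1 ≤ N → M ≤ 40 * N →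
    GoodD D → ∀ (R : Finset (ZMod M)) (β : ZMod M → ℚ) (y : ℝ), 1 ≤ y →
    (∀ r ∈ R, -1 ≤ β r ∧ β r ≤ 2 ∧ (y ≤ (β r).den ∨ y ≤ N * |(r.val : ℝ) / M - β r|)) →
    ∑ r ∈ R, kap D (β r).den / (1 + N * |(r.val : ℝ) / M - β r|) ^ 2 ≤
      C * y ^ (-(1 / 8) : ℝ) := by
  obtain ⟨C, hC, h⟩ := kapsum hK
  refine ⟨2 * C, by positivity, fun M N D _ hN hM hD R β y hy hR => ?_⟩
  rw [← sum_filter_add_sum_filter_not R (fun r => y ≤ (β r).den)]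
  have e1 := h M N D hN hM hD (R.filter (fun r => y ≤ (β r).den)) β y hy fun r hr => by
    obtain ⟨a, b⟩ := mem_filter.1 hr
    exact ⟨(hR r a).1, (hR r a).2.1, b⟩
  have e2 := h M N D hN hM hD (R.filter (fun r => ¬ y ≤ (β r).den)) β 1 le_rfl fun r hr => by
    obtain ⟨a, _⟩ := mem_filter.1 hr
    exact ⟨(hR r a).1, (hR r a).2.1, by exact_mod_cast (β r).den_pos⟩
  rw [Real.one_rpow, mul_one] at e2
  have hy0 : 0 ≤ y ^ (-(1 / 8) : ℝ) := by positivity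
  have e3 : ∑ r ∈ R.filter (fun r => y ≤ (β r).den),
      kap D (β r).den / (1 + N * |(r.val : ℝ) / M - β r|) ^ 2 ≤ C * y ^ (-(1 / 8) : ℝ) := by
    refine le_trans (sum_le_sum fun r _ => ?_) e1
    have ht : 0 ≤ N * |(r.val : ℝ) / M - β r| := by positivity
    have := inv_sq_le_wt le_rfl ht (by linarith)
    rw [Real.one_rpow, one_mul] at this
    rw [div_eq_mul_one_div]
    exact mul_le_mul_of_nonneg_left this (kap_nonneg _ _)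
  have e4 : ∑ r ∈ R.filter (fun r => ¬ y ≤ (β r).den),
      kap D (β r).den / (1 + N * |(r.val : ℝ) / M - β r|) ^ 2 ≤ C * y ^ (-(1 / 8) : ℝ) := by
    refine le_trans ?_ (mul_le_mul_of_nonneg_right e2 hy0)
    rw [sum_mul]
    refine sum_le_sum fun r hr => ?_
    obtain ⟨a, b⟩ := mem_filter.1 hr
    have ht : 0 ≤ N * |(r.val : ℝ) / M - β r| := by positivity
    have := inv_sq_le_wt hy ht (by have := (hR r a).2.2.resolve_left b; linarith)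
    rw [div_eq_mul_one_div, mul_assoc, mul_comm (wt _)]
    exact mul_le_mul_of_nonneg_left this (kap_nonneg _ _)
  linarith

theorem major (hG : S_Gamma) (hK : S_Kap) : ∃ C : ℝ, 0 < C ∧ ∀ (M N D : ℕ) [NeZero M], 1 ≤ N →
    M ≤ 40 * N → GoodD D → (D : ℝ) ≤ (N : ℝ) ^ (1 / 1000 : ℝ) →
    ∀ (γ : ℤ → ℂ), (∀ n, ‖γ n‖ ≤ 1) → (∀ n, γ n ≠ 0 → n ≤ N) →
    ∀ (R : Finset (ZMod M)) (β : ZMod M → ℚ) (y : ℝ), 1 ≤ y →
    (∀ r ∈ R, -1 ≤ β r ∧ β r ≤ 2 ∧ ((β r).den : ℝ) ≤ (N : ℝ) ^ (1 / 1000 : ℝ) ∧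
      N * |(r.val : ℝ) / M - β r| ≤ (N : ℝ) ^ (1 / 1000 : ℝ) ∧
      (y ≤ (β r).den ∨ y ≤ N * |(r.val : ℝ) / M - β r|)) →
    ∑ r ∈ R, ‖TT N D γ (fun _ => 1) (fun m => e ((r.val : ℝ) / M * m))‖ ^ 2 ≤
      C * ((Del D).card * ((N : ℝ) ^ 2 / D)) ^ 2 *
        (y ^ (-(1 / 8) : ℝ) + (N : ℝ) ^ (-(1 / 50) : ℝ)) := by
  obtain ⟨C1, hC1, h1⟩ := kapsum2 hK
  obtain ⟨C2, hC2, h2⟩ := hG
  refine ⟨C2 * (C1 + 324), by positivity, fun M N D _ hN hM hD hDN γ hγ hγ' R β y hy hR => ?_⟩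
  have hN0 : (0 : ℝ) < N := by exact_mod_cast hN
  have hN1 : (1 : ℝ) ≤ N := by exact_mod_cast hN
  have hD0 : (0 : ℝ) < D := by exact_mod_cast Nat.pos_of_ne_zero hD.1.ne_zero
  set Q := (N : ℝ) ^ (1 / 1000 : ℝ) with hQ
  have hQ1 : 1 ≤ Q := Real.one_le_rpow hN1 (by norm_num)
  set W := (N : ℝ) ^ 2 / D with hW
  have e1 : ∀ r ∈ R, ‖TT N D γ (fun _ => 1) (fun m => e ((r.val : ℝ) / M * m))‖ ^ 2 ≤
      ((Del D).card : ℝ) ^ 2 * (C2 * (W ^ 2 * (kap D (β r).den /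
        (1 + N * |(r.val : ℝ) / M - β r|) ^ 2) + (N : ℝ) ^ (39 / 10 : ℝ))) := by
    intro r hr
    obtain ⟨_, _, a3, a4, _⟩ := hR r hr
    have hcs := cs_norm (Del D) (fun _ => (1 : ℂ))
      (fun δ => T1 N D δ γ (fun _ => 1) (fun m => e ((r.val : ℝ) / M * m)))
    simp only [one_mul, norm_one, one_pow, sum_const, nsmul_eq_mul, mul_one] at hcs
    unfold TT
    refine hcs.trans ?_
    rw [sq ((Del D).card : ℝ), mul_assoc]
    gcongr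
    refine (sum_le_card_nsmul _ _ _ fun δ hδ => ?_).trans (by rw [nsmul_eq_mul])
    have := h2 N D δ (β r) ((r.val : ℝ) / M - β r) γ hN hD hδ hDN a3
      (by rw [le_div_iff₀ hN0, mul_comm]; exact a4) hγ hγ'
    rw [add_sub_cancel, mul_div_assoc] at this
    exact this
  refine (sum_le_sum e1).trans ?_
  rw [← mul_sum, ← mul_sum, sum_add_distrib, ← mul_sum, sum_const, nsmul_eq_mul]
  have e2 := h1 M N D hN hM hD R β y hy fun r hr =>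
    ⟨(hR r hr).1, (hR r hr).2.1, (hR r hr).2.2.2.2⟩
  have e3 := count hM R β hQ1 fun r hr =>
    ⟨(hR r hr).1, (hR r hr).2.1, (hR r hr).2.2.1, (hR r hr).2.2.2.1⟩
  have e4 : Q ^ 3 * (N : ℝ) ^ (39 / 10 : ℝ) ≤ W ^ 2 * (N : ℝ) ^ (-(1 / 50) : ℝ) := by
    rw [hW, div_pow, div_mul_eq_mul_div, le_div_iff₀ (by positivity)]
    calc Q ^ 3 * (N : ℝ) ^ (39 / 10 : ℝ) * (D : ℝ) ^ 2
        ≤ Q ^ 3 * (N : ℝ) ^ (39 / 10 : ℝ) * Q ^ 2 := by gcongr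
      _ = (N : ℝ) ^ (1 / 1000 * 5 + 39 / 10 : ℝ) := by
          rw [Real.rpow_add hN0, Real.rpow_mul hN0.le, ← hQ]
          rw [show (5 : ℝ) = (5 : ℕ) by norm_num, Real.rpow_natCast]; ring
      _ ≤ (N : ℝ) ^ ((4 : ℕ) + -(1 / 50) : ℝ) :=
          Real.rpow_le_rpow_of_exponent_le hN1 (by norm_num)
      _ = _ := by rw [Real.rpow_add hN0, Real.rpow_natCast]; ring
  have p1 : 0 ≤ y ^ (-(1 / 8) : ℝ) := by positivity
  have p2 : 0 ≤ (N : ℝ) ^ (-(1 / 50) : ℝ) := by positivity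
  have p3 : 0 ≤ (N : ℝ) ^ (39 / 10 : ℝ) := by positivity
  have p4 : 0 ≤ W ^ 2 := by positivity
  have e5 : W ^ 2 * ∑ r ∈ R, kap D (β r).den / (1 + N * |(r.val : ℝ) / M - β r|) ^ 2 +
      R.card * (N : ℝ) ^ (39 / 10 : ℝ) ≤
      (C1 + 324) * W ^ 2 * (y ^ (-(1 / 8) : ℝ) + (N : ℝ) ^ (-(1 / 50) : ℝ)) := by
    have b1 := mul_le_mul_of_nonneg_left e2 p4
    have b2 := mul_le_mul_of_nonneg_right e3 p3
    have b3 := mul_nonneg p4 p1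
    have b4 := mul_nonneg (mul_nonneg hC1.le p4) p2
    nlinarith
  calc _ ≤ ((Del D).card : ℝ) ^ 2 * (C2 * ((C1 + 324) * W ^ 2 *
        (y ^ (-(1 / 8) : ℝ) + (N : ℝ) ^ (-(1 / 50) : ℝ)))) := by gcongr
    _ = _ := by ring

end Pool.Agent.P.MP_0ad054_nt.Sun.TransP
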