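import Pool.Agent.P.MP_0ad054_nt.Sun.Defs

/-! Minor arc bound for the sieved von Mangoldt function minus its model. -/

namespace Pool.Agent.P.MP_0ad054_nt.Sun

open Finset Pool.Agent.Lib.H9
open scoped ArithmeticFunction.vonMangoldt

namespace MinorP

variable {N : ℕ}

theorem disj (s : Sv N) {T0 T : Finset ℕ} (h0 : T0 ⊆ Nat.primesLE s.y) (h : T ⊆ s.Ps) :
    Disjoint T0 T := by
  rw [disjoint_left]
  intro l hl hl'
  have := (Nat.mem_primesLE.1 (h0 hl)).1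
  have := (s.hP l (h hl')).2.1
  omega

theorem prim (s : Sv N) {T0 T : Finset ℕ} (h0 : T0 ⊆ Nat.primesLE s.y) (h : T ⊆ s.Ps) :
    ∀ l ∈ T0 ∪ T, l.Prime := by
  intro l hl
  rcases mem_union.1 hl with hl | hl
  · exact (Nat.mem_primesLE.1 (h0 hl)).2
  · exact (s.hP l (h hl)).1

/-- expansion of a product of two sieve weights over pairs of sets of primes -/
theorem expand (s : Sv N) (S : Finset ℕ) (wa wb : ℕ → ℕ → ℝ) (F : ℕ → ℂ) (B : ℝ) (hB0 : 0 ≤ B)
    (hB : ∀ T0 ⊆ Nat.primesLE s.y, ∀ T ⊆ s.Ps, ∏ l ∈ T0 ∪ T, l ≤ s.DD →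
      ‖∑ m ∈ S, (((∏ l ∈ T0, wa m l) * ∏ l ∈ T, wb m l : ℝ) : ℂ) * F m‖ ≤ B) :
    ‖∑ m ∈ S, ((Yf s.y s.k (wa m) * Sf s.Ps s.lam (wb m) : ℝ) : ℂ) * F m‖ ≤ s.DD * B := by
  classical
  set A := (Nat.primesLE s.y).powerset ×ˢ s.Ps.powerset with hA
  set c : Finset ℕ × Finset ℕ → ℝ := fun p => cY (2 * s.k + 1) p.1.card * s.lam p.2 with hc
  have e1 : ∑ m ∈ S, ((Yf s.y s.k (wa m) * Sf s.Ps s.lam (wb m) : ℝ) : ℂ) * F m =
      ∑ p ∈ A, (c p : ℂ) *
        ∑ m ∈ S, (((∏ l ∈ p.1, wa m l) * ∏ l ∈ p.2, wb m l : ℝ) : ℂ) * F m := by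
    simp only [mul_sum]
    rw [sum_comm]
    refine sum_congr rfl fun m _ => ?_
    unfold Yf Sf sform
    rw [sum_mul_sum, ← sum_product', Complex.ofReal_sum, sum_mul]
    refine sum_congr rfl fun p _ => ?_
    simp only [hc]
    push_cast; ring
  have hd : ∀ p ∈ A.filter (fun p => c p ≠ 0), ∏ l ∈ p.1 ∪ p.2, l ≤ s.DD := by
    intro p hp
    rw [mem_filter, hA, mem_product, mem_powerset, mem_powerset] at hp
    obtain ⟨⟨h0, h1⟩, h2⟩ := hp
    rw [prod_union (disj s h0 h1)]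
    refine le_trans (Nat.mul_le_mul_right _ ?_) (s.lev _ h1 (right_ne_zero_of_mul h2))
    have h3 : p.1.card ≤ 2 * s.k := by
      by_contra h
      exact left_ne_zero_of_mul h2 (by unfold cY; rw [if_neg (by omega)])
    refine (prod_le_pow_card _ _ s.y fun l hl => (Nat.mem_primesLE.1 (h0 hl)).1).trans ?_
    exact Nat.pow_le_pow_right (by have := s.hy; omega) h3
  have hcard : (A.filter (fun p => c p ≠ 0)).card ≤ s.DD := by
    have : (A.filter (fun p => c p ≠ 0)).card ≤ (Icc 1 s.DD).card := by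
      refine card_le_card_of_injOn (fun p => ∏ l ∈ p.1 ∪ p.2, l) (fun p hp => ?_) ?_
      · have h1 := hd p hp
        rw [mem_coe, mem_filter, hA, mem_product, mem_powerset, mem_powerset] at hp
        rw [mem_coe, mem_Icc]
        exact ⟨prod_pos fun l hl => (prim s hp.1.1 hp.1.2 l hl).pos, h1⟩
      · intro p hp p' hp' h
        rw [mem_coe, mem_filter, hA, mem_product, mem_powerset, mem_powerset] at hp hp'
        have h1 := congrArg Nat.primeFactors h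
        rw [Nat.primeFactors_prod (prim s hp.1.1 hp.1.2),
          Nat.primeFactors_prod (prim s hp'.1.1 hp'.1.2)] at h1
        have a1 : ∀ l ∈ p.1, l ≤ s.y := fun l hl => (Nat.mem_primesLE.1 (hp.1.1 hl)).1
        have a2 : ∀ l ∈ p'.1, l ≤ s.y := fun l hl => (Nat.mem_primesLE.1 (hp'.1.1 hl)).1
        have a3 : ∀ l ∈ p.2, s.y < l := fun l hl => (s.hP l (hp.1.2 hl)).2.1
        have a4 : ∀ l ∈ p'.2, s.y < l := fun l hl => (s.hP l (hp'.1.2 hl)).2.1
        have h2 : ∀ l, l ∈ p.1 ∨ l ∈ p.2 ↔ l ∈ p'.1 ∨ l ∈ p'.2 := fun l => by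
          rw [← mem_union, ← mem_union, h1]
        refine Prod.ext (Finset.ext fun l => ?_) (Finset.ext fun l => ?_)
        · constructor
          · intro hl
            exact ((h2 l).1 (Or.inl hl)).resolve_right fun h3 => (a4 l h3).not_ge (a1 l hl)
          · intro hl
            exact ((h2 l).2 (Or.inl hl)).resolve_right fun h3 => (a3 l h3).not_ge (a2 l hl)
        · constructor
          · intro hl
            exact ((h2 l).1 (Or.inr hl)).resolve_left fun h3 => (a3 l hl).not_ge (a2 l h3)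
          · intro hl
            exact ((h2 l).2 (Or.inr hl)).resolve_left fun h3 => (a4 l hl).not_ge (a1 l h3)
    simpa using this
  rw [e1, ← sum_filter_of_ne (p := fun p => c p ≠ 0)
    (fun p _ h h0 => h (by rw [h0]; simp))]
  refine (norm_sum_le _ _).trans ?_
  refine (sum_le_card_nsmul _ _ B fun p hp => ?_).trans ?_
  · have h1 := hd p hp
    rw [mem_filter, hA, mem_product, mem_powerset, mem_powerset] at hp
    have h2 := hB _ hp.1.1 _ hp.1.2 h1
    have h3 : |c p| ≤ 1 := by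
      simp only [hc]
      rw [abs_mul]
      refine mul_le_one₀ ?_ (abs_nonneg _) (s.low.1 _)
      unfold cY; split_ifs <;> simp
    rw [norm_mul, Complex.norm_real, Real.norm_eq_abs]
    exact (mul_le_of_le_one_left (norm_nonneg _) h3).trans h2
  · rw [nsmul_eq_mul]
    have : ((A.filter (fun p => c p ≠ 0)).card : ℝ) ≤ s.DD := by exact_mod_cast hcard
    gcongr

theorem shift (h : ℕ → ℂ) (z : ℂ) (d n : ℕ) (hh : ∀ i, ‖h i‖ ≤ 1)
    (hp : ∀ i, h (d + i) = z * h i) : ‖∑ i ∈ range n, h i‖ * ‖z - 1‖ ≤ 2 * d := by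
  have e1 := sum_range_add h n d
  have e2 := sum_range_add h d n
  rw [add_comm d n, e1] at e2
  simp only [hp, ← mul_sum] at e2
  have e3 : (∑ i ∈ range n, h i) * (z - 1) = ∑ i ∈ range d, h (n + i) - ∑ i ∈ range d, h i := by
    linear_combination -e2
  rw [← norm_mul, e3]
  have b : ∀ g : ℕ → ℂ, (∀ i, ‖g i‖ ≤ 1) → ‖∑ i ∈ range d, g i‖ ≤ d := fun g hg =>
    (norm_sum_le _ _).trans ((sum_le_card_nsmul _ _ 1 fun i _ => hg i).trans (by simp))
  have := b (fun i => h (n + i)) fun i => hh _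
  have := b h hh
  refine (norm_sub_le _ _).trans ?_
  linarith

theorem per (g : ℕ → ℝ) (d X : ℕ) (β : ℝ) (hg : ∀ m, |g m| ≤ 1)
    (hp : ∀ m, 3 ≤ m → g (m + d) = g m) :
    ‖∑ m ∈ Icc 3 X, (g m : ℂ) * e (β * m)‖ * (4 * dn (d * β)) ≤ 2 * d := by
  rw [← Ico_add_one_right_eq_Icc, sum_Ico_eq_sum_range]
  refine le_trans ?_ (shift (fun i => (g (3 + i) : ℂ) * e (β * (3 + i : ℕ))) (e (d * β)) d
    (X + 1 - 3) (fun i => ?_) fun i => ?_)
  · gcongr; exact four_dn_le _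
  · rw [norm_mul, norm_e, mul_one, Complex.norm_real]; exact hg _
  · rw [show 3 + (d + i) = 3 + i + d by ring, hp _ (by omega), mul_left_comm, ← e_add]
    congr 2; push_cast; ring

theorem w_abs (m : ℕ) (T0 T : Finset ℕ) : |(∏ l ∈ T0, w0 m l) * ∏ l ∈ T, w1 m l| ≤ 1 := by
  rw [abs_mul, abs_prod, abs_prod]
  refine mul_le_one₀ (prod_le_one (fun _ _ => abs_nonneg _) fun l _ => ?_)
    (prod_nonneg fun _ _ => abs_nonneg _) (prod_le_one (fun _ _ => abs_nonneg _) fun l _ => ?_)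
  · unfold w0; split_ifs <;> simp
  · unfold w1; split_ifs <;> simp

theorem w_per {m d : ℕ} (hm : 3 ≤ m) (T0 T : Finset ℕ) (hd : ∀ l ∈ T0 ∪ T, l ∣ d) :
    (∏ l ∈ T0, w0 (m + d) l) * ∏ l ∈ T, w1 (m + d) l =
      (∏ l ∈ T0, w0 m l) * ∏ l ∈ T, w1 m l := by
  obtain ⟨a, rfl⟩ : ∃ a, m = a + 2 := ⟨m - 2, by omega⟩
  have e1 : a + 2 + d - 2 = a + d := by omega
  congr 1
  · refine prod_congr rfl fun l hl => ?_
    unfold w0
    rw [e1, Nat.add_sub_cancel, show (a + 2 + d) * (a + d) = (a + 2) * a + d * (2 * a + 2 + d) by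
      ring]
    simp only [Nat.dvd_add_left (dvd_mul_of_dvd_left (hd l (mem_union_left _ hl)) _)]
  · refine prod_congr rfl fun l hl => ?_
    unfold w1
    rw [e1, Nat.add_sub_cancel]
    simp only [Nat.dvd_add_left (hd l (mem_union_right _ hl))]

theorem model (s : Sv N) (Q β : ℝ) (hQ : (s.DD : ℝ) ≤ Q) (hM : Minor N Q β) :
    ‖∑ m ∈ Icc 3 (7 * N), ((Yf s.y s.k (w0 m) * Sf s.Ps s.lam (w1 m) : ℝ) : ℂ) * e (β * m)‖ ≤
      s.DD * (s.DD * N / Q) := by
  have hD : (2 : ℝ) ≤ s.DD := by exact_mod_cast s.hy.trans s.hyD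
  have hN : (2 : ℝ) ≤ N := by exact_mod_cast s.hy.trans (s.hyD.trans s.hDN)
  have hQ0 : 0 < Q := by linarith
  refine expand s _ w0 w1 _ _ (by positivity) fun T0 h0 T h hd => ?_
  set d := ∏ l ∈ T0 ∪ T, l
  have hd0 : 1 ≤ d := prod_pos fun l hl => (prim s h0 h l hl).pos
  have hd' : (d : ℝ) ≤ s.DD := by exact_mod_cast hd
  have h1 := per (fun m => (∏ l ∈ T0, w0 m l) * ∏ l ∈ T, w1 m l) d (7 * N) β
    (fun m => w_abs m T0 T) fun m hm => w_per hm T0 T fun l hl => dvd_prod_of_mem _ hl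
  have h2 := hM d hd0 (hd'.trans hQ)
  rw [div_lt_iff₀ (by linarith)] at h2
  rw [le_div_iff₀ hQ0]
  set S := ‖∑ m ∈ Icc 3 (7 * N),
    (((∏ l ∈ T0, w0 m l) * ∏ l ∈ T, w1 m l : ℝ) : ℂ) * e (β * m)‖
  have hS : 0 ≤ S := norm_nonneg _
  calc S * Q ≤ S * (dn (d * β) * N) := by gcongr
    _ = S * (4 * dn (d * β)) * N / 4 := by ring
    _ ≤ 2 * d * N / 4 := by gcongr
    _ ≤ _ := by nlinarith

theorem orth {d : ℕ} (hd : 1 ≤ d) (n : ℕ) :
    ∑ j ∈ range d, e ((n : ℝ) / d * j) = if d ∣ n then (d : ℂ) else 0 := by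
  have hd' : (0 : ℝ) < d := by exact_mod_cast hd
  split_ifs with h
  · obtain ⟨c, rfl⟩ := h
    have : ∀ j ∈ range d, e (((d * c : ℕ) : ℝ) / d * j) = 1 := fun j _ => by
      rw [← e_int (c * j : ℕ)]; congr 1; push_cast; field_simp
    rw [sum_congr rfl this]; simp
  · have h1 := geom_range ((n : ℝ) / d) d
    have h2 : e ((n : ℝ) / d * d) = 1 := by
      rw [← e_int n]; congr 1; push_cast; field_simp
    rw [h2, sub_self] at h1
    refine (mul_eq_zero.1 h1).resolve_right fun h3 => h ?_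
    have h4 := four_dn_le ((n : ℝ) / d)
    rw [h3, norm_zero] at h4
    have h5 : dn ((n : ℝ) / d) = 0 := le_antisymm (by linarith) (dn_nonneg _)
    unfold dn at h5
    rw [abs_eq_zero, sub_eq_zero, div_eq_iff hd'.ne'] at h5
    have h6 : (n : ℤ) = round ((n : ℝ) / d) * d := by exact_mod_cast h5
    exact Int.natCast_dvd_natCast.1 (Dvd.intro_left _ h6.symm)

theorem drop (X : ℕ) (hX : 2 ≤ X) (x : ℝ) :
    ‖∑ n ∈ Icc 3 X, (Λ n : ℂ) * e (x * n)‖ ≤ ‖∑ n ∈ Icc 1 X, (Λ n : ℂ) * e (x * n)‖ + 1 := by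
  have e1 : Icc 1 X = insert 1 (insert 2 (Icc 3 X)) := by
    ext n; simp only [mem_insert, mem_Icc]; omega
  rw [e1, sum_insert (by simp), sum_insert (by simp)]
  set S := ∑ n ∈ Icc 3 X, (Λ n : ℂ) * e (x * n)
  rw [ArithmeticFunction.vonMangoldt_apply_one, Complex.ofReal_zero, zero_mul, zero_add]
  set t := (Λ 2 : ℂ) * e (x * (2 : ℕ))
  have h1 : ‖t‖ ≤ 1 := by
    simp only [t]
    rw [norm_mul, norm_e, mul_one, Complex.norm_real, Real.norm_of_nonneg
      ArithmeticFunction.vonMangoldt_nonneg]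
    refine ArithmeticFunction.vonMangoldt_le_log.trans ?_
    have := Real.log_two_lt_d9
    push_cast; linarith
  have h2 : S = t + S - t := by ring
  calc ‖S‖ = ‖t + S - t‖ := by rw [← h2]
    _ ≤ ‖t + S‖ + ‖t‖ := norm_sub_le _ _
    _ ≤ _ := by linarith

theorem prog {d X : ℕ} (hd : 1 ≤ d) (hX : 2 ≤ X) (β B : ℝ)
    (hB : ∀ j : ℕ, ‖∑ n ∈ Icc 1 X, (Λ n : ℂ) * e ((β + j / d) * n)‖ ≤ B) :
    ‖∑ m ∈ Icc 3 X, ((if d ∣ m - 2 then 1 else 0 : ℝ) : ℂ) * ((Λ m : ℂ) * e (β * m))‖ ≤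
      B + 1 := by
  have hd' : (0 : ℝ) < d := by exact_mod_cast hd
  have e1 : (d : ℂ) * ∑ m ∈ Icc 3 X,
      ((if d ∣ m - 2 then 1 else 0 : ℝ) : ℂ) * ((Λ m : ℂ) * e (β * m)) =
      ∑ j ∈ range d, e (-2 * j / d) * ∑ n ∈ Icc 3 X, (Λ n : ℂ) * e ((β + j / d) * n) := by
    simp only [mul_sum]
    rw [sum_comm]
    refine sum_congr rfl fun m hm => ?_
    have h1 : (d : ℂ) * ((if d ∣ m - 2 then 1 else 0 : ℝ) : ℂ) =
        ∑ j ∈ range d, e (((m - 2 : ℕ) : ℝ) / d * j) := by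
      rw [orth hd]; split_ifs <;> simp
    rw [← mul_assoc, h1, sum_mul]
    refine sum_congr rfl fun j _ => ?_
    rw [mul_left_comm, ← e_add, mul_left_comm, ← e_add, Nat.cast_sub (by
      have := (mem_Icc.1 hm).1; omega)]
    congr 2; push_cast; ring
  have e2 := congrArg norm e1
  rw [norm_mul, Complex.norm_natCast] at e2
  refine le_of_mul_le_mul_left ?_ hd'
  rw [e2]
  refine (norm_sum_le _ _).trans ((sum_le_card_nsmul _ _ (B + 1) fun j _ => ?_).trans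
    (by rw [card_range, nsmul_eq_mul]))
  rw [norm_mul, norm_e, one_mul]
  linarith [drop X hX (β + j / d), hB j]

theorem dir {N d : ℕ} {R β : ℝ} (j : ℕ) (hR : 1 ≤ R) (hN : R ^ 32 ≤ N) (hd : 1 ≤ d)
    (hdR : (d : ℝ) ≤ R ^ 2) (hM : Minor N (R ^ 8) β) :
    ∃ (q : ℕ) (a : ℤ), R ^ 6 ≤ q ∧ q * R ^ 6 ≤ (7 * N : ℕ) ∧ IsCoprime a q ∧
      |β + j / d - a / q| ≤ 1 / (q : ℝ) ^ 2 := by
  have hd' : (0 : ℝ) < d := by exact_mod_cast hd
  have hP : 0 < R ^ 6 := by positivity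
  have h6 : R ^ 6 ≤ N := (pow_le_pow_right₀ hR (by norm_num)).trans hN
  have hN0 : (0 : ℝ) < N := by linarith
  set n := ⌊(7 * N : ℝ) / R ^ 6⌋₊ with hn
  have hn0 : 0 < n := Nat.floor_pos.2 (by rw [le_div_iff₀ hP]; linarith)
  have hn1 : (n : ℝ) ≤ 7 * N / R ^ 6 := Nat.floor_le (by positivity)
  have hn2 : 7 * N / R ^ 6 < n + 1 := Nat.lt_floor_add_one _
  obtain ⟨r, hr, hden⟩ := Real.exists_rat_abs_sub_le_and_den_le (β + j / d) hn0
  have hq0 : (0 : ℝ) < r.den := by exact_mod_cast r.pos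
  have hq1 : (r.den : ℝ) ≤ n := by exact_mod_cast hden
  have hr' : (r : ℝ) = r.num / r.den := by exact_mod_cast (Rat.num_div_den r).symm
  refine ⟨r.den, r.num, ?_, ?_, ?_, ?_⟩
  · by_contra hlt
    push Not at hlt
    have h1 := hM (r.den * d) (Nat.mul_pos r.pos hd) (by
      push_cast
      calc (r.den : ℝ) * d ≤ R ^ 6 * R ^ 2 := by gcongr
        _ = _ := by ring)
    have h2 := dn_le (((r.den * d : ℕ) : ℝ) * β) (d * r.num - r.den * j)
    have h3 : ((r.den * d : ℕ) : ℝ) * β - ((d * r.num - r.den * j : ℤ) : ℝ) =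
        r.den * d * (β + j / d - r) := by
      rw [hr']; push_cast; field_simp; ring
    rw [h3, abs_mul, abs_of_pos (by positivity)] at h2
    have h4 : (r.den : ℝ) * d * |β + j / d - r| ≤ d / (n + 1) := by
      calc _ ≤ (r.den : ℝ) * d * (1 / ((n + 1) * r.den)) := by gcongr
        _ = _ := by field_simp
    have h5 : (d : ℝ) / (n + 1) ≤ R ^ 8 / N := by
      rw [div_le_div_iff₀ (by positivity) hN0]
      rw [div_lt_iff₀ hP] at hn2
      calc (d : ℝ) * N ≤ R ^ 2 * (7 * N) := by gcongr; linarith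
        _ ≤ R ^ 2 * ((n + 1) * R ^ 6) := by gcongr
        _ = _ := by ring
    linarith
  · push_cast
    rw [← le_div_iff₀ hP]; linarith
  · exact Rat.isCoprime_num_den r
  · rw [← hr']
    refine hr.trans ?_
    rw [sq]
    gcongr
    linarith

end MinorP

open MinorP in
theorem minor (h : An.S_Vin) : S_Minor := by
  intro ε hε
  obtain ⟨C, hC, hV⟩ := h ε hε
  refine ⟨C * 7 ^ (1 + ε) + 2, by positivity, fun N s Q β hDQ hQN hM => ?_⟩
  have hD : (2 : ℝ) ≤ s.DD := by exact_mod_cast s.hy.trans s.hyD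
  have hN2 : 2 ≤ N := s.hy.trans (s.hyD.trans s.hDN)
  have hN : (2 : ℝ) ≤ N := by exact_mod_cast hN2
  have hQ1 : 1 ≤ Q := (one_le_pow₀ (by linarith)).trans hDQ
  set R := Q ^ (1 / 8 : ℝ) with hRdef
  have hR : 1 ≤ R := Real.one_le_rpow hQ1 (by norm_num)
  have hR8 : R ^ 8 = Q := by
    rw [hRdef, ← Real.rpow_natCast, ← Real.rpow_mul (by linarith)]; norm_num
  clear_value R
  subst hR8
  have hR0 : 0 < R := by linarith
  have hDR : (s.DD : ℝ) ≤ R ^ 2 :=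
    le_of_pow_le_pow_left₀ (n := 4) (by norm_num) (by positivity) (by rw [← pow_mul]; exact hDQ)
  have h32 : R ^ 32 ≤ N := by rw [← pow_mul] at hQN; exact hQN
  have hM1 := model s _ β (hDR.trans (pow_le_pow_right₀ hR (by norm_num))) hM
  have hs : Real.sqrt (R ^ 6) = R ^ 3 := by
    rw [show R ^ 6 = (R ^ 3) ^ 2 by ring, Real.sqrt_sq (by positivity)]
  set B := C * ((7 * N : ℕ) : ℝ) ^ (1 + ε) / R ^ 3 with hB
  have hB0 : 0 ≤ B := by positivity
  have hM2 : ‖∑ m ∈ Icc 3 (7 * N), ((Yf s.y s.k (w1 m) * Sf s.Ps s.lam (w1 m) : ℝ) : ℂ) *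
      ((Λ m : ℂ) * e (β * m))‖ ≤ s.DD * (B + 1) := by
    refine expand s _ w1 w1 _ _ (by positivity) fun T0 h0 T h hd => ?_
    set d := ∏ l ∈ T0 ∪ T, l with hddef
    have hd0 : 1 ≤ d := prod_pos fun l hl => (prim s h0 h l hl).pos
    have hd' : (d : ℝ) ≤ s.DD := by exact_mod_cast hd
    have e1 : ∀ m, (∏ l ∈ T0, w1 m l) * ∏ l ∈ T, w1 m l = if d ∣ m - 2 then 1 else 0 := by
      intro m
      rw [← prod_union (disj s h0 h)]
      unfold w1
      rw [prod_boole]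
      refine if_congr ⟨fun h1 => ?_, fun h1 l hl => (dvd_prod_of_mem _ hl).trans h1⟩ rfl rfl
      exact prod_primes_dvd _ (fun l hl => (prim s h0 h l hl).prime) h1
    simp only [e1]
    refine prog hd0 (by omega) β B fun j => ?_
    obtain ⟨q, a, a1, a2, a3, a4⟩ := dir j hR h32 hd0 (hd'.trans hDR) hM
    have := hV (7 * N) q a (β + j / d) (R ^ 6) (one_le_pow₀ hR) (by
      rw [← pow_mul]
      refine (pow_le_pow_right₀ hR (by norm_num)).trans (h32.trans ?_)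
      push_cast; linarith) a1 a2 a3 a4
    rwa [hs] at this
  have e2 : ∑ m ∈ Icc 3 (7 * N), (aa s m : ℂ) * e (β * m) =
      ∑ m ∈ Icc 3 (7 * N), ((Yf s.y s.k (w1 m) * Sf s.Ps s.lam (w1 m) : ℝ) : ℂ) *
        ((Λ m : ℂ) * e (β * m)) - (cW s.y : ℂ) * ∑ m ∈ Icc 3 (7 * N),
        ((Yf s.y s.k (w0 m) * Sf s.Ps s.lam (w1 m) : ℝ) : ℂ) * e (β * m) := by
    rw [mul_sum, ← sum_sub_distrib]
    refine sum_congr rfl fun m _ => ?_
    unfold aa sig mdl
    push_cast; ring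
  have hW0 := one_le_cW s.y
  have hW : cW s.y ≤ R ^ 2 := by
    refine (cW_le_self (by have := s.hy; omega)).trans (le_trans ?_ hDR)
    exact_mod_cast s.hyD
  rw [e2]
  refine (norm_sub_le _ _).trans ?_
  rw [norm_mul, Complex.norm_real, Real.norm_of_nonneg (by linarith)]
  set Y := (N : ℝ) ^ (1 + ε) with hY
  have hY1 : (N : ℝ) ≤ Y := by
    rw [hY]
    exact Real.self_le_rpow_of_one_le (by linarith) (by linarith)
  have hB1 : B = C * 7 ^ (1 + ε) * Y / R ^ 3 := by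
    rw [hB, hY, mul_assoc, ← Real.mul_rpow (by norm_num) (by linarith)]; push_cast; rfl
  have h3 : R ^ 3 ≤ Y := (pow_le_pow_right₀ hR (by norm_num)).trans (h32.trans hY1)
  calc _ ≤ R ^ 2 * (B + 1) + R ^ 2 * (R ^ 2 * (R ^ 2 * Y / R ^ 8)) := by
        refine add_le_add (hM2.trans (by gcongr)) ?_
        refine mul_le_mul hW (hM1.trans ?_) (norm_nonneg _) (by positivity)
        gcongr
    _ = (C * 7 ^ (1 + ε) * Y + R ^ 3 + Y / R) / R := by rw [hB1]; field_simp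
    _ ≤ (C * 7 ^ (1 + ε) * Y + Y + Y) / R := by
        gcongr
        exact div_le_self (by linarith) hR
    _ = _ := by ring

end Pool.Agent.P.MP_0ad054_nt.Sun
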