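import Pool.Agent.P.MP_0ad054_nt.An.All
import Pool.Agent.P.MP_0ad054_nt.Sun.Arith
import Pool.Agent.P.MP_0ad054_nt.Sun.Central
import Pool.Agent.P.MP_0ad054_nt.Sun.Delta
import Pool.Agent.P.MP_0ad054_nt.Sun.Gamma
import Pool.Agent.P.MP_0ad054_nt.Sun.Minor
import Pool.Agent.P.MP_0ad054_nt.Sun.Mom
import Pool.Agent.P.MP_0ad054_nt.Sun.RG
import Pool.Agent.P.MP_0ad054_nt.Sun.Rad
import Pool.Agent.P.MP_0ad054_nt.Sun.Sphere
import Pool.Agent.P.MP_0ad054_nt.Sun.Trans
import Pool.Agent.P.MP_0ad054_nt.Sun.U2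
import Pool.Agent.P.MP_0ad054_nt.Sun.Weights

/-! The interface statements without hypotheses. -/

namespace Pool.Agent.P.MP_0ad054_nt.Sun

theorem trans_all : S_Trans := trans u2 ub (gamma rad arith) kapb rg

theorem minor_all : S_Minor := minor An.vin_all

theorem central_all : S_Central := central An.bv_all

theorem primes_all : S_Primes := primes An.bv_all

end Pool.Agent.P.MP_0ad054_nt.Sun
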