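import Pool.Agent.P.MP_0ad054_nt.Sun.FinA
import Pool.Agent.P.MP_0ad054_nt.Main

/-! The final assembly. -/

namespace Pool.Agent.P.MP_0ad054_nt.Sun.FinP

open Finset
open scoped ArithmeticFunction.vonMangoldt

/-- `n` has a representation with `p` prime and `p - 2` almost prime -/
def Rep (R : ℕ) (c : ℝ) (n : ℕ) : Prop :=
  ∃ x y z w : ℤ, ∃ p : ℕ, x ^ 2 + y ^ 2 + z ^ 2 + w ^ 2 = (n : ℤ) ∧
    (p : ℤ) = x ^ 2 + 3 * y ^ 2 + 5 * z ^ 2 + 7 * w ^ 2 ∧ p.Prime ∧
    (p - 2).primeFactorsList.length ≤ R ∧ ∀ q : ℕ, q.Prime → q ∣ p - 2 → (n : ℝ) ^ c ≤ q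

theorem rep_of {N D n : ℕ} {c : ℝ} (hc : 0 < c) (hN : 7 ≤ N) (hn : 3 ≤ n) (hnN : n ≤ N)
    {δ : ℤ × ℤ} (hδ : δ ∈ Del D) {ξ η : ℤ × ℤ} (h : QQ D ξ η = n)
    (hp : (GG ξ + AA δ η).toNat.Prime)
    (hq : ∀ q : ℕ, q.Prime → q ∣ (GG ξ + AA δ η).toNat - 2 → (N : ℝ) ^ c ≤ q) :
    Rep ⌈2 / c⌉₊ c n := by
  have h1 := QQ_le hδ ξ η
  rw [h] at h1
  have hN1 : (1 : ℝ) < N := by exact_mod_cast (by omega : 1 < N)
  refine ⟨ξ.1, δ.1 * η.1 - δ.2 * η.2, δ.2 * η.1 + δ.1 * η.2, ξ.2, (GG ξ + AA δ η).toNat, ?_, ?_,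
    hp, ?_, fun q h1 h2 => le_trans ?_ (hq q h1 h2)⟩
  · rw [← h, QQ, ← mem_Del.1 hδ]; ring
  · rw [Int.toNat_of_nonneg (by omega), GG, AA]; ring
  · have h2 := cardFactors_le (m := (GG ξ + AA δ η).toNat - 2) (by omega) (by positivity) hq
    rw [ArithmeticFunction.cardFactors_apply] at h2
    have h3 : (((GG ξ + AA δ η).toNat - 2 : ℕ) : ℝ) ≤ (N : ℝ) ^ (2 : ℝ) := by
      rw [Real.rpow_two]
      exact_mod_cast (show (GG ξ + AA δ η).toNat - 2 ≤ N ^ 2 by
        have : 7 * N ≤ N ^ 2 := by nlinarith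
        omega)
    have h4 := h2.trans h3
    rw [← Real.rpow_natCast, ← Real.rpow_mul (by linarith),
      Real.rpow_le_rpow_left_iff hN1] at h4
    have h5 := Nat.le_ceil (2 / c)
    have h6 : ((((GG ξ + AA δ η).toNat - 2).primeFactorsList.length : ℕ) : ℝ) ≤ 2 / c := by
      rw [le_div_iff₀ hc]; linarith
    exact_mod_cast h6.trans h5
  · gcongr

theorem tau_bd {N d L X lam CC n2 p : ℝ} {kM kT kC j j' J : ℕ} (hN : 0 < N) (hL : 1 ≤ L)
    (hX : X = L ^ J) (hl : X ^ 2 ≤ lam) (hd : lam ^ 2 ≤ d) (hC : 0 ≤ CC) (hn : n2 ≤ 1 / lam)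
    (hp : p ≤ 1 / lam) (hj : j' = j + kM + 1) (hJ : kM + kT + kC + 1 + 80 * j' + j ≤ J) :
    Real.sqrt (lam * (N * L ^ (kM + 1)) / (N * d)) + n2 + Real.sqrt (N * L ^ (kM + 1) / N) *
      ((L ^ (16 * j')) ^ (-(1 / 16) : ℝ) + L ^ kT / Real.sqrt lam) + (L ^ (16 * j')) ^ 5 *
      (CC * N * (1 / L ^ (80 * j' + j) + L ^ kC * (1 / lam + p))) / N ≤ (4 + 3 * CC) / L ^ j := by
  have hX1 : 1 ≤ X := hX ▸ one_le_pow₀ hL
  have hXl : X ≤ lam := (le_self_pow₀ hX1 two_ne_zero).trans hl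
  have key : ∀ a, a + j ≤ J → L ^ a / X ≤ 1 / L ^ j := by
    intro a ha
    rw [div_le_div_iff₀ (by positivity) (by positivity), one_mul, ← pow_add, hX]
    exact pow_le_pow_right₀ hL ha
  have hl0 : 0 < lam := by linarith
  have t1 : Real.sqrt (lam * (N * L ^ (kM + 1)) / (N * d)) ≤ 1 / L ^ j := by
    refine le_trans (Real.sqrt_le_iff.2 ⟨by positivity, ?_⟩) (key (kM + 1) (by omega))
    calc _ ≤ lam * (N * L ^ (kM + 1)) / (N * lam ^ 2) := by gcongr
      _ = L ^ (kM + 1) / lam := by field_simp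
      _ ≤ (L ^ (kM + 1)) ^ 2 / X ^ 2 := by
          gcongr; exact le_self_pow₀ (one_le_pow₀ hL) two_ne_zero
      _ = _ := by rw [div_pow]
  have t2 : n2 ≤ 1 / L ^ j := by
    refine hn.trans (le_trans ?_ (key 0 (by omega)))
    rw [pow_zero]; gcongr
  have t3 : Real.sqrt (N * L ^ (kM + 1) / N) *
      ((L ^ (16 * j')) ^ (-(1 / 16) : ℝ) + L ^ kT / Real.sqrt lam) ≤ 2 / L ^ j := by
    have e1 : (L ^ (16 * j')) ^ (-(1 / 16) : ℝ) = 1 / L ^ j' := by
      rw [← Real.rpow_natCast, ← Real.rpow_mul (by linarith), one_div (L ^ j'),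
        ← Real.rpow_natCast, ← Real.rpow_neg (by linarith)]
      congr 1; push_cast; ring
    rw [e1, mul_div_cancel_left₀ _ hN.ne']
    calc _ ≤ L ^ (kM + 1) * (1 / L ^ j' + L ^ kT / X) := by
          gcongr
          · exact Real.sqrt_le_iff.2 ⟨by positivity, le_self_pow₀ (one_le_pow₀ hL) two_ne_zero⟩
          · exact Real.le_sqrt_of_sq_le hl
      _ = 1 / L ^ j + L ^ (kM + 1 + kT) / X := by rw [hj]; field_simp; ring
      _ ≤ 1 / L ^ j + 1 / L ^ j := by linarith [key (kM + 1 + kT) (by omega)]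
      _ = _ := by ring
  have t4 : (L ^ (16 * j')) ^ 5 * (CC * N * (1 / L ^ (80 * j' + j) + L ^ kC * (1 / lam + p))) / N ≤
      3 * CC / L ^ j := by
    calc _ ≤ (L ^ (16 * j')) ^ 5 * (CC * N * (1 / L ^ (80 * j' + j) + L ^ kC * (1 / X + 1 / X))) /
          N := by gcongr; refine hp.trans ?_; gcongr
      _ = CC * (1 / L ^ j + 2 * (L ^ (80 * j' + kC) / X)) := by field_simp; ring
      _ ≤ CC * (1 / L ^ j + 2 * (1 / L ^ j)) := by gcongr CC * (_ + 2 * ?_); exact key _ (by omega)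
      _ = _ := by ring
  calc _ ≤ 1 / L ^ j + 1 / L ^ j + 2 / L ^ j + 3 * CC / L ^ j := by linarith
    _ = _ := by ring

theorem large (hT : S_Trans) (hM : S_Mom) (hR : S_RG) (hMi : S_Minor) (hC : S_Central)
    (hS : S_Sphere) (hW : S_Weights) (hΔ : S_Delta) (hP : S_Primes) :
    ∃ (R : ℕ) (c : ℝ), 0 < c ∧ ∀ A : ℕ, ∃ (C : ℝ) (N0 : ℕ), 0 < C ∧ ∀ N : ℕ, N0 ≤ N →
      ∀ E : Finset ℕ, (∀ n ∈ E, n ≤ N ∧ Odd n ∧ ¬ Rep R c n) → (E.card : ℝ) ≤ C * N / LL N ^ A := by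
  classical
  obtain ⟨sW, hW⟩ := hW
  obtain ⟨cS, CS, kS, hcS, hCS, hS⟩ := hS
  obtain ⟨⟨CM, kM, hCM, hM1⟩, hM2, hM3⟩ := hM
  obtain ⟨CM', hCM', hM2⟩ := hM2 (1 / 2000) (by norm_num)
  obtain ⟨CR, kR, hCR, hR⟩ := hR
  obtain ⟨CI, hCI, hMi⟩ := hMi (1 / 40000) (by norm_num)
  obtain ⟨c2, hc2, CT, kT, hCT, hT⟩ := hT (1 / 20000) (by norm_num) (by norm_num)
  obtain ⟨lD, hD⟩ := exists_D hP hΔ
  set c : ℝ := 1 / (8000 * (sW + 1)) with hcd
  have hc : 0 < c := by positivity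
  refine ⟨⌈2 / c⌉₊, c, hc, fun A => ?_⟩
  obtain ⟨j, hj⟩ : ∃ j, j = kS + 2 * A := ⟨_, rfl⟩
  obtain ⟨j', hj'⟩ : ∃ j', j' = j + kM + 1 := ⟨_, rfl⟩
  obtain ⟨CC, kC, hCC, hC⟩ := hC (80 * j' + j) (16 * j')
  obtain ⟨J, hJ⟩ : ∃ J, J = kR + kM + kT + kC + 2 + 80 * j' + j := ⟨_, rfl⟩
  obtain ⟨N0, hN0⟩ := params (ε := min (min c2 c) (1 / 40000)) (by positivity) (2 * J)
    (lD + 51 + ⌈3 * CM + CR + CM' + CI + 2 * CS / cS⌉₊)
  refine ⟨2 / cS * (27 + CT * (4 + 3 * CC)) + 3, N0 + 7, by positivity, fun N hN E hE => ?_⟩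
  obtain ⟨l, hl0, hlL, hLl, hG⟩ := hN0 N (by omega)
  obtain ⟨D, hGD, hD1, hD2, hD3, hD4⟩ := hD l (by omega)
  have hN1 : (1 : ℝ) ≤ N := by exact_mod_cast (by omega : 1 ≤ N)
  have hN' : (0 : ℝ) < N := by linarith
  have hL := one_le_LL N
  have hcst : 3 * CM + CR + CM' + CI + 2 * CS / cS ≤ l :=
    (Nat.le_ceil _).trans (by exact_mod_cast (by omega))
  have hq0 : 0 < 2 * CS / cS := by positivity
  set L := LL N with hLd
  set lam : ℝ := 2 ^ l with hlam
  set G : ℝ := 2 ^ (2 * l ^ 4) with hGd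
  have hl4 : l ≤ l ^ 4 := Nat.le_self_pow (by norm_num) _
  have hlG : lam ≤ G := pow_le_pow_right₀ one_le_two (by omega)
  have hGa : ∀ a : ℝ, min (min c2 c) (1 / 40000) ≤ a → G ≤ (N : ℝ) ^ a := fun a ha =>
    hG.trans (Real.rpow_le_rpow_of_exponent_le hN1 ha)
  have hG1 := hGa c2 ((min_le_left _ _).trans (min_le_left _ _))
  have hG2 := hGa c ((min_le_left _ _).trans (min_le_right _ _))
  have hG3 := hGa _ (min_le_right _ _)
  have hGN : G ≤ N := (hGa 1 ((min_le_right _ _).trans (by norm_num))).trans_eq (Real.rpow_one _)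
  have hX : (L ^ J) ^ 2 ≤ lam := by rwa [← pow_mul, mul_comm]
  have hLa : ∀ a ≤ 2 * J, L ^ a ≤ lam := fun a ha => (pow_le_pow_right₀ hL ha).trans hLl
  have hll : (l : ℝ) ≤ G := hlL.trans (((pow_one L).symm.trans_le (hLa 1 (by omega))).trans hlG)
  have hDG : (D : ℝ) ≤ G := by rw [hGd]; exact_mod_cast hD1
  have hD0 : 1 ≤ D := Nat.pos_of_ne_zero hGD.1.ne_zero
  have hD0' : (0 : ℝ) < D := by exact_mod_cast hD0
  have hDN : D ≤ N := by exact_mod_cast hDG.trans hGN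
  have hlam1 : (2 : ℝ) ≤ lam := le_self_pow₀ one_le_two (by omega)
  have hk : 1 / (2 : ℝ) ^ l ^ 2 ≤ 1 / lam := by
    gcongr; exact pow_le_pow_right₀ one_le_two (Nat.le_self_pow (by norm_num) _)
  have hneg : ∀ a : ℝ, G ≤ (N : ℝ) ^ a → (N : ℝ) ^ (-a) ≤ 1 / lam := fun a ha => by
    rw [Real.rpow_neg hN'.le, ← one_div]; gcongr; exact hlG.trans ha
  -- the sieve data
  set z := ⌊(N : ℝ) ^ c⌋₊
  have hz2 : 2 ≤ z := Nat.le_floor (by push_cast; linarith)
  have hzc : (z : ℝ) ≤ (N : ℝ) ^ c := Nat.floor_le (by positivity)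
  have hc1 : c ≤ 1 := by
    rw [hcd, div_le_one (by positivity)]; linarith [(Nat.cast_nonneg sW : (0 : ℝ) ≤ sW)]
  have hzN : z ≤ N := by
    exact_mod_cast hzc.trans ((Real.rpow_le_rpow_of_exponent_le hN1 hc1).trans_eq
      (Real.rpow_one _))
  set Ps := (Ioc (2 ^ l) z).filter (fun p => p.Prime ∧ p ∉ D.primeFactors) with hPs
  obtain ⟨lm, hlm1, hlm2⟩ := hW z Ps hz2 fun p hp => by
    rw [hPs, mem_filter, mem_Ioc] at hp; exact ⟨hp.2.1, hp.1.2⟩
  have hDD : (((2 ^ l) ^ (2 * l ^ 2) * z ^ sW : ℕ) : ℝ) ≤ (N : ℝ) ^ (1 / 4000 : ℝ) := by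
    push_cast
    calc _ ≤ G * ((N : ℝ) ^ c) ^ sW := by
          gcongr
          rw [← pow_mul]
          exact pow_le_pow_right₀ one_le_two (by nlinarith [Nat.one_le_pow 3 l (by omega)])
      _ ≤ (N : ℝ) ^ (1 / 40000 : ℝ) * (N : ℝ) ^ (1 / 8000 : ℝ) := by
          gcongr
          rw [← Real.rpow_natCast, ← Real.rpow_mul hN'.le]
          refine Real.rpow_le_rpow_of_exponent_le hN1 ?_
          rw [hcd, div_mul_eq_mul_div, div_le_div_iff₀ (by positivity) (by positivity)]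
          linarith
      _ ≤ _ := by
          rw [← Real.rpow_add hN']
          exact Real.rpow_le_rpow_of_exponent_le hN1 (by norm_num)
  have hDDk : ∀ (k : ℕ) (a : ℝ), k / 4000 ≤ a →
      (((2 ^ l) ^ (2 * l ^ 2) * z ^ sW : ℕ) : ℝ) ^ k ≤ (N : ℝ) ^ a := fun k a ha => by
    refine (pow_le_pow_left₀ (by positivity) hDD k).trans ?_
    rw [← Real.rpow_natCast, ← Real.rpow_mul hN'.le]
    exact Real.rpow_le_rpow_of_exponent_le hN1 (by linarith)
  set s : Sv N :=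
    { y := 2 ^ l, k := l ^ 2, DD := (2 ^ l) ^ (2 * l ^ 2) * z ^ sW, Ps := Ps, lam := lm
      hy := Nat.le_self_pow (by omega) 2
      hyD := le_trans (Nat.le_self_pow (Nat.mul_ne_zero two_ne_zero (pow_ne_zero 2 (by omega))) _)
        (Nat.le_mul_of_pos_right _ (by positivity))
      hDN := by
        have := hDDk 1 1 (by norm_num)
        rw [pow_one, Real.rpow_one] at this
        exact_mod_cast this
      hP := fun p hp => by
        rw [hPs, mem_filter, mem_Ioc] at hp; exact ⟨hp.2.1, hp.1.1, hp.1.2.trans hzN⟩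
      low := hlm1
      lev := fun T h1 h2 => Nat.mul_le_mul_left _ (hlm2 T h1 h2) } with hs
  have sy : (s.y : ℝ) = lam := by simp [hs, hlam]
  obtain ⟨m1, m2, m3, m4⟩ := hM1 N D s
  have hCML : 3 * CM ≤ L := by linarith
  have hE2 : CM * N * L ^ kM ≤ N * L ^ (kM + 1) := by
    rw [pow_succ, mul_comm CM, mul_assoc, mul_comm CM]; gcongr; linarith
  -- the reduced exceptional set
  set E' := E.filter (fun n : ℕ => N / L ^ A < n ∧ ¬ ∃ p ∈ Ioc (2 ^ l) N, p ^ 2 ∣ n) with hE'd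
  have hLA : 2 ≤ N / L ^ A := by
    rw [le_div_iff₀ (by positivity)]
    calc 2 * L ^ A ≤ L * L ^ A := by
          gcongr; exact le_trans (by exact_mod_cast (by omega : 2 ≤ l)) hlL
      _ = L ^ (A + 1) := by ring
      _ ≤ _ := (hLa _ (by omega)).trans (hlG.trans hGN)
  have hE' : ∀ n ∈ E', 3 ≤ n ∧ n ≤ N := fun n hn => by
    rw [hE'd, mem_filter] at hn
    have : (2 : ℝ) < n := hLA.trans_lt hn.2.1
    exact ⟨by exact_mod_cast this, (hE n hn.1).1⟩
  have hTT := hT N D lam (L ^ (16 * j')) (N * L ^ (kM + 1))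
    (CC * N * (1 / L ^ (80 * j' + j) + L ^ kC * (1 / lam + 1 / 2 ^ l ^ 2)))
    (fun n => gam E' n) (fun m => aa s m) (by omega) hGD (hDG.trans hG1) (by linarith)
    (hlG.trans hG1) (one_le_pow₀ hL) (le_mul_of_one_le_right hN'.le (one_le_pow₀ hL))
    (by
      rw [Real.rpow_add hN', Real.rpow_one]; gcongr
      exact (hLa _ (by omega)).trans (hlG.trans hG1))
    (by positivity) (norm_gam E') (gam_supp hE')
    (fun m hm => by
      rw [Complex.norm_real, Real.norm_eq_abs]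
      refine (hM2 N s m hm).trans ?_
      rw [show (1 / 1000 : ℝ) = 1 / 2000 + 1 / 2000 by norm_num, Real.rpow_add hN']
      gcongr
      exact le_trans (by linarith) (hll.trans (hGa _ ((min_le_right _ _).trans (by norm_num)))))
    (by simp only [Complex.norm_real, Real.norm_eq_abs, sq_abs]; exact m1.trans hE2)
    (fun β hβ => by
      refine (hMi N s _ β (hDDk 4 _ (by norm_num)) ?_ hβ).trans ?_
      · rw [← Real.rpow_natCast, ← Real.rpow_mul hN'.le]
        exact (Real.rpow_le_rpow_of_exponent_le hN1 (by norm_num)).trans_eq (Real.rpow_one _)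
      · rw [← Real.rpow_mul hN'.le, div_le_iff₀ (by positivity), ← Real.rpow_add hN']
        calc _ ≤ (N : ℝ) ^ (1 / 40000 : ℝ) * (N : ℝ) ^ (1 + 1 / 40000 : ℝ) := by
              gcongr; linarith
          _ ≤ _ := by
              rw [← Real.rpow_add hN']
              exact Real.rpow_le_rpow_of_exponent_le hN1 (by norm_num))
    (fun q X b h1 h2 h3 => by
      rw [← Complex.ofReal_sum, Complex.norm_real, Real.norm_eq_abs, ← sy]
      refine hC N s q X b ?_ ?_ h1 ?_ h2 h3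
      · have := hDDk 40 1 (by norm_num)
        rw [Real.rpow_one] at this
        exact_mod_cast this
      · rw [sy, hlam, Real.log_pow]
        have h4 : Real.log 2 ≤ 1 := by linarith [Real.log_two_lt_d9]
        have h5 : (51 : ℝ) ≤ l := by exact_mod_cast (by omega : 51 ≤ l)
        have h6 : l * Real.log 2 ≤ l := mul_le_of_le_one_right (by linarith) h4
        simp only [hs]; push_cast
        nlinarith
      · have := h2.trans (hLa _ (by omega))
        rw [← sy] at this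
        exact_mod_cast this)
  have hd : lam ^ 2 ≤ (Del D).card := by rw [hlam]; exact_mod_cast hD4
  have hd0 : (0 : ℝ) < (Del D).card := lt_of_lt_of_le (by positivity) hd
  have hτ := tau_bd (kM := kM) (kT := kT) (kC := kC) hN' hL rfl hX hd hCC.le (hneg c2 hG1) hk hj'
    (by omega)
  have key := core hD0 hDN s hE' (K := lam) (m0 := cS * N / (2 * D * L ^ (kS + A)))
    (ρ := N * L ^ (kR + 1)) (e := N * L ^ (kM + 1) / lam) (by linarith) (fun n hn δ hδ => ?_)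
    (fun n hn δ hδ ξ η h hb => ?_) ?_ ?_ ?_ ?_
    (hTT.trans (mul_le_mul_of_nonneg_left hτ (by positivity)))
  rotate_left
  · have h1 := hE' n hn
    rw [hE'd, mem_filter] at hn
    refine le_trans ?_ (hS N D n s δ hGD hδ (fun p hp => ⟨hD2 p hp, fun h => ?_⟩) (hE n hn.1).2.1
      h1.1 h1.2 fun p hp hp' hd => hn.2.2 ⟨p, mem_Ioc.2 ⟨hp', ?_⟩, hd⟩)
    · have h2 : 2 * (cS * N / (2 * D * L ^ (kS + A))) ≤ cS * n / (D * L ^ kS) := by
        calc _ = cS * (N / L ^ A) / (D * L ^ kS) := by field_simp; ring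
          _ ≤ _ := by gcongr; exact hn.2.1.le
      have h3 : CS * ((D * s.DD : ℕ) : ℝ) ^ 11 * (n : ℝ) ^ (39 / 40 : ℝ) ≤
          cS * N / (2 * D * L ^ (kS + A)) := by
        rw [le_div_iff₀ (by positivity), Nat.cast_mul, mul_pow]
        calc _ = cS * ((2 * CS / cS * L ^ (kS + A)) * D ^ 12 * (s.DD : ℝ) ^ 11 *
              (n : ℝ) ^ (39 / 40 : ℝ)) := by field_simp
          _ ≤ cS * ((N : ℝ) ^ (1 / 40000 : ℝ) * ((N : ℝ) ^ (1 / 40000 : ℝ)) ^ 12 *
              (N : ℝ) ^ (11 / 4000 : ℝ) * (N : ℝ) ^ (39 / 40 : ℝ)) := by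
              gcongr
              · calc _ ≤ L * L ^ (kS + A) := by gcongr; linarith
                  _ = L ^ (kS + A + 1) := by ring
                  _ ≤ _ := (hLa _ (by omega)).trans (hlG.trans hG3)
              · exact hDG.trans hG3
              · exact hDDk 11 _ (by norm_num)
              · exact h1.2
          _ ≤ _ := by
              gcongr
              rw [← Real.rpow_natCast, ← Real.rpow_mul hN'.le, ← Real.rpow_add hN',
                ← Real.rpow_add hN', ← Real.rpow_add hN']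
              exact (Real.rpow_le_rpow_of_exponent_le hN1 (by norm_num)).trans_eq
                (Real.rpow_one _)
      linarith
    · exact (mem_filter.1 h).2.2 hp
    · exact (Nat.le_self_pow two_ne_zero p).trans ((Nat.le_of_dvd (by omega) hd).trans h1.2)
  · by_contra hpos
    have h1 := hE' n hn
    have h2 := hM3 N D _ s hb (not_le.1 hpos)
    simp only [B1, not_or, not_not, not_exists, not_and] at hb
    refine (hE n (mem_filter.1 hn).1).2.2 (rep_of hc (by omega) h1.1 h1.2 hδ h hb.1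
      fun q hq hqd => ?_)
    have h3 : z < q := by
      by_contra h4
      rcases le_or_gt q (2 ^ l) with h5 | h5
      · exact h2 q (Or.inl (Nat.mem_primesLE.2 ⟨h5, hq⟩)) hqd
      · exact h2 q (Or.inr (mem_filter.2 ⟨mem_Ioc.2 ⟨h5, not_lt.1 h4⟩, hq,
          fun h6 => hb.2.1 q h6 hqd⟩)) hqd
    exact (Nat.lt_floor_add_one _).le.trans (by exact_mod_cast h3)
  · refine (hR N (by omega)).trans ?_
    rw [pow_succ, mul_comm CR, mul_assoc, mul_comm CR]; gcongr; linarith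
  · refine m3.trans ?_
    rw [div_eq_mul_one_div, div_eq_mul_one_div _ lam]
    gcongr ?_ * ?_
  · rw [div_mul_cancel₀ _ (by linarith)]; exact m2.trans hE2
  · refine m4.trans ?_
    calc _ ≤ CM * N * L ^ kM * (1 / lam + 1 / lam + 1 / lam) := by
          gcongr
          exact hneg _ (hGa _ ((min_le_right _ _).trans (by norm_num)))
      _ = N * (L ^ kM * (3 * CM)) / lam := by ring
      _ ≤ _ := by rw [pow_succ]; gcongr
  have h1 : Real.sqrt (N * L ^ (kR + 1) * (N * L ^ (kM + 1) / lam)) ≤ N / L ^ j := by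
    refine Real.sqrt_le_iff.2 ⟨by positivity, ?_⟩
    calc _ ≤ N * L ^ (kR + 1) * (N * L ^ (kM + 1) / L ^ (kR + kM + 2 + 2 * j)) := by
          gcongr; exact hLa _ (by omega)
      _ = _ := by field_simp; ring
  have h2 : (E'.card : ℝ) ≤ 2 / cS * (27 + CT * (4 + 3 * CC)) * N / L ^ A := by
    have h3 : (Del D).card * (E'.card * (cS * N / (2 * D * L ^ (kS + A)))) ≤
        (Del D).card * ((2 / cS * (27 + CT * (4 + 3 * CC)) * N / L ^ A) *
          (cS * N / (2 * D * L ^ (kS + A)))) := by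
      refine key.trans ?_
      calc _ ≤ 3 * ((Del D).card * (9 * N / D) * (N / L ^ j)) + CT * (Del D).card * (N ^ 2 / D) *
            ((4 + 3 * CC) / L ^ j) := by gcongr
        _ = _ := by rw [hj]; generalize ((Del D).card : ℝ) = d; field_simp; ring
    exact le_of_mul_le_mul_right (le_of_mul_le_mul_left h3 hd0) (by positivity)
  set S := E \ (E' ∪ range (⌊N / L ^ A⌋₊ + 1))
  have h4 : (E.card : ℝ) ≤ S.card + (E'.card + (⌊N / L ^ A⌋₊ + 1)) := by
    have : _ ≤ S.card := le_card_sdiff (E' ∪ range (⌊N / L ^ A⌋₊ + 1)) E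
    have h3 := card_union_le E' (range (⌊N / L ^ A⌋₊ + 1))
    rw [card_range] at h3
    exact_mod_cast (show E.card ≤ S.card + (E'.card + (⌊N / L ^ A⌋₊ + 1)) by omega)
  have h5 := card_sq_dvd N (2 ^ l) Nat.one_le_two_pow S fun n hn => by
    rw [mem_sdiff, mem_union, not_or, hE'd, mem_filter, mem_range] at hn
    refine ⟨(hE n hn.1).2.1.pos, (hE n hn.1).1, by_contra fun h => hn.2.1 ⟨hn.1, ?_, h⟩⟩
    exact (Nat.lt_floor_add_one _).trans_le (by exact_mod_cast not_lt.1 hn.2.2)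
  have h6 : (N : ℝ) / (2 ^ l : ℕ) ≤ N / L ^ A := by
    gcongr; push_cast; exact hLa _ (by omega)
  have h7 : (⌊N / L ^ A⌋₊ : ℝ) ≤ N / L ^ A := Nat.floor_le (by positivity)
  rw [add_mul, add_div, mul_div_assoc 3]
  linarith

theorem all_of {R : ℕ} {c : ℝ} (h : ∀ A : ℕ, ∃ (C : ℝ) (N0 : ℕ), 0 < C ∧ ∀ N : ℕ, N0 ≤ N →
      ∀ E : Finset ℕ, (∀ n ∈ E, n ≤ N ∧ Odd n ∧ ¬ Rep R c n) → (E.card : ℝ) ≤ C * N / LL N ^ A)
    (A : ℕ) : ∃ C : ℝ, ∀ N : ℕ, 2 ≤ N →
      (({n : ℕ | n ≤ N ∧ Odd n ∧ ¬ Rep R c n}.ncard : ℕ) : ℝ) ≤ C * N / Real.log N ^ A := by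
  obtain ⟨C, N0, hC, h⟩ := h A
  have := Real.log_natCast_nonneg N0
  refine ⟨C + 2 * Real.log N0 ^ A, fun N hN => ?_⟩
  have hN' : (2 : ℝ) ≤ N := by exact_mod_cast hN
  have hl : 0 < Real.log N := Real.log_pos (by linarith)
  have hf : {n : ℕ | n ≤ N ∧ Odd n ∧ ¬ Rep R c n}.Finite :=
    (Set.finite_le_nat N).subset fun n hn => hn.1
  rw [Set.ncard_eq_toFinset_card _ hf]
  rcases le_total N0 N with h1 | h1
  · refine (h N h1 _ fun n hn => hf.mem_toFinset.1 hn).trans ?_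
    gcongr
    · linarith [pow_nonneg this A]
    · unfold LL; linarith
  · have h2 : hf.toFinset.card ≤ (range (N + 1)).card :=
      card_le_card fun n hn => mem_range.2 (Nat.lt_succ_of_le (hf.mem_toFinset.1 hn).1)
    rw [card_range] at h2
    have h3 : (hf.toFinset.card : ℝ) ≤ N + 1 := by exact_mod_cast h2
    rw [le_div_iff₀ (by positivity)]
    calc _ ≤ 2 * N * Real.log N0 ^ A := by gcongr; linarith
      _ ≤ _ := by nlinarith [mul_pos hC (show (0 : ℝ) < N by linarith)]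

end Pool.Agent.P.MP_0ad054_nt.Sun.FinP
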