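import Pool.Agent.P.MP_0ad054_nt.Sun.Defs

/-! Counting lemmas for the central arcs. -/

namespace Pool.Agent.P.MP_0ad054_nt.Sun

open Finset Pool.Agent.Lib.H9
open scoped ArithmeticFunction.vonMangoldt

namespace CentralP

theorem card_crt {a b : ℕ} (h : a.Coprime b) (ha : 0 < a) (hb : 0 < b) (p q : ℕ → Prop)
    [DecidablePred p] [DecidablePred q] (hp : ∀ n, p (n % a) ↔ p n) (hq : ∀ n, q (n % b) ↔ q n) :
    ((range (a * b)).filter (fun n => p n ∧ q n)).card =
      ((range a).filter p).card * ((range b).filter q).card := by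
  rw [← card_product]
  apply card_nbij (fun n => (n % a, n % b))
  · intro n hn
    simp only [coe_filter, mem_range, Set.mem_ofPred_eq] at hn
    simp only [coe_product, coe_filter, mem_range, Set.mem_prod, Set.mem_ofPred_eq]
    exact ⟨⟨Nat.mod_lt _ ha, (hp n).2 hn.2.1⟩, Nat.mod_lt _ hb, (hq n).2 hn.2.2⟩
  · intro n hn m hm e
    simp only [coe_filter, mem_range, Set.mem_ofPred_eq] at hn hm
    have e' : n ≡ m [MOD a * b] := (Nat.modEq_and_modEq_iff_modEq_mul h).1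
      ⟨congrArg Prod.fst e, congrArg Prod.snd e⟩
    exact Nat.ModEq.eq_of_lt_of_lt e' hn.1 hm.1
  · rintro ⟨u, v⟩ huv
    simp only [coe_product, coe_filter, mem_range, Set.mem_prod, Set.mem_ofPred_eq] at huv
    obtain ⟨n, h1, h2⟩ := Nat.chineseRemainder h u v
    have e1 : n % (a * b) % a = u := by
      rw [Nat.mod_mul_right_mod, h1, Nat.mod_eq_of_lt huv.1.1]
    have e2 : n % (a * b) % b = v := by
      rw [Nat.mod_mul_left_mod, h2, Nat.mod_eq_of_lt huv.2.1]
    refine ⟨n % (a * b), ?_, by simp only [e1, e2]⟩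
    simp only [coe_filter, mem_range, Set.mem_ofPred_eq]
    refine ⟨Nat.mod_lt _ (Nat.mul_pos ha hb), (hp _).1 ?_, (hq _).1 ?_⟩
    · rw [e1]; exact huv.1.2
    · rw [e2]; exact huv.2.2

theorem card_split (p : ℕ → Prop) [DecidablePred p] (a u v : ℕ) :
    ((Ico a (a + (u + v))).filter p).card =
      ((Ico a (a + u)).filter p).card + ((Ico (a + u) (a + u + v)).filter p).card := by
  rw [← add_assoc, ← Ico_union_Ico_eq_Ico (Nat.le_add_right a u) (Nat.le_add_right (a + u) v),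
    filter_union, card_union_of_disjoint
      (disjoint_filter_filter (Ico_disjoint_Ico_consecutive _ _ _))]

theorem card_periodic (p : ℕ → Prop) [DecidablePred p] {d : ℕ} (hd : 0 < d)
    (hp : Function.Periodic p d) (a L : ℕ) :
    |(((Ico a (a + L)).filter p).card : ℝ) - L * (((range d).filter p).card / d)| ≤ d := by
  set N := ((range d).filter p).card with hN
  have hNd : N ≤ d := (card_filter_le _ _).trans (card_range d).le
  have h1 : ∀ m, ((Ico a (a + d * m)).filter p).card = m * N := by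
    intro m
    induction m with
    | zero => simp
    | succ m ih =>
      rw [mul_add_one, card_split, ih, Nat.filter_Ico_card_eq_of_periodic _ _ _ hp,
        Nat.count_eq_card_filter_range, add_one_mul]
  have h2 : ((Ico (a + d * (L / d)) (a + d * (L / d) + L % d)).filter p).card ≤ L % d :=
    (card_filter_le _ _).trans (by simp)
  have h3 : L % d < d := Nat.mod_lt _ hd
  have h4 : (L : ℝ) = d * (L / d : ℕ) + (L % d : ℕ) := by exact_mod_cast (Nat.div_add_mod L d).symm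
  have h5 := card_split p a (d * (L / d)) (L % d)
  rw [Nat.div_add_mod, h1] at h5
  rw [h5, h4]
  have hd' : (0 : ℝ) < d := by exact_mod_cast hd
  have h6 : (0 : ℝ) ≤ (N : ℝ) / d := by positivity
  have h7 : (N : ℝ) / d ≤ 1 := (div_le_one hd').2 (by exact_mod_cast hNd)
  have h8 : (d : ℝ) * (L / d : ℕ) * (N / d) = (L / d : ℕ) * N := by field_simp
  have h9 : ((L % d : ℕ) : ℝ) ≤ d := by exact_mod_cast h3.le
  have h10 : (((Ico (a + d * (L / d)) (a + d * (L / d) + L % d)).filter p).card : ℝ) ≤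
    (L % d : ℕ) := by exact_mod_cast h2
  have h11 : (0 : ℝ) ≤ ((Ico (a + d * (L / d)) (a + d * (L / d) + L % d)).filter p).card :=
    Nat.cast_nonneg _
  have h12 : (0 : ℝ) ≤ (L % d : ℕ) := Nat.cast_nonneg _
  push_cast
  rw [add_mul, h8, abs_le]
  constructor <;> nlinarith

lemma prod_pos' {U : Finset ℕ} (hU : ∀ l ∈ U, l.Prime) : 0 < ∏ l ∈ U, l :=
  prod_pos fun l hl => (hU l hl).pos

lemma cop_prod {q : ℕ} {U : Finset ℕ} (hU : ∀ l ∈ U, l.Prime ∧ ¬ l ∣ q) :
    q.Coprime (∏ l ∈ U, l) :=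
  Nat.Coprime.prod_right fun l hl => ((Nat.Prime.coprime_iff_not_dvd (hU l hl).1).2 (hU l hl).2).symm

lemma dvd_mod_sub {l d : ℕ} (h : l ∣ d) (n : ℕ) : (l : ℤ) ∣ ((n % d : ℕ) : ℤ) - n := by
  refine (Int.natCast_dvd_natCast.2 h).trans ?_
  push_cast
  exact (Int.mod_modEq (n : ℤ) d).symm.dvd

section count

variable {p : ℕ → ℤ → Prop} [DecidableRel p]
  (hp : ∀ (l : ℕ) (a a' : ℤ), (l : ℤ) ∣ a - a' → p l a → p l a')

include hp

omit [DecidableRel p] in
lemma p_iff {l : ℕ} {a a' : ℤ} (h : (l : ℤ) ∣ a - a') : p l a ↔ p l a' :=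
  ⟨hp l a a' h, hp l a' a (dvd_sub_comm.1 h)⟩

lemma card_mod {q : ℕ} (hq : 0 < q) (b : ℤ) (U : Finset ℕ) (hU : ∀ l ∈ U, l.Prime ∧ ¬ l ∣ q) :
    ((range (q * ∏ l ∈ U, l)).filter
      (fun n : ℕ => (q : ℤ) ∣ n - b ∧ ∀ l ∈ U, p l n)).card
      = ∏ l ∈ U, ((range l).filter fun n : ℕ => p l n).card := by
  induction U using Finset.induction_on with
  | empty =>
    simp only [prod_empty, mul_one, notMem_empty, false_imp_iff, implies_true, and_true]
    rw [card_eq_one]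
    have h0 : (0 : ℤ) < q := by exact_mod_cast hq
    have h1 := Int.emod_nonneg b h0.ne'
    have h2 := Int.emod_lt_of_pos b h0
    refine ⟨(b % q).toNat, ?_⟩
    ext n
    simp only [mem_filter, mem_range, mem_singleton]
    constructor
    · rintro ⟨h3, h4⟩
      have h5 : (n : ℤ) % q = b % q := (Int.modEq_iff_dvd.2 h4).symm
      rw [Int.emod_eq_of_lt (by omega) (by omega)] at h5
      omega
    · rintro rfl
      refine ⟨by omega, ?_⟩
      rw [Int.toNat_of_nonneg h1]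
      exact (Int.mod_modEq b q).symm.dvd
  | insert r U hr ih =>
    have h1 := hU r (mem_insert_self _ _)
    have hU' : ∀ l ∈ U, l.Prime ∧ ¬ l ∣ q := fun l hl => hU l (mem_insert_of_mem hl)
    have hc : r.Coprime (q * ∏ l ∈ U, l) :=
      Nat.Coprime.mul_right ((Nat.Prime.coprime_iff_not_dvd h1.1).2 h1.2)
        (Nat.Coprime.prod_right fun l hl =>
          (Nat.coprime_primes h1.1 (hU' l hl).1).2 fun e => hr (e ▸ hl))
    rw [prod_insert hr, prod_insert hr, mul_left_comm, ← ih hU',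
      ← card_crt hc h1.1.pos (Nat.mul_pos hq (prod_pos' fun l hl => (hU' l hl).1))
        (fun n : ℕ => p r n) _ (fun n => p_iff hp (dvd_mod_sub dvd_rfl n)) fun n =>
        and_congr (dvd_iff_dvd_of_dvd_sub (by
          simpa using dvd_mod_sub (dvd_mul_right q (∏ l ∈ U, l)) n)) (forall₂_congr fun l hl =>
          p_iff hp (dvd_mod_sub ((dvd_prod_of_mem (fun i : ℕ => i) hl).mul_left q) n))]
    congr 1
    ext n
    simp only [mem_filter, forall_mem_insert]
    tauto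

lemma prod_ind {q : ℕ} {b : ℤ} {U : Finset ℕ} (h : ∀ l ∈ U, l ∣ q → p l b) {n : ℤ}
    (hn : (q : ℤ) ∣ n - b) : ∏ l ∈ U, (if p l n then (1 : ℝ) else 0)
      = if ∀ l ∈ U.filter (fun l => ¬ l ∣ q), p l n then 1 else 0 := by
  rw [prod_boole]
  refine if_congr ⟨fun h1 l hl => h1 l (mem_filter.1 hl).1, fun h1 l hl => ?_⟩ rfl rfl
  by_cases h2 : l ∣ q
  · exact (p_iff hp ((Int.natCast_dvd_natCast.2 h2).trans hn)).2 (h l hl h2)
  · exact h1 l (mem_filter.2 ⟨hl, h2⟩)

lemma prod_ind_zero {q : ℕ} {b : ℤ} {U : Finset ℕ} {l : ℕ} (hl : l ∈ U) (h1 : l ∣ q)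
    (h2 : ¬ p l b) {n : ℤ} (hn : (q : ℤ) ∣ n - b) :
    ∏ l ∈ U, (if p l n then (1 : ℝ) else 0) = 0 :=
  prod_eq_zero hl (if_neg fun h => h2 (hp l n b ((Int.natCast_dvd_natCast.2 h1).trans hn) h))

lemma count {q : ℕ} (hq : 0 < q) (b : ℤ) (U : Finset ℕ) (hU : ∀ l ∈ U, l.Prime) (a L : ℕ) :
    |∑ n ∈ (Ico a (a + L)).filter (fun n : ℕ => (q : ℤ) ∣ n - b),
        ∏ l ∈ U, (if p l n then (1 : ℝ) else 0)
      - L / q * ∏ l ∈ U, (if l ∣ q then (if p l b then (1 : ℝ) else 0)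
        else ((range l).filter fun n : ℕ => p l n).card / l)| ≤ q * ((∏ l ∈ U, l : ℕ) : ℝ) := by
  by_cases h : ∀ l ∈ U, l ∣ q → p l b
  · set V := U.filter fun l => ¬ l ∣ q with hV
    have hV' : ∀ l ∈ V, l.Prime ∧ ¬ l ∣ q := fun l hl =>
      ⟨hU l (mem_filter.1 hl).1, (mem_filter.1 hl).2⟩
    have h0 := Nat.mul_pos hq (prod_pos' fun l hl => (hV' l hl).1)
    have h1 := card_periodic (fun n : ℕ => (q : ℤ) ∣ n - b ∧ ∀ l ∈ V, p l n) h0 (fun n => by
      apply propext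
      refine and_congr (dvd_iff_dvd_of_dvd_sub (by simp)) (forall₂_congr fun l hl => p_iff hp ?_)
      push_cast
      rw [add_sub_cancel_left]
      exact (dvd_prod_of_mem (fun i : ℕ => (i : ℤ)) hl).mul_left _) a L
    rw [card_mod hp hq b V hV'] at h1
    rw [sum_congr rfl fun n hn => prod_ind hp h (mem_filter.1 hn).2, sum_boole, filter_filter]
    have h2 : ∏ l ∈ U, (if l ∣ q then (if p l b then (1 : ℝ) else 0)
        else ((range l).filter fun n : ℕ => p l n).card / l)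
        = ∏ l ∈ V, (((range l).filter fun n : ℕ => p l n).card / l : ℝ) := by
      rw [hV, prod_filter]
      refine prod_congr rfl fun l hl => ?_
      by_cases h3 : l ∣ q
      · simp [h3, h l hl h3]
      · simp [h3]
    rw [h2, prod_div_distrib]
    refine le_trans (le_of_eq ?_) (h1.trans ?_)
    · congr 2
      push_cast
      ring
    · exact_mod_cast Nat.mul_le_mul_left q
        (prod_le_prod_of_subset_of_one_le' (filter_subset _ _) fun l hl _ => (hU l hl).pos)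
  · push Not at h
    obtain ⟨l, h1, h2, h3⟩ := h
    rw [sum_eq_zero fun n hn => prod_ind_zero hp h1 h2 h3 (mem_filter.1 hn).2,
      prod_eq_zero h1 (by rw [if_pos h2, if_neg h3])]
    simp only [mul_zero, sub_zero, abs_zero]
    positivity

end count

lemma card_two {l : ℕ} (hl : l.Prime) (h2 : l ≠ 2) :
    ((range l).filter fun n : ℕ => (l : ℤ) ∣ n * (n - 2)).card = 2 := by
  have h3 : 2 < l := lt_of_le_of_ne hl.two_le (Ne.symm h2)
  have e : ((range l).filter fun n : ℕ => (l : ℤ) ∣ n * (n - 2)) = {0, 2} := by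
    ext n
    simp only [mem_filter, mem_range, mem_insert, mem_singleton,
      (Nat.prime_iff_prime_int.1 hl).dvd_mul]
    constructor
    · rintro ⟨hn, h | h⟩
      · exact Or.inl (Nat.eq_zero_of_dvd_of_lt (Int.natCast_dvd_natCast.1 h) hn)
      · have := Int.eq_zero_of_abs_lt_dvd h (abs_lt.2 ⟨by omega, by omega⟩)
        omega
    · rintro (rfl | rfl)
      · exact ⟨hl.pos, by simp⟩
      · exact ⟨h3, by simp⟩
  rw [e]
  rfl

lemma card_one {l : ℕ} (h3 : 2 < l) :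
    ((range l).filter fun n : ℕ => (l : ℤ) ∣ n - 2).card = 1 := by
  rw [card_eq_one]
  refine ⟨2, ?_⟩
  ext n
  simp only [mem_filter, mem_range, mem_singleton]
  constructor
  · rintro ⟨hn, h⟩
    have := Int.eq_zero_of_abs_lt_dvd h (abs_lt.2 ⟨by omega, by omega⟩)
    omega
  · rintro rfl
    exact ⟨h3, by simp⟩

lemma lam_prime {r : ℕ} (hr : r.Prime) {X : ℕ} (hX : 1 ≤ X) {A : Finset ℕ}
    (hA : ∀ n ∈ A, n ≤ X ∧ r ∣ n) : ∑ n ∈ A, Λ n ≤ Real.log X := by
  rw [← sum_filter_ne_zero]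
  calc _ ≤ ∑ n ∈ (r ^ Nat.log r X).divisors, Λ n := by
        refine sum_le_sum_of_subset_of_nonneg (fun n hn => ?_)
          fun _ _ _ => ArithmeticFunction.vonMangoldt_nonneg
        rw [mem_filter, ArithmeticFunction.vonMangoldt_ne_zero_iff, isPrimePow_nat_iff] at hn
        obtain ⟨h1, p, k, hp, -, rfl⟩ := hn
        obtain rfl := (Nat.prime_dvd_prime_iff_eq hr hp).1 (hr.dvd_of_dvd_pow (hA _ h1).2)
        exact Nat.mem_divisors.2 ⟨pow_dvd_pow _ (Nat.le_log_of_pow_le hr.one_lt (hA _ h1).1),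
          pow_ne_zero _ hr.ne_zero⟩
    _ ≤ _ := by
        rw [ArithmeticFunction.vonMangoldt_sum]
        refine Real.log_le_log (by exact_mod_cast pow_pos hr.pos _) ?_
        exact_mod_cast Nat.pow_log_le_self r (by omega)

lemma totient_prod (U : Finset ℕ) (hU : ∀ l ∈ U, l.Prime) :
    ((∏ l ∈ U, l).totient : ℝ) = ∏ l ∈ U, ((l : ℝ) - 1) := by
  induction U using Finset.induction_on with
  | empty => simp
  | insert r U hr ih =>
    have h1 := hU r (mem_insert_self _ _)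
    have hU' : ∀ l ∈ U, l.Prime := fun l hl => hU l (mem_insert_of_mem hl)
    rw [prod_insert hr, prod_insert hr, Nat.totient_mul (Nat.Coprime.prod_right fun l hl =>
      (Nat.coprime_primes h1 (hU' l hl)).2 fun e => hr (e ▸ hl)), Nat.cast_mul, ih hU',
      Nat.totient_prime h1, Nat.cast_pred h1.pos]

open Classical in
/-- the residue class attached to a modulus -/
noncomputable def cK (q : ℕ) (b : ℤ) (k : ℕ) : ℤ :=
  if h : ∃ c : ℤ, IsCoprime c k ∧ (q : ℤ) ∣ c - b ∧ ((k / q : ℕ) : ℤ) ∣ c - 2 then h.choose else 1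

lemma cK_cop (q : ℕ) (b : ℤ) (k : ℕ) : IsCoprime (cK q b k) k := by
  unfold cK
  split_ifs with h
  · exact h.choose_spec.1
  · exact isCoprime_one_left

/-- error term in a progression -/
noncomputable def EK (q : ℕ) (b : ℤ) (X k : ℕ) : ℝ :=
  |∑ n ∈ (Icc 1 X).filter (fun n : ℕ => (k : ℤ) ∣ n - cK q b k), Λ n - (X : ℝ) / k.totient|

/-- local densities for the primes -/
noncomputable def g1 (q : ℕ) (b : ℤ) (l : ℕ) : ℝ :=
  if l ∣ q then (if (l : ℤ) ∣ b - 2 then 1 else 0) else if l = 2 then 0 else 1 / ((l : ℝ) - 1)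

open Classical in
noncomputable def II (q : ℕ) (b : ℤ) : ℝ := (if IsCoprime b q then 1 else 0) / q.totient

lemma lam_pair {q : ℕ} (hq : 0 < q) (b : ℤ) (U : Finset ℕ) (hU : ∀ l ∈ U, l.Prime) {X : ℕ}
    (hX : 1 ≤ X) :
    |∑ n ∈ (Icc 1 X).filter (fun n : ℕ => (q : ℤ) ∣ n - b),
        Λ n * ∏ l ∈ U, (if (l : ℤ) ∣ n - 2 then (1 : ℝ) else 0)
      - X * II q b * ∏ l ∈ U, g1 q b l|
      ≤ EK q b X (q * ∏ l ∈ U.filter (fun l => ¬ l ∣ q), l) + Real.log X := by
  have hp : ∀ (l : ℕ) (a a' : ℤ), (l : ℤ) ∣ a - a' → (l : ℤ) ∣ a - 2 → (l : ℤ) ∣ a' - 2 :=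
    fun l a a' h1 h2 => by simpa using dvd_sub h2 h1
  have E0 : 0 ≤ EK q b X (q * ∏ l ∈ U.filter (fun l => ¬ l ∣ q), l) := abs_nonneg _
  have l0 := Real.log_natCast_nonneg X
  by_cases h : ∀ l ∈ U, l ∣ q → (l : ℤ) ∣ b - 2
  swap
  · push Not at h
    obtain ⟨l, h1, h2, h3⟩ := h
    rw [sum_eq_zero fun n hn => by
      rw [prod_ind_zero (p := fun l a => (l : ℤ) ∣ a - 2) hp h1 h2 h3 (mem_filter.1 hn).2,
        mul_zero], prod_eq_zero h1 (by rw [g1, if_pos h2, if_neg h3])]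
    simp only [mul_zero, sub_zero, abs_zero]
    positivity
  set V := U.filter fun l => ¬ l ∣ q with hV
  have hV' : ∀ l ∈ V, l.Prime ∧ ¬ l ∣ q := fun l hl =>
    ⟨hU l (mem_filter.1 hl).1, (mem_filter.1 hl).2⟩
  rw [sum_congr rfl fun n hn => by
    rw [prod_ind (p := fun l a => (l : ℤ) ∣ a - 2) hp h (mem_filter.1 hn).2, mul_boole],
    ← sum_filter, filter_filter]
  have bad : ∀ r : ℕ, r.Prime → (∀ n : ℕ, (q : ℤ) ∣ n - b → (∀ l ∈ V, (l : ℤ) ∣ n - 2) → r ∣ n) →
      |∑ n ∈ (Icc 1 X).filter (fun n : ℕ => (q : ℤ) ∣ n - b ∧ ∀ l ∈ V, (l : ℤ) ∣ n - 2), Λ n - 0|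
        ≤ EK q b X (q * ∏ l ∈ V, l) + Real.log X := fun r hr h1 => by
    rw [sub_zero, abs_of_nonneg (sum_nonneg fun _ _ => ArithmeticFunction.vonMangoldt_nonneg)]
    refine le_add_of_nonneg_of_le E0 (lam_prime hr hX fun n hn => ?_)
    rw [mem_filter, mem_Icc] at hn
    exact ⟨hn.1.2, h1 n hn.2.1 hn.2.2⟩
  by_cases hb : IsCoprime b q
  swap
  · rw [II, if_neg hb, zero_div, mul_zero, zero_mul]
    obtain ⟨r, hr, h1, h2⟩ :=
      Nat.Prime.not_coprime_iff_dvd.1 (mt Int.isCoprime_iff_nat_coprime.2 hb)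
    refine bad r hr fun n h3 _ => Int.natCast_dvd_natCast.1 ?_
    simpa using dvd_add ((Int.natCast_dvd.2 h2).trans h3) (Int.natCast_dvd.2 h1)
  by_cases h2 : 2 ∈ V
  · rw [prod_eq_zero (mem_filter.1 h2).1 (by rw [g1, if_neg (hV' 2 h2).2, if_pos rfl]), mul_zero]
    refine bad 2 Nat.prime_two fun n _ h3 => ?_
    have := h3 2 h2
    omega
  set d := ∏ l ∈ V, l with hd
  have hc := cop_prod hV'
  have hc' : IsCoprime (q : ℤ) (d : ℤ) := Nat.isCoprime_iff_coprime.2 hc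
  have hex : ∃ c : ℤ, IsCoprime c (q * d : ℕ) ∧ (q : ℤ) ∣ c - b ∧
      ((q * d / q : ℕ) : ℤ) ∣ c - 2 := by
    obtain ⟨u, v, huv⟩ := hc'
    have h2d : IsCoprime (2 : ℤ) (d : ℤ) := Nat.isCoprime_iff_coprime.2
      (Nat.Coprime.prod_right fun l hl =>
        (Nat.coprime_primes Nat.prime_two (hV' l hl).1).2 fun e => h2 (e ▸ hl))
    have e1 : b + q * (u * (2 - b)) = 2 + d * (v * (b - 2)) := by
      linear_combination (2 - b) * huv
    refine ⟨b + q * (u * (2 - b)), ?_, by simp, ?_⟩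
    · push_cast
      refine IsCoprime.mul_right (hb.add_mul_left_left _) ?_
      rw [e1]
      exact h2d.add_mul_left_left _
    · rw [Nat.mul_div_cancel_left _ hq, e1]
      simp
  have hs := hex.choose_spec
  have ec : cK q b (q * d) = hex.choose := dif_pos hex
  rw [← ec, Nat.mul_div_cancel_left _ hq] at hs
  refine le_add_of_le_of_nonneg (le_of_eq ?_) l0
  rw [EK]
  congr 2
  · refine sum_congr (filter_congr fun n _ => ?_) fun _ _ => rfl
    have k1 : (q : ℤ) ∣ n - b ↔ (q : ℤ) ∣ n - cK q b (q * d) :=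
      dvd_iff_dvd_of_dvd_sub (by simpa using hs.2.1)
    have k2 : (d : ℤ) ∣ n - 2 ↔ (d : ℤ) ∣ n - cK q b (q * d) :=
      dvd_iff_dvd_of_dvd_sub (by simpa using hs.2.2)
    have k3 : (∀ l ∈ V, (l : ℤ) ∣ n - 2) ↔ (d : ℤ) ∣ n - 2 := by
      rw [hd]
      push_cast
      refine ⟨fun h3 => prod_dvd_of_coprime (fun l hl l' hl' hne => ?_) h3,
        fun h3 l hl => (dvd_prod_of_mem (fun i : ℕ => (i : ℤ)) hl).trans h3⟩
      exact Nat.isCoprime_iff_coprime.2 ((Nat.coprime_primes (hV' l hl).1 (hV' l' hl').1).2 hne)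
    rw [k1, k3, k2]
    push_cast
    exact ⟨fun h3 => hc'.mul_dvd h3.1 h3.2,
      fun h3 => ⟨(dvd_mul_right _ _).trans h3, (dvd_mul_left _ _).trans h3⟩⟩
  · have k : ∏ l ∈ U, g1 q b l = ∏ l ∈ V, 1 / ((l : ℝ) - 1) := by
      rw [hV, prod_filter]
      refine prod_congr rfl fun l hl => ?_
      by_cases h3 : l ∣ q
      · simp [g1, h3, h l hl h3]
      · have : l ≠ 2 := fun e => h2 (e ▸ mem_filter.2 ⟨hl, h3⟩)
        simp [g1, h3, this]
    rw [k, II, if_pos hb, Nat.totient_mul hc, Nat.cast_mul,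
      totient_prod V fun l hl => (hV' l hl).1, prod_div_distrib, prod_const_one]
    ring

end CentralP

end Pool.Agent.P.MP_0ad054_nt.Sun
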