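import Pool.Agent.P.MP_0ad054_nt.Sun.CentralA

/-! Expansion of the sieve weights and comparison of the main terms on the central arcs. -/

namespace Pool.Agent.P.MP_0ad054_nt.Sun

open Finset Pool.Agent.Lib.H9
open scoped ArithmeticFunction.vonMangoldt

namespace CentralP

variable {N : ℕ} (s : Sv N)

noncomputable def co (e : Finset ℕ × Finset ℕ) : ℝ := cY (2 * s.k + 1) e.1.card * s.lam e.2

open Classical in
noncomputable def pairs : Finset (Finset ℕ × Finset ℕ) :=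
  ((Nat.primesLE s.y).powerset ×ˢ s.Ps.powerset).filter fun e => co s e ≠ 0

/-- the full sieve weight -/
noncomputable def WW (w : ℕ → ℝ) : ℝ := Yf s.y s.k w * Sf s.Ps s.lam w

lemma co_le (e : Finset ℕ × Finset ℕ) : |co s e| ≤ 1 := by
  rw [co, abs_mul]
  refine mul_le_one₀ ?_ (abs_nonneg _) (s.low.1 _)
  unfold cY
  split_ifs <;> simp

lemma disj {S T : Finset ℕ} (hS : S ⊆ Nat.primesLE s.y) (hT : T ⊆ s.Ps) : Disjoint S T :=
  disjoint_left.2 fun _ h1 h2 =>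
    absurd (Nat.mem_primesLE.1 (hS h1)).1 (not_le.2 (s.hP _ (hT h2)).2.1)

lemma expand (w : ℕ → ℝ) : WW s w = ∑ e ∈ pairs s, co s e * ∏ l ∈ e.1 ∪ e.2, w l := by
  rw [pairs, sum_filter_of_ne fun e _ h => left_ne_zero_of_mul h, WW, Yf, sform, Sf, sum_mul_sum,
    sum_product]
  refine sum_congr rfl fun S hS => sum_congr rfl fun T hT => ?_
  rw [prod_union (disj s (mem_powerset.1 hS) (mem_powerset.1 hT)), co]
  ring

variable {s}

lemma mem_pairs {e : Finset ℕ × Finset ℕ} (he : e ∈ pairs s) :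
    e.1 ⊆ Nat.primesLE s.y ∧ e.2 ⊆ s.Ps ∧ (∀ l ∈ e.1 ∪ e.2, l.Prime) ∧
      ∏ l ∈ e.1 ∪ e.2, l ≤ s.DD := by
  simp only [pairs, mem_filter, mem_product, mem_powerset, co, mul_ne_zero_iff] at he
  obtain ⟨⟨h1, h2⟩, h3, h4⟩ := he
  refine ⟨h1, h2, fun l hl => (mem_union.1 hl).elim (fun h => (Nat.mem_primesLE.1 (h1 h)).2)
    fun h => (s.hP l (h2 h)).1, le_trans ?_ (s.lev _ h2 h4)⟩
  rw [prod_union (disj s h1 h2)]
  refine Nat.mul_le_mul_right _ ((prod_le_pow_card _ _ s.y fun l hl =>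
    (Nat.mem_primesLE.1 (h1 hl)).1).trans (Nat.pow_le_pow_right (by linarith [s.hy]) ?_))
  by_contra h
  exact h3 (if_neg (by omega))

lemma pairs_inj {e e' : Finset ℕ × Finset ℕ} (he : e ∈ pairs s) (he' : e' ∈ pairs s)
    (h : ∏ l ∈ e.1 ∪ e.2, l = ∏ l ∈ e'.1 ∪ e'.2, l) : e = e' := by
  obtain ⟨a1, a2, a3, -⟩ := mem_pairs he
  obtain ⟨b1, b2, b3, -⟩ := mem_pairs he'
  have h1 : e.1 ∪ e.2 = e'.1 ∪ e'.2 := by
    rw [← Nat.primeFactors_prod a3, h, Nat.primeFactors_prod b3]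
  have d1 := disjoint_left.1 (disj s a1 b2)
  have d2 := disjoint_left.1 (disj s b1 a2)
  have h2 : ∀ l, l ∈ e.1 ∨ l ∈ e.2 ↔ l ∈ e'.1 ∨ l ∈ e'.2 := fun l => by
    rw [← mem_union, h1, mem_union]
  refine Prod.ext ?_ ?_ <;> ext l <;> have := h2 l <;> have := @d1 l <;> have := @d2 l <;> tauto

lemma card_pairs : ((pairs s).card : ℝ) ≤ s.DD := by
  have := card_le_card_of_injOn (s := pairs s) (t := Icc 1 s.DD)
    (fun e => ∏ l ∈ e.1 ∪ e.2, l) (fun e he => mem_coe.2 (mem_Icc.2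
      ⟨prod_pos' (mem_pairs he).2.2.1, (mem_pairs he).2.2.2⟩)) fun e he e' he' h =>
      pairs_inj he he' h
  simpa using this

lemma sum_pairs {q : ℕ} (hq : 0 < q) (hq' : q ≤ s.DD) (F : ℕ → ℝ) (hF : ∀ k, 0 ≤ F k) :
    ∑ e ∈ pairs s, F (q * ∏ l ∈ (e.1 ∪ e.2).filter (fun l => ¬ l ∣ q), l)
      ≤ q * ∑ k ∈ Icc 1 (s.DD ^ 2), F k := by
  set φ : Finset ℕ × Finset ℕ → ℕ × ℕ := fun e => (∏ l ∈ (e.1 ∪ e.2).filter (fun l => l ∣ q), l,
    q * ∏ l ∈ (e.1 ∪ e.2).filter (fun l => ¬ l ∣ q), l) with hφ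
  have hi : Set.InjOn φ (pairs s) := fun e he e' he' h => by
    simp only [hφ, Prod.mk.injEq, Nat.mul_right_inj hq.ne'] at h
    refine pairs_inj he he' ?_
    rw [← prod_filter_mul_prod_filter_not _ (fun l => l ∣ q), h.1, h.2,
      prod_filter_mul_prod_filter_not]
  calc _ = ∑ z ∈ (pairs s).image φ, F z.2 := (sum_image (f := fun z : ℕ × ℕ => F z.2) hi).symm
    _ ≤ ∑ z ∈ Icc 1 q ×ˢ Icc 1 (s.DD ^ 2), F z.2 := by
        refine sum_le_sum_of_subset_of_nonneg (fun z hz => ?_) fun _ _ _ => hF _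
        obtain ⟨e, he, rfl⟩ := mem_image.1 hz
        obtain ⟨-, -, h1, h2⟩ := mem_pairs he
        simp only [hφ, mem_product, mem_Icc]
        refine ⟨⟨prod_pos' fun l hl => h1 l (mem_filter.1 hl).1, Nat.le_of_dvd hq
          (prod_primes_dvd q (fun l hl => (h1 l (mem_filter.1 hl).1).prime)
            fun l hl => (mem_filter.1 hl).2)⟩,
          Nat.mul_pos hq (prod_pos' fun l hl => h1 l (mem_filter.1 hl).1), ?_⟩
        rw [sq]
        exact Nat.mul_le_mul hq' ((prod_le_prod_of_subset_of_one_le' (filter_subset _ _)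
          fun l hl _ => (h1 l hl).pos).trans h2)
    _ = _ := by rw [sum_product]; simp

lemma approx (A : Finset ℕ) (a : ℕ → ℝ) (w : ℕ → ℕ → ℝ) (x : ℝ) (g : ℕ → ℝ) :
    |∑ m ∈ A, a m * WW s (w m) - x * WW s g| ≤ ∑ e ∈ pairs s,
      |∑ m ∈ A, a m * ∏ l ∈ e.1 ∪ e.2, w m l - x * ∏ l ∈ e.1 ∪ e.2, g l| := by
  simp only [expand, mul_sum]
  rw [sum_comm, ← sum_sub_distrib]
  refine (abs_sum_le_sum_abs _ _).trans (sum_le_sum fun e _ => ?_)
  simp only [mul_left_comm _ (co s e)]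
  rw [← mul_sum, ← mul_sub, abs_mul]
  exact mul_le_of_le_one_left (abs_nonneg _) (co_le s e)

lemma WW_le {w : ℕ → ℝ} (hw : ∀ l, |w l| ≤ 1) : |WW s w| ≤ s.DD := by
  rw [expand]
  refine (abs_sum_le_sum_abs _ _).trans ((sum_le_card_nsmul _ _ 1 fun e _ => ?_).trans ?_)
  · rw [abs_mul, abs_prod]
    exact mul_le_one₀ (co_le s e) (prod_nonneg fun _ _ => abs_nonneg _)
      (prod_le_one (fun _ _ => abs_nonneg _) fun l _ => hw l)
  · simpa using card_pairs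

lemma cut (P : ℕ → Prop) [DecidablePred P] (X : ℕ) (f f' : ℕ → ℝ) (h1 : ∀ n ≤ 2, |f n| ≤ 1)
    (h2 : ∀ n, 3 ≤ n → f' n = f n) (x : ℝ) :
    |∑ n ∈ (Icc 3 X).filter P, f' n - x| ≤ |∑ n ∈ (Icc 1 X).filter P, f n - x| + 2 := by
  have hs : (Icc 3 X).filter P ⊆ (Icc 1 X).filter P :=
    filter_subset_filter _ (Icc_subset_Icc_left (by norm_num))
  have hs' : (Icc 1 X).filter P \ (Icc 3 X).filter P ⊆ {1, 2} := fun n hn => by
    simp only [mem_sdiff, mem_filter, mem_Icc, mem_insert, mem_singleton] at hn ⊢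
    by_contra h
    exact hn.2 ⟨⟨by omega, hn.1.1.2⟩, hn.1.2⟩
  have h3 : |∑ n ∈ (Icc 1 X).filter P \ (Icc 3 X).filter P, f n| ≤ 2 := by
    refine (abs_sum_le_sum_abs _ _).trans ((sum_le_sum_of_subset_of_nonneg hs'
      fun _ _ _ => abs_nonneg _).trans ?_)
    rw [sum_pair (by norm_num)]
    linarith [h1 1 (by norm_num), h1 2 le_rfl]
  rw [sum_congr rfl fun n hn => h2 n (mem_Icc.1 (mem_filter.1 hn).1).1, ← sum_sdiff hs]
  rw [abs_le] at h3
  rw [abs_le]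
  constructor
  · linarith [neg_abs_le (∑ n ∈ (Icc 1 X).filter P \ (Icc 3 X).filter P, f n +
      ∑ n ∈ (Icc 3 X).filter P, f n - x)]
  · linarith [le_abs_self (∑ n ∈ (Icc 1 X).filter P \ (Icc 3 X).filter P, f n +
      ∑ n ∈ (Icc 3 X).filter P, f n - x)]

lemma prod_ind_le (U : Finset ℕ) (P : ℕ → Prop) [DecidablePred P] :
    |∏ l ∈ U, (if P l then (1 : ℝ) else 0)| ≤ 1 := by
  rw [prod_boole]
  split_ifs <;> simp

lemma w1_eq {m : ℕ} (hm : 3 ≤ m) (l : ℕ) : w1 m l = if (l : ℤ) ∣ m - 2 then 1 else 0 := by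
  refine if_congr ?_ rfl rfl
  rw [← Int.natCast_dvd_natCast, Nat.cast_sub (by omega)]
  rfl

lemma lam_side {q X : ℕ} (hq : 0 < q) (hq' : q ≤ s.DD) (b : ℤ) (hX : 1 ≤ X) :
    |∑ m ∈ (Icc 3 X).filter (fun m : ℕ => (q : ℤ) ∣ m - b), Λ m * sig s m
      - X * II q b * WW s (g1 q b)|
      ≤ q * ∑ k ∈ Icc 1 (s.DD ^ 2), EK q b X k + s.DD * (Real.log X + 2) := by
  refine (approx _ (fun m => Λ m) w1 _ _).trans ((sum_le_sum
    (g := fun e => EK q b X (q * ∏ l ∈ (e.1 ∪ e.2).filter (fun l => ¬ l ∣ q), l) + Real.log X + 2)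
    fun e he => ?_).trans ?_)
  refine (cut _ X
    (fun n => Λ n * ∏ l ∈ e.1 ∪ e.2, (if (l : ℤ) ∣ n - 2 then (1 : ℝ) else 0)) _ (fun n hn => ?_)
    (fun n hn => ?_) _).trans
    (add_le_add_left (lam_pair hq b _ (mem_pairs he).2.2.1 hX) _)
  · rw [abs_mul, abs_of_nonneg ArithmeticFunction.vonMangoldt_nonneg]
    refine mul_le_one₀ (ArithmeticFunction.vonMangoldt_le_log.trans ?_) (abs_nonneg _)
      (prod_ind_le _ _)
    rcases n.eq_zero_or_pos with rfl | h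
    · simp
    · have : (n : ℝ) ≤ 2 := by exact_mod_cast hn
      linarith [Real.log_le_sub_one_of_pos (Nat.cast_pos.2 h : (0 : ℝ) < n)]
  · simp only [w1_eq hn]
  · simp only [add_assoc]
    rw [sum_add_distrib, sum_const, nsmul_eq_mul]
    exact add_le_add (sum_pairs hq hq' _ fun _ => abs_nonneg _)
      (mul_le_mul_of_nonneg_right card_pairs (by linarith [Real.log_natCast_nonneg X]))

/-- the sifted residue classes of the model -/
def pp (y l : ℕ) (n : ℤ) : Prop := (l : ℤ) ∣ (if l ≤ y then n else 1) * (n - 2)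

instance (y : ℕ) : DecidableRel (pp y) := fun _ _ => by unfold pp; infer_instance

/-- local densities for the model -/
noncomputable def g2 (y q : ℕ) (b : ℤ) (l : ℕ) : ℝ :=
  if l ∣ q then (if pp y l b then (1 : ℝ) else 0)
  else ((range l).filter fun n : ℕ => pp y l n).card / l

lemma pp_per (y l : ℕ) (a a' : ℤ) (h : (l : ℤ) ∣ a - a') (h1 : pp y l a) : pp y l a' := by
  unfold pp at *
  split_ifs at *
  · exact (dvd_sub h1 (h.mul_right (a + a' - 2))).trans (dvd_of_eq (by ring))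
  · exact (dvd_sub h1 h).trans (dvd_of_eq (by ring))

lemma mdl_eq {m : ℕ} (hm : 3 ≤ m) :
    mdl s m = cW s.y * (1 * WW s fun l => if pp s.y l m then 1 else 0) := by
  have h1 : Yf s.y s.k (w0 m) = Yf s.y s.k fun l => if pp s.y l m then 1 else 0 := by
    unfold Yf sform
    refine sum_congr rfl fun T hT => congrArg _ (prod_congr rfl fun l hl => ?_)
    rw [w0]
    refine if_congr ?_ rfl rfl
    rw [pp, if_pos (Nat.mem_primesLE.1 (mem_powerset.1 hT hl)).1, ← Int.natCast_dvd_natCast,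
      Nat.cast_mul, Nat.cast_sub (by omega)]
    rfl
  have h2 : Sf s.Ps s.lam (w1 m) = Sf s.Ps s.lam fun l => if pp s.y l m then 1 else 0 := by
    unfold Sf
    refine sum_congr rfl fun T hT => congrArg _ (prod_congr rfl fun l hl => ?_)
    rw [w1_eq hm]
    refine if_congr ?_ rfl rfl
    rw [pp, if_neg (not_le.2 (s.hP l (mem_powerset.1 hT hl)).2.1), one_mul]
  rw [one_mul, mdl, mul_assoc, WW, h1, h2]

lemma mdl_side {q : ℕ} (hq : 0 < q) (b : ℤ) (X : ℕ) :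
    |∑ m ∈ (Icc 3 X).filter (fun m : ℕ => (q : ℤ) ∣ m - b), mdl s m
      - cW s.y * (X / q * WW s (g2 s.y q b))| ≤ cW s.y * (s.DD * (q * s.DD + 2)) := by
  have h0 : 0 ≤ cW s.y := zero_le_one.trans (one_le_cW _)
  rw [sum_congr rfl fun m hm => mdl_eq (mem_Icc.1 (mem_filter.1 hm).1).1, ← mul_sum, ← mul_sub,
    abs_mul, abs_of_nonneg h0]
  refine mul_le_mul_of_nonneg_left ((approx _ (fun _ => 1) _ _ _).trans
    ((sum_le_card_nsmul _ _ (q * s.DD + 2 : ℝ) fun e he => ?_).trans ?_)) h0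
  · refine (cut _ X (fun n => ∏ l ∈ e.1 ∪ e.2, (if pp s.y l n then (1 : ℝ) else 0)) _
      (fun n _ => prod_ind_le _ _) (fun n _ => one_mul _) _).trans (add_le_add_left ?_ _)
    have := count (pp_per s.y) hq b _ (mem_pairs he).2.2.1 1 X
    rw [add_comm, Ico_add_one_right_eq_Icc] at this
    refine this.trans (mul_le_mul_of_nonneg_left ?_ (Nat.cast_nonneg _))
    exact_mod_cast (mem_pairs he).2.2.2
  · rw [nsmul_eq_mul]
    exact mul_le_mul_of_nonneg_right card_pairs (by positivity)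

end CentralP

end Pool.Agent.P.MP_0ad054_nt.Sun
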