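import Pool.Agent.P.MP_0ad054_nt.An.Defs
import Pool.Agent.Lib.helper9.BrunHooley
import Pool.Agent.Lib.helper9.Theta

/-! Definitions and interface statements for the theorem on prime values of
`x^2+3y^2+5z^2+7w^2` on spheres. -/

namespace Pool.Agent.P.MP_0ad054_nt.Sun

open Finset Pool.Agent.Lib.H9
open scoped ArithmeticFunction.vonMangoldt

/-- `1 + log N` -/
noncomputable def LL (N : ℕ) : ℝ := 1 + Real.log N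

/-- the square of integer points of size at most `R` -/
noncomputable def box (R : ℕ) : Finset (ℤ × ℤ) := Icc (-(R : ℤ)) R ×ˢ Icc (-(R : ℤ)) R

/-- Gaussian integers of norm `D` -/
noncomputable def Del (D : ℕ) : Finset (ℤ × ℤ) :=
  (box D).filter (fun δ => δ.1 ^ 2 + δ.2 ^ 2 = D)

def GG (ξ : ℤ × ℤ) : ℤ := ξ.1 ^ 2 + 7 * ξ.2 ^ 2

/-- `3 y ^ 2 + 5 z ^ 2` for `y + i z = δ η` -/
def AA (δ η : ℤ × ℤ) : ℤ :=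
  3 * (δ.1 * η.1 - δ.2 * η.2) ^ 2 + 5 * (δ.2 * η.1 + δ.1 * η.2) ^ 2

def QQ (D : ℕ) (ξ η : ℤ × ℤ) : ℤ := ξ.1 ^ 2 + ξ.2 ^ 2 + D * (η.1 ^ 2 + η.2 ^ 2)

/-- number of representations by `GG` -/
noncomputable def rG (N : ℕ) (g : ℤ) : ℝ :=
  (((box (Nat.sqrt N)).filter (fun ξ => GG ξ = g)).card : ℝ)

noncomputable def T1 (N D : ℕ) (δ : ℤ × ℤ) (γ u f : ℤ → ℂ) : ℂ :=
  ∑ ξ ∈ box (Nat.sqrt N), ∑ η ∈ box (Nat.sqrt (N / D)),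
    γ (QQ D ξ η) * u (GG ξ) * f (GG ξ + AA δ η)

/-- the counting form -/
noncomputable def TT (N D : ℕ) (γ u f : ℤ → ℂ) : ℂ := ∑ δ ∈ Del D, T1 N D δ γ u f

open Classical in
noncomputable def uK (N : ℕ) (K : ℝ) (g : ℤ) : ℂ := if rG N g ≤ K then 1 else 0

def GoodD (D : ℕ) : Prop :=
  Squarefree D ∧ Odd D ∧ ∀ p ∈ D.primeFactors, D.primeFactors.card ^ 8 ≤ p

/-- third moment of the representation function -/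
def S_RG : Prop :=
  ∃ (C : ℝ) (k : ℕ), 0 < C ∧ ∀ N : ℕ, 1 ≤ N →
    ∑ g ∈ Icc (0 : ℤ) (8 * N), rG N g ^ 3 ≤ C * N * LL N ^ k

/-- the trivial bound for the counting form -/
def S_UB : Prop :=
  ∀ (N D : ℕ) (E : ℝ) (γ u f : ℤ → ℂ), 1 ≤ D → D ≤ N → (∀ n, ‖γ n‖ ≤ 1) →
    (∀ n, γ n ≠ 0 → 3 ≤ n ∧ n ≤ N) → ∑ m ∈ Icc (3 : ℤ) (7 * N), ‖f m‖ ^ 2 ≤ E →
    ‖TT N D γ u f‖ ≤ (Del D).card * (9 * N / D) *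
      Real.sqrt (∑ g ∈ Icc (0 : ℤ) (8 * N), ‖u g‖ ^ 2 * rG N g ^ 2) * Real.sqrt E

/-- the counting form is controlled by the largest Fourier coefficient -/
def S_U2 : Prop :=
  ∀ c1 : ℝ, 0 < c1 → c1 ≤ 1 / 10 → ∃ c2 : ℝ, 0 < c2 ∧ ∃ C : ℝ, 0 < C ∧
    ∀ (N D M : ℕ) [NeZero M] (K E2 : ℝ) (γ u : ℤ → ℂ) (f : ZMod M → ℂ), 1 ≤ N →
    M.Prime → 20 * N < M → M ≤ 40 * N → 1 ≤ D → (D : ℝ) ≤ (N : ℝ) ^ c2 →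
    1 ≤ K → K ≤ (N : ℝ) ^ c2 → 0 ≤ E2 → E2 ≤ (N : ℝ) ^ (1 + c2) →
    (∀ n, ‖γ n‖ ≤ 1) → (∀ g, ‖u g‖ ≤ 1) → (∀ g, ‖u g‖ * rG N g ≤ K) →
    (∀ g, ‖f g‖ ≤ (N : ℝ) ^ (1 / 100 : ℝ)) → ∑ g, ‖f g‖ ^ 2 ≤ E2 →
    (∀ r, ‖ZMod.dft f r‖ ≤ (N : ℝ) ^ (1 - c1)) →
    ‖TT N D γ u (fun m => f m)‖ ^ 2 ≤ C * ((N : ℝ) ^ 2 / D) ^ 2 *
      ((Del D).card * K * E2 / N + ((Del D).card : ℝ) ^ 2 * (N : ℝ) ^ (-c2))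

/-! ### exponential sums over the lattice -/

def cc : Fin 4 → ℚ := ![1, 3, 5, 7]

def Lc (α β : ℚ) : ℕ := Nat.lcm α.den β.den

def dfl (D : ℕ) (α β : ℚ) : ℕ :=
  ∏ p ∈ D.primeFactors.filter (fun p => p ∣ β.den ∧ ¬ p ^ 2 ∣ Lc α β), p

noncomputable def wq (D : ℕ) (α β : ℚ) : ℝ :=
  (Nat.gcd D (Lc α β) : ℝ) ^ 2 / (dfl D α β * ∏ j, ((α + cc j * β).den : ℝ))

noncomputable def psi (D : ℕ) (δ : ℤ × ℤ) (α β : ℚ) (v : Fin 4 → ℤ) : ℂ :=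
  if (D : ℤ) ∣ δ.1 * v 2 - δ.2 * v 1 then
    e (∑ j, ((α + cc j * β : ℚ) : ℝ) * (v j : ℝ) ^ 2) else 0

def d2 (D q : ℕ) : ℕ := ∏ p ∈ D.primeFactors.filter (fun p => p ^ 2 ∣ q), p

noncomputable def kap (D q : ℕ) : ℝ :=
  tau q * (q : ℝ) ^ (-(9 / 4) : ℝ) * Nat.gcd q D * d2 D q

/-- complete sums -/
def S_Rad : Prop :=
  ∀ (D : ℕ) (δ : ℤ × ℤ) (α β : ℚ), Squarefree D → Odd D → δ ∈ Del D →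
    Per (Lc α β * D) (psi D δ α β) ∧ ∀ k, ‖fhat (Lc α β * D) (psi D δ α β) k‖ ^ 2 ≤
      16 * wq D α β / (D : ℝ) ^ 2 * ((Lc α β * D : ℕ) : ℝ) ^ 8

def S_Arith : Prop :=
  ∃ C : ℝ, 0 < C ∧ ∀ (D : ℕ) (β : ℚ), GoodD D →
    (∀ α : ℚ, wq D α β ≤ C * (D : ℝ) ^ 2 / (α.den : ℝ) ^ 3) ∧
    ∀ S : Finset ℚ, (∀ α ∈ S, -1 ≤ α ∧ α ≤ 2) → ∑ α ∈ S, wq D α β ≤ C * kap D β.den

def S_Kap : Prop :=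
  ∃ C : ℝ, 0 < C ∧ ∀ (D : ℕ) (y : ℝ) (S : Finset ℕ), GoodD D → 1 ≤ y →
    (∀ q ∈ S, y ≤ q) → ∑ q ∈ S, q * kap D q ≤ C * y ^ (-(1 / 8) : ℝ)

/-- the counting form of a pure frequency on the major arcs -/
def S_Gamma : Prop :=
  ∃ C : ℝ, 0 < C ∧ ∀ (N D : ℕ) (δ : ℤ × ℤ) (β : ℚ) (η : ℝ) (γ : ℤ → ℂ), 1 ≤ N → GoodD D →
    δ ∈ Del D → (D : ℝ) ≤ (N : ℝ) ^ (1 / 1000 : ℝ) → (β.den : ℝ) ≤ (N : ℝ) ^ (1 / 1000 : ℝ) →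
    |η| ≤ (N : ℝ) ^ (1 / 1000 : ℝ) / N → (∀ n, ‖γ n‖ ≤ 1) → (∀ n, γ n ≠ 0 → n ≤ N) →
    ‖T1 N D δ γ (fun _ => 1) (fun m => e ((β + η) * m))‖ ^ 2 ≤
      C * (((N : ℝ) ^ 2 / D) ^ 2 * kap D β.den / (1 + N * |η|) ^ 2 + (N : ℝ) ^ (39 / 10 : ℝ))

/-- `β` is not close to a fraction with denominator at most `Q` -/
def Minor (N : ℕ) (Q β : ℝ) : Prop := ∀ q : ℕ, 1 ≤ q → (q : ℝ) ≤ Q → Q / N < dn (q * β)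

/-- transference: a function with small minor arc sums and small sums in progressions
does not contribute to the counting form -/
def S_Trans : Prop :=
  ∀ c1 : ℝ, 0 < c1 → c1 ≤ 1 / 10 → ∃ c2 : ℝ, 0 < c2 ∧ ∃ (C : ℝ) (k : ℕ), 0 < C ∧
    ∀ (N D : ℕ) (K y1 E2 S : ℝ) (γ : ℤ → ℂ) (f : ℕ → ℂ), 1 ≤ N → GoodD D →
    (D : ℝ) ≤ (N : ℝ) ^ c2 → 1 ≤ K → K ≤ (N : ℝ) ^ c2 → 1 ≤ y1 → (N : ℝ) ≤ E2 →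
    E2 ≤ (N : ℝ) ^ (1 + c2) → 0 ≤ S →
    (∀ n, ‖γ n‖ ≤ 1) → (∀ n, γ n ≠ 0 → 3 ≤ n ∧ n ≤ N) →
    (∀ m ∈ Icc 3 (7 * N), ‖f m‖ ≤ (N : ℝ) ^ (1 / 1000 : ℝ)) →
    ∑ m ∈ Icc 3 (7 * N), ‖f m‖ ^ 2 ≤ E2 →
    (∀ β : ℝ, Minor N ((N : ℝ) ^ (1 / 1000 : ℝ)) β →
      ‖∑ m ∈ Icc 3 (7 * N), f m * e (β * m)‖ ≤ (N : ℝ) ^ (1 - c1)) →
    (∀ (q X : ℕ) (b : ℤ), 1 ≤ q → (q : ℝ) ≤ y1 → X ≤ 7 * N →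
      ‖∑ m ∈ (Icc 3 X).filter (fun m : ℕ => (q : ℤ) ∣ m - b), f m‖ ≤ S) →
    ‖TT N D γ (uK N K) (fun m => f m.toNat)‖ ≤ C * (Del D).card * ((N : ℝ) ^ 2 / D) *
      (Real.sqrt (K * E2 / (N * (Del D).card)) + (N : ℝ) ^ (-c2) +
        Real.sqrt (E2 / N) * (y1 ^ (-(1 / 16) : ℝ) + LL N ^ k / Real.sqrt K) + y1 ^ 5 * S / N)

/-! ### sieve weights -/

/-- Bonferroni upper bound weight of order `2 k` on the primes up to `y` -/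
noncomputable def Yf (y k : ℕ) (w : ℕ → ℝ) : ℝ := sform (Nat.primesLE y) (cY (2 * k + 1)) w

noncomputable def Sf (P : Finset ℕ) (lam : Finset ℕ → ℝ) (w : ℕ → ℝ) : ℝ :=
  ∑ T ∈ P.powerset, lam T * ∏ l ∈ T, w l

noncomputable def w1 (m l : ℕ) : ℝ := if l ∣ m - 2 then 1 else 0

noncomputable def w0 (m l : ℕ) : ℝ := if l ∣ m * (m - 2) then 1 else 0

/-- a lower bound sieve weight on the set `P` -/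
def IsLow (P : Finset ℕ) (lam : Finset ℕ → ℝ) : Prop :=
  (∀ T, |lam T| ≤ 1) ∧
  (∀ w : ℕ → ℝ, (∀ l, w l = 0 ∨ w l = 1) → Sf P lam w ≤ ∏ l ∈ P, (1 - w l)) ∧
  ∀ g : ℕ → ℝ, (∀ l ∈ P, 0 ≤ g l ∧ g l ≤ 9 / l ∧ g l ≤ 1 - 1 / 2401) →
    (∏ l ∈ P, (1 - g l)) / 2 ≤ Sf P lam g

/-- sieve data -/
structure Sv (N : ℕ) where
  y : ℕ
  k : ℕ
  DD : ℕ
  Ps : Finset ℕ
  lam : Finset ℕ → ℝ
  hy : 2 ≤ y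
  hyD : y ≤ DD
  hDN : DD ≤ N
  hP : ∀ l ∈ Ps, l.Prime ∧ y < l ∧ l ≤ N
  low : IsLow Ps lam
  lev : ∀ T ⊆ Ps, lam T ≠ 0 → y ^ (2 * k) * ∏ l ∈ T, l ≤ DD

variable {N : ℕ}

/-- the sieve weight of `m - 2` -/
noncomputable def sig (s : Sv N) (m : ℕ) : ℝ := Yf s.y s.k (w1 m) * Sf s.Ps s.lam (w1 m)

/-- the model for `Λ * sig` -/
noncomputable def mdl (s : Sv N) (m : ℕ) : ℝ :=
  cW s.y * Yf s.y s.k (w0 m) * Sf s.Ps s.lam (w1 m)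

noncomputable def aa (s : Sv N) (m : ℕ) : ℝ := Λ m * sig s m - mdl s m

/-- bad values for the model -/
def B0 (s : Sv N) (m : ℕ) : Prop :=
  2 * s.k < ((Nat.primesLE s.y).filter (fun l => l ∣ m * (m - 2))).card

/-- bad values for the primes -/
def B1 (s : Sv N) (D m : ℕ) : Prop :=
  ¬ m.Prime ∨ (∃ l ∈ D.primeFactors, l ∣ m - 2) ∨
    2 * s.k < ((Nat.primesLE s.y).filter (fun l => l ∣ m - 2)).card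

open Classical in
noncomputable def mdlp (s : Sv N) (m : ℕ) : ℝ := mdl s m + if B0 s m then |mdl s m| else 0

def S_Weights : Prop :=
  ∃ s : ℕ, ∀ (z : ℕ) (P : Finset ℕ), 2 ≤ z → (∀ l ∈ P, l.Prime ∧ l ≤ z) →
    ∃ lam : Finset ℕ → ℝ, IsLow P lam ∧ ∀ T ⊆ P, lam T ≠ 0 → ∏ l ∈ T, l ≤ z ^ s

def S_Delta : Prop :=
  ∀ D : ℕ, Squarefree D → (∀ p ∈ D.primeFactors, p % 4 = 1) →
    2 ^ D.primeFactors.card ≤ (Del D).card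

def S_Primes : Prop :=
  ∃ Z0 : ℕ, ∀ Z : ℕ, Z0 ≤ Z →
    Real.sqrt Z ≤ ((Ioc Z (2 * Z)).filter (fun p => p.Prime ∧ p % 4 = 1)).card

open Classical in
/-- moments -/
def S_Mom : Prop :=
  (∃ (C : ℝ) (k : ℕ), 0 < C ∧ ∀ (N D : ℕ) (s : Sv N),
    ∑ m ∈ Icc 3 (7 * N), aa s m ^ 2 ≤ C * N * LL N ^ k ∧
    ∑ m ∈ Icc 3 (7 * N), mdl s m ^ 2 ≤ C * N * LL N ^ k ∧
    ∑ m ∈ (Icc 3 (7 * N)).filter (B0 s), mdl s m ^ 2 ≤ C * N * LL N ^ k / 2 ^ s.k ∧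
    ∑ m ∈ (Icc 3 (7 * N)).filter (B1 s D), (Λ m * sig s m) ^ 2 ≤ C * N * LL N ^ k *
      (∑ l ∈ D.primeFactors, 1 / (l : ℝ) + 1 / 2 ^ s.k + (N : ℝ) ^ (-(1 / 4) : ℝ))) ∧
  (∀ ε : ℝ, 0 < ε → ∃ C : ℝ, 0 < C ∧ ∀ (N : ℕ) (s : Sv N), ∀ m ∈ Icc 3 (7 * N),
    |aa s m| ≤ C * (N : ℝ) ^ ε) ∧
  ∀ (N D m : ℕ) (s : Sv N), ¬ B1 s D m → 0 < sig s m →
    ∀ l, l ∈ Nat.primesLE s.y ∨ l ∈ s.Ps → ¬ l ∣ m - 2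

def S_Minor : Prop :=
  ∀ ε : ℝ, 0 < ε → ∃ C : ℝ, 0 < C ∧ ∀ (N : ℕ) (s : Sv N) (Q β : ℝ),
    (s.DD : ℝ) ^ 4 ≤ Q → Q ^ 4 ≤ N → Minor N Q β →
    ‖∑ m ∈ Icc 3 (7 * N), (aa s m : ℂ) * e (β * m)‖ ≤ C * (N : ℝ) ^ (1 + ε) / Q ^ (1 / 8 : ℝ)

def S_Central : Prop :=
  ∀ B B1 : ℕ, ∃ (C : ℝ) (k : ℕ), 0 < C ∧ ∀ (N : ℕ) (s : Sv N) (q X : ℕ) (b : ℤ),
    s.DD ^ 40 ≤ N → 50 * (1 + Real.log s.y) ≤ s.k → 1 ≤ q → q ≤ s.y → (q : ℝ) ≤ LL N ^ B1 →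
    X ≤ 7 * N → |∑ m ∈ (Icc 3 X).filter (fun m : ℕ => (q : ℤ) ∣ m - b), aa s m| ≤
      C * N * (1 / LL N ^ B + LL N ^ k * (1 / s.y + 1 / 2 ^ s.k))

/-- lower bound for the model on one sphere and one sublattice -/
def S_Sphere : Prop :=
  ∃ (c C : ℝ) (k : ℕ), 0 < c ∧ 0 < C ∧ ∀ (N D n : ℕ) (s : Sv N) (δ : ℤ × ℤ), GoodD D →
    δ ∈ Del D → (∀ l ∈ D.primeFactors, s.y < l ∧ l ∉ s.Ps) → Odd n → 3 ≤ n → n ≤ N →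
    (∀ l : ℕ, l.Prime → s.y < l → ¬ l ^ 2 ∣ n) →
    c * n / (D * LL N ^ k) - C * ((D * s.DD : ℕ) : ℝ) ^ 11 * (n : ℝ) ^ (39 / 40 : ℝ) ≤
      ∑ ξ ∈ box (Nat.sqrt N), ∑ η ∈ box (Nat.sqrt (N / D)),
        if QQ D ξ η = n then mdlp s (GG ξ + AA δ η).toNat else 0

end Pool.Agent.P.MP_0ad054_nt.Sun
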