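import Pool.Agent.P.MP_0ad054_nt.Sun.Defs

/-! Weyl differencing for complete quadratic sums over a sublattice. -/

namespace Pool.Agent.P.MP_0ad054_nt.Sun.RadP

open Finset Pool.Agent.Lib.H9
open scoped ComplexConjugate

theorem sum_shift {M : ℕ} (hM : M ≠ 0) {f : (Fin 4 → ℤ) → ℂ} (hf : Per M f) (s : Fin 4 → ℤ) :
    ∑ r ∈ res M, f (r + s) = ∑ r ∈ res M, f r := by
  refine sum_nbij' (fun r j => (r + s) j % M) (fun r j => (r - s) j % M)
    (fun r _ => emod_mem_res hM _) (fun r _ => emod_mem_res hM _) ?_ ?_ ?_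
  · intro r hr
    refine eq_of_mem_res (emod_mem_res hM _) hr fun j => ?_
    show (M : ℤ) ∣ ((r j + s j) % M - s j) % M - r j
    have h1 : (M : ℤ) ∣ (r j + s j) - (r j + s j) % M := Int.dvd_self_sub_emod
    have h2 : (M : ℤ) ∣ ((r j + s j) % M - s j) - ((r j + s j) % M - s j) % M :=
      Int.dvd_self_sub_emod
    rw [show ((r j + s j) % M - s j) % M - r j = -((r j + s j) - (r j + s j) % M +
      (((r j + s j) % M - s j) - ((r j + s j) % M - s j) % M)) by ring]
    exact dvd_neg.2 (dvd_add h1 h2)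
  · intro r hr
    refine eq_of_mem_res (emod_mem_res hM _) hr fun j => ?_
    show (M : ℤ) ∣ ((r j - s j) % M + s j) % M - r j
    have h1 : (M : ℤ) ∣ (r j - s j) - (r j - s j) % M := Int.dvd_self_sub_emod
    have h2 : (M : ℤ) ∣ ((r j - s j) % M + s j) - ((r j - s j) % M + s j) % M :=
      Int.dvd_self_sub_emod
    rw [show ((r j - s j) % M + s j) % M - r j = -((r j - s j) - (r j - s j) % M +
      (((r j - s j) % M + s j) - ((r j - s j) % M + s j) % M)) by ring]
    exact dvd_neg.2 (dvd_add h1 h2)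
  · intro r _
    exact hf _ _ fun j => Int.dvd_self_sub_emod

open Classical in
theorem card_mul_index {M : ℕ} (hM : M ≠ 0) (H : AddSubgroup (Fin 4 → ℤ))
    (hH : ∀ v : Fin 4 → ℤ, (∀ j, (M : ℤ) ∣ v j) → v ∈ H) :
    ((res M).filter (· ∈ H)).card * H.index = M ^ 4 := by
  have : NeZero M := ⟨hM⟩
  set pr : (Fin 4 → ℤ) →+ (Fin 4 → ZMod M) :=
    AddMonoidHom.compLeft (Int.castAddHom (ZMod M)) (Fin 4) with hpr
  have happ : ∀ v j, pr v j = (v j : ZMod M) := fun v j => rfl
  have hsurj : Function.Surjective pr := by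
    intro x
    choose v hv using fun j => ZMod.intCast_surjective (x j)
    exact ⟨v, funext fun j => hv j⟩
  have hker : pr.ker ≤ H := by
    intro v hv
    refine hH v fun j => ?_
    have := congrFun (AddMonoidHom.mem_ker.1 hv) j
    rw [happ] at this
    exact (ZMod.intCast_zmod_eq_zero_iff_dvd _ _).1 this
  have h1 := AddSubgroup.card_mul_index (H.map pr)
  rw [AddSubgroup.index_map_eq H hsurj hker] at h1
  have h2 : Nat.card (Fin 4 → ZMod M) = M ^ 4 := by simp
  rw [← h2, ← h1]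
  congr 1
  rw [Nat.card_eq_fintype_card, Fintype.card_subtype]
  refine card_bij (fun r _ => pr r) ?_ ?_ ?_
  · intro r hr
    simp only [mem_filter, mem_univ, true_and] at hr ⊢
    exact AddSubgroup.mem_map_of_mem _ hr.2
  · intro r hr s hs h
    refine eq_of_mem_res (mem_filter.1 hr).1 (mem_filter.1 hs).1 fun j => ?_
    have := congrFun h j
    rw [happ, happ] at this
    exact (ZMod.intCast_eq_intCast_iff_dvd_sub _ _ _).1 this.symm
  · intro x hx
    simp only [mem_filter, mem_univ, true_and] at hx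
    obtain ⟨h, hh, rfl⟩ := AddSubgroup.mem_map.1 hx
    refine ⟨fun j => h j % M, mem_filter.2 ⟨emod_mem_res hM h, ?_⟩, ?_⟩
    · have h3 : h - (fun j => h j % M) ∈ H := hH _ fun j => Int.dvd_self_sub_emod
      have := H.sub_mem hh h3
      rwa [sub_sub_cancel] at this
    · funext j
      rw [happ, happ]
      exact ZMod.intCast_mod _ _

theorem int_of_e_eq_one {x : ℝ} (h : e x = 1) : ∃ z : ℤ, x = z := by
  unfold e at h
  obtain ⟨n, hn⟩ := Complex.exp_eq_one_iff.1 h
  refine ⟨n, ?_⟩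
  have h0 : (2 * Real.pi * Complex.I : ℂ) ≠ 0 := Complex.two_pi_I_ne_zero
  have : (x : ℂ) = n := by
    apply mul_left_cancel₀ h0
    rw [hn]; ring
  exact_mod_cast this

/-- the bilinear form of the diagonal quadratic form -/
def bil (θ : Fin 4 → ℚ) (h v : Fin 4 → ℤ) : ℚ := ∑ j, 2 * θ j * h j * v j

theorem bil_add_left (θ : Fin 4 → ℚ) (h g v : Fin 4 → ℤ) :
    bil θ (h + g) v = bil θ h v + bil θ g v := by
  unfold bil; rw [← sum_add_distrib]
  exact sum_congr rfl fun j _ => by simp only [Pi.add_apply]; push_cast; ring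

theorem bil_add_right (θ : Fin 4 → ℚ) (h v w : Fin 4 → ℤ) :
    bil θ h (v + w) = bil θ h v + bil θ h w := by
  unfold bil; rw [← sum_add_distrib]
  exact sum_congr rfl fun j _ => by simp only [Pi.add_apply]; push_cast; ring

theorem bil_neg_left (θ : Fin 4 → ℚ) (h v : Fin 4 → ℤ) : bil θ (-h) v = -bil θ h v := by
  unfold bil; rw [← sum_neg_distrib]
  exact sum_congr rfl fun j _ => by simp only [Pi.neg_apply]; push_cast; ring

/-- the radical of the form on the lattice `Λ` -/
def radical (θ : Fin 4 → ℚ) (Λ : AddSubgroup (Fin 4 → ℤ)) : AddSubgroup (Fin 4 → ℤ) where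
  carrier := {h | h ∈ Λ ∧ ∀ v ∈ Λ, ∃ z : ℤ, bil θ h v = z}
  add_mem' := by
    rintro a b ⟨ha, ha'⟩ ⟨hb, hb'⟩
    refine ⟨Λ.add_mem ha hb, fun v hv => ?_⟩
    obtain ⟨x, hx⟩ := ha' v hv
    obtain ⟨y, hy⟩ := hb' v hv
    exact ⟨x + y, by rw [bil_add_left, hx, hy]; push_cast; ring⟩
  zero_mem' := ⟨Λ.zero_mem, fun v _ => ⟨0, by simp [bil]⟩⟩
  neg_mem' := by
    rintro a ⟨ha, ha'⟩
    refine ⟨Λ.neg_mem ha, fun v hv => ?_⟩
    obtain ⟨x, hx⟩ := ha' v hv
    exact ⟨-x, by rw [bil_neg_left, hx]; push_cast; ring⟩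

theorem bil_int {M : ℕ} {θ : Fin 4 → ℚ} (hθ : ∀ j, ∃ z : ℤ, θ j * M = z) {h v : Fin 4 → ℤ}
    (hd : ∀ j, (M : ℤ) ∣ h j * v j) : ∃ z : ℤ, bil θ h v = z := by
  choose n hn using hθ
  choose c hc using hd
  refine ⟨∑ j, 2 * n j * c j, ?_⟩
  unfold bil
  push_cast
  refine sum_congr rfl fun j _ => ?_
  have : (h j : ℚ) * v j = M * c j := by exact_mod_cast hc j
  rw [← hn j, mul_assoc (2 * θ j), this]; ring

open Classical in
theorem weyl {M : ℕ} (hM : M ≠ 0) (θ : Fin 4 → ℚ) (hθ : ∀ j, ∃ z : ℤ, θ j * M = z)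
    (Λ : AddSubgroup (Fin 4 → ℤ)) (hΛ : ∀ v : Fin 4 → ℤ, (∀ j, (M : ℤ) ∣ v j) → v ∈ Λ)
    (P : (Fin 4 → ℤ) → ℝ) (hP : ∀ h s, P (h + s) = P h + P s + bil θ h s)
    (hper : Per M (fun r => if r ∈ Λ then e (P r) else 0)) :
    ‖∑ r ∈ res M, if r ∈ Λ then e (P r) else 0‖ ^ 2 ≤
      (((res M).filter (· ∈ Λ)).card : ℝ) * ((res M).filter (· ∈ radical θ Λ)).card := by
  set φ : (Fin 4 → ℤ) → ℂ := fun r => if r ∈ Λ then e (P r) else 0 with hφ
  set χ : (Fin 4 → ℤ) → (Fin 4 → ℤ) → ℂ :=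
    fun h s => if s ∈ Λ then e (bil θ h s) else 0 with hχ
  have h1 : ((‖∑ r ∈ res M, φ r‖ ^ 2 : ℝ) : ℂ) =
      ∑ h ∈ res M, φ h * ∑ s ∈ res M, χ h s := by
    rw [normSq_eq, map_sum, mul_sum]
    have : ∀ s ∈ res M, (∑ r ∈ res M, φ r) * conj (φ s) = ∑ h ∈ res M, φ h * χ h s := by
      intro s _
      rw [← sum_shift hM hper s, sum_mul]
      refine sum_congr rfl fun h _ => ?_
      simp only [φ, χ]
      by_cases hs : s ∈ Λ
      · by_cases hh : h ∈ Λ
        · rw [if_pos (Λ.add_mem hh hs), if_pos hs, if_pos hh, if_pos hs, ← e_sub, ← e_add, hP]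
          congr 1; ring
        · rw [if_neg (fun h' => hh (by simpa using Λ.sub_mem h' hs)), if_neg hh]; simp
      · simp [hs]
    rw [sum_congr rfl this, sum_comm]
    exact sum_congr rfl fun h _ => by rw [mul_sum]
  have h2 : ∀ h ∈ res M, ‖φ h * ∑ s ∈ res M, χ h s‖ ≤
      if h ∈ radical θ Λ then (((res M).filter (· ∈ Λ)).card : ℝ) else 0 := by
    intro h _
    by_cases hr : h ∈ radical θ Λ
    · rw [if_pos hr, norm_mul]
      have e1 : ‖φ h‖ ≤ 1 := by
        simp only [φ]; split_ifs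
        · rw [norm_e]
        · simp
      have e2 : ‖∑ s ∈ res M, χ h s‖ ≤ (((res M).filter (· ∈ Λ)).card : ℝ) := by
        refine (norm_sum_le _ _).trans (le_of_eq ?_)
        rw [card_filter]
        push_cast
        refine sum_congr rfl fun s _ => ?_
        simp only [χ]; split_ifs
        · rw [norm_e]
        · simp
      calc _ ≤ 1 * _ := mul_le_mul e1 e2 (norm_nonneg _) zero_le_one
        _ = _ := one_mul _
    · rw [if_neg hr]
      by_cases hh : h ∈ Λ
      · have : ∃ v ∈ Λ, ¬ ∃ z : ℤ, bil θ h v = z := by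
          by_contra h0
          push Not at h0
          exact hr ⟨hh, h0⟩
        obtain ⟨v, hv, hz⟩ := this
        have hp : Per M (χ h) := by
          intro s w hsw
          have hd : s - w ∈ Λ := hΛ _ hsw
          simp only [χ]
          by_cases hw : w ∈ Λ
          · have hs : s ∈ Λ := by simpa using Λ.add_mem hd hw
            obtain ⟨z, hz⟩ := bil_int hθ (h := h) (v := s - w)
              (fun j => Dvd.dvd.mul_left (hsw j) _)
            rw [if_pos hs, if_pos hw, show s = w + (s - w) by ring, bil_add_right, hz]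
            push_cast
            exact e_add_int _ _
          · rw [if_neg hw, if_neg (fun hs => hw (by simpa using Λ.sub_mem hs hd))]
        have e1 := sum_shift hM hp v
        have e2 : ∑ s ∈ res M, χ h (s + v) = (∑ s ∈ res M, χ h s) * e (bil θ h v) := by
          rw [sum_mul]
          refine sum_congr rfl fun s _ => ?_
          simp only [χ]
          by_cases hs : s ∈ Λ
          · rw [if_pos (Λ.add_mem hs hv), if_pos hs, bil_add_right, ← e_add]
            push_cast; rfl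
          · rw [if_neg (fun h' => hs (by simpa using Λ.sub_mem h' hv)), if_neg hs, zero_mul]
        have e3 : e (bil θ h v) ≠ 1 := by
          intro h0
          obtain ⟨z, hz'⟩ := int_of_e_eq_one h0
          exact hz ⟨z, by exact_mod_cast hz'⟩
        have e4 : ∑ s ∈ res M, χ h s = 0 := by
          by_contra h0
          rw [e2] at e1
          exact e3 (mul_left_cancel₀ h0 (by rw [e1, mul_one]))
        rw [e4]; simp
      · simp [φ, hh]
  calc ‖∑ r ∈ res M, φ r‖ ^ 2 = ‖((‖∑ r ∈ res M, φ r‖ ^ 2 : ℝ) : ℂ)‖ := by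
        rw [Complex.norm_real, Real.norm_of_nonneg (by positivity)]
    _ ≤ ∑ h ∈ res M, ‖φ h * ∑ s ∈ res M, χ h s‖ := by rw [h1]; exact norm_sum_le _ _
    _ ≤ _ := sum_le_sum h2
    _ = _ := by rw [← sum_filter, sum_const, nsmul_eq_mul, mul_comm]

end Pool.Agent.P.MP_0ad054_nt.Sun.RadP
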