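import Pool.Agent.P.MP_0ad054_nt.Sun.RadA

/-! The index of the radical, one prime at a time. -/

namespace Pool.Agent.P.MP_0ad054_nt.Sun.RadP

open Finset Pool.Agent.Lib.H9

theorem idx (H : AddSubgroup (Fin 4 → ℤ)) {i j : Fin 4} (hi0 : i ≠ 0) (hi3 : i ≠ 3) (hj0 : j ≠ 0)
    (hj3 : j ≠ 3) (hij : j ≠ i) (n0 n3 n1 n2 : ℕ) (u w : ℤ) (hw : IsCoprime w n2)
    (hH : ∀ h ∈ H, (n0 : ℤ) ∣ h 0 ∧ (n3 : ℤ) ∣ h 3 ∧ (n1 : ℤ) ∣ h i ∧
      (n2 : ℤ) ∣ u * h i + w * h j) : n0 * (n3 * (n1 * n2)) ∣ H.index := by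
  let f : (Fin 4 → ℤ) →+ ZMod n0 × ZMod n3 × ZMod n1 × ZMod n2 :=
    { toFun := fun h => ((h 0 : ℤ), (h 3 : ℤ), (h i : ℤ), (u * h i + w * h j : ℤ))
      map_zero' := by simp
      map_add' := by
        intro a b
        simp only [Pi.add_apply, Prod.mk_add_mk, Prod.mk.injEq]
        refine ⟨?_, ?_, ?_, ?_⟩ <;> push_cast <;> ring }
  have hle : H ≤ f.ker := by
    intro h hh
    obtain ⟨h0, h3, h1, h2⟩ := hH h hh
    rw [AddMonoidHom.mem_ker]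
    exact Prod.ext ((ZMod.intCast_zmod_eq_zero_iff_dvd _ _).2 h0)
      (Prod.ext ((ZMod.intCast_zmod_eq_zero_iff_dvd _ _).2 h3)
        (Prod.ext ((ZMod.intCast_zmod_eq_zero_iff_dvd _ _).2 h1)
          ((ZMod.intCast_zmod_eq_zero_iff_dvd _ _).2 h2)))
  have hsurj : Function.Surjective f := by
    rintro ⟨x0, x3, x1, x2⟩
    obtain ⟨a0, rfl⟩ := ZMod.intCast_surjective x0
    obtain ⟨a3, rfl⟩ := ZMod.intCast_surjective x3
    obtain ⟨a1, rfl⟩ := ZMod.intCast_surjective x1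
    obtain ⟨a2, rfl⟩ := ZMod.intCast_surjective x2
    obtain ⟨c, d, hcd⟩ := hw
    refine ⟨fun l => if l = 0 then a0 else if l = 3 then a3 else if l = i then a1 else
      c * (a2 - u * a1), ?_⟩
    have h30 : (3 : Fin 4) ≠ 0 := by decide
    simp only [f, AddMonoidHom.coe_mk, ZeroHom.coe_mk, if_true, if_neg h30, if_neg hi0, if_neg hi3,
      if_neg hj0, if_neg hj3, if_neg hij, Prod.mk.injEq, true_and]
    rw [ZMod.intCast_eq_intCast_iff_dvd_sub]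
    exact ⟨d * (a2 - u * a1), by linear_combination (u * a1 - a2) * hcd⟩
  have h1 := AddSubgroup.index_dvd_of_le hle
  rw [AddSubgroup.index_ker, AddMonoidHom.range_eq_top.2 hsurj] at h1
  simpa using h1

theorem den_dvd {θ : ℚ} {x z : ℤ} (h : θ * x = z) : (θ.den : ℤ) ∣ x := by
  have h1 : θ.num * x = z * θ.den := by
    have : (θ.num : ℚ) * x = z * θ.den := by rw [← Rat.mul_den_eq_num, ← h]; ring
    exact_mod_cast this
  have h2 : IsCoprime (θ.den : ℤ) θ.num := Int.isCoprime_iff_gcd_eq_one.2 (by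
    rw [Int.gcd, Int.natAbs_natCast]; exact θ.reduced.symm)
  exact h2.dvd_of_dvd_mul_left ⟨z, by rw [h1]; ring⟩

theorem cop_of_not_dvd {p : ℕ} (hp : p.Prime) {x : ℤ} (h : ¬ (p : ℤ) ∣ x) (k : ℕ) :
    IsCoprime x ((p ^ k : ℕ) : ℤ) := by
  push_cast
  exact (((Nat.prime_iff_prime_int.1 hp).irreducible.coprime_iff_not_dvd).2 h).symm.pow_right

theorem pow_sub_dvd {p : ℕ} (hp : p.Prime) {a t : ℕ} {c x : ℤ} (hc : ¬ (p : ℤ) ∣ c)
    (h : ((p ^ a : ℕ) : ℤ) ∣ p ^ t * c * x) : ((p ^ (a - t) : ℕ) : ℤ) ∣ x := by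
  rcases Nat.le_total a t with h1 | h1
  · rw [Nat.sub_eq_zero_of_le h1]; simp
  · obtain ⟨k, rfl⟩ := Nat.exists_eq_add_of_le h1
    rw [Nat.add_sub_cancel_left]
    have h0 : ((p : ℤ) ^ t) ≠ 0 := pow_ne_zero _ (by exact_mod_cast hp.ne_zero)
    have h2 : ((p ^ k : ℕ) : ℤ) ∣ c * x := by
      refine (mul_dvd_mul_iff_left h0).1 ?_
      push_cast at h ⊢
      rwa [pow_add, mul_assoc] at h
    exact (cop_of_not_dvd hp hc k).symm.dvd_of_dvd_mul_left h2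

/-- the sublattice attached to `δ` -/
def lat (D : ℕ) (δ : ℤ × ℤ) : AddSubgroup (Fin 4 → ℤ) where
  carrier := {v | (D : ℤ) ∣ δ.1 * v 2 - δ.2 * v 1}
  add_mem' := by
    intro a b ha hb
    have := dvd_add ha hb
    simp only [Set.mem_ofPred_eq, Pi.add_apply]
    rwa [show δ.1 * (a 2 + b 2) - δ.2 * (a 1 + b 1) =
      δ.1 * a 2 - δ.2 * a 1 + (δ.1 * b 2 - δ.2 * b 1) by ring]
  zero_mem' := by simp
  neg_mem' := by
    intro a ha
    have := dvd_neg.2 ha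
    simp only [Set.mem_ofPred_eq, Pi.neg_apply]
    rwa [show δ.1 * -a 2 - δ.2 * -a 1 = -(δ.1 * a 2 - δ.2 * a 1) by ring]

theorem mem_lat {D : ℕ} {δ : ℤ × ℤ} {v : Fin 4 → ℤ} :
    v ∈ lat D δ ↔ (D : ℤ) ∣ δ.1 * v 2 - δ.2 * v 1 := Iff.rfl

theorem not_dvd_of_sq {D p : ℕ} {x y : ℤ} (hD : Squarefree D) (h : x ^ 2 + y ^ 2 = D)
    (hp : p.Prime) (hpD : p ∣ D) : ¬ (p : ℤ) ∣ x := by
  intro hx
  have hp' := Nat.prime_iff_prime_int.1 hp
  have h1 : (p : ℤ) ∣ y ^ 2 := by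
    have h2 : (p : ℤ) ∣ x ^ 2 + y ^ 2 := by rw [h]; exact_mod_cast hpD
    exact (dvd_add_right (hx.trans (dvd_pow_self x two_ne_zero))).1 h2
  have h2 := hp'.dvd_of_dvd_pow h1
  have h3 : (p : ℤ) * p ∣ D := by
    rw [← h, sq, sq]
    exact dvd_add (mul_dvd_mul hx hx) (mul_dvd_mul h2 h2)
  have h4 : p * p ∣ D := by exact_mod_cast h3
  exact hp.not_isUnit (hD p h4)

theorem dvd_index_lat {D : ℕ} {δ : ℤ × ℤ} (hD : Squarefree D) (h : δ.1 ^ 2 + δ.2 ^ 2 = D) :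
    D ∣ (lat D δ).index := by
  have hc : IsCoprime δ.1 (D : ℤ) := by
    rw [Int.isCoprime_iff_gcd_eq_one, Int.gcd, Int.natAbs_natCast]
    refine Nat.Coprime.gcd_eq_one (Nat.coprime_of_dvd fun p hp h1 h2 => ?_)
    exact not_dvd_of_sq hD h hp h2 (Int.natCast_dvd.2 h1)
  have := idx (lat D δ) (i := 1) (j := 2) (by decide) (by decide) (by decide) (by decide)
    (by decide) 1 1 1 D (-δ.2) δ.1 hc (fun v hv => ⟨by simp, by simp, by simp, by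
      rw [show -δ.2 * v 1 + δ.1 * v 2 = δ.1 * v 2 - δ.2 * v 1 by ring]; exact hv⟩)
  simpa using this

section facts
variable {θ : Fin 4 → ℚ} {D : ℕ} {δ : ℤ × ℤ} {h : Fin 4 → ℤ} (hh : h ∈ radical θ (lat D δ))
include hh

theorem r0 : ((θ 0).den : ℤ) ∣ 2 * h 0 := by
  obtain ⟨z, hz⟩ := hh.2 ![1, 0, 0, 0] (by simp [mem_lat])
  refine den_dvd (z := z) ?_
  rw [← hz]; simp [bil, Fin.sum_univ_four]; ring

theorem r3 : ((θ 3).den : ℤ) ∣ 2 * h 3 := by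
  obtain ⟨z, hz⟩ := hh.2 ![0, 0, 0, 1] (by simp [mem_lat])
  refine den_dvd (z := z) ?_
  rw [← hz]; simp [bil, Fin.sum_univ_four]; ring

theorem r1 : ((θ 1).den : ℤ) ∣ 2 * D * h 1 := by
  obtain ⟨z, hz⟩ := hh.2 ![0, D, 0, 0] (by simp [mem_lat])
  refine den_dvd (z := z) ?_
  rw [← hz]; simp [bil, Fin.sum_univ_four]; ring

theorem r2 : ((θ 2).den : ℤ) ∣ 2 * D * h 2 := by
  obtain ⟨z, hz⟩ := hh.2 ![0, 0, D, 0] (by simp [mem_lat])
  refine den_dvd (z := z) ?_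
  rw [← hz]; simp [bil, Fin.sum_univ_four]; ring

theorem r12 : ∃ z : ℤ, 2 * θ 1 * h 1 * δ.1 + 2 * θ 2 * h 2 * δ.2 = z := by
  obtain ⟨z, hz⟩ := hh.2 ![0, δ.1, δ.2, 0] (by simp [mem_lat, mul_comm])
  refine ⟨z, ?_⟩
  rw [← hz]; simp [bil, Fin.sum_univ_four]

end facts

/-- clearing denominators in the mixed relation -/
theorem mixed {p a b m1 m2 : ℕ} {θ1 θ2 : ℚ} (hab : a ≤ b) (h1 : θ1.den = p ^ a * m1)
    (h2 : θ2.den = p ^ b * m2) {x y z : ℤ} (h : θ1 * x + θ2 * y = z) :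
    ((p ^ b : ℕ) : ℤ) ∣ p ^ (b - a) * m2 * θ1.num * x + m1 * θ2.num * y := by
  obtain ⟨k, rfl⟩ := Nat.exists_eq_add_of_le hab
  rw [Nat.add_sub_cancel_left]
  refine ⟨m1 * m2 * z, ?_⟩
  have e1 : (θ1.num : ℚ) = θ1 * (p ^ a * m1) := by
    rw [← Rat.mul_den_eq_num, h1]; push_cast; ring
  have e2 : (θ2.num : ℚ) = θ2 * (p ^ (a + k) * m2) := by
    rw [← Rat.mul_den_eq_num, h2]; push_cast; ring
  have : ((p : ℚ) ^ k * m2 * θ1.num * x + m1 * θ2.num * y) = p ^ (a + k) * (m1 * m2 * z) := by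
    rw [e1, e2, ← h]; ring
  exact_mod_cast this

theorem not_dvd_num {p : ℕ} (hp : p.Prime) {θ : ℚ} (h : p ∣ θ.den) : ¬ (p : ℤ) ∣ θ.num := by
  intro h1
  have := Nat.dvd_gcd (Int.natCast_dvd.1 h1) h
  rw [θ.reduced.gcd_eq_one] at this
  exact hp.not_dvd_one this

end Pool.Agent.P.MP_0ad054_nt.Sun.RadP
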