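import Pool.Agent.P.MP_0ad054_nt.Sun.Defs

/-! Auxiliary lemmas for the transference step: Fourier analysis on `ZMod M`, counting of
fractions, Abel summation. -/

namespace Pool.Agent.P.MP_0ad054_nt.Sun.TransP

open Finset ZMod
open scoped ComplexConjugate

theorem char_eq {M : ℕ} [NeZero M] (r : ZMod M) (m : ℤ) :
    stdAddChar (r * (m : ZMod M)) = e ((r.val : ℝ) / M * m) := by
  have h : r * (m : ZMod M) = (((r.val : ℤ) * m : ℤ) : ZMod M) := by
    push_cast; rw [natCast_zmod_val]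
  rw [h, stdAddChar_coe]; unfold e; congr 1; push_cast; ring

theorem conj_char {M : ℕ} [NeZero M] (j : ZMod M) :
    conj (stdAddChar j : ℂ) = stdAddChar (-j) := by
  have h1 := char_eq j 1
  have h2 := char_eq j (-1)
  simp only [Int.cast_one, mul_one, Int.cast_neg, mul_neg] at h1 h2
  rw [h1, h2, conj_e]

theorem orth {M : ℕ} [NeZero M] (t : ZMod M) :
    ∑ i : ZMod M, (stdAddChar (t * i) : ℂ) = if t = 0 then (M : ℂ) else 0 := by
  split_ifs with h
  · simp [h]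
  · exact AddChar.sum_eq_zero_of_ne_one (isPrimitive_stdAddChar M h)

theorem parseval {M : ℕ} [NeZero M] (F : ZMod M → ℂ) :
    ∑ r, ‖dft F r‖ ^ 2 = M * ∑ g, ‖F g‖ ^ 2 := by
  have h : ((∑ r, ‖dft F r‖ ^ 2 : ℝ) : ℂ) = ((M * ∑ g, ‖F g‖ ^ 2 : ℝ) : ℂ) := by
    rw [Complex.ofReal_sum, Complex.ofReal_mul, Complex.ofReal_sum]
    simp only [normSq_eq, dft_apply, smul_eq_mul, map_sum, map_mul, conj_char, neg_neg]
    have e1 : ∀ r : ZMod M, (∑ j, (stdAddChar (-(j * r)) : ℂ) * F j) *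
        (∑ j, (stdAddChar (j * r) : ℂ) * conj (F j)) =
        ∑ i, ∑ j, F i * conj (F j) * stdAddChar ((j - i) * r) := by
      intro r
      rw [sum_mul_sum]
      refine sum_congr rfl fun i _ => sum_congr rfl fun j _ => ?_
      have : (j - i) * r = -(i * r) + j * r := by ring
      rw [this, AddChar.map_add_eq_mul]; ring
    simp only [e1]
    rw [sum_comm, mul_sum]
    refine sum_congr rfl fun i _ => ?_
    rw [sum_comm]
    simp only [← mul_sum, orth, sub_eq_zero, mul_ite, mul_zero, sum_ite_eq', mem_univ, if_true]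
    push_cast; ring
  exact_mod_cast h

/-- restriction of the spectrum -/
noncomputable def proj {M : ℕ} [NeZero M] (R : Finset (ZMod M)) (F : ZMod M → ℂ) : ZMod M → ℂ :=
  dft.symm (fun r => if r ∈ R then dft F r else 0)

theorem dft_proj {M : ℕ} [NeZero M] (R : Finset (ZMod M)) (F : ZMod M → ℂ) (r : ZMod M) :
    dft (proj R F) r = if r ∈ R then dft F r else 0 := by
  unfold proj; rw [LinearEquiv.apply_symm_apply]

theorem proj_apply {M : ℕ} [NeZero M] (R : Finset (ZMod M)) (F : ZMod M → ℂ) (g : ZMod M) :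
    proj R F g = ∑ r ∈ R, ((M : ℂ)⁻¹ * dft F r) * stdAddChar (r * g) := by
  unfold proj
  rw [invDFT_apply]
  simp only [smul_eq_mul, mul_ite, mul_zero, sum_ite_mem, univ_inter, mul_sum]
  exact sum_congr rfl fun r _ => by ring

theorem proj_add {M : ℕ} [NeZero M] (R : Finset (ZMod M)) (F : ZMod M → ℂ) (g : ZMod M) :
    F g = proj R F g + proj Rᶜ F g := by
  have : F = proj R F + proj Rᶜ F := by
    apply (dft (N := M) (E := ℂ)).injective
    rw [map_add]
    funext r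
    rw [Pi.add_apply, dft_proj, dft_proj]
    by_cases h : r ∈ R <;> simp [h]
  exact congrFun this g

theorem proj_sq_le {M : ℕ} [NeZero M] (R : Finset (ZMod M)) (F : ZMod M → ℂ) :
    ∑ g, ‖proj R F g‖ ^ 2 ≤ ∑ g, ‖F g‖ ^ 2 := by
  have hM : (0 : ℝ) < M := by exact_mod_cast Nat.pos_of_ne_zero (NeZero.ne M)
  refine le_of_mul_le_mul_left ?_ hM
  rw [← parseval, ← parseval]
  refine sum_le_sum fun r _ => ?_
  rw [dft_proj]
  split_ifs
  · exact le_rfl
  · simp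

/-! ### fractions -/

theorem frac_card (B : Finset ℚ) (q : ℕ) (hB : ∀ β ∈ B, -1 ≤ β ∧ β ≤ 2 ∧ β.den = q) :
    (B.card : ℝ) ≤ 4 * q := by
  rcases B.eq_empty_or_nonempty with rfl | ⟨β0, h0⟩
  · simp
  have hq : 1 ≤ q := by rw [← (hB β0 h0).2.2]; exact β0.den_pos
  have h1 : B.card ≤ (Icc (-(q : ℤ)) (2 * q)).card := by
    refine card_le_card_of_injOn (fun β => β.num) (fun β hβ => ?_) (fun β hβ β' hβ' h => ?_)
    · obtain ⟨a1, a2, a3⟩ := hB β hβ
      have hd : (0 : ℚ) < β.den := by exact_mod_cast β.den_pos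
      have e1 : (β.num : ℚ) = β * β.den := (Rat.mul_den_eq_num β).symm
      rw [a3] at e1 hd
      simp only [coe_Icc, Set.mem_Icc]
      constructor
      · have : (-(q : ℚ)) ≤ β.num := by rw [e1]; nlinarith
        exact_mod_cast this
      · have : (β.num : ℚ) ≤ 2 * q := by rw [e1]; nlinarith
        exact_mod_cast this
    · exact Rat.ext h (by rw [(hB β hβ).2.2, (hB β' hβ').2.2])
  rw [Int.card_Icc] at h1
  have h2 : (2 * (q : ℤ) + 1 - -(q : ℤ)).toNat ≤ 4 * q := by omega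
  exact_mod_cast h1.trans h2

theorem frac_sum (B : Finset ℚ) (hB : ∀ β ∈ B, -1 ≤ β ∧ β ≤ 2) (g : ℕ → ℝ) (hg : ∀ q, 0 ≤ g q) :
    ∑ β ∈ B, g β.den ≤ 4 * ∑ q ∈ B.image Rat.den, q * g q := by
  rw [← sum_fiberwise_of_maps_to (g := Rat.den) (t := B.image Rat.den)
    (fun β hβ => mem_image_of_mem _ hβ), mul_sum]
  refine sum_le_sum fun q _ => ?_
  rw [sum_congr rfl (g := fun _ => g q) (fun β hβ => by rw [(mem_filter.1 hβ).2]), sum_const,
    nsmul_eq_mul, ← mul_assoc]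
  refine mul_le_mul_of_nonneg_right (frac_card _ q fun β hβ => ?_) (hg q)
  obtain ⟨h1, h2⟩ := mem_filter.1 hβ
  exact ⟨(hB β h1).1, (hB β h1).2, h2⟩

theorem frac_count (B : Finset ℚ) {y : ℝ} (hy : 1 ≤ y)
    (hB : ∀ β ∈ B, -1 ≤ β ∧ β ≤ 2 ∧ (β.den : ℝ) ≤ y) : (B.card : ℝ) ≤ 4 * y ^ 2 := by
  have h := frac_sum B (fun β hβ => ⟨(hB β hβ).1, (hB β hβ).2.1⟩) (fun _ => 1) (fun _ => zero_le_one)
  simp only [sum_const, nsmul_eq_mul, mul_one] at h
  refine h.trans ?_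
  have h1 : B.image Rat.den ⊆ Icc 1 ⌊y⌋₊ := by
    intro q hq
    obtain ⟨β, hβ, rfl⟩ := mem_image.1 hq
    exact mem_Icc.2 ⟨β.den_pos, Nat.le_floor (hB β hβ).2.2⟩
  have h2 : ∑ q ∈ B.image Rat.den, (q : ℝ) ≤ (B.image Rat.den).card • y := by
    refine sum_le_card_nsmul _ _ _ fun q hq => ?_
    obtain ⟨β, hβ, rfl⟩ := mem_image.1 hq
    exact (hB β hβ).2.2
  have h3 : ((B.image Rat.den).card : ℝ) ≤ y := by
    have := card_le_card h1
    rw [Nat.card_Icc, Nat.add_sub_cancel] at this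
    exact le_trans (by exact_mod_cast this) (Nat.floor_le (by linarith))
  rw [nsmul_eq_mul] at h2
  nlinarith

/-! ### spacing -/

theorem near_card {M N : ℕ} [NeZero M] (hM : M ≤ 40 * N) (R : Finset (ZMod M))
    (x : ℝ) {y : ℝ} (hy : 1 ≤ y) (hR : ∀ r ∈ R, N * |(r.val : ℝ) / M - x| ≤ y) :
    (R.card : ℝ) ≤ 81 * y := by
  have hM0 : (0 : ℝ) < M := by exact_mod_cast Nat.pos_of_ne_zero (NeZero.ne M)
  have hM' : (M : ℝ) ≤ 40 * N := by exact_mod_cast hM
  have h1 : R.card ≤ (Icc ⌈M * x - 40 * y⌉ ⌊M * x + 40 * y⌋).card := by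
    refine card_le_card_of_injOn (fun r => (r.val : ℤ)) (fun r hr => ?_) (fun r _ r' _ h => ?_)
    · have a := hR r hr
      have b : |(r.val : ℝ) - M * x| ≤ 40 * y := by
        have : (r.val : ℝ) - M * x = M * ((r.val : ℝ) / M - x) := by field_simp
        rw [this, abs_mul, abs_of_pos hM0]
        have := abs_nonneg ((r.val : ℝ) / M - x)
        nlinarith
      rw [abs_le] at b
      simp only [coe_Icc, Set.mem_Icc, Int.ceil_le, Int.le_floor, Int.cast_natCast]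
      constructor <;> linarith [b.1, b.2]
    · exact ZMod.val_injective M (Int.natCast_inj.1 h)
  rw [Int.card_Icc] at h1
  have h2 : (((⌊M * x + 40 * y⌋ + 1 - ⌈M * x - 40 * y⌉).toNat : ℤ) : ℝ) ≤ 81 * y := by
    rw [Int.toNat_eq_max]
    push_cast
    have := Int.floor_le (M * x + 40 * y)
    have := Int.le_ceil (M * x - 40 * y)
    exact max_le (by linarith) (by linarith)
  have h3 : (R.card : ℝ) ≤ ((⌊M * x + 40 * y⌋ + 1 - ⌈M * x - 40 * y⌉).toNat : ℝ) := by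
    exact_mod_cast h1
  exact h3.trans (by exact_mod_cast h2)

/-- the weight `(1 + t) ^ (-3/2)` -/
noncomputable def wt (t : ℝ) : ℝ := 1 / (1 + t) ^ (3 / 2 : ℝ)

theorem wt_nonneg {t : ℝ} (ht : 0 ≤ t) : 0 ≤ wt t := by unfold wt; positivity

theorem spaced : ∃ C : ℝ, 0 < C ∧ ∀ (M N : ℕ) [NeZero M], 1 ≤ N → M ≤ 40 * N →
    ∀ (R : Finset (ZMod M)) (x : ℝ), ∑ r ∈ R, wt (N * |(r.val : ℝ) / M - x|) ≤ C := by
  have hs := (Real.summable_one_div_int_add_rpow (1 / 2) (3 / 2)).2 (by norm_num)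
  have hnn : ∀ n : ℤ, 0 ≤ 1 / |(n : ℝ) + 1 / 2| ^ (3 / 2 : ℝ) := fun n => by positivity
  refine ⟨(80 : ℝ) ^ (3 / 2 : ℝ) * ∑' n : ℤ, 1 / |(n : ℝ) + 1 / 2| ^ (3 / 2 : ℝ) + 1, ?_, ?_⟩
  · have : 0 ≤ ∑' n : ℤ, 1 / |(n : ℝ) + 1 / 2| ^ (3 / 2 : ℝ) := tsum_nonneg hnn
    positivity
  intro M N _ hN hM R x
  have hM0 : (0 : ℝ) < M := by exact_mod_cast Nat.pos_of_ne_zero (NeZero.ne M)
  have hM' : (M : ℝ) ≤ 40 * N := by exact_mod_cast hM
  set j : ZMod M → ℤ := fun r => (r.val : ℤ) - round (M * x) with hj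
  have hinj : Set.InjOn j R := by
    intro r _ r' _ h
    simp only [hj, sub_left_inj] at h
    exact ZMod.val_injective M (by exact_mod_cast h)
  have h1 : ∀ r ∈ R, wt (N * |(r.val : ℝ) / M - x|) ≤
      (80 : ℝ) ^ (3 / 2 : ℝ) * (1 / |(j r : ℝ) + 1 / 2| ^ (3 / 2 : ℝ)) := by
    intro r _
    set t := N * |(r.val : ℝ) / M - x| with ht
    have ht0 : 0 ≤ t := by positivity
    have b : |(r.val : ℝ) - M * x| ≤ 40 * t := by
      have : (r.val : ℝ) - M * x = M * ((r.val : ℝ) / M - x) := by field_simp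
      rw [this, abs_mul, abs_of_pos hM0, ht]
      have := abs_nonneg ((r.val : ℝ) / M - x)
      nlinarith
    have c : |(j r : ℝ) + 1 / 2| ≤ 80 * (1 + t) := by
      have := abs_sub_round (M * x)
      simp only [hj]
      push_cast
      rw [abs_le] at b this ⊢
      constructor <;> linarith [b.1, b.2, this.1, this.2]
    have d : 0 < |(j r : ℝ) + 1 / 2| := by
      rw [abs_pos]
      intro h
      have : ((2 * j r + 1 : ℤ) : ℝ) = 0 := by push_cast; linarith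
      have : (2 * j r + 1 : ℤ) = 0 := by exact_mod_cast this
      omega
    unfold wt
    rw [mul_one_div, div_le_div_iff₀ (by positivity) (by positivity), one_mul,
      ← Real.mul_rpow (by norm_num) (by positivity)]
    exact Real.rpow_le_rpow d.le c (by norm_num)
  refine (sum_le_sum h1).trans ?_
  rw [← mul_sum]
  have h2 : ∑ r ∈ R, 1 / |(j r : ℝ) + 1 / 2| ^ (3 / 2 : ℝ) ≤
      ∑' n : ℤ, 1 / |(n : ℝ) + 1 / 2| ^ (3 / 2 : ℝ) := by
    rw [← sum_image (f := fun n : ℤ => 1 / |(n : ℝ) + 1 / 2| ^ (3 / 2 : ℝ)) hinj]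
    exact hs.sum_le_tsum _ fun n _ => hnn n
  have : (0 : ℝ) ≤ (80 : ℝ) ^ (3 / 2 : ℝ) := by positivity
  nlinarith

theorem inv_sq_le_wt {t y : ℝ} (hy : 1 ≤ y) (ht : 0 ≤ t) (h : y ≤ 1 + t) :
    1 / (1 + t) ^ 2 ≤ y ^ (-(1 / 8) : ℝ) * wt t := by
  unfold wt
  have h0 : 0 < 1 + t := by linarith
  have e1 : (1 + t) ^ 2 = (1 + t) ^ (1 / 2 : ℝ) * (1 + t) ^ (3 / 2 : ℝ) := by
    rw [← Real.rpow_add h0, ← Real.rpow_natCast]; norm_num
  have e2 : y ^ (1 / 8 : ℝ) ≤ (1 + t) ^ (1 / 2 : ℝ) :=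
    (Real.rpow_le_rpow (by linarith) h (by norm_num)).trans
      (Real.rpow_le_rpow_of_exponent_le (by linarith) (by norm_num))
  rw [e1, Real.rpow_neg (by linarith), ← one_div, one_div_mul_one_div]
  gcongr

/-! ### Abel summation -/

theorem abel (a : ℕ → ℂ) (η S : ℝ) (Y : ℕ) (h : ∀ X ≤ Y, ‖∑ m ∈ Icc 3 X, a m‖ ≤ S) :
    ‖∑ m ∈ Icc 3 Y, a m * e (η * m)‖ ≤ S * (1 + 2 * Real.pi * |η| * Y) := by
  have hS : 0 ≤ S := (norm_nonneg _).trans (h 0 (Nat.zero_le _))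
  have key : ∀ X ≤ Y, ‖∑ m ∈ Icc 3 X, a m * e (η * m) - (∑ m ∈ Icc 3 X, a m) * e (η * X)‖ ≤
      S * (2 * Real.pi * |η| * X) := by
    intro X
    induction X with
    | zero => intro _; simp
    | succ X ih =>
      intro hX
      have ih := ih (by omega)
      by_cases h3 : 3 ≤ X + 1
      · rw [sum_Icc_succ_top h3, sum_Icc_succ_top h3]
        have e1 : ∑ m ∈ Icc 3 X, a m * e (η * m) + a (X + 1) * e (η * (X + 1 : ℕ)) -
            (∑ m ∈ Icc 3 X, a m + a (X + 1)) * e (η * (X + 1 : ℕ)) =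
            (∑ m ∈ Icc 3 X, a m * e (η * m) - (∑ m ∈ Icc 3 X, a m) * e (η * X)) +
            (∑ m ∈ Icc 3 X, a m) * (e (η * X) - e (η * (X + 1 : ℕ))) := by ring
        rw [e1]
        refine (norm_add_le _ _).trans ?_
        rw [norm_mul]
        have e2 := norm_e_sub_le (η * X) (η * (X + 1 : ℕ))
        have e3 : η * X - η * (X + 1 : ℕ) = -η := by push_cast; ring
        rw [e3, abs_neg] at e2
        have e4 := mul_le_mul (h X (by omega)) e2 (norm_nonneg _) hS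
        refine (add_le_add ih e4).trans (le_of_eq ?_)
        push_cast
        ring
      · rw [Icc_eq_empty (by omega)]
        simp only [sum_empty, zero_mul, sub_zero, norm_zero]
        have := Real.pi_pos
        positivity
  have k := key Y le_rfl
  have e1 : ∑ m ∈ Icc 3 Y, a m * e (η * m) =
      (∑ m ∈ Icc 3 Y, a m * e (η * m) - (∑ m ∈ Icc 3 Y, a m) * e (η * Y)) +
      (∑ m ∈ Icc 3 Y, a m) * e (η * Y) := by ring
  rw [e1]
  refine (norm_add_le _ _).trans ?_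
  rw [norm_mul, norm_e, mul_one]
  have := h Y le_rfl
  linarith

theorem classes (f : ℕ → ℂ) (β : ℚ) (η S : ℝ) (Y : ℕ)
    (h : ∀ (b : ℤ), ∀ X ≤ Y,
      ‖∑ m ∈ (Icc 3 X).filter (fun m : ℕ => (β.den : ℤ) ∣ m - b), f m‖ ≤ S) :
    ‖∑ m ∈ Icc 3 Y, f m * e ((β + η) * m)‖ ≤ β.den * (S * (1 + 2 * Real.pi * |η| * Y)) := by
  have hq := β.den_pos
  rw [← sum_fiberwise_of_maps_to (g := fun m : ℕ => m % β.den) (t := range β.den)
    (fun m _ => mem_range.2 (Nat.mod_lt _ hq))]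
  refine (norm_sum_le _ _).trans ?_
  refine (sum_le_card_nsmul _ _ (S * (1 + 2 * Real.pi * |η| * Y)) fun b hb => ?_).trans
    (by rw [card_range, nsmul_eq_mul])
  have hb' := mem_range.1 hb
  have hiff : ∀ m : ℕ, m % β.den = b ↔ (β.den : ℤ) ∣ m - b := by
    intro m
    rw [← Nat.modEq_iff_dvd, Nat.ModEq, Nat.mod_eq_of_lt hb', eq_comm]
  have e1 : ∑ m ∈ (Icc 3 Y).filter (fun m : ℕ => m % β.den = b), f m * e ((β + η) * m) =
      e (β * b) * ∑ m ∈ Icc 3 Y, (if (β.den : ℤ) ∣ m - b then f m else 0) * e (η * m) := by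
    rw [sum_filter, mul_sum]
    refine sum_congr rfl fun m _ => ?_
    simp only [hiff]
    split_ifs with hm
    · obtain ⟨k, hk⟩ := hm
      have hk' : (m : ℝ) = b + β.den * k := by
        have : ((m : ℤ) : ℝ) - (b : ℤ) = ((β.den : ℤ) * k : ℤ) := by rw [← hk]; push_cast; ring
        push_cast at this; linarith
      have hn : (β : ℝ) * β.den = β.num := by exact_mod_cast Rat.mul_den_eq_num β
      have : ((β : ℝ) + η) * m = (β * b + η * m) + (β.num * k : ℤ) := by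
        push_cast; rw [← hn]; nth_rewrite 1 [add_mul]; nth_rewrite 1 [hk']; ring
      rw [this, e_add_int, e_add]; ring
    · simp
  rw [e1, norm_mul, norm_e, one_mul]
  refine abel _ η S Y fun X hX => ?_
  rw [← sum_filter]
  exact h b X hX

end Pool.Agent.P.MP_0ad054_nt.Sun.TransP
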