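import Pool.Agent.P.MP_0ad054_nt.Sun.U2A

/-! The bilinear bound for a pair of binary quadratic forms of the same discriminant. -/

namespace Pool.Agent.P.MP_0ad054_nt.Sun.U2P

open Finset ZMod
open scoped ComplexConjugate

theorem bil_cong (x : ℝ) (I : Finset ℤ) (n : ℕ) (hn : 0 < n) (Cg Ω : ℤ → ℤ → Prop)
    [∀ a b, Decidable (Ω a b)] [∀ a b, Decidable (Cg a b)]
    (F G : ℤ → ℂ) {Y V : ℝ} (hY : (I.card : ℝ) ≤ Y) (hV0 : 0 ≤ V)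
    (hI : ∀ a b c : ℤ, a ∈ I → c ∈ I → a ≤ b → b ≤ c → b ∈ I)
    (hΩ : ∀ j a b c : ℤ, Ω a j → Ω c j → a ≤ b → b ≤ c → Ω b j)
    (hV : ∀ j ∈ I, ∑ j' ∈ I, mn Y (x * (j - j')) ≤ V) :
    ‖∑ i ∈ I, ∑ j ∈ I, if Cg (i % n) (j % n) ∧ Ω i j then F i * G j * e (x * i * j) else 0‖ ≤
      n ^ 2 * (Real.sqrt V * ((∑ i ∈ I, ‖F i‖ ^ 2 + ∑ j ∈ I, ‖G j‖ ^ 2) / 2)) := by
  have hn' : (0 : ℤ) < n := by exact_mod_cast hn
  set F' : ℤ × ℤ → ℤ → ℂ := fun ρ i => if i % n = ρ.1 then F i else 0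
  set G' : ℤ × ℤ → ℤ → ℂ := fun ρ j => if j % n = ρ.2 ∧ Cg ρ.1 ρ.2 then G j else 0
  set Rs := Ico (0 : ℤ) n ×ˢ Ico (0 : ℤ) n
  have e1 : ∀ i j : ℤ, (if Cg (i % n) (j % n) ∧ Ω i j then F i * G j * e (x * i * j) else 0) =
      ∑ ρ ∈ Rs, if Ω i j then F' ρ i * G' ρ j * e (x * i * j) else 0 := by
    intro i j
    rw [sum_eq_single (i % n, j % n)]
    · simp only [F', G']
      by_cases h1 : Cg (i % n) (j % n) <;> by_cases h2 : Ω i j <;> simp [h1, h2]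
    · intro ρ _ hρ
      simp only [F', G']
      by_cases h1 : i % n = ρ.1
      · have h2 : ¬ j % n = ρ.2 := fun h2 => hρ (Prod.ext h1.symm h2.symm)
        simp [h2]
      · simp [h1]
    · intro h
      exact absurd (mem_product.2 ⟨mem_Ico.2 ⟨Int.emod_nonneg _ hn'.ne', Int.emod_lt_of_pos _ hn'⟩,
        mem_Ico.2 ⟨Int.emod_nonneg _ hn'.ne', Int.emod_lt_of_pos _ hn'⟩⟩) h
  simp only [e1]
  rw [sum_congr rfl fun i _ => sum_comm, sum_comm]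
  refine (norm_sum_le _ _).trans ((sum_le_sum (g := fun _ => Real.sqrt V *
    ((∑ i ∈ I, ‖F i‖ ^ 2 + ∑ j ∈ I, ‖G j‖ ^ 2) / 2)) fun ρ _ => ?_).trans (le_of_eq ?_))
  · have h1 := bilinear x I I Ω (F' ρ) (G' ρ) hY hI hΩ hV
    have h2 : ∑ i ∈ I, ‖F' ρ i‖ ^ 2 ≤ ∑ i ∈ I, ‖F i‖ ^ 2 := sum_le_sum fun i _ => by
      simp only [F']; split_ifs <;> simp
    have h3 : ∑ i ∈ I, ‖G' ρ i‖ ^ 2 ≤ ∑ i ∈ I, ‖G i‖ ^ 2 := sum_le_sum fun i _ => by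
      simp only [G']; split_ifs <;> simp
    refine (pow_le_pow_iff_left₀ (norm_nonneg _) (by positivity) two_ne_zero).1 ?_
    refine h1.trans ?_
    rw [mul_pow, Real.sq_sqrt hV0, mul_comm]
    gcongr
    have h4 : 0 ≤ ∑ i ∈ I, ‖F' ρ i‖ ^ 2 := by positivity
    have h5 : 0 ≤ ∑ i ∈ I, ‖G' ρ i‖ ^ 2 := by positivity
    calc _ ≤ (∑ i ∈ I, ‖F i‖ ^ 2) * ∑ i ∈ I, ‖G i‖ ^ 2 := by gcongr
      _ ≤ _ := by nlinarith [sq_nonneg (∑ i ∈ I, ‖F i‖ ^ 2 - ∑ i ∈ I, ‖G i‖ ^ 2)]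
  · rw [sum_const, nsmul_eq_mul, card_product, Int.card_Ico]
    simp [sq]

theorem abs_conv {α β K a b c : ℤ} (h1 : |α * a + β| ≤ K) (h2 : |α * c + β| ≤ K) (hab : a ≤ b)
    (hbc : b ≤ c) : |α * b + β| ≤ K := by
  rw [abs_le] at *
  rcases le_total 0 α with h | h <;> constructor <;> nlinarith

/-- a binary quadratic form -/
def PP (a t c s u : ℤ) : ℤ := a * s ^ 2 + 2 * t * s * u + c * u ^ 2

theorem quad_sum {a1 t1 c1 a2 t2 c2 Δ : ℤ} (h1 : a1 * c1 - t1 ^ 2 = Δ) (h2 : a2 * c2 - t2 ^ 2 = Δ)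
    (ha1 : a1 ≠ 0) (ha2 : a2 ≠ 0) (hDt : a1 * t2 - a2 * t1 ≠ 0) (R L : ℕ)
    (hL : ∀ s u : ℤ, |s| ≤ R → |u| ≤ R → |a1 * s + t1 * u| ≤ L ∧ |a2 * s + t2 * u| ≤ L)
    (h : ℤ) (x : ℝ) (F G : ℤ → ℂ) {V : ℝ} (hV0 : 0 ≤ V)
    (hV : ∀ j ∈ Icc (-(L : ℤ)) L, ∑ j' ∈ Icc (-(L : ℤ)) L, mn (2 * L + 1)
      (x * (2 * Δ * (a1 - a2) / (a1 * t2 - a2 * t1) ^ 2) * (j - j')) ≤ V) :
    ‖∑ p ∈ (box R).filter (fun p => |p.1 + h| ≤ R), F (a1 * p.1 + t1 * p.2) *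
      G (a2 * p.1 + t2 * p.2) * e (x * (PP a1 t1 c1 p.1 p.2 - PP a2 t2 c2 p.1 p.2 : ℤ))‖ ≤
      ((a1 * t2 - a2 * t1 : ℤ) : ℝ) ^ 2 * (Real.sqrt V * ((∑ i ∈ Icc (-(L : ℤ)) L, ‖F i‖ ^ 2 +
        ∑ j ∈ Icc (-(L : ℤ)) L, ‖G j‖ ^ 2) / 2)) := by
  set Dt := a1 * t2 - a2 * t1 with hD
  set I := Icc (-(L : ℤ)) L
  set κ : ℝ := Δ * (1 / a1 - 1 / a2) / (Dt : ℝ) ^ 2
  set F' : ℤ → ℂ := fun i => F i * e (x * (i ^ 2 / a1 + κ * a2 ^ 2 * i ^ 2))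
  set G' : ℤ → ℂ := fun j => G j * e (x * (-j ^ 2 / a2 + κ * a1 ^ 2 * j ^ 2))
  set Cg : ℤ → ℤ → Prop := fun i j => Dt ∣ t2 * i - t1 * j ∧ Dt ∣ a1 * j - a2 * i
  set Ω : ℤ → ℤ → Prop := fun i j => |t2 * i + -(t1 * j)| ≤ R * |Dt| ∧
    |t2 * i + (-(t1 * j) + h * Dt)| ≤ R * |Dt| ∧ |(-a2) * i + a1 * j| ≤ R * |Dt|
  have hc : (I.card : ℝ) ≤ 2 * L + 1 := by
    have : I.card = 2 * L + 1 := by rw [Int.card_Icc]; omega
    rw [this]; push_cast; rfl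
  have key := bil_cong (x * (2 * Δ * (a1 - a2) / (a1 * t2 - a2 * t1) ^ 2)) I Dt.natAbs
    (Int.natAbs_pos.2 hDt) Cg Ω F' G' hc hV0
    (fun a b c ha hc hab hbc => by rw [mem_Icc] at *; omega)
    (fun j a b c ha hc hab hbc => ⟨abs_conv ha.1 hc.1 hab hbc, abs_conv ha.2.1 hc.2.1 hab hbc,
      abs_conv ha.2.2 hc.2.2 hab hbc⟩) hV
  have n1 : ∀ i, ‖F' i‖ = ‖F i‖ := fun i => by simp only [F', norm_mul, norm_e, mul_one]
  have n2 : ∀ i, ‖G' i‖ = ‖G i‖ := fun i => by simp only [G', norm_mul, norm_e, mul_one]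
  have n3 : ((Dt.natAbs : ℕ) : ℝ) ^ 2 = (Dt : ℝ) ^ 2 := by
    rw [Nat.cast_natAbs, Int.cast_abs, sq_abs]
  simp only [n1, n2, n3] at key
  refine le_trans (le_of_eq ?_) key
  congr 1
  have hmod : ∀ i : ℤ, Dt ∣ i % (Dt.natAbs : ℕ) - i := fun i => by
    rw [Int.natCast_natAbs, Int.emod_abs, Int.emod_def]
    exact ⟨-(i / Dt), by ring⟩
  have hCg : ∀ i j, Cg (i % (Dt.natAbs : ℕ)) (j % (Dt.natAbs : ℕ)) ↔ Cg i j := by
    intro i j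
    obtain ⟨p, hp⟩ := hmod i
    obtain ⟨q, hq⟩ := hmod j
    rw [sub_eq_iff_eq_add] at hp hq
    simp only [Cg]
    rw [hp, hq, show t2 * (Dt * p + i) - t1 * (Dt * q + j) = Dt * (t2 * p - t1 * q) +
      (t2 * i - t1 * j) by ring, show a1 * (Dt * q + j) - a2 * (Dt * p + i) =
      Dt * (a1 * q - a2 * p) + (a1 * j - a2 * i) by ring, dvd_add_right (dvd_mul_right _ _),
      dvd_add_right (dvd_mul_right _ _)]
  simp only [hCg]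
  rw [← sum_product', ← sum_filter]
  have hp : 0 < |Dt| := abs_pos.2 hDt
  refine sum_bij (fun p _ => (a1 * p.1 + t1 * p.2, a2 * p.1 + t2 * p.2)) ?_ ?_ ?_ ?_
  · intro p hp
    rw [mem_filter, mem_box] at hp
    have := hL _ _ hp.1.1 hp.1.2
    simp only [mem_filter, mem_product, I, mem_Icc, ← abs_le, Cg, Ω]
    refine ⟨this, ⟨⟨p.1, by rw [hD]; ring⟩, ⟨p.2, by rw [hD]; ring⟩⟩, ?_, ?_, ?_⟩
    · rw [show t2 * (a1 * p.1 + t1 * p.2) + -(t1 * (a2 * p.1 + t2 * p.2)) = p.1 * Dt by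
        rw [hD]; ring, abs_mul]
      gcongr; exact hp.1.1
    · rw [show t2 * (a1 * p.1 + t1 * p.2) + (-(t1 * (a2 * p.1 + t2 * p.2)) + h * Dt) =
        (p.1 + h) * Dt by rw [hD]; ring, abs_mul]
      gcongr; exact hp.2
    · rw [show -a2 * (a1 * p.1 + t1 * p.2) + a1 * (a2 * p.1 + t2 * p.2) = p.2 * Dt by
        rw [hD]; ring, abs_mul]
      gcongr; exact hp.1.2
  · intro p _ q _ hpq
    simp only [Prod.mk.injEq] at hpq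
    have e1 : Dt * p.1 = Dt * q.1 := by
      rw [hD]; linear_combination t2 * hpq.1 - t1 * hpq.2
    have e2 : Dt * p.2 = Dt * q.2 := by
      rw [hD]; linear_combination a1 * hpq.2 - a2 * hpq.1
    exact Prod.ext (mul_left_cancel₀ hDt e1) (mul_left_cancel₀ hDt e2)
  · rintro ⟨i, j⟩ hq
    simp only [mem_filter, Cg, Ω] at hq
    obtain ⟨_, ⟨⟨s, hs⟩, ⟨u, hu⟩⟩, b1, b2, b3⟩ := hq
    rw [show t2 * i + -(t1 * j) = s * Dt by linear_combination hs, abs_mul] at b1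
    rw [show t2 * i + (-(t1 * j) + h * Dt) = (s + h) * Dt by linear_combination hs, abs_mul] at b2
    rw [show -a2 * i + a1 * j = u * Dt by linear_combination hu, abs_mul] at b3
    refine ⟨(s, u), mem_filter.2 ⟨mem_box.2 ⟨le_of_mul_le_mul_right b1 hp,
      le_of_mul_le_mul_right b3 hp⟩, le_of_mul_le_mul_right b2 hp⟩, Prod.ext ?_ ?_⟩
    · refine mul_left_cancel₀ hDt ?_
      simp only
      linear_combination (-a1) * hs - t1 * hu - i * hD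
    · refine mul_left_cancel₀ hDt ?_
      simp only
      linear_combination (-a2) * hs - t2 * hu - j * hD
  · intro p _
    simp only [F', G']
    rw [show ∀ a b c d f : ℂ, a * b * (c * d) * f = a * c * (b * d * f) by intros; ring,
      ← e_add, ← e_add]
    congr 2
    have r1 : (a1 : ℝ) ≠ 0 := by exact_mod_cast ha1
    have r2 : (a2 : ℝ) ≠ 0 := by exact_mod_cast ha2
    have r3 : (a1 : ℝ) * t2 - a2 * t1 ≠ 0 := by exact_mod_cast hDt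
    have r4 : (c1 : ℝ) = (Δ + t1 ^ 2) / a1 := by
      rw [eq_div_iff r1]; have : ((a1 * c1 - t1 ^ 2 : ℤ) : ℝ) = Δ := by rw [h1]
      push_cast at this; linarith
    have r5 : (c2 : ℝ) = (Δ + t2 ^ 2) / a2 := by
      rw [eq_div_iff r2]; have : ((a2 * c2 - t2 ^ 2 : ℤ) : ℝ) = Δ := by rw [h2]
      push_cast at this; linarith
    simp only [κ, hD, PP]
    push_cast
    rw [r4, r5, div_eq_mul_inv _ (((a1 : ℝ) * t2 - a2 * t1) ^ 2),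
      div_eq_mul_inv _ (((a1 : ℝ) * t2 - a2 * t1) ^ 2)]
    have hw : (((a1 : ℝ) * t2 - a2 * t1) ^ 2)⁻¹ * (a1 * t2 - a2 * t1) ^ 2 = 1 :=
      inv_mul_cancel₀ (pow_ne_zero 2 r3)
    generalize (((a1 : ℝ) * t2 - a2 * t1) ^ 2)⁻¹ = w at hw
    field_simp
    linear_combination (-(x * Δ * (a2 - a1) * p.2 ^ 2)) * hw

theorem sum_sq_shift (R : ℕ) (Φ : ℤ → ℤ → ℂ) :
    ∑ s ∈ Icc (-(R : ℤ)) R, ∑ s' ∈ Icc (-(R : ℤ)) R, Φ s s' =
      ∑ h ∈ Icc (-(2 * R : ℤ)) (2 * R), ∑ s ∈ Icc (-(R : ℤ)) R,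
        if |s + h| ≤ R then Φ s (s + h) else 0 := by
  rw [sum_comm (s := Icc (-(2 * R : ℤ)) (2 * R))]
  refine sum_congr rfl fun s hs => ?_
  rw [← sum_filter]
  rw [mem_Icc] at hs
  refine sum_bij (fun s' _ => s' - s) ?_ ?_ ?_ ?_
  · intro a ha
    rw [mem_Icc] at ha
    rw [mem_filter, mem_Icc, abs_le]; omega
  · intro a _ b _ h; simpa using h
  · intro h hh
    rw [mem_filter, mem_Icc, abs_le] at hh
    exact ⟨s + h, mem_Icc.2 hh.2, by ring⟩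
  · intro a _; congr 1; ring

variable {M : ℕ} [NeZero M]

theorem W_le (f : ZMod M → ℂ) {a1 t1 c1 a2 t2 c2 Δ : ℤ} (h1 : a1 * c1 - t1 ^ 2 = Δ)
    (h2 : a2 * c2 - t2 ^ 2 = Δ)
    (ha1 : a1 ≠ 0) (ha2 : a2 ≠ 0) (hDt : a1 * t2 - a2 * t1 ≠ 0) (R L : ℕ)
    (hL : ∀ s u : ℤ, |s| ≤ R → |u| ≤ R → |a1 * s + t1 * u| ≤ L ∧ |a2 * s + t2 * u| ≤ L)
    (V A : ZMod M → ℝ) (hV0 : ∀ r, 0 ≤ V r)
    (hV : ∀ r : ZMod M, ∀ j ∈ Icc (-(L : ℤ)) L, ∑ j' ∈ Icc (-(L : ℤ)) L, mn (2 * L + 1)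
      (r.val / M * (2 * Δ * (a1 - a2) / (a1 * t2 - a2 * t1) ^ 2) * (j - j')) ≤ V r)
    (hA1 : ∀ r, ∑ h ∈ Icc (-(2 * R : ℤ)) (2 * R), ∑ l ∈ Icc (-(L : ℤ)) L,
      ‖dft (Dk f (h * (2 * l + a1 * h) : ℤ)) r‖ ^ 2 ≤ A r)
    (hA2 : ∀ r, ∑ h ∈ Icc (-(2 * R : ℤ)) (2 * R), ∑ l ∈ Icc (-(L : ℤ)) L,
      ‖dft (Dk f (h * (2 * l + a2 * h) : ℤ)) r‖ ^ 2 ≤ A r) :
    M * ∑ u ∈ Icc (-(R : ℤ)) R, ∑ g : ZMod M, ‖∑ s ∈ Icc (-(R : ℤ)) R,
      f (g + (PP a1 t1 c1 s u : ℤ)) * conj (f (g + (PP a2 t2 c2 s u : ℤ)))‖ ^ 2 ≤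
      ((a1 * t2 - a2 * t1 : ℤ) : ℝ) ^ 2 * ∑ r, Real.sqrt (V r) * A r := by
  set H := Icc (-(2 * R : ℤ)) (2 * R)
  set I := Icc (-(R : ℤ)) R with hI
  set F : ZMod M → ℤ → ℤ → ℂ := fun r h l => dft (Dk f (h * (2 * l + a1 * h) : ℤ)) r
  set G : ZMod M → ℤ → ℤ → ℂ := fun r h l => conj (dft (Dk f (h * (2 * l + a2 * h) : ℤ)) r)
  set X : ZMod M → ℤ → ℤ → ℂ := fun g s u =>
    f (g + (PP a1 t1 c1 s u : ℤ)) * conj (f (g + (PP a2 t2 c2 s u : ℤ)))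
  have e1 : ∀ s u h : ℤ, (M : ℂ) * ∑ g, X g s u * conj (X g (s + h) u) =
      ∑ r : ZMod M, F r h (a1 * s + t1 * u) * G r h (a2 * s + t2 * u) *
        e (r.val / M * (PP a1 t1 c1 s u - PP a2 t2 c2 s u : ℤ)) := by
    intro s u h
    have := corr (Dk f (h * (2 * (a1 * s + t1 * u) + a1 * h) : ℤ))
      (Dk f (h * (2 * (a2 * s + t2 * u) + a2 * h) : ℤ)) (PP a1 t1 c1 s u : ℤ) (PP a2 t2 c2 s u : ℤ)
    refine Eq.trans ?_ (this.trans (sum_congr rfl fun r _ => ?_))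
    · congr 1
      refine sum_congr rfl fun g _ => ?_
      have p1 : ∀ a t c : ℤ, g + ((PP a t c (s + h) u : ℤ) : ZMod M) =
          g + (PP a t c s u : ℤ) + (h * (2 * (a * s + t * u) + a * h) : ℤ) := by
        intro a t c; simp only [PP]; push_cast; ring
      simp only [X, Dk, p1, map_mul, Complex.conj_conj]
      ring
    · simp only [F, G]
      congr 1
      rw [show r * (((PP a1 t1 c1 s u : ℤ) : ZMod M) - (PP a2 t2 c2 s u : ℤ)) =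
        ((r.val * (PP a1 t1 c1 s u - PP a2 t2 c2 s u) : ℤ) : ZMod M) by push_cast; simp, ch_int]
      congr 1; push_cast; ring
  have e2 : (((M * ∑ u ∈ I, ∑ g : ZMod M, ‖∑ s ∈ I, X g s u‖ ^ 2 : ℝ)) : ℂ) =
      ∑ r : ZMod M, ∑ h ∈ H, ∑ p ∈ (box R).filter (fun p => |p.1 + h| ≤ R),
        F r h (a1 * p.1 + t1 * p.2) * G r h (a2 * p.1 + t2 * p.2) *
        e (r.val / M * (PP a1 t1 c1 p.1 p.2 - PP a2 t2 c2 p.1 p.2 : ℤ)) := by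
    rw [Complex.ofReal_mul, Complex.ofReal_sum]
    simp only [Complex.ofReal_sum, normSq_eq, map_sum, sum_mul_sum, Complex.ofReal_natCast]
    rw [sum_comm (s := univ) (t := H)]
    have : ∀ h ∈ H, ∑ r : ZMod M, ∑ p ∈ (box R).filter (fun p => |p.1 + h| ≤ R),
        F r h (a1 * p.1 + t1 * p.2) * G r h (a2 * p.1 + t2 * p.2) *
        e (r.val / M * (PP a1 t1 c1 p.1 p.2 - PP a2 t2 c2 p.1 p.2 : ℤ)) =
        ∑ u ∈ I, M * ∑ g, ∑ s ∈ I, if |s + h| ≤ R then X g s u * conj (X g (s + h) u) else 0 := by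
      intro h _
      rw [sum_comm, sum_filter, box, sum_product_right]
      refine sum_congr rfl fun u _ => ?_
      rw [sum_comm, mul_sum]
      refine sum_congr rfl fun s _ => ?_
      split_ifs
      · exact (e1 s u h).symm
      · simp
    rw [sum_congr rfl this, sum_comm (s := H) (t := I), mul_sum]
    refine sum_congr rfl fun u _ => ?_
    rw [← mul_sum, sum_comm (s := H)]
    congr 1
    exact sum_congr rfl fun g _ => sum_sq_shift R _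
  have e3 := congrArg norm e2
  rw [Complex.norm_real, Real.norm_of_nonneg (by positivity)] at e3
  rw [e3, mul_sum]
  refine (norm_sum_le _ _).trans (sum_le_sum fun r _ => (norm_sum_le _ _).trans ?_)
  refine (sum_le_sum fun h _ => quad_sum h1 h2 ha1 ha2 hDt R L hL h _ (F r h) (G r h) (hV0 r)
    (hV r)).trans ?_
  rw [← mul_sum, ← mul_sum, ← sum_div, sum_add_distrib]
  gcongr
  have := hA1 r
  have := hA2 r
  simp only [F, G, Complex.norm_conj]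
  linarith

end Pool.Agent.P.MP_0ad054_nt.Sun.U2P
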