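import Pool.Agent.P.MP_0ad054_nt.Sun.U2B

/-! Major and minor frequencies for a good pair of forms. -/

namespace Pool.Agent.P.MP_0ad054_nt.Sun.U2P

open Finset ZMod
open scoped ComplexConjugate

variable {M : ℕ} [NeZero M]

theorem V_split (hM : M.Prime) {N : ℕ} (hN : 1 ≤ N) (hM1 : 20 * N < M) (hM2 : M ≤ 40 * N)
    {b Dt : ℤ} (hb : ¬ (M : ℤ) ∣ b) (hDt : Dt ≠ 0) {Q : ℝ} (hQ : 1 ≤ Q) (hQN : Q ≤ N) (L : ℕ) :
    ∃ Mj : Finset (ZMod M), (Mj.card : ℝ) ≤ 81 * Dt ^ 2 * Q ^ 2 ∧ ∀ r ∉ Mj,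
      ∀ j ∈ Icc (-(L : ℤ)) L, ∑ j' ∈ Icc (-(L : ℤ)) L, mn (2 * L + 1)
        (r.val / M * (b / (Dt : ℝ) ^ 2) * (j - j')) ≤
        6 * (2 * L + 1) ^ 2 / Q + (8 * (2 * L + 1) + 2 * (N / Q)) * (1 + Real.log N) := by
  classical
  have hN' : (1 : ℝ) ≤ N := by exact_mod_cast hN
  have hD1 : (1 : ℝ) ≤ (Dt : ℝ) ^ 2 := by
    have : (0 : ℤ) < Dt ^ 2 := by positivity
    exact_mod_cast (show (1 : ℤ) ≤ Dt ^ 2 by omega)
  set θ : ℝ := Dt ^ 2 * Q / N
  refine ⟨(Icc 1 ⌊Q⌋₊).biUnion fun q : ℕ =>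
    univ.filter (fun r : ZMod M => dn ((q * b : ℤ) * (r.val / M)) ≤ θ), ?_, fun r hr j hj => ?_⟩
  · have h1 : ∀ q ∈ Icc 1 ⌊Q⌋₊, ((univ.filter (fun r : ZMod M =>
        dn ((q * b : ℤ) * (r.val / M)) ≤ θ)).card : ℝ) ≤ 81 * Dt ^ 2 * Q := by
      intro q hq
      rw [mem_Icc] at hq
      have hq' : (q : ℝ) ≤ N := le_trans (le_trans (by exact_mod_cast hq.2)
        (Nat.floor_le (by linarith))) hQN
      have hq2 : q ≤ N := by exact_mod_cast hq'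
      refine (card_close hM (fun h => ?_) (by positivity)).trans ?_
      · rcases (Nat.prime_iff_prime_int.1 hM).dvd_or_dvd h with h | h
        · have := Nat.le_of_dvd (by omega) (Int.natCast_dvd_natCast.1 h)
          omega
        · exact hb h
      · have h2 : (M : ℝ) ≤ 40 * N := by exact_mod_cast hM2
        have h3 : 2 * M * θ ≤ 80 * Dt ^ 2 * Q := by
          calc 2 * M * θ ≤ 2 * (40 * N) * θ := by gcongr
            _ = _ := by simp only [θ]; field_simp; norm_num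
        nlinarith
    calc _ ≤ ((∑ q ∈ Icc 1 ⌊Q⌋₊, (univ.filter (fun r : ZMod M =>
          dn ((q * b : ℤ) * (r.val / M)) ≤ θ)).card : ℕ) : ℝ) := by exact_mod_cast card_biUnion_le
      _ ≤ ∑ q ∈ Icc 1 ⌊Q⌋₊, 81 * (Dt : ℝ) ^ 2 * Q := by rw [Nat.cast_sum]; exact sum_le_sum h1
      _ ≤ _ := by
          rw [sum_const, Nat.card_Icc, nsmul_eq_mul, Nat.add_sub_cancel, mul_comm, sq Q,
            ← mul_assoc]
          gcongr
          exact Nat.floor_le (by linarith)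
  · set x : ℝ := r.val / M * (b / (Dt : ℝ) ^ 2)
    have hn0 : 0 < ⌊N / Q⌋₊ := Nat.floor_pos.2 ((one_le_div (by linarith)).2 hQN)
    obtain ⟨ρ, h1, h2⟩ := Real.exists_rat_abs_sub_le_and_den_le x hn0
    have hq0 : (0 : ℝ) < ρ.den := by exact_mod_cast ρ.den_pos
    have h3 : (ρ.den : ℝ) ≤ N / Q := le_trans (by exact_mod_cast h2) (Nat.floor_le (by positivity))
    have h4 : N / Q ≤ (⌊N / Q⌋₊ : ℝ) + 1 := (Nat.lt_floor_add_one _).le
    have hq : Q ≤ ρ.den := by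
      by_contra hc
      push Not at hc
      refine hr (mem_biUnion.2 ⟨ρ.den, mem_Icc.2 ⟨ρ.den_pos, Nat.le_floor hc.le⟩,
        mem_filter.2 ⟨mem_univ _, ?_⟩⟩)
      refine (dn_le _ (Dt ^ 2 * ρ.num)).trans ?_
      have e1 : ((ρ.den * b : ℤ) : ℝ) * (r.val / M) - (Dt ^ 2 * ρ.num : ℤ) =
          Dt ^ 2 * ρ.den * (x - ρ) := by
        rw [Rat.cast_def ρ]; simp only [x]; push_cast; field_simp
      rw [e1, abs_mul, abs_of_pos (by positivity)]
      calc _ ≤ (Dt : ℝ) ^ 2 * ρ.den * (1 / (N / Q * ρ.den)) := by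
            gcongr; refine h1.trans ?_; gcongr
        _ = θ := by simp only [θ]; field_simp
    have h5 : |x - ρ.num / ρ.den| ≤ 1 / (ρ.den : ℝ) ^ 2 := by
      rw [← Rat.cast_def]
      refine h1.trans ?_
      rw [sq]; gcongr
      have : (ρ.den : ℝ) ≤ ⌊N / Q⌋₊ := by exact_mod_cast h2
      linarith
    have h6 := minsum_Icc (Y := 2 * L + 1) (by positivity) ρ.den_pos
      (Int.isCoprime_iff_gcd_eq_one.2 ρ.reduced) h5 (j - L) (j + L)
    have h7 : ∑ j' ∈ Icc (-(L : ℤ)) L, mn (2 * L + 1) (x * (j - j')) =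
        ∑ m ∈ Icc (j - L) (j + L), mn (2 * L + 1) (x * m) := by
      refine sum_bij (fun j' _ => j - j') ?_ ?_ ?_ ?_
      · intro a ha; rw [mem_Icc] at *; omega
      · intro a _ c _ h; simpa using h
      · intro m hm; exact ⟨j - m, by rw [mem_Icc] at *; omega, by ring⟩
      · intro a _; push_cast; rfl
    have h8 : ((Icc (j - L) (j + L)).card : ℝ) = 2 * L + 1 := by
      have : (Icc (j - L) (j + L)).card = 2 * L + 1 := by rw [Int.card_Icc]; omega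
      rw [this]; push_cast; rfl
    rw [h7]
    refine h6.trans ?_
    rw [h8]
    have h9 : Real.log ρ.den ≤ Real.log N := Real.log_le_log hq0
      (h3.trans (div_le_self (by linarith) hQ))
    have h10 := Real.log_natCast_nonneg ρ.den
    set Y : ℝ := 2 * L + 1
    have hY : 0 ≤ Y := by positivity
    calc _ = 6 * Y ^ 2 / ρ.den + 6 * Y * 1 + (2 * Y + 2 * ρ.den) * (1 + Real.log ρ.den) := by
          field_simp
      _ ≤ 6 * Y ^ 2 / Q + 6 * Y * (1 + Real.log N) +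
          (2 * Y + 2 * (N / Q)) * (1 + Real.log N) := by gcongr; linarith
      _ = _ := by ring

theorem pair_W (hM : M.Prime) {N D : ℕ} (hN : 1 ≤ N) (hM1 : 20 * N < M) (hM2 : M ≤ 40 * N)
    (hD : 1 ≤ D) (f : ZMod M → ℂ) {a1 t1 c1 a2 t2 c2 Δ : ℤ} (h1 : a1 * c1 - t1 ^ 2 = Δ)
    (h2 : a2 * c2 - t2 ^ 2 = Δ) (ha1 : a1 ≠ 0) (ha2 : a2 ≠ 0) (hDt : a1 * t2 - a2 * t1 ≠ 0)
    (hb : ¬ (M : ℤ) ∣ 2 * Δ * (a1 - a2)) (b1 : |a1| ≤ 5 * D) (b2 : |a2| ≤ 5 * D)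
    (b3 : |t1| ≤ D) (b4 : |t2| ≤ D) {t ν C E : ℝ} (ht : (N : ℝ) = t ^ 4) (hν : 1 ≤ ν)
    (hνt : ν ^ 250 ≤ t) (hDν : (D : ℝ) ≤ ν) (hC : 1 ≤ C)
    (hτ : ∀ k : ℕ, k ≤ 44 * N → tau k ≤ C * ν) (hl : 1 + Real.log N ≤ C * ν)
    (hE : ∑ x, ‖f x‖ ^ 2 ≤ E) (hE' : E ≤ t ^ 4 * ν) (hF : ∀ x, ‖f x‖ ^ 2 ≤ t)
    (hS : ∀ r, ‖dft f r‖ ≤ t ^ 4 / ν ^ 100) :
    ∑ u ∈ Icc (-(Nat.sqrt (N / D) : ℤ)) (Nat.sqrt (N / D)), ∑ g : ZMod M,
      ‖∑ s ∈ Icc (-(Nat.sqrt (N / D) : ℤ)) (Nat.sqrt (N / D)),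
      f (g + (PP a1 t1 c1 s u : ℤ)) * conj (f (g + (PP a2 t2 c2 s u : ℤ)))‖ ^ 2 ≤
      10 ^ 10 * C ^ 2 * t ^ 10 / ν ^ 17 := by
  classical
  set R := Nat.sqrt (N / D)
  set L := 6 * D * R with hLd
  have hR : D * R ^ 2 ≤ N := le_trans (Nat.mul_le_mul_left _ (Nat.sqrt_le' _))
    (Nat.mul_div_le _ _)
  have ht1 : 1 ≤ t := le_trans (one_le_pow₀ hν) hνt
  have hp : ∀ k ≤ 250, ν ^ k ≤ t := fun k hk => (pow_le_pow_right₀ hν hk).trans hνt
  have hRt : (R : ℝ) ≤ t ^ 2 := by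
    refine (pow_le_pow_iff_left₀ (by positivity) (by positivity) two_ne_zero).1 ?_
    rw [← pow_mul, ← ht]
    exact_mod_cast (show R ^ 2 ≤ N by nlinarith)
  have ht2 : 1 ≤ ν * t ^ 2 := one_le_mul_of_one_le_of_one_le hν (one_le_pow₀ ht1)
  have hLt : (L : ℝ) ≤ 6 * (ν * t ^ 2) := by
    rw [hLd]; push_cast; rw [mul_assoc]; gcongr
  have hRt' : (R : ℝ) ≤ ν * t ^ 2 := hRt.trans (le_mul_of_one_le_left (by positivity) hν)
  have hE0 : 0 ≤ E := le_trans (by positivity) hE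
  have hM0 : t ^ 4 ≤ (M : ℝ) := by rw [← ht]; exact_mod_cast (by omega : N ≤ M)
  set Dt := a1 * t2 - a2 * t1
  have hDt2 : (Dt : ℝ) ^ 2 ≤ 100 * ν ^ 4 := by
    have : |Dt| ≤ 10 * D ^ 2 := by
      calc |Dt| ≤ |a1| * |t2| + |a2| * |t1| := by
            rw [← abs_mul, ← abs_mul]; exact abs_sub _ _
        _ ≤ 5 * D * D + 5 * D * D := by gcongr
        _ = _ := by ring
    have h3 : |(Dt : ℝ)| ≤ 10 * D ^ 2 := by exact_mod_cast this
    calc (Dt : ℝ) ^ 2 = |(Dt : ℝ)| ^ 2 := (sq_abs _).symm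
      _ ≤ (10 * ν ^ 2) ^ 2 := by gcongr; refine h3.trans ?_; gcongr
      _ = _ := by ring
  obtain ⟨Mj, hMj, hV⟩ := V_split hM hN hM1 hM2 hb hDt (Q := ν ^ 50) (one_le_pow₀ hν)
    (by rw [ht]; exact (hp 50 (by norm_num)).trans (le_self_pow₀ ht1 (by norm_num))) L
  set Y : ℝ := 2 * L + 1 with hYd
  have hY : Y ≤ 13 * (ν * t ^ 2) := by linarith
  have hY0 : 0 ≤ Y := by positivity
  set v0 : ℝ := 40 * C * t ^ 2 / ν ^ 24
  have hv0 : 6 * Y ^ 2 / ν ^ 50 + (8 * Y + 2 * (N / ν ^ 50)) * (1 + Real.log N) ≤ v0 ^ 2 := by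
    have hC2 : C ≤ C ^ 2 := le_self_pow₀ hC two_ne_zero
    calc _ ≤ 6 * (13 * (ν * t ^ 2)) ^ 2 / ν ^ 50 + (8 * (13 * (ν * t ^ 2)) + 2 * (t ^ 4 / ν ^ 50)) *
          (C * ν) := by
          have := Real.log_natCast_nonneg N
          gcongr; exact ht.le
      _ = (1014 * t ^ 4 + 104 * C * (ν ^ 50 * t ^ 2) + 2 * C * t ^ 4 / ν) / ν ^ 48 := by
          field_simp; ring
      _ ≤ (1014 * C ^ 2 * t ^ 4 + 104 * C ^ 2 * (t ^ 2 * t ^ 2) + 2 * C ^ 2 * t ^ 4 / 1) /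
          ν ^ 48 := by
          gcongr
          · nlinarith
          · exact (hp 50 (by norm_num)).trans (le_self_pow₀ ht1 (by norm_num))
      _ ≤ _ := by
          simp only [v0]; rw [div_pow, ← pow_mul]; gcongr
          have : 0 ≤ C ^ 2 * t ^ 4 := by positivity
          nlinarith
  set A : ZMod M → ℝ := fun r => 12 * (C * ν) * ∑ k, ‖dft (Dk f k) r‖ ^ 2 +
    18 * (ν * t ^ 2) * ‖dft (Dk f 0) r‖ ^ 2
  have hA : ∀ a : ℤ, |a| ≤ 5 * D → ∀ r, ∑ h ∈ Icc (-(2 * R : ℤ)) (2 * R),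
      ∑ l ∈ Icc (-(L : ℤ)) L, ‖dft (Dk f (h * (2 * l + a * h) : ℤ)) r‖ ^ 2 ≤ A r := by
    intro a ha r
    refine (sum_shift_le (fun k : ℤ => ‖dft (Dk f k) r‖ ^ 2) (fun _ => by positivity) a _ _
      (Ico (-3 * M) (-3 * M + (6 : ℕ) * M)) (T := C * ν) (fun h hh l hl => ?_)
      (by positivity)).trans ?_
    · rw [mem_Icc, ← abs_le] at hh hl
      have h3 : |h * (2 * l + a * h)| ≤ 44 * N := by
        calc _ ≤ |h| * (2 * |l| + |a| * |h|) := by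
              rw [abs_mul]; gcongr
              refine (abs_add_le _ _).trans (le_of_eq ?_)
              rw [abs_mul, abs_mul, abs_two]
          _ ≤ (2 * R) * (2 * L + 5 * D * (2 * R)) := by gcongr
          _ = 44 * ((D * R ^ 2 : ℕ) : ℤ) := by rw [hLd]; push_cast; ring
          _ ≤ _ := by gcongr
      refine ⟨?_, hτ _ (by rw [← Int.natCast_natAbs] at h3; exact_mod_cast h3)⟩
      rw [abs_le] at h3
      rw [mem_Ico]; omega
    · have h3 := sum_cast_le' (fun k : ZMod M => ‖dft (Dk f k) r‖ ^ 2) (fun _ => by positivity)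
        (-3 * M) 6
      have h4 : (((Icc (-(2 * R : ℤ)) (2 * R)).card : ℝ) + (Icc (-(L : ℤ)) L).card) ≤
          18 * (ν * t ^ 2) := by
        have e1 : (Icc (-(2 * R : ℤ)) (2 * R)).card = 4 * R + 1 := by rw [Int.card_Icc]; omega
        have e2 : (Icc (-(L : ℤ)) L).card = 2 * L + 1 := by rw [Int.card_Icc]; omega
        rw [e1, e2]; push_cast; linarith
      simp only [A, Int.cast_zero]
      gcongr ?_ + ?_
      · calc _ ≤ 2 * (C * ν) * ((6 : ℕ) * ∑ k, ‖dft (Dk f k) r‖ ^ 2) := by gcongr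
          _ = _ := by push_cast; ring
      · gcongr
  have hc : ((Icc (-(L : ℤ)) L).card : ℝ) = Y := by
    have e2 : (Icc (-(L : ℤ)) L).card = 2 * L + 1 := by rw [Int.card_Icc]; omega
    rw [e2]; push_cast; rfl
  have key := W_le f h1 h2 ha1 ha2 hDt R L (fun s u hs hu => ?_)
    (fun r => if r ∈ Mj then Y ^ 2 else v0 ^ 2) A (fun r => by split_ifs <;> positivity)
    (fun r j hj => ?_) (hA a1 b1) (hA a2 b2)
  rotate_left
  · have : ∀ a τ : ℤ, |a| ≤ 5 * D → |τ| ≤ D → |a * s + τ * u| ≤ L := by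
      intro a τ ha hτ
      calc _ ≤ |a| * |s| + |τ| * |u| := by rw [← abs_mul, ← abs_mul]; exact abs_add_le _ _
        _ ≤ 5 * D * R + D * R := by gcongr
        _ = _ := by rw [hLd]; push_cast; ring
    exact ⟨this _ _ b1 b3, this _ _ b2 b4⟩
  · split_ifs with hr
    · refine (sum_le_sum fun _ _ => mn_le hY0 _).trans ?_
      rw [sum_const, nsmul_eq_mul, hc, sq]
    · have := (hV r hr j hj).trans hv0
      simp only [Dt] at this
      push_cast at this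
      exact this
  have hA0 : ∀ r, 0 ≤ A r := fun r => by positivity
  have s1 : ∑ r, A r ≤ M * (30 * C * t ^ 8 * ν ^ 3) := by
    simp only [A]
    rw [sum_add_distrib, ← mul_sum, ← mul_sum]
    calc _ ≤ 12 * (C * ν) * (M * (t ^ 4 * ν) ^ 2) + 18 * (ν * t ^ 2) * (M * (t * (t ^ 4 * ν))) := by
          gcongr
          · exact (sum_Dk_all f hE).trans (by gcongr)
          · exact (sum_D0_all f hE hF).trans (by gcongr)
      _ = M * (12 * C * t ^ 8 * ν ^ 3 + 18 * 1 * t ^ 7 * ν ^ 2) := by ring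
      _ ≤ M * (12 * C * t ^ 8 * ν ^ 3 + 18 * C * t ^ 8 * ν ^ 3) := by gcongr <;> norm_num
      _ = _ := by ring
  have s2 : ∀ r, A r ≤ 30 * C * t ^ 12 / ν ^ 198 := by
    intro r
    calc A r ≤ 12 * (C * ν) * ((t ^ 4 / ν ^ 100) ^ 2 * (t ^ 4 * ν)) +
          18 * (ν * t ^ 2) * (t ^ 4 * ν) ^ 2 := by
          simp only [A]
          gcongr ?_ * ?_ + ?_ * ?_
          · exact (sum_Dk_major f hS hE r).trans (by gcongr)
          · exact (D0_le f hE r).trans (by gcongr)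
      _ = (12 * C * t ^ 12 + 18 * 1 * t ^ 10 * ν ^ 201) / ν ^ 198 := by field_simp
      _ ≤ (12 * C * t ^ 12 + 18 * C * t ^ 10 * t ^ 2) / ν ^ 198 := by
          gcongr
          exact (hp 201 (by norm_num)).trans (le_self_pow₀ ht1 (by norm_num))
      _ = _ := by ring
  have s3 : ∑ r, Real.sqrt (if r ∈ Mj then Y ^ 2 else v0 ^ 2) * A r ≤
      v0 * ∑ r, A r + Mj.card * (Y * (30 * C * t ^ 12 / ν ^ 198)) := by
    have hv : 0 ≤ v0 := by positivity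
    have : ∀ r, Real.sqrt (if r ∈ Mj then Y ^ 2 else v0 ^ 2) * A r ≤ v0 * A r +
        if r ∈ Mj then Y * (30 * C * t ^ 12 / ν ^ 198) else 0 := by
      intro r
      split_ifs
      · rw [Real.sqrt_sq hY0]
        have := mul_le_mul_of_nonneg_left (s2 r) hY0
        have := mul_nonneg hv (hA0 r)
        linarith
      · rw [Real.sqrt_sq hv, add_zero]
    refine (sum_le_sum fun r _ => this r).trans (le_of_eq ?_)
    rw [sum_add_distrib, ← mul_sum, sum_ite_mem, univ_inter, sum_const, nsmul_eq_mul]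
  have hMp : (0 : ℝ) < M := lt_of_lt_of_le (by positivity) hM0
  refine le_of_mul_le_mul_left (key.trans ?_) hMp
  calc _ ≤ 100 * ν ^ 4 * (v0 * (M * (30 * C * t ^ 8 * ν ^ 3)) + (81 * (100 * ν ^ 4) *
        (ν ^ 50) ^ 2) * (13 * (ν * t ^ 2) * (30 * C * t ^ 12 / ν ^ 198))) := by
        gcongr
        refine s3.trans ?_
        gcongr
        exact hMj.trans (by gcongr)
    _ = (120000 * C ^ 2 * M * t ^ 10 + 315900000 * C * t ^ 4 * t ^ 10 / ν ^ 72) / ν ^ 17 := by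
        simp only [v0]; field_simp; ring
    _ ≤ (120000 * C ^ 2 * M * t ^ 10 + 315900000 * C ^ 2 * M * t ^ 10 / 1) / ν ^ 17 := by
        gcongr
        · exact le_self_pow₀ hC two_ne_zero
        · exact one_le_pow₀ hν
    _ ≤ _ := by
        rw [← mul_div_assoc]; gcongr
        have : 0 ≤ C ^ 2 * M * t ^ 10 := by positivity
        nlinarith

end Pool.Agent.P.MP_0ad054_nt.Sun.U2P
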