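import Pool.Agent.P.MP_0ad054_nt.Sun.Defs

/-! Basic facts on boxes and the trivial bound for the counting form. -/

namespace Pool.Agent.P.MP_0ad054_nt.Sun

open Finset

theorem mem_box {R : ℕ} {ξ : ℤ × ℤ} : ξ ∈ box R ↔ |ξ.1| ≤ R ∧ |ξ.2| ≤ R := by
  simp [box, abs_le]

theorem card_box (R : ℕ) : (box R).card = (2 * R + 1) ^ 2 := by
  have : (Icc (-(R : ℤ)) R).card = 2 * R + 1 := by
    rw [Int.card_Icc]; omega
  rw [box, card_product, this]; ring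

theorem card_box_sqrt {n : ℕ} (hn : 1 ≤ n) : ((box (Nat.sqrt n)).card : ℝ) ≤ 9 * n := by
  have h1 : 1 ≤ Nat.sqrt n := Nat.le_sqrt.2 (by omega)
  have h2 := Nat.sqrt_le' n
  rw [card_box]
  exact_mod_cast (show (2 * Nat.sqrt n + 1) ^ 2 ≤ 9 * n by nlinarith)

theorem card_box_div {N D : ℕ} (hD : 1 ≤ D) (hN : D ≤ N) :
    ((box (Nat.sqrt (N / D))).card : ℝ) ≤ 9 * N / D := by
  refine (card_box_sqrt ((Nat.le_div_iff_mul_le hD).2 (by omega))).trans ?_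
  rw [mul_div_assoc]
  gcongr
  exact Nat.cast_div_le

theorem sq_le_of_mem_box {n : ℕ} {ξ : ℤ × ℤ} (h : ξ ∈ box (Nat.sqrt n)) :
    ξ.1 ^ 2 ≤ n ∧ ξ.2 ^ 2 ≤ n := by
  rw [mem_box] at h
  have h2 : ((Nat.sqrt n : ℕ) : ℤ) ^ 2 ≤ n := by exact_mod_cast Nat.sqrt_le' n
  constructor
  · rw [← sq_abs]; exact le_trans (by gcongr; exact h.1) h2
  · rw [← sq_abs]; exact le_trans (by gcongr; exact h.2) h2

theorem GG_mem {N : ℕ} {ξ : ℤ × ℤ} (h : ξ ∈ box (Nat.sqrt N)) : GG ξ ∈ Icc (0 : ℤ) (8 * N) := by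
  have := sq_le_of_mem_box h
  rw [mem_Icc, GG]
  constructor
  · positivity
  · linarith [this.1, this.2]

theorem rG_nonneg (N : ℕ) (g : ℤ) : 0 ≤ rG N g := Nat.cast_nonneg _

theorem sum_GG {M : Type*} [AddCommMonoid M] [Module ℝ M] (N : ℕ) (F : ℤ → M) :
    ∑ ξ ∈ box (Nat.sqrt N), F (GG ξ) = ∑ g ∈ Icc (0 : ℤ) (8 * N), rG N g • F g := by
  rw [← sum_fiberwise_of_maps_to (g := GG) (t := Icc (0 : ℤ) (8 * N)) fun ξ h => GG_mem h]
  refine sum_congr rfl fun g _ => ?_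
  rw [sum_congr rfl (g := fun _ => F g) fun ξ h => by rw [(mem_filter.1 h).2], sum_const, rG,
    Nat.cast_smul_eq_nsmul]

theorem mem_Del {D : ℕ} {δ : ℤ × ℤ} : δ ∈ Del D ↔ δ.1 ^ 2 + δ.2 ^ 2 = D := by
  rw [Del, mem_filter, mem_box]
  refine ⟨fun h => h.2, fun h => ⟨⟨?_, ?_⟩, h⟩⟩
  · nlinarith [sq_abs δ.1, abs_nonneg δ.1, sq_nonneg δ.2, sq_nonneg (|δ.1| - 1),
      Int.le_self_sq |δ.1|]
  · nlinarith [sq_abs δ.2, abs_nonneg δ.2, sq_nonneg δ.1, Int.le_self_sq |δ.2|]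

theorem QQ_le {D : ℕ} {δ : ℤ × ℤ} (h : δ ∈ Del D) (ξ η : ℤ × ℤ) :
    QQ D ξ η ≤ GG ξ + AA δ η ∧ GG ξ + AA δ η ≤ 7 * QQ D ξ η := by
  have e1 : QQ D ξ η = ξ.1 ^ 2 + ξ.2 ^ 2 + (δ.1 * η.1 - δ.2 * η.2) ^ 2 +
      (δ.2 * η.1 + δ.1 * η.2) ^ 2 := by
    rw [QQ, ← mem_Del.1 h]; ring
  rw [e1, GG, AA]
  constructor <;> nlinarith [sq_nonneg ξ.1, sq_nonneg ξ.2, sq_nonneg (δ.1 * η.1 - δ.2 * η.2),
    sq_nonneg (δ.2 * η.1 + δ.1 * η.2)]

theorem ub : S_UB := by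
  intro N D E γ u f hD hN hγ hs hf
  classical
  set f' : ℤ → ℝ := fun m => if m ∈ Icc (3 : ℤ) (7 * N) then ‖f m‖ else 0 with hf'
  set R := ∑ g ∈ Icc (0 : ℤ) (8 * N), ‖u g‖ ^ 2 * rG N g ^ 2
  have key : ∀ A : ℤ, ∑ ξ ∈ box (Nat.sqrt N), ‖u (GG ξ)‖ * f' (GG ξ + A) ≤
      Real.sqrt R * Real.sqrt E := by
    intro A
    rw [sum_GG N (fun g => ‖u g‖ * f' (g + A))]
    have h1 : ∑ g ∈ Icc (0 : ℤ) (8 * N), f' (g + A) ^ 2 ≤ E := by
      refine le_trans ?_ hf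
      have : ∀ g ∈ Icc (0 : ℤ) (8 * N), f' (g + A) ^ 2 =
          if g + A ∈ Icc (3 : ℤ) (7 * N) then ‖f (g + A)‖ ^ 2 else 0 := by
        intro g _; simp only [hf']; split_ifs <;> simp
      rw [sum_congr rfl this, ← sum_filter, ← sum_image (g := fun g => g + A)
        (f := fun m => ‖f m‖ ^ 2) (fun a _ b _ h => by simpa using h)]
      refine sum_le_sum_of_subset_of_nonneg ?_ fun _ _ _ => by positivity
      intro m hm
      obtain ⟨g, hg, rfl⟩ := mem_image.1 hm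
      exact (mem_filter.1 hg).2
    calc _ = ∑ g ∈ Icc (0 : ℤ) (8 * N), (‖u g‖ * rG N g) * f' (g + A) :=
          sum_congr rfl fun g _ => by rw [smul_eq_mul]; ring
      _ ≤ _ := Real.sum_mul_le_sqrt_mul_sqrt _ _ _
      _ ≤ _ := by
          simp only [mul_pow]
          gcongr
  have h1 : ∀ δ ∈ Del D, ‖T1 N D δ γ u f‖ ≤ 9 * N / D * (Real.sqrt R * Real.sqrt E) := by
    intro δ hδ
    unfold T1
    rw [sum_comm]
    refine (norm_sum_le _ _).trans ?_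
    refine (sum_le_sum (g := fun _ => Real.sqrt R * Real.sqrt E) fun η _ => ?_).trans ?_
    · refine (norm_sum_le _ _).trans (le_trans (sum_le_sum fun ξ _ => ?_) (key (AA δ η)))
      by_cases h0 : γ (QQ D ξ η) = 0
      · rw [h0, zero_mul, zero_mul, norm_zero]
        simp only [hf']; split_ifs <;> positivity
      · have h2 := hs _ h0
        have h3 := QQ_le hδ ξ η
        simp only [hf']
        rw [if_pos (mem_Icc.2 ⟨by linarith, by linarith⟩), norm_mul, norm_mul]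
        gcongr
        exact mul_le_of_le_one_left (norm_nonneg _) (hγ _)
    · rw [sum_const, nsmul_eq_mul]
      gcongr
      exact card_box_div hD hN
  refine (norm_sum_le _ _).trans ((sum_le_sum h1).trans (le_of_eq ?_))
  rw [sum_const, nsmul_eq_mul]; ring

end Pool.Agent.P.MP_0ad054_nt.Sun
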